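import Mathlib

/-!
# Reinforced branching processes with fitness: definitions

Families are labelled by `List ℕ` (Ulam–Harris labels): the founder is `[]`, and the family
founded at the `j`-th birth event of family `u` (if that event founds a family) is `j :: u`.
-/

set_option autoImplicit false

open MeasureTheory ProbabilityTheory
open scoped ENNReal

namespace Pool.Agent.H96.Cond

/-- The data attached to one birth event of a family: an exponential variable, and the outcome
`(founds a new family, the family gains one member)`. -/
abbrev Mark : Type := ℝ × (Bool × Bool)

/-- The data attached to one family: its fitness and the marks of its birth events. -/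
abbrev Life : Type := ℝ × (ℕ → Mark)

/-- The data attached to all potential families. -/
abbrev Pop : Type := List ℕ → Life

/-- Law of the outcome of a birth event: a new family is founded with probability `β`, the family
gains a member with probability `γ`, and both happen with probability `β + γ - 1`. -/
noncomputable def outcomeLaw (β γ : ℝ) : Measure (Bool × Bool) :=
  ENNReal.ofReal (β + γ - 1) • Measure.dirac (true, true) +
    ENNReal.ofReal (1 - γ) • Measure.dirac (true, false) +
      ENNReal.ofReal (1 - β) • Measure.dirac (false, true)

/-- Law of a mark: independent standard exponential variable and outcome. -/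
noncomputable def markLaw (β γ : ℝ) : Measure Mark := (expMeasure 1).prod (outcomeLaw β γ)

/-- Law of the sequence of marks of a family: i.i.d. -/
noncomputable def clockLaw (β γ : ℝ) : Measure (ℕ → Mark) :=
  Measure.infinitePi fun _ : ℕ => markLaw β γ

/-- Law of the data of a family: the fitness has law `μ` and is independent of the marks. -/
noncomputable def lifeLaw (μ : Measure ℝ) (β γ : ℝ) : Measure Life := μ.prod (clockLaw β γ)

/-- Law of the whole population: the data of all (potential) families are i.i.d. -/
noncomputable def popLaw (μ : Measure ℝ) (β γ : ℝ) : Measure Pop :=
  Measure.infinitePi fun _ : List ℕ => lifeLaw μ β γ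

/-- Number of members of a family just before its `j`-th birth event (`j = 0, 1, 2, …`). -/
def siz (c : ℕ → Mark) (j : ℕ) : ℕ :=
  1 + ((Finset.range j).filter fun i => (c i).2.2 = true).card

/-- Age of the family `L` at its `j`-th birth event: a family with fitness `F` and `z` members
waits an exponential time with rate `F * z` for its next birth event. -/
noncomputable def age (L : Life) (j : ℕ) : ℝ :=
  ∑ i ∈ Finset.range (j + 1), (L.2 i).1 / (L.1 * siz L.2 i)

/-- Number of members of the family `L` at age `a ≥ 0`. -/
noncomputable def members (L : Life) (a : ℝ) : ℝ≥0∞ :=
  1 + ∑' j : ℕ, if age L j ≤ a ∧ (L.2 j).2.2 = true then 1 else 0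

/-- The family with label `u` is ever founded. -/
def alive (ω : Pop) : List ℕ → Prop
  | [] => True
  | j :: u => alive ω u ∧ ((ω u).2 j).2.1 = true

/-- Time at which the family with label `u` is founded (if it is ever founded). -/
noncomputable def birth (ω : Pop) : List ℕ → ℝ
  | [] => 0
  | j :: u => birth ω u + age (ω u) j

open Classical in
/-- Number of individuals at time `t` with fitness in `A`. -/
noncomputable def mass (ω : Pop) (t : ℝ) (A : Set ℝ) : ℝ≥0∞ :=
  ∑' u : List ℕ, if alive ω u ∧ birth ω u ≤ t ∧ (ω u).1 ∈ A then
    members (ω u) (t - birth ω u) else 0

/-- The empirical fitness distribution at time `t`. -/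
noncomputable def Xi (ω : Pop) (t : ℝ) (A : Set ℝ) : ℝ :=
  (mass ω t A / mass ω t Set.univ).toReal

end Pool.Agent.H96.Cond
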