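import Mathlib
import Pool.Agent.H96.Cond.Defs

/-!
# Resampling lemmas for infinite product measures
-/

set_option autoImplicit false

open MeasureTheory ProbabilityTheory
open scoped ENNReal

namespace Pool.Agent.H96.Cond

section update

variable {ι : Type*} [DecidableEq ι] {X : Type*} [MeasurableSpace X]

theorem measurable_update_pair (i : ι) :
    Measurable fun p : (ι → X) × X => Function.update p.1 i p.2 := by
  rw [measurable_pi_iff]
  intro j
  by_cases h : j = i
  · subst h
    simpa using measurable_snd
  · simp only [Function.update_of_ne h]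
    exact (measurable_pi_apply j).comp measurable_fst

theorem map_update (μ : Measure X) [IsProbabilityMeasure μ] (i : ι) :
    ((Measure.infinitePi fun _ : ι => μ).prod μ).map
      (fun p : (ι → X) × X => Function.update p.1 i p.2) = Measure.infinitePi fun _ : ι => μ := by
  apply Measure.eq_infinitePi
  intro s t ht
  rw [Measure.map_apply (measurable_update_pair i)
    (MeasurableSet.pi s.countable_toSet fun j _ => ht j)]
  have hpre : (fun p : (ι → X) × X => Function.update p.1 i p.2) ⁻¹' (Set.pi (s : Set ι) t) =
      (Set.pi ((s.erase i : Finset ι) : Set ι) t) ×ˢ (if i ∈ s then t i else Set.univ) := by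
    ext ⟨x, y⟩
    simp only [Set.mem_preimage, Set.mem_pi, Finset.mem_coe, Set.mem_prod, Finset.mem_erase]
    constructor
    · intro h
      refine ⟨fun j hj => ?_, ?_⟩
      · have := h j hj.2
        rwa [Function.update_of_ne hj.1] at this
      · split_ifs with hi
        · have := h i hi
          rwa [Function.update_self] at this
        · trivial
    · rintro ⟨h1, h2⟩ j hj
      by_cases hji : j = i
      · subst hji
        rw [if_pos hj] at h2
        rwa [Function.update_self]
      · rw [Function.update_of_ne hji]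
        exact h1 j ⟨hji, hj⟩
  rw [hpre, Measure.prod_prod, Measure.infinitePi_pi _ (fun j _ => ht j)]
  by_cases hi : i ∈ s
  · rw [if_pos hi, Finset.prod_erase_mul s _ hi]
  · rw [if_neg hi, measure_univ, mul_one, Finset.erase_eq_of_notMem hi]

/-- Resampling one coordinate of an infinite product. -/
theorem lintegral_update (μ : Measure X) [IsProbabilityMeasure μ] (i : ι)
    (f : (ι → X) → ℝ≥0∞) (hf : Measurable f) :
    ∫⁻ x, f x ∂(Measure.infinitePi fun _ : ι => μ) =
      ∫⁻ x, ∫⁻ y, f (Function.update x i y) ∂μ ∂(Measure.infinitePi fun _ : ι => μ) := by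
  conv_lhs => rw [← map_update μ i]
  rw [lintegral_map hf (measurable_update_pair i), lintegral_prod]
  exact (hf.comp (measurable_update_pair i)).aemeasurable

/-- A function of the coordinate `i` and of the other coordinates. -/
theorem lintegral_coord (μ : Measure X) [IsProbabilityMeasure μ] (i : ι)
    (Φ : (ι → X) → X → ℝ≥0∞) (hΦ : Measurable fun p : (ι → X) × X => Φ p.1 p.2)
    (h : ∀ x y z, Φ (Function.update x i y) z = Φ x z) :
    ∫⁻ x, Φ x (x i) ∂(Measure.infinitePi fun _ : ι => μ) =
      ∫⁻ x, ∫⁻ y, Φ x y ∂μ ∂(Measure.infinitePi fun _ : ι => μ) := by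
  rw [lintegral_update μ i (fun x => Φ x (x i))
    (hΦ.comp (measurable_id.prodMk (measurable_pi_apply i)))]
  simp only [Function.update_self, h]

end update

section glue

variable {X : Type*} [MeasurableSpace X]

/-- The subtree above `v`. -/
def shift (v : List ℕ) (ω : List ℕ → X) : List ℕ → X := fun u => ω (u ++ v)

open Classical in
/-- Replace the part of `ω` on the subtree of `v` by `ω'`. -/
noncomputable def glue (v : List ℕ) (ω ω' : List ℕ → X) : List ℕ → X := fun u =>
  if v <:+ u then ω' (u.take (u.length - v.length)) else ω u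

theorem shift_glue (v : List ℕ) (ω ω' : List ℕ → X) : shift v (glue v ω ω') = ω' := by
  funext u
  simp [shift, glue]

theorem glue_of_not_suffix (v u : List ℕ) (ω ω' : List ℕ → X) (h : ¬ v <:+ u) :
    glue v ω ω' u = ω u := by
  simp [glue, h]

theorem glue_append (v u : List ℕ) (ω ω' : List ℕ → X) :
    glue v ω ω' (u ++ v) = ω' u := congrFun (shift_glue v ω ω') u

theorem measurable_shift (v : List ℕ) : Measurable (shift (X := X) v) := by
  rw [measurable_pi_iff]
  intro u
  exact measurable_pi_apply (u ++ v)

theorem measurable_glue (v : List ℕ) :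
    Measurable fun p : (List ℕ → X) × (List ℕ → X) => glue v p.1 p.2 := by
  rw [measurable_pi_iff]
  intro u
  unfold glue
  by_cases h : v <:+ u
  · simp only [if_pos h]
    exact (measurable_pi_apply _).comp measurable_snd
  · simp only [if_neg h]
    exact (measurable_pi_apply _).comp measurable_fst

theorem map_glue (μ : Measure X) [IsProbabilityMeasure μ] (v : List ℕ) :
    ((Measure.infinitePi fun _ : List ℕ => μ).prod (Measure.infinitePi fun _ : List ℕ => μ)).map
      (fun p : (List ℕ → X) × (List ℕ → X) => glue v p.1 p.2) =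
        Measure.infinitePi fun _ : List ℕ => μ := by
  classical
  apply Measure.eq_infinitePi
  intro s t ht
  rw [Measure.map_apply (measurable_glue v)
    (MeasurableSet.pi s.countable_toSet fun j _ => ht j)]
  set s1 : Finset (List ℕ) := s.filter fun u => ¬ v <:+ u with hs1
  set s2 : Finset (List ℕ) := s.filter fun u => v <:+ u with hs2
  set s3 : Finset (List ℕ) := s2.image fun u => u.take (u.length - v.length) with hs3
  have hstrip : ∀ u, v <:+ u → u.take (u.length - v.length) ++ v = u := by
    rintro u ⟨w, rfl⟩
    simp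
  have hpre : (fun p : (List ℕ → X) × (List ℕ → X) => glue v p.1 p.2) ⁻¹'
      (Set.pi (s : Set (List ℕ)) t) =
      (Set.pi (s1 : Set (List ℕ)) t) ×ˢ (Set.pi (s3 : Set (List ℕ)) fun u => t (u ++ v)) := by
    ext ⟨x, y⟩
    simp only [Set.mem_preimage, Set.mem_pi, Finset.mem_coe, Set.mem_prod]
    constructor
    · intro h
      refine ⟨fun u hu => ?_, fun u hu => ?_⟩
      · rw [hs1, Finset.mem_filter] at hu
        have := h u hu.1
        rwa [glue_of_not_suffix v u x y hu.2] at this
      · rw [hs3, Finset.mem_image] at hu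
        obtain ⟨w, hw, rfl⟩ := hu
        rw [hs2, Finset.mem_filter] at hw
        have h2 := h w hw.1
        rw [← hstrip w hw.2, glue_append] at h2
        exact h2
    · rintro ⟨h1, h2⟩ u hu
      by_cases hvu : v <:+ u
      · have h3 := h2 (u.take (u.length - v.length)) (by
          rw [hs3, Finset.mem_image]
          exact ⟨u, by rw [hs2, Finset.mem_filter]; exact ⟨hu, hvu⟩, rfl⟩)
        have h4 : glue v x y u = y (u.take (u.length - v.length)) := by
          simp [glue, hvu]
        rw [h4]
        rwa [hstrip u hvu] at h3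
      · rw [glue_of_not_suffix v u x y hvu]
        exact h1 u (by rw [hs1, Finset.mem_filter]; exact ⟨hu, hvu⟩)
  rw [hpre, Measure.prod_prod, Measure.infinitePi_pi _ (fun j _ => ht j),
    Measure.infinitePi_pi _ (fun j _ => ht (j ++ v))]
  have hinj : Set.InjOn (fun u : List ℕ => u.take (u.length - v.length)) (s2 : Set (List ℕ)) := by
    intro a ha b hb hab
    rw [hs2, Finset.mem_coe, Finset.mem_filter] at ha hb
    rw [← hstrip a ha.2, ← hstrip b hb.2]
    exact congrArg (· ++ v) hab
  have h3 : ∏ i ∈ s3, μ (t (i ++ v)) = ∏ i ∈ s2, μ (t i) := by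
    rw [hs3, Finset.prod_image hinj]
    refine Finset.prod_congr rfl fun u hu => ?_
    rw [hs2, Finset.mem_filter] at hu
    rw [hstrip u hu.2]
  rw [h3, mul_comm]
  exact Finset.prod_filter_mul_prod_filter_not s (fun u => v <:+ u) fun i => μ (t i)

/-- Resampling the subtree above `v`. -/
theorem lintegral_glue (μ : Measure X) [IsProbabilityMeasure μ] (v : List ℕ)
    (f : (List ℕ → X) → ℝ≥0∞) (hf : Measurable f) :
    ∫⁻ x, f x ∂(Measure.infinitePi fun _ : List ℕ => μ) =
      ∫⁻ x, ∫⁻ y, f (glue v x y) ∂(Measure.infinitePi fun _ : List ℕ => μ)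
        ∂(Measure.infinitePi fun _ : List ℕ => μ) := by
  conv_lhs => rw [← map_glue μ v]
  rw [lintegral_map hf (measurable_glue v), lintegral_prod]
  exact (hf.comp (measurable_glue v)).aemeasurable

/-- A function of the subtree above `v` and of the rest of the population. -/
theorem lintegral_shift (μ : Measure X) [IsProbabilityMeasure μ] (v : List ℕ)
    (Φ : (List ℕ → X) → (List ℕ → X) → ℝ≥0∞)
    (hΦ : Measurable fun p : (List ℕ → X) × (List ℕ → X) => Φ p.1 p.2)
    (h : ∀ x y z, Φ (glue v x y) z = Φ x z) :
    ∫⁻ x, Φ x (shift v x) ∂(Measure.infinitePi fun _ : List ℕ => μ) =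
      ∫⁻ x, ∫⁻ y, Φ x y ∂(Measure.infinitePi fun _ : List ℕ => μ)
        ∂(Measure.infinitePi fun _ : List ℕ => μ) := by
  rw [lintegral_glue μ v (fun x => Φ x (shift v x))
    (hΦ.comp (measurable_id.prodMk (measurable_shift v)))]
  simp only [shift_glue, h]

/-- The law of the subtree above `v`. -/
theorem lintegral_shift' (μ : Measure X) [IsProbabilityMeasure μ] (v : List ℕ)
    (f : (List ℕ → X) → ℝ≥0∞) (hf : Measurable f) :
    ∫⁻ x, f (shift v x) ∂(Measure.infinitePi fun _ : List ℕ => μ) =
      ∫⁻ x, f x ∂(Measure.infinitePi fun _ : List ℕ => μ) := by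
  rw [lintegral_shift μ v (fun _ y => f y) (hf.comp measurable_snd) (fun _ _ _ => rfl)]
  simp

end glue

end Pool.Agent.H96.Cond
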