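import Mathlib
import Pool.Agent.H96.Cond.Resample

/-!
# One exponential step
-/

set_option autoImplicit false

open MeasureTheory ProbabilityTheory Set
open scoped ENNReal

namespace Pool.Agent.H96.Cond

/-- `J κ ψ a = ∫_0^∞ e^{κ b} ψ(a + b) db`. -/
noncomputable def J (κ : ℝ) (ψ : ℝ → ℝ≥0∞) (a : ℝ) : ℝ≥0∞ :=
  ∫⁻ b in Ioi (0 : ℝ), ENNReal.ofReal (Real.exp (κ * b)) * ψ (a + b)

theorem measurable_J (κ : ℝ) (ψ : ℝ → ℝ≥0∞) (hψ : Measurable ψ) : Measurable (J κ ψ) := by
  unfold J
  apply Measurable.lintegral_prod_right'
    (f := fun p : ℝ × ℝ => ENNReal.ofReal (Real.exp (κ * p.2)) * ψ (p.1 + p.2))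
  fun_prop

instance instProbExp : IsProbabilityMeasure (expMeasure 1) :=
  isProbabilityMeasure_expMeasure one_pos

/-- Scaling of the exponential law. -/
theorem map_div_expMeasure (z : ℝ) (hz : 0 < z) :
    (expMeasure 1).map (fun e => e / z) = expMeasure z := by
  have hm : Measurable fun e : ℝ => e / z := measurable_id.div_const z
  have : IsProbabilityMeasure ((expMeasure 1).map fun e => e / z) :=
    Measure.isProbabilityMeasure_map hm.aemeasurable
  have : IsProbabilityMeasure (expMeasure z) := isProbabilityMeasure_expMeasure hz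
  apply Measure.eq_of_cdf
  ext x
  rw [cdf_expMeasure_eq hz, cdf_eq_real, map_measureReal_apply hm measurableSet_Iic]
  have hpre : (fun e : ℝ => e / z) ⁻¹' Iic x = Iic (z * x) := by
    ext e
    simp only [mem_preimage, mem_Iic]
    rw [div_le_iff₀ hz, mul_comm]
  rw [hpre, ← cdf_eq_real, cdf_expMeasure_eq one_pos]
  by_cases hx : 0 ≤ x
  · rw [if_pos hx, if_pos (mul_nonneg hz.le hx), one_mul]
  · rw [if_neg hx, if_neg]
    rw [not_le] at hx ⊢
    exact mul_neg_of_pos_of_neg hz hx

theorem lintegral_expMeasure (z : ℝ) (f : ℝ → ℝ≥0∞) (hf : Measurable f) :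
    ∫⁻ s, f s ∂(expMeasure z) =
      ∫⁻ s in Ioi (0 : ℝ), ENNReal.ofReal (z * Real.exp (-(z * s))) * f s := by
  have h1 : expMeasure z = volume.withDensity (exponentialPDF z) := rfl
  have hm : Measurable (exponentialPDF z) := (measurable_exponentialPDFReal z).ennreal_ofReal
  rw [h1, lintegral_withDensity_eq_lintegral_mul _ hm hf]
  have h2 : ∀ s : ℝ, (exponentialPDF z * f) s =
      (Ici (0 : ℝ)).indicator (fun s => ENNReal.ofReal (z * Real.exp (-(z * s))) * f s) s := by
    intro s
    by_cases hs : 0 ≤ s
    · rw [indicator_of_mem (mem_Ici.2 hs), Pi.mul_apply, exponentialPDF_of_nonneg hs]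
    · rw [indicator_of_notMem (by simpa using hs), Pi.mul_apply,
        exponentialPDF_of_neg (not_le.1 hs), zero_mul]
  simp_rw [h2]
  rw [lintegral_indicator measurableSet_Ici, setLIntegral_congr Ioi_ae_eq_Ici.symm]

/-- The convolution identity behind everything. -/
theorem conv_identity (z κ : ℝ) (hz : 0 < z) (hκ : 0 ≤ κ) (ψ : ℝ → ℝ≥0∞) (hψ : Measurable ψ)
    (a : ℝ) :
    ∫⁻ s in Ioi (0 : ℝ), ENNReal.ofReal (z * Real.exp (-(z * s))) *
      (ψ (a + s) + ENNReal.ofReal (z + κ) * J κ ψ (a + s)) = ENNReal.ofReal z * J κ ψ a := by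
  -- split
  have hmeas1 : Measurable fun s : ℝ => ENNReal.ofReal (z * Real.exp (-(z * s))) * ψ (a + s) := by
    fun_prop
  have hJm := measurable_J κ ψ hψ
  simp_rw [mul_add]
  rw [lintegral_add_left hmeas1]
  -- the double integral
  have hdouble : ∫⁻ s in Ioi (0 : ℝ), ENNReal.ofReal (z * Real.exp (-(z * s))) *
      (ENNReal.ofReal (z + κ) * J κ ψ (a + s)) =
      ∫⁻ c in Ioi (0 : ℝ), ENNReal.ofReal (z * (Real.exp (κ * c) - Real.exp (-(z * c)))) *
        ψ (a + c) := by
    have hJ : ∀ s : ℝ, J κ ψ (a + s) =
        ∫⁻ c, (Ioi s).indicator (fun c => ENNReal.ofReal (Real.exp (κ * (c - s))) * ψ (a + c)) c := by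
      intro s
      rw [lintegral_indicator measurableSet_Ioi]
      unfold J
      have hshift := (measurePreserving_add_right (volume : Measure ℝ) s).setLIntegral_comp_preimage
        (measurableSet_Ioi (a := s))
        (f := fun c => ENNReal.ofReal (Real.exp (κ * (c - s))) * ψ (a + c)) (by fun_prop)
      rw [← hshift]
      have hpre : (fun x : ℝ => x + s) ⁻¹' Ioi s = Ioi 0 := by
        ext x; simp
      rw [hpre]
      refine lintegral_congr fun b => ?_
      rw [add_sub_cancel_right, show a + s + b = a + (b + s) by ring]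
    set K : ℝ → ℝ → ℝ≥0∞ := fun s c =>
      (Ioi (0 : ℝ)).indicator (fun _ => (Ioi s).indicator
        (fun c => ENNReal.ofReal (z * Real.exp (-(z * s)) * (z + κ) * Real.exp (κ * (c - s))) *
          ψ (a + c)) c) s with hK
    have hL : ∫⁻ s in Ioi (0 : ℝ), ENNReal.ofReal (z * Real.exp (-(z * s))) *
        (ENNReal.ofReal (z + κ) * J κ ψ (a + s)) = ∫⁻ s, ∫⁻ c, K s c := by
      rw [← lintegral_indicator measurableSet_Ioi]
      refine lintegral_congr fun s => ?_
      by_cases hs : s ∈ Ioi (0 : ℝ)
      · rw [indicator_of_mem hs, hJ s, ← mul_assoc, ← lintegral_const_mul']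
        · refine lintegral_congr fun c => ?_
          simp only [hK, indicator_of_mem hs]
          by_cases hc : c ∈ Ioi s
          · rw [indicator_of_mem hc, indicator_of_mem hc, ← mul_assoc, ← ENNReal.ofReal_mul,
              ← ENNReal.ofReal_mul]
            · positivity
            · positivity
          · rw [indicator_of_notMem hc, indicator_of_notMem hc, mul_zero]
        · exact ENNReal.mul_ne_top ENNReal.ofReal_ne_top ENNReal.ofReal_ne_top
      · rw [indicator_of_notMem hs]
        simp only [hK, indicator_of_notMem hs, lintegral_zero]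
    have hKm : Measurable (Function.uncurry K) := by
      have : Function.uncurry K = fun p : ℝ × ℝ =>
          ({p : ℝ × ℝ | 0 < p.1 ∧ p.1 < p.2}).indicator (fun p =>
            ENNReal.ofReal (z * Real.exp (-(z * p.1)) * (z + κ) * Real.exp (κ * (p.2 - p.1))) *
            ψ (a + p.2)) p := by
        funext p
        simp only [Function.uncurry, hK]
        by_cases h1 : p.1 ∈ Ioi (0 : ℝ)
        · by_cases h2 : p.2 ∈ Ioi p.1
          · rw [indicator_of_mem h1, indicator_of_mem h2, indicator_of_mem]
            exact ⟨h1, h2⟩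
          · rw [indicator_of_mem h1, indicator_of_notMem h2, indicator_of_notMem]
            rintro ⟨_, h⟩
            exact h2 h
        · rw [indicator_of_notMem h1, indicator_of_notMem]
          rintro ⟨h, _⟩
          exact h1 h
      rw [this]
      refine Measurable.indicator (by fun_prop) ?_
      exact (measurableSet_lt measurable_const measurable_fst).inter
        (measurableSet_lt measurable_fst measurable_snd)
    rw [hL, lintegral_lintegral_swap hKm.aemeasurable, ← lintegral_indicator measurableSet_Ioi]
    refine lintegral_congr fun c => ?_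
    by_cases hc : c ∈ Ioi (0 : ℝ)
    · rw [indicator_of_mem hc]
      have hc0 : 0 < c := hc
      have hKc : ∀ s, K s c = (Ioo (0 : ℝ) c).indicator (fun s =>
          ENNReal.ofReal (z * Real.exp (-(z * s)) * (z + κ) * Real.exp (κ * (c - s)))) s *
            ψ (a + c) := by
        intro s
        simp only [hK]
        by_cases h1 : s ∈ Ioi (0 : ℝ)
        · by_cases h2 : c ∈ Ioi s
          · rw [indicator_of_mem h1, indicator_of_mem h2, indicator_of_mem (show s ∈ Ioo 0 c from ⟨h1, h2⟩)]
          · rw [indicator_of_mem h1, indicator_of_notMem h2, indicator_of_notMem, zero_mul]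
            rintro ⟨_, h⟩
            exact h2 h
        · rw [indicator_of_notMem h1, indicator_of_notMem, zero_mul]
          rintro ⟨h, _⟩
          exact h1 h
      simp_rw [hKc]
      rw [lintegral_mul_const _ (by
        refine Measurable.indicator (by fun_prop) measurableSet_Ioo),
        lintegral_indicator measurableSet_Ioo]
      congr 1
      -- the inner integral
      have hint : ∫ s in (0 : ℝ)..c, z * Real.exp (-(z * s)) * (z + κ) * Real.exp (κ * (c - s)) =
          z * (Real.exp (κ * c) - Real.exp (-(z * c))) := by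
        have hderiv : ∀ s ∈ uIcc (0 : ℝ) c, HasDerivAt
            (fun s => -(z * Real.exp (κ * c - (z + κ) * s)))
            (z * Real.exp (-(z * s)) * (z + κ) * Real.exp (κ * (c - s))) s := by
          intro s _
          have h1 : HasDerivAt (fun s : ℝ => κ * c - (z + κ) * s) (-(z + κ)) s := by
            simpa using ((hasDerivAt_id s).const_mul (z + κ)).const_sub (κ * c)
          have h2 := (h1.exp.const_mul z).fun_neg
          refine h2.congr_deriv ?_
          have : Real.exp (κ * c - (z + κ) * s) = Real.exp (-(z * s)) * Real.exp (κ * (c - s)) := by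
            rw [← Real.exp_add]; congr 1; ring
          rw [this]; ring
        rw [intervalIntegral.integral_eq_sub_of_hasDerivAt hderiv]
        · have e1 : κ * c - (z + κ) * c = -(z * c) := by ring
          have e2 : κ * c - (z + κ) * 0 = κ * c := by ring
          rw [e1, e2]; ring
        · apply Continuous.intervalIntegrable
          fun_prop
      rw [← hint, intervalIntegral.integral_of_le hc0.le, setLIntegral_congr Ioo_ae_eq_Ioc,
        ofReal_integral_eq_lintegral_ofReal]
      · exact (Continuous.integrableOn_Icc (by fun_prop)).mono_set Ioc_subset_Icc_self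
      · exact Filter.Eventually.of_forall fun s => by positivity
    · rw [indicator_of_notMem hc]
      have : ∀ s, K s c = 0 := by
        intro s
        simp only [hK]
        by_cases h1 : s ∈ Ioi (0 : ℝ)
        · rw [indicator_of_mem h1, indicator_of_notMem]
          intro h2
          exact hc (mem_Ioi.2 (lt_trans (mem_Ioi.1 h1) (mem_Ioi.1 h2)))
        · rw [indicator_of_notMem h1]
      simp only [this, lintegral_zero]
  rw [hdouble, ← lintegral_add_left (by fun_prop)]
  unfold J
  rw [← lintegral_const_mul' _ _ ENNReal.ofReal_ne_top]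
  refine setLIntegral_congr_fun measurableSet_Ioi fun c hc => ?_
  have hc0 : 0 < c := hc
  have hexp : Real.exp (-(z * c)) ≤ Real.exp (κ * c) := by
    apply Real.exp_le_exp.2
    nlinarith [mul_pos hz hc0, mul_nonneg hκ hc0.le]
  rw [← add_mul, ← ENNReal.ofReal_add (by positivity) (mul_nonneg hz.le (by linarith)),
    ← mul_assoc, ← ENNReal.ofReal_mul hz.le]
  congr 2
  ring

end Pool.Agent.H96.Cond
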