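import Mathlib
import Pool.Agent.H96.Cond.ExpStep

/-!
# The clock of a single family
-/

set_option autoImplicit false

open MeasureTheory ProbabilityTheory Set Filter Topology
open scoped ENNReal

namespace Pool.Agent.H96.Cond

/-- Standing assumptions on the two probabilities. -/
class Params (β γ : ℝ) : Prop where
  β_pos : 0 < β
  γ_pos : 0 < γ
  β_le : β ≤ 1
  γ_le : γ ≤ 1
  sum_ge : 1 ≤ β + γ

variable {β γ : ℝ} [hp : Params β γ]

omit hp in
theorem lintegral_outcomeLaw (f : Bool × Bool → ℝ≥0∞) :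
    ∫⁻ o, f o ∂(outcomeLaw β γ) = ENNReal.ofReal (β + γ - 1) * f (true, true) +
      ENNReal.ofReal (1 - γ) * f (true, false) + ENNReal.ofReal (1 - β) * f (false, true) := by
  unfold outcomeLaw
  rw [lintegral_add_measure, lintegral_add_measure, lintegral_smul_measure,
    lintegral_smul_measure, lintegral_smul_measure, lintegral_dirac, lintegral_dirac,
    lintegral_dirac]
  rfl

instance instProbOutcome : IsProbabilityMeasure (outcomeLaw β γ) := by
  constructor
  have h := lintegral_outcomeLaw (β := β) (γ := γ) (fun _ => 1)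
  rw [lintegral_one] at h
  rw [h, mul_one, mul_one, mul_one, ← ENNReal.ofReal_add, ← ENNReal.ofReal_add]
  · rw [show β + γ - 1 + (1 - γ) + (1 - β) = 1 by ring, ENNReal.ofReal_one]
  · linarith [hp.sum_ge, hp.γ_le]
  · linarith [hp.β_le]
  · linarith [hp.sum_ge]
  · linarith [hp.γ_le]

instance instProbMark : IsProbabilityMeasure (markLaw β γ) := by
  unfold markLaw; infer_instance

instance instProbClock : IsProbabilityMeasure (clockLaw β γ) := by
  unfold clockLaw; infer_instance

instance instProbLife (μ : Measure ℝ) [IsProbabilityMeasure μ] :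
    IsProbabilityMeasure (lifeLaw μ β γ) := by
  unfold lifeLaw; infer_instance

instance instProbPop (μ : Measure ℝ) [IsProbabilityMeasure μ] :
    IsProbabilityMeasure (popLaw μ β γ) := by
  unfold popLaw; infer_instance

/-- Integration against the law of a mark. -/
theorem lintegral_markLaw (f : Mark → ℝ≥0∞) (hf : Measurable f) :
    ∫⁻ m, f m ∂(markLaw β γ) = ∫⁻ e, (ENNReal.ofReal (β + γ - 1) * f (e, (true, true)) +
      ENNReal.ofReal (1 - γ) * f (e, (true, false)) +
      ENNReal.ofReal (1 - β) * f (e, (false, true))) ∂(expMeasure 1) := by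
  unfold markLaw
  rw [lintegral_prod _ hf.aemeasurable]
  refine lintegral_congr fun e => ?_
  rw [lintegral_outcomeLaw]

/-- `1` if `b` and `0` otherwise. -/
def ind (b : Bool) : ℝ := if b then 1 else 0

omit hp in
theorem ind_nonneg (b : Bool) : 0 ≤ ind b := by unfold ind; split_ifs <;> norm_num

theorem measurable_ind : Measurable ind := measurable_of_countable _

/-- Exponential clocks run through time proportionally: change of variables. -/
theorem lintegral_exp_div (z : ℝ) (hz : 0 < z) (f : ℝ → ℝ≥0∞) (hf : Measurable f) :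
    ∫⁻ e, f (e / z) ∂(expMeasure 1) =
      ∫⁻ s in Ioi (0 : ℝ), ENNReal.ofReal (z * Real.exp (-(z * s))) * f s := by
  rw [← lintegral_expMeasure z f hf, ← map_div_expMeasure z hz,
    lintegral_map hf (by fun_prop : Measurable fun e : ℝ => e / z)]

/-- First-order one step identity. -/
theorem step1 (ψ : ℝ → ℝ≥0∞) (hψ : Measurable ψ) (z a : ℝ) (hz : 0 < z) :
    ∫⁻ m, (ψ (a + m.1 / z) + ENNReal.ofReal (z + ind m.2.2) * J γ ψ (a + m.1 / z))
      ∂(markLaw β γ) = ENNReal.ofReal z * J γ ψ a := by
  have hJ := measurable_J γ ψ hψ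
  have hγ := hp.γ_pos
  have hγ1 := hp.γ_le
  have hβ1 := hp.β_le
  have hs := hp.sum_ge
  rw [lintegral_markLaw]
  · have hpt : ∀ e : ℝ, (ENNReal.ofReal (β + γ - 1) * (ψ (a + e / z) +
        ENNReal.ofReal (z + ind true) * J γ ψ (a + e / z)) +
        ENNReal.ofReal (1 - γ) * (ψ (a + e / z) +
        ENNReal.ofReal (z + ind false) * J γ ψ (a + e / z)) +
        ENNReal.ofReal (1 - β) * (ψ (a + e / z) +
        ENNReal.ofReal (z + ind true) * J γ ψ (a + e / z))) =
        ψ (a + e / z) + ENNReal.ofReal (z + γ) * J γ ψ (a + e / z) := by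
      intro e
      have e1 : ENNReal.ofReal (β + γ - 1) + ENNReal.ofReal (1 - γ) + ENNReal.ofReal (1 - β) =
          1 := by
        rw [← ENNReal.ofReal_add, ← ENNReal.ofReal_add, ← ENNReal.ofReal_one]
        · congr 1; ring
        all_goals linarith
      have e2 : ENNReal.ofReal (β + γ - 1) * ENNReal.ofReal (z + ind true) +
          ENNReal.ofReal (1 - γ) * ENNReal.ofReal (z + ind false) +
          ENNReal.ofReal (1 - β) * ENNReal.ofReal (z + ind true) = ENNReal.ofReal (z + γ) := by
        simp only [ind, if_true, Bool.false_eq_true, if_false, add_zero]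
        rw [← ENNReal.ofReal_mul, ← ENNReal.ofReal_mul, ← ENNReal.ofReal_mul,
          ← ENNReal.ofReal_add, ← ENNReal.ofReal_add]
        · congr 1; ring
        · exact add_nonneg (mul_nonneg (by linarith) (by linarith))
            (mul_nonneg (by linarith) (by linarith))
        · exact mul_nonneg (by linarith) (by linarith)
        · exact mul_nonneg (by linarith) (by linarith)
        · exact mul_nonneg (by linarith) (by linarith)
        all_goals linarith
      rw [← e2]
      conv_rhs => rw [← one_mul (ψ (a + e / z)), ← e1]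
      ring
    simp_rw [hpt]
    rw [lintegral_exp_div z hz (fun s => ψ (a + s) + ENNReal.ofReal (z + γ) * J γ ψ (a + s))
      (by fun_prop)]
    exact conv_identity z γ hz hγ.le ψ hψ a
  · have := measurable_ind
    fun_prop

/-- Second-order one step identity. -/
theorem step2 (ψ : ℝ → ℝ≥0∞) (hψ : Measurable ψ) (z a : ℝ) (hz : 0 < z) :
    ∫⁻ m, (ENNReal.ofReal (z + 1) * ψ (a + m.1 / z) +
      ENNReal.ofReal ((z + ind m.2.2) * (z + ind m.2.2 + 1)) * J (2 * γ) ψ (a + m.1 / z))
      ∂(markLaw β γ) = ENNReal.ofReal (z * (z + 1)) * J (2 * γ) ψ a := by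
  have hJ := measurable_J (2 * γ) ψ hψ
  have hγ := hp.γ_pos
  have hγ1 := hp.γ_le
  have hβ1 := hp.β_le
  have hs := hp.sum_ge
  rw [lintegral_markLaw]
  · have hpt : ∀ e : ℝ, (ENNReal.ofReal (β + γ - 1) * (ENNReal.ofReal (z + 1) * ψ (a + e / z) +
        ENNReal.ofReal ((z + ind true) * (z + ind true + 1)) * J (2 * γ) ψ (a + e / z)) +
        ENNReal.ofReal (1 - γ) * (ENNReal.ofReal (z + 1) * ψ (a + e / z) +
        ENNReal.ofReal ((z + ind false) * (z + ind false + 1)) * J (2 * γ) ψ (a + e / z)) +
        ENNReal.ofReal (1 - β) * (ENNReal.ofReal (z + 1) * ψ (a + e / z) +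
        ENNReal.ofReal ((z + ind true) * (z + ind true + 1)) * J (2 * γ) ψ (a + e / z))) =
        ENNReal.ofReal (z + 1) * (ψ (a + e / z) +
          ENNReal.ofReal (z + 2 * γ) * J (2 * γ) ψ (a + e / z)) := by
      intro e
      have e1 : ENNReal.ofReal (β + γ - 1) + ENNReal.ofReal (1 - γ) + ENNReal.ofReal (1 - β) =
          1 := by
        rw [← ENNReal.ofReal_add, ← ENNReal.ofReal_add, ← ENNReal.ofReal_one]
        · congr 1; ring
        all_goals linarith
      have e2 : ENNReal.ofReal (β + γ - 1) * ENNReal.ofReal ((z + ind true) * (z + ind true + 1)) +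
          ENNReal.ofReal (1 - γ) * ENNReal.ofReal ((z + ind false) * (z + ind false + 1)) +
          ENNReal.ofReal (1 - β) * ENNReal.ofReal ((z + ind true) * (z + ind true + 1)) =
          ENNReal.ofReal (z + 1) * ENNReal.ofReal (z + 2 * γ) := by
        simp only [ind, if_true, Bool.false_eq_true, if_false, add_zero]
        have p1 : 0 ≤ (z + 1) * (z + 1 + 1) := by positivity
        have p2 : 0 ≤ z * (z + 1) := by positivity
        have q1 : 0 ≤ β + γ - 1 := by linarith
        have q2 : 0 ≤ 1 - γ := by linarith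
        have q3 : 0 ≤ 1 - β := by linarith
        rw [← ENNReal.ofReal_mul q1, ← ENNReal.ofReal_mul q2, ← ENNReal.ofReal_mul q3,
          ← ENNReal.ofReal_mul (by positivity), ← ENNReal.ofReal_add (mul_nonneg q1 p1)
            (mul_nonneg q2 p2), ← ENNReal.ofReal_add (add_nonneg (mul_nonneg q1 p1)
            (mul_nonneg q2 p2)) (mul_nonneg q3 p1)]
        congr 1; ring
      have e3 : ENNReal.ofReal (z + 1) * (ψ (a + e / z) +
          ENNReal.ofReal (z + 2 * γ) * J (2 * γ) ψ (a + e / z)) =
          1 * (ENNReal.ofReal (z + 1) * ψ (a + e / z)) +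
          (ENNReal.ofReal (z + 1) * ENNReal.ofReal (z + 2 * γ)) * J (2 * γ) ψ (a + e / z) := by
        ring
      rw [e3, ← e2, ← e1]
      ring
    simp_rw [hpt]
    rw [lintegral_const_mul' _ _ ENNReal.ofReal_ne_top,
      lintegral_exp_div z hz (fun s => ψ (a + s) + ENNReal.ofReal (z + 2 * γ) *
        J (2 * γ) ψ (a + s)) (by fun_prop),
      conv_identity z (2 * γ) hz (by linarith) ψ hψ a, ← mul_assoc,
      ← ENNReal.ofReal_mul (by positivity), mul_comm (z + 1) z]
  · have := measurable_ind
    fun_prop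

/-! ### The chain -/

/-- Time (for fitness one) of the `j`-th birth event, events being numbered from `1`. -/
noncomputable def clk (c : ℕ → Mark) (j : ℕ) : ℝ := ∑ i ∈ Finset.range j, (c i).1 / siz c i

omit hp in
theorem siz_zero (c : ℕ → Mark) : siz c 0 = 1 := by simp [siz]

omit hp in
theorem clk_zero (c : ℕ → Mark) : clk c 0 = 0 := by simp [clk]

omit hp in
theorem siz_succ (c : ℕ → Mark) (j : ℕ) : (siz c (j + 1) : ℝ) = siz c j + ind (c j).2.2 := by
  unfold siz ind
  rw [Finset.range_add_one, Finset.filter_insert]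
  split_ifs with h
  · rw [Finset.card_insert_of_notMem (by simp)]
    push_cast
    ring
  · push_cast
    ring

omit hp in
theorem clk_succ (c : ℕ → Mark) (j : ℕ) : clk c (j + 1) = clk c j + (c j).1 / siz c j := by
  unfold clk
  rw [Finset.sum_range_succ]

omit hp in
theorem one_le_siz (c : ℕ → Mark) (j : ℕ) : (1 : ℝ) ≤ siz c j := by
  unfold siz
  push_cast
  have : (0 : ℝ) ≤ (((Finset.range j).filter fun i => (c i).2.2 = true).card : ℝ) :=
    Nat.cast_nonneg _
  linarith

omit hp in
theorem siz_pos (c : ℕ → Mark) (j : ℕ) : (0 : ℝ) < siz c j := lt_of_lt_of_le one_pos (one_le_siz c j)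

omit hp in
theorem siz_le (c : ℕ → Mark) (j : ℕ) : (siz c j : ℝ) ≤ j + 1 := by
  unfold siz
  have h : ((Finset.range j).filter fun i => (c i).2.2 = true).card ≤ j := by
    calc _ ≤ (Finset.range j).card := Finset.card_filter_le _ _
      _ = j := Finset.card_range j
  have h' : ((((Finset.range j).filter fun i => (c i).2.2 = true).card : ℕ) : ℝ) ≤ j := by
    exact_mod_cast h
  push_cast
  linarith

omit hp in
theorem siz_update (c : ℕ → Mark) (i j : ℕ) (y : Mark) (h : j ≤ i) :
    siz (Function.update c i y) j = siz c j := by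
  unfold siz
  congr 2
  refine Finset.filter_congr fun k hk => ?_
  rw [Finset.mem_range] at hk
  rw [Function.update_of_ne (by omega)]

omit hp in
theorem clk_update (c : ℕ → Mark) (i j : ℕ) (y : Mark) (h : j ≤ i) :
    clk (Function.update c i y) j = clk c j := by
  unfold clk
  refine Finset.sum_congr rfl fun k hk => ?_
  rw [Finset.mem_range] at hk
  rw [Function.update_of_ne (by omega), siz_update c i k y (by omega)]

omit hp in
theorem measurable_siz (j : ℕ) : Measurable fun c : ℕ → Mark => (siz c j : ℝ) := by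
  induction j with
  | zero =>
    simp only [siz_zero]
    exact measurable_const
  | succ j ih =>
    simp only [siz_succ]
    exact ih.add (measurable_ind.comp (measurable_snd.comp (measurable_snd.comp
      (measurable_pi_apply j))))

omit hp in
theorem measurable_clk (j : ℕ) : Measurable fun c : ℕ → Mark => clk c j := by
  induction j with
  | zero =>
    simp only [clk_zero]
    exact measurable_const
  | succ j ih =>
    simp only [clk_succ]
    exact ih.add ((measurable_fst.comp (measurable_pi_apply j)).div (measurable_siz j))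

/-- `R` only depends on the marks with index `< m`. -/
def DepBelow (m : ℕ) (R : (ℕ → Mark) → ℝ≥0∞) : Prop :=
  ∀ i, m ≤ i → ∀ c y, R (Function.update c i y) = R c

theorem forward_step1 (ψ : ℝ → ℝ≥0∞) (hψ : Measurable ψ) (R : (ℕ → Mark) → ℝ≥0∞)
    (hR : Measurable R) (N : ℕ) (hdep : DepBelow N R) :
    ∫⁻ c, R c * ψ (clk c (N + 1)) ∂(clockLaw β γ) +
      ∫⁻ c, R c * (ENNReal.ofReal (siz c (N + 1)) * J γ ψ (clk c (N + 1))) ∂(clockLaw β γ) =
    ∫⁻ c, R c * (ENNReal.ofReal (siz c N) * J γ ψ (clk c N)) ∂(clockLaw β γ) := by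
  have hJ := measurable_J γ ψ hψ
  have hclk := measurable_clk
  have hsiz := measurable_siz
  have hind := measurable_ind
  have hm1 : Measurable fun c : ℕ → Mark => R c * ψ (clk c (N + 1)) :=
    hR.mul (hψ.comp (hclk (N + 1)))
  rw [← lintegral_add_left hm1]
  set Φ : (ℕ → Mark) → Mark → ℝ≥0∞ := fun c y =>
    R c * (ψ (clk c N + y.1 / siz c N) +
      ENNReal.ofReal (siz c N + ind y.2.2) * J γ ψ (clk c N + y.1 / siz c N)) with hΦ
  have hΦm : Measurable fun p : (ℕ → Mark) × Mark => Φ p.1 p.2 := by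
    simp only [hΦ]
    have h1 : Measurable fun p : (ℕ → Mark) × Mark => clk p.1 N + p.2.1 / siz p.1 N :=
      ((hclk N).comp measurable_fst).add
        ((measurable_fst.comp measurable_snd).div ((hsiz N).comp measurable_fst))
    have h2 : Measurable fun p : (ℕ → Mark) × Mark => (siz p.1 N : ℝ) + ind p.2.2.2 :=
      ((hsiz N).comp measurable_fst).add
        (hind.comp (measurable_snd.comp (measurable_snd.comp measurable_snd)))
    exact (hR.comp measurable_fst).mul ((hψ.comp h1).add (h2.ennreal_ofReal.mul (hJ.comp h1)))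
  have hΦd : ∀ x y z, Φ (Function.update x N y) z = Φ x z := by
    intro x y z
    simp only [hΦ, hdep N le_rfl, clk_update x N N y le_rfl, siz_update x N N y le_rfl]
  have hkey := lintegral_coord (markLaw β γ) N Φ hΦm hΦd
  have hL : ∀ c : ℕ → Mark, R c * ψ (clk c (N + 1)) +
      R c * (ENNReal.ofReal (siz c (N + 1)) * J γ ψ (clk c (N + 1))) = Φ c (c N) := by
    intro c
    simp only [hΦ]
    rw [clk_succ, siz_succ]
    ring
  simp_rw [hL]
  unfold clockLaw
  rw [hkey]
  refine lintegral_congr fun c => ?_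
  simp only [hΦ]
  rw [lintegral_const_mul]
  · rw [step1 ψ hψ (siz c N) (clk c N) (siz_pos c N)]
  · fun_prop

theorem forward1 (ψ : ℝ → ℝ≥0∞) (hψ : Measurable ψ) (R : (ℕ → Mark) → ℝ≥0∞)
    (hR : Measurable R) (m : ℕ) (hdep : DepBelow m R) (n : ℕ) :
    ∑ j ∈ Finset.range n, ∫⁻ c, R c * ψ (clk c (m + j + 1)) ∂(clockLaw β γ) +
      ∫⁻ c, R c * (ENNReal.ofReal (siz c (m + n)) * J γ ψ (clk c (m + n))) ∂(clockLaw β γ) =
    ∫⁻ c, R c * (ENNReal.ofReal (siz c m) * J γ ψ (clk c m)) ∂(clockLaw β γ) := by
  induction n with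
  | zero => simp
  | succ n ih =>
    rw [Finset.sum_range_succ, ← ih, add_assoc]
    congr 1
    exact forward_step1 ψ hψ R hR (m + n) fun i hi => hdep i (by omega)

theorem forward_step2 (ψ : ℝ → ℝ≥0∞) (hψ : Measurable ψ) (N : ℕ) :
    ∫⁻ c, ENNReal.ofReal (siz c N + 1) * ψ (clk c (N + 1)) ∂(clockLaw β γ) +
      ∫⁻ c, (ENNReal.ofReal (siz c (N + 1) * (siz c (N + 1) + 1)) *
        J (2 * γ) ψ (clk c (N + 1))) ∂(clockLaw β γ) =
    ∫⁻ c, (ENNReal.ofReal (siz c N * (siz c N + 1)) * J (2 * γ) ψ (clk c N)) ∂(clockLaw β γ) := by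
  have hJ := measurable_J (2 * γ) ψ hψ
  have hclk := measurable_clk
  have hsiz := measurable_siz
  have hind := measurable_ind
  have hm1 : Measurable fun c : ℕ → Mark => ENNReal.ofReal (siz c N + 1) * ψ (clk c (N + 1)) :=
    (((hsiz N).add_const 1).ennreal_ofReal).mul (hψ.comp (hclk (N + 1)))
  rw [← lintegral_add_left hm1]
  set Φ : (ℕ → Mark) → Mark → ℝ≥0∞ := fun c y =>
    (ENNReal.ofReal (siz c N + 1) * ψ (clk c N + y.1 / siz c N) +
      ENNReal.ofReal ((siz c N + ind y.2.2) * (siz c N + ind y.2.2 + 1)) *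
        J (2 * γ) ψ (clk c N + y.1 / siz c N)) with hΦ
  have hΦm : Measurable fun p : (ℕ → Mark) × Mark => Φ p.1 p.2 := by
    simp only [hΦ]
    have h1 : Measurable fun p : (ℕ → Mark) × Mark => clk p.1 N + p.2.1 / siz p.1 N :=
      ((hclk N).comp measurable_fst).add
        ((measurable_fst.comp measurable_snd).div ((hsiz N).comp measurable_fst))
    have h2 : Measurable fun p : (ℕ → Mark) × Mark => (siz p.1 N : ℝ) + ind p.2.2.2 :=
      ((hsiz N).comp measurable_fst).add
        (hind.comp (measurable_snd.comp (measurable_snd.comp measurable_snd)))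
    exact (((((hsiz N).comp measurable_fst).add_const 1).ennreal_ofReal).mul (hψ.comp h1)).add
      (((h2.mul (h2.add_const 1)).ennreal_ofReal).mul (hJ.comp h1))
  have hΦd : ∀ x y z, Φ (Function.update x N y) z = Φ x z := by
    intro x y z
    simp only [hΦ, clk_update x N N y le_rfl, siz_update x N N y le_rfl]
  have hkey := lintegral_coord (markLaw β γ) N Φ hΦm hΦd
  have hL : ∀ c : ℕ → Mark, ENNReal.ofReal (siz c N + 1) * ψ (clk c (N + 1)) +
      (ENNReal.ofReal (siz c (N + 1) * (siz c (N + 1) + 1)) * J (2 * γ) ψ (clk c (N + 1))) =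
        Φ c (c N) := by
    intro c
    simp only [hΦ]
    rw [clk_succ, siz_succ]
  simp_rw [hL]
  unfold clockLaw
  rw [hkey]
  refine lintegral_congr fun c => ?_
  simp only [hΦ]
  rw [step2 ψ hψ (siz c N) (clk c N) (siz_pos c N)]

theorem forward2 (ψ : ℝ → ℝ≥0∞) (hψ : Measurable ψ) (n : ℕ) :
    ∑ j ∈ Finset.range n, ∫⁻ c, ENNReal.ofReal (siz c j + 1) * ψ (clk c (j + 1))
      ∂(clockLaw β γ) ≤ 2 * J (2 * γ) ψ 0 := by
  have h : ∀ n : ℕ, ∑ j ∈ Finset.range n, ∫⁻ c, ENNReal.ofReal (siz c j + 1) * ψ (clk c (j + 1))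
      ∂(clockLaw β γ) +
      ∫⁻ c, (ENNReal.ofReal (siz c n * (siz c n + 1)) * J (2 * γ) ψ (clk c n)) ∂(clockLaw β γ) =
      2 * J (2 * γ) ψ 0 := by
    intro n
    induction n with
    | zero =>
      simp only [Finset.range_zero, Finset.sum_empty, zero_add, siz_zero, clk_zero,
        lintegral_const, measure_univ, mul_one]
      norm_num
    | succ n ih =>
      rw [Finset.sum_range_succ, ← ih, add_assoc]
      congr 1
      exact forward_step2 ψ hψ n
  exact (le_add_right le_rfl).trans (h n).le

end Pool.Agent.H96.Cond
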