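import Mathlib
import Pool.Agent.H96.Cond.Clock

/-!
# Exact intensity of the birth events of a family, and second moment bounds
-/

set_option autoImplicit false

open MeasureTheory ProbabilityTheory Set Filter Topology
open scoped ENNReal

namespace Pool.Agent.H96.Cond

variable {β γ : ℝ} [hp : Params β γ]

theorem lintegral_exp_two (z : ℝ) (hz : 0 < z) :
    ∫⁻ s in Ioi (0 : ℝ), ENNReal.ofReal (z * Real.exp (-(z * s))) *
      ENNReal.ofReal (Real.exp (-(2 * s))) = ENNReal.ofReal (z / (z + 2)) := by
  have h := lintegral_expMeasure (z + 2) (fun _ => 1) measurable_const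
  have : IsProbabilityMeasure (expMeasure (z + 2)) := isProbabilityMeasure_expMeasure (by linarith)
  rw [lintegral_one, measure_univ] at h
  calc ∫⁻ s in Ioi (0 : ℝ), ENNReal.ofReal (z * Real.exp (-(z * s))) *
      ENNReal.ofReal (Real.exp (-(2 * s)))
      = ∫⁻ s in Ioi (0 : ℝ), ENNReal.ofReal (z / (z + 2)) *
        (ENNReal.ofReal ((z + 2) * Real.exp (-((z + 2) * s))) * 1) := by
        refine lintegral_congr fun s => ?_
        rw [mul_one, ← ENNReal.ofReal_mul (by positivity), ← ENNReal.ofReal_mul (by positivity)]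
        congr 1
        have : Real.exp (-((z + 2) * s)) = Real.exp (-(z * s)) * Real.exp (-(2 * s)) := by
          rw [← Real.exp_add]; congr 1; ring
        rw [this]
        field_simp
    _ = ENNReal.ofReal (z / (z + 2)) := by
        rw [lintegral_const_mul' _ _ ENNReal.ofReal_ne_top, ← h, mul_one]

/-- The clock goes to infinity quickly. -/
theorem laplace_clk (N : ℕ) :
    ∫⁻ c, ENNReal.ofReal (Real.exp (-(2 * clk c N))) ∂(clockLaw β γ) ≤
      ENNReal.ofReal (2 / (((N : ℝ) + 1) * ((N : ℝ) + 2))) := by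
  have hclk := measurable_clk
  have hsiz := measurable_siz
  induction N with
  | zero =>
    simp only [clk_zero, lintegral_const, measure_univ, mul_one]
    apply ENNReal.ofReal_le_ofReal
    norm_num
  | succ N ih =>
    set Φ : (ℕ → Mark) → Mark → ℝ≥0∞ := fun c y =>
      ENNReal.ofReal (Real.exp (-(2 * clk c N))) *
        ENNReal.ofReal (Real.exp (-(2 * (y.1 / siz c N)))) with hΦ
    have h1 : Measurable fun p : (ℕ → Mark) × Mark => p.2.1 / siz p.1 N :=
      (measurable_fst.comp measurable_snd).div ((hsiz N).comp measurable_fst)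
    have h0 : Measurable fun p : (ℕ → Mark) × Mark => clk p.1 N := (hclk N).comp measurable_fst
    have hΦm : Measurable fun p : (ℕ → Mark) × Mark => Φ p.1 p.2 := by
      simp only [hΦ]
      exact ((h0.const_mul 2).neg.exp.ennreal_ofReal).mul ((h1.const_mul 2).neg.exp.ennreal_ofReal)
    have hΦd : ∀ x y z, Φ (Function.update x N y) z = Φ x z := by
      intro x y z
      simp only [hΦ, clk_update x N N y le_rfl, siz_update x N N y le_rfl]
    have hkey := lintegral_coord (markLaw β γ) N Φ hΦm hΦd
    have hL : ∀ c : ℕ → Mark, ENNReal.ofReal (Real.exp (-(2 * clk c (N + 1)))) = Φ c (c N) := by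
      intro c
      simp only [hΦ]
      rw [clk_succ, ← ENNReal.ofReal_mul (Real.exp_pos _).le, ← Real.exp_add]
      congr 2
      ring
    simp_rw [hL]
    have hkey' : ∫⁻ c, Φ c (c N) ∂(clockLaw β γ) = ∫⁻ c, ∫⁻ y, Φ c y ∂(markLaw β γ)
      ∂(clockLaw β γ) := hkey
    rw [hkey']
    have hinner : ∀ c, ∫⁻ y, Φ c y ∂(markLaw β γ) ≤
        ENNReal.ofReal (Real.exp (-(2 * clk c N))) *
          ENNReal.ofReal (((N : ℝ) + 1) / ((N : ℝ) + 3)) := by
      intro c
      simp only [hΦ]
      rw [lintegral_const_mul _ (by fun_prop)]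
      gcongr
      have hz := siz_pos c N
      have hval : ∫⁻ y : Mark, ENNReal.ofReal (Real.exp (-(2 * (y.1 / siz c N))))
          ∂(markLaw β γ) = ENNReal.ofReal (siz c N / (siz c N + 2)) := by
        unfold markLaw
        rw [lintegral_prod _ (by fun_prop)]
        simp only [lintegral_const, measure_univ, mul_one]
        rw [lintegral_exp_div (siz c N) hz (fun s => ENNReal.ofReal (Real.exp (-(2 * s))))
          (by fun_prop)]
        exact lintegral_exp_two _ hz
      rw [hval]
      apply ENNReal.ofReal_le_ofReal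
      have hle := siz_le c N
      rw [div_le_div_iff₀ (by linarith) (by positivity)]
      nlinarith
    calc ∫⁻ c, ∫⁻ y, Φ c y ∂(markLaw β γ) ∂(clockLaw β γ)
        ≤ ∫⁻ c, ENNReal.ofReal (Real.exp (-(2 * clk c N))) *
          ENNReal.ofReal (((N : ℝ) + 1) / ((N : ℝ) + 3)) ∂(clockLaw β γ) := lintegral_mono hinner
      _ = (∫⁻ c, ENNReal.ofReal (Real.exp (-(2 * clk c N))) ∂(clockLaw β γ)) *
          ENNReal.ofReal (((N : ℝ) + 1) / ((N : ℝ) + 3)) := by
          rw [lintegral_mul_const' _ _ ENNReal.ofReal_ne_top]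
      _ ≤ ENNReal.ofReal (2 / (((N : ℝ) + 1) * ((N : ℝ) + 2))) *
          ENNReal.ofReal (((N : ℝ) + 1) / ((N : ℝ) + 3)) := by gcongr
      _ = ENNReal.ofReal (2 / ((((N + 1 : ℕ) : ℝ) + 1) * (((N + 1 : ℕ) : ℝ) + 2))) := by
          rw [← ENNReal.ofReal_mul (by positivity)]
          congr 1
          push_cast
          field_simp
          ring

omit hp in
theorem J_indicator_bound (hγ : 0 < γ) (hγ1 : γ ≤ 1) (S : Set ℝ) (M : ℝ) (hM : 0 ≤ M)
    (hS : S ⊆ Iic M) (a : ℝ) :
    J γ (S.indicator fun _ => 1) a ≤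
      ENNReal.ofReal (Real.exp (γ * M) * Real.exp (2 * M) / γ) *
        ENNReal.ofReal (Real.exp (-(2 * a))) := by
  unfold J
  by_cases ha : a ≤ M
  · calc ∫⁻ b in Ioi (0 : ℝ), ENNReal.ofReal (Real.exp (γ * b)) * S.indicator (fun _ => 1) (a + b)
        ≤ ∫⁻ b in Ioi (0 : ℝ), (Ioc (0 : ℝ) (M - a)).indicator
          (fun b => ENNReal.ofReal (Real.exp (γ * b))) b := by
          refine setLIntegral_mono' measurableSet_Ioi fun b hb => ?_
          by_cases hab : a + b ∈ S
          · rw [indicator_of_mem hab, mul_one, indicator_of_mem]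
            exact ⟨hb, by have := hS hab; simp only [mem_Iic] at this; linarith⟩
          · rw [indicator_of_notMem hab, mul_zero]
            exact zero_le
      _ ≤ ∫⁻ b, (Ioc (0 : ℝ) (M - a)).indicator
          (fun b => ENNReal.ofReal (Real.exp (γ * b))) b := setLIntegral_le_lintegral _ _
      _ = ENNReal.ofReal (∫ b in (0 : ℝ)..(M - a), Real.exp (γ * b)) := by
          rw [lintegral_indicator measurableSet_Ioc, intervalIntegral.integral_of_le (by linarith),
            ofReal_integral_eq_lintegral_ofReal]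
          · exact (Continuous.integrableOn_Icc (by fun_prop)).mono_set Ioc_subset_Icc_self
          · exact Filter.Eventually.of_forall fun s => by positivity
      _ = ENNReal.ofReal ((Real.exp (γ * (M - a)) - 1) / γ) := by
          congr 1
          have hderiv : ∀ s ∈ uIcc (0 : ℝ) (M - a), HasDerivAt (fun s => Real.exp (γ * s) / γ)
              (Real.exp (γ * s)) s := by
            intro s _
            have h1 : HasDerivAt (fun s : ℝ => γ * s) γ s := by
              simpa using (hasDerivAt_id s).const_mul γ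
            refine (h1.exp.div_const γ).congr_deriv ?_
            field_simp
          rw [intervalIntegral.integral_eq_sub_of_hasDerivAt hderiv
            (Continuous.intervalIntegrable (by fun_prop) _ _)]
          simp only [mul_zero, Real.exp_zero]
          ring
      _ ≤ ENNReal.ofReal (Real.exp (γ * M) * Real.exp (2 * M) / γ) *
        ENNReal.ofReal (Real.exp (-(2 * a))) := by
          rw [← ENNReal.ofReal_mul (by positivity)]
          apply ENNReal.ofReal_le_ofReal
          rw [div_mul_eq_mul_div]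
          apply div_le_div_of_nonneg_right _ hγ.le
          have h1 : Real.exp (γ * (M - a)) ≤ Real.exp (γ * M) * Real.exp (2 * M) *
              Real.exp (-(2 * a)) := by
            rw [← Real.exp_add, ← Real.exp_add]
            apply Real.exp_le_exp.2
            nlinarith
          linarith
  · have hz : ∀ b ∈ Ioi (0 : ℝ), ENNReal.ofReal (Real.exp (γ * b)) *
        S.indicator (fun _ => (1 : ℝ≥0∞)) (a + b) = 0 := by
      intro b hb
      rw [indicator_of_notMem, mul_zero]
      intro hab
      have := hS hab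
      simp only [mem_Iic] at this
      have hb' : 0 < b := hb
      apply ha
      linarith
    rw [setLIntegral_congr_fun measurableSet_Ioi hz]
    simp

/-- The measure with density `e^{γ b}` on the positive half line. -/
noncomputable def expDens (γ : ℝ) : Measure ℝ :=
  (volume.restrict (Ioi (0 : ℝ))).withDensity fun b => ENNReal.ofReal (Real.exp (γ * b))

omit hp in
theorem lintegral_expDens (ψ : ℝ → ℝ≥0∞) (hψ : Measurable ψ) :
    ∫⁻ b, ψ b ∂(expDens γ) = J γ ψ 0 := by
  unfold expDens J
  rw [lintegral_withDensity_eq_lintegral_mul _ (by fun_prop) hψ]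
  simp

theorem intensity_indicator (S : Set ℝ) (hSm : MeasurableSet S) (M : ℝ) (hM : 0 ≤ M)
    (hS : S ⊆ Iic M) :
    ∑' j, ∫⁻ c, S.indicator (fun _ => (1 : ℝ≥0∞)) (clk c (j + 1)) ∂(clockLaw β γ) =
      J γ (S.indicator fun _ => 1) 0 := by
  set ψ : ℝ → ℝ≥0∞ := S.indicator fun _ => 1 with hψdef
  have hψ : Measurable ψ := measurable_const.indicator hSm
  set C : ℝ≥0∞ := ENNReal.ofReal (Real.exp (γ * M) * Real.exp (2 * M) / γ) with hC
  have hrem : Tendsto (fun n : ℕ => ∫⁻ c, 1 * (ENNReal.ofReal (siz c (0 + n)) *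
      J γ ψ (clk c (0 + n))) ∂(clockLaw β γ)) atTop (𝓝 0) := by
    have hb : ∀ n : ℕ, ∫⁻ c, 1 * (ENNReal.ofReal (siz c (0 + n)) *
      J γ ψ (clk c (0 + n))) ∂(clockLaw β γ) ≤ C * ENNReal.ofReal (2 / ((n : ℝ) + 2)) := by
      intro n
      rw [zero_add]
      calc ∫⁻ c, 1 * (ENNReal.ofReal (siz c n) * J γ ψ (clk c n)) ∂(clockLaw β γ)
          ≤ ∫⁻ c, (ENNReal.ofReal ((n : ℝ) + 1) * C) *
            ENNReal.ofReal (Real.exp (-(2 * clk c n))) ∂(clockLaw β γ) := by
            refine lintegral_mono fun c => ?_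
            rw [one_mul, mul_assoc]
            gcongr
            · exact siz_le c n
            · exact J_indicator_bound hp.γ_pos hp.γ_le S M hM hS _
        _ = (ENNReal.ofReal ((n : ℝ) + 1) * C) *
            ∫⁻ c, ENNReal.ofReal (Real.exp (-(2 * clk c n))) ∂(clockLaw β γ) := by
            rw [lintegral_const_mul' _ _ (ENNReal.mul_ne_top ENNReal.ofReal_ne_top
              ENNReal.ofReal_ne_top)]
        _ ≤ (ENNReal.ofReal ((n : ℝ) + 1) * C) *
            ENNReal.ofReal (2 / (((n : ℝ) + 1) * ((n : ℝ) + 2))) := by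
            gcongr
            exact laplace_clk n
        _ = C * ENNReal.ofReal (2 / ((n : ℝ) + 2)) := by
            rw [mul_comm (ENNReal.ofReal ((n : ℝ) + 1)) C, mul_assoc,
              ← ENNReal.ofReal_mul (by positivity)]
            congr 2
            field_simp
    refine tendsto_of_tendsto_of_tendsto_of_le_of_le tendsto_const_nhds ?_
      (fun _ => zero_le) hb
    have h1 : Tendsto (fun n : ℕ => 2 / ((n : ℝ) + 2)) atTop (𝓝 0) :=
      (tendsto_natCast_atTop_atTop.atTop_add tendsto_const_nhds).const_div_atTop 2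
    have h2 := ENNReal.tendsto_ofReal h1
    rw [ENNReal.ofReal_zero] at h2
    have h3 := ENNReal.Tendsto.const_mul h2 (Or.inr (show C ≠ ⊤ from ENNReal.ofReal_ne_top))
    rwa [mul_zero] at h3
  have hsum : ∀ n : ℕ, ∑ j ∈ Finset.range n, ∫⁻ c, ψ (clk c (j + 1)) ∂(clockLaw β γ) +
      ∫⁻ c, 1 * (ENNReal.ofReal (siz c (0 + n)) * J γ ψ (clk c (0 + n))) ∂(clockLaw β γ) =
      J γ ψ 0 := by
    intro n
    have h := forward1 (β := β) (γ := γ) ψ hψ (fun _ => 1) measurable_const 0
      (fun i _ c y => rfl) n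
    simp only [zero_add, one_mul, siz_zero, clk_zero, Nat.cast_one, ENNReal.ofReal_one,
      lintegral_const, measure_univ, mul_one] at h ⊢
    exact h
  have hlim1 : Tendsto (fun n : ℕ => ∑ j ∈ Finset.range n,
      ∫⁻ c, ψ (clk c (j + 1)) ∂(clockLaw β γ)) atTop
      (𝓝 (∑' j, ∫⁻ c, ψ (clk c (j + 1)) ∂(clockLaw β γ))) :=
    ENNReal.tendsto_nat_tsum _
  have hlim2 := hlim1.add hrem
  rw [add_zero] at hlim2
  simp_rw [hsum] at hlim2
  exact tendsto_nhds_unique hlim2 tendsto_const_nhds

/-- **Exact intensity** of the birth events (fitness one). -/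
theorem intensity_measure :
    Measure.sum (fun j : ℕ => (clockLaw β γ).map fun c => clk c (j + 1)) = expDens γ := by
  ext S hS
  have hmono : Monotone fun n : ℕ => S ∩ Iic (n : ℝ) := by
    intro a b hab
    exact inter_subset_inter_right _ (Iic_subset_Iic.2 (by exact_mod_cast hab))
  have hU : S = ⋃ n : ℕ, S ∩ Iic (n : ℝ) := by
    rw [← inter_iUnion]
    have : ⋃ n : ℕ, Iic (n : ℝ) = univ := by
      ext x
      simp only [mem_iUnion, mem_Iic, mem_univ, iff_true]
      exact exists_nat_ge x
    rw [this, inter_univ]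
  have hfin : ∀ n : ℕ, Measure.sum (fun j : ℕ => (clockLaw β γ).map fun c => clk c (j + 1))
      (S ∩ Iic (n : ℝ)) = expDens γ (S ∩ Iic (n : ℝ)) := by
    intro n
    have hSn : MeasurableSet (S ∩ Iic (n : ℝ)) := hS.inter measurableSet_Iic
    have h := intensity_indicator (β := β) (γ := γ) (S ∩ Iic (n : ℝ)) hSn n (Nat.cast_nonneg n)
      inter_subset_right
    rw [← lintegral_expDens _ (measurable_const.indicator hSn), lintegral_indicator hSn,
      setLIntegral_one] at h
    rw [← h, Measure.sum_apply _ hSn]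
    refine tsum_congr fun j => ?_
    rw [Measure.map_apply (measurable_clk _) hSn, ← lintegral_indicator_one
      ((measurable_clk _) hSn)]
    rfl
  rw [hU, hmono.measure_iUnion, hmono.measure_iUnion]
  exact iSup_congr hfin

theorem intensity (ψ : ℝ → ℝ≥0∞) (hψ : Measurable ψ) :
    ∑' j, ∫⁻ c, ψ (clk c (j + 1)) ∂(clockLaw β γ) = J γ ψ 0 := by
  rw [← lintegral_expDens ψ hψ, ← intensity_measure (β := β) (γ := γ), lintegral_sum_measure]
  refine tsum_congr fun j => ?_
  rw [lintegral_map hψ (measurable_clk _)]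

end Pool.Agent.H96.Cond
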