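import Mathlib
import Pool.Agent.H96.Cond.Intensity

/-!
# Marked intensities and the second moment of sums over birth events
-/

set_option autoImplicit false

open MeasureTheory ProbabilityTheory Set Filter Topology
open scoped ENNReal

namespace Pool.Agent.H96.Cond

variable {β γ : ℝ} [hp : Params β γ]

theorem one_event (ψ : ℝ → ℝ≥0∞) (hψ : Measurable ψ) (j : ℕ) :
    ∫⁻ c, ψ (clk c (j + 1)) ∂(clockLaw β γ) =
      ∫⁻ c, ∫⁻ e, ψ (clk c j + e / siz c j) ∂(expMeasure 1) ∂(clockLaw β γ) := by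
  have hclk := measurable_clk
  have hsiz := measurable_siz
  set Φ : (ℕ → Mark) → Mark → ℝ≥0∞ := fun c y => ψ (clk c j + y.1 / siz c j) with hΦ
  have h1 : Measurable fun p : (ℕ → Mark) × Mark => clk p.1 j + p.2.1 / siz p.1 j :=
    ((hclk j).comp measurable_fst).add
      ((measurable_fst.comp measurable_snd).div ((hsiz j).comp measurable_fst))
  have hkey := lintegral_coord (markLaw β γ) j Φ (hψ.comp h1) (by
    intro x y z
    simp only [hΦ, clk_update x j j y le_rfl, siz_update x j j y le_rfl])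
  have hL : ∀ c : ℕ → Mark, ψ (clk c (j + 1)) = Φ c (c j) := by
    intro c; simp only [hΦ]; rw [clk_succ]
  simp_rw [hL]
  have hkey' : ∫⁻ c, Φ c (c j) ∂(clockLaw β γ) = ∫⁻ c, ∫⁻ y, Φ c y ∂(markLaw β γ)
      ∂(clockLaw β γ) := hkey
  rw [hkey']
  refine lintegral_congr fun c => ?_
  simp only [hΦ]
  unfold markLaw
  rw [lintegral_prod _ (by fun_prop)]
  simp

/-- Marks are independent of the event times. -/
theorem one_event_marked (ψ : ℝ → ℝ≥0∞) (hψ : Measurable ψ) (j : ℕ) (p : Bool × Bool → ℝ≥0∞)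
    (q : ℝ≥0∞) (hq : ∫⁻ o, p o ∂(outcomeLaw β γ) = q) :
    ∫⁻ c, p (c j).2 * ψ (clk c (j + 1)) ∂(clockLaw β γ) =
      q * ∫⁻ c, ψ (clk c (j + 1)) ∂(clockLaw β γ) := by
  have hclk := measurable_clk
  have hsiz := measurable_siz
  have hpm : Measurable p := measurable_of_countable _
  set Φ : (ℕ → Mark) → Mark → ℝ≥0∞ := fun c y => p y.2 * ψ (clk c j + y.1 / siz c j) with hΦ
  have h1 : Measurable fun p : (ℕ → Mark) × Mark => clk p.1 j + p.2.1 / siz p.1 j :=
    ((hclk j).comp measurable_fst).add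
      ((measurable_fst.comp measurable_snd).div ((hsiz j).comp measurable_fst))
  have hkey := lintegral_coord (markLaw β γ) j Φ
    ((hpm.comp (measurable_snd.comp measurable_snd)).mul (hψ.comp h1)) (by
    intro x y z
    simp only [hΦ, clk_update x j j y le_rfl, siz_update x j j y le_rfl])
  have hL : ∀ c : ℕ → Mark, p (c j).2 * ψ (clk c (j + 1)) = Φ c (c j) := by
    intro c; simp only [hΦ]; rw [clk_succ]
  simp_rw [hL]
  have hkey' : ∫⁻ c, Φ c (c j) ∂(clockLaw β γ) = ∫⁻ c, ∫⁻ y, Φ c y ∂(markLaw β γ)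
      ∂(clockLaw β γ) := hkey
  rw [hkey', one_event ψ hψ j, ← lintegral_const_mul]
  · refine lintegral_congr fun c => ?_
    simp only [hΦ]
    unfold markLaw
    rw [lintegral_prod _ (by fun_prop)]
    simp only
    rw [← lintegral_const_mul _ (by fun_prop)]
    refine lintegral_congr fun e => ?_
    rw [lintegral_mul_const _ hpm, hq]
  · apply Measurable.lintegral_prod_right'
      (f := fun p : (ℕ → Mark) × ℝ => ψ (clk p.1 j + p.2 / siz p.1 j))
    exact hψ.comp (((hclk j).comp measurable_fst).add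
      (measurable_snd.div ((hsiz j).comp measurable_fst)))

theorem outcome_B : ∫⁻ o : Bool × Bool, (if o.1 = true then 1 else 0) ∂(outcomeLaw β γ) =
    ENNReal.ofReal β := by
  rw [lintegral_outcomeLaw]
  simp only [if_true, Bool.false_eq_true, if_false, mul_one, mul_zero, add_zero]
  rw [← ENNReal.ofReal_add]
  · congr 1; ring
  · linarith [hp.sum_ge]
  · linarith [hp.γ_le]

theorem outcome_G : ∫⁻ o : Bool × Bool, (if o.2 = true then 1 else 0) ∂(outcomeLaw β γ) =
    ENNReal.ofReal γ := by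
  rw [lintegral_outcomeLaw]
  simp only [if_true, Bool.false_eq_true, if_false, mul_one, mul_zero, add_zero]
  rw [← ENNReal.ofReal_add]
  · congr 1; ring
  · linarith [hp.sum_ge]
  · linarith [hp.β_le]

/-- Intensity of the events founding a new family. -/
theorem intensityB (ψ : ℝ → ℝ≥0∞) (hψ : Measurable ψ) :
    ∑' j, ∫⁻ c, (if (c j).2.1 = true then 1 else 0) * ψ (clk c (j + 1)) ∂(clockLaw β γ) =
      ENNReal.ofReal β * J γ ψ 0 := by
  rw [← intensity (β := β) ψ hψ, ← ENNReal.tsum_mul_left]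
  exact tsum_congr fun j => one_event_marked ψ hψ j (fun o => if o.1 = true then 1 else 0) _
    outcome_B

/-- Intensity of the events at which the family gains a member. -/
theorem intensityG (ψ : ℝ → ℝ≥0∞) (hψ : Measurable ψ) :
    ∑' j, ∫⁻ c, (if (c j).2.2 = true then 1 else 0) * ψ (clk c (j + 1)) ∂(clockLaw β γ) =
      ENNReal.ofReal γ * J γ ψ 0 := by
  rw [← intensity (β := β) ψ hψ, ← ENNReal.tsum_mul_left]
  exact tsum_congr fun j => one_event_marked ψ hψ j (fun o => if o.2 = true then 1 else 0) _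
    outcome_G

/-- Two-point bound. -/
theorem two_point (ψ : ℝ → ℝ≥0∞) (hψ : Measurable ψ) (n : ℕ) :
    ∑ i ∈ Finset.range n, ∑ j ∈ Finset.Ico (i + 1) n,
      ∫⁻ c, ψ (clk c (i + 1)) * ψ (clk c (j + 1)) ∂(clockLaw β γ) ≤
      2 * (J γ ψ 0) ^ 2 := by
  have hJ := measurable_J γ ψ hψ
  have hclk := measurable_clk
  have h1 : ∀ i ∈ Finset.range n, ∑ j ∈ Finset.Ico (i + 1) n,
      ∫⁻ c, ψ (clk c (i + 1)) * ψ (clk c (j + 1)) ∂(clockLaw β γ) ≤
      ∫⁻ c, ENNReal.ofReal (siz c i + 1) * (ψ (clk c (i + 1)) * J γ ψ (clk c (i + 1)))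
        ∂(clockLaw β γ) := by
    intro i _
    have hf := forward1 (β := β) (γ := γ) ψ hψ (fun c => ψ (clk c (i + 1)))
      (hψ.comp (hclk (i + 1))) (i + 1)
      (fun k hk c y => by simp only [clk_update c k (i + 1) y hk]) (n - (i + 1))
    rw [Finset.sum_Ico_eq_sum_range]
    calc ∑ k ∈ Finset.range (n - (i + 1)),
        ∫⁻ c, ψ (clk c (i + 1)) * ψ (clk c (i + 1 + k + 1)) ∂(clockLaw β γ)
        ≤ ∫⁻ c, ψ (clk c (i + 1)) * (ENNReal.ofReal (siz c (i + 1)) * J γ ψ (clk c (i + 1)))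
          ∂(clockLaw β γ) := by
          rw [← hf]
          exact le_add_right le_rfl
      _ ≤ ∫⁻ c, ENNReal.ofReal (siz c i + 1) * (ψ (clk c (i + 1)) * J γ ψ (clk c (i + 1)))
        ∂(clockLaw β γ) := by
          refine lintegral_mono fun c => ?_
          rw [← mul_assoc, mul_comm (ψ (clk c (i + 1))) (ENNReal.ofReal _), mul_assoc]
          gcongr
          rw [siz_succ]
          have : ind (c i).2.2 ≤ 1 := by unfold ind; split_ifs <;> norm_num
          linarith
  have h2 := forward2 (β := β) (γ := γ) (fun s => ψ s * J γ ψ s) (hψ.mul hJ) n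
  have h3 : J (2 * γ) (fun s => ψ s * J γ ψ s) 0 ≤ (J γ ψ 0) ^ 2 := by
    have hpt : ∀ b ∈ Ioi (0 : ℝ), ENNReal.ofReal (Real.exp (2 * γ * b)) *
        (ψ (0 + b) * J γ ψ (0 + b)) ≤
        (ENNReal.ofReal (Real.exp (γ * b)) * ψ (0 + b)) * J γ ψ 0 := by
      intro b hb
      have hb0 : 0 < b := hb
      have h4 : ENNReal.ofReal (Real.exp (γ * b)) * J γ ψ (0 + b) ≤ J γ ψ 0 := by
        unfold J
        rw [← lintegral_const_mul' _ _ ENNReal.ofReal_ne_top]
        have hshift := (measurePreserving_add_right (volume : Measure ℝ) b).setLIntegral_comp_preimage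
          (measurableSet_Ioi (a := b))
          (f := fun s => ENNReal.ofReal (Real.exp (γ * s)) * ψ s) (by fun_prop)
        have hpre : (fun x : ℝ => x + b) ⁻¹' Ioi b = Ioi 0 := by
          ext x; simp
        rw [hpre] at hshift
        calc ∫⁻ r in Ioi (0 : ℝ), ENNReal.ofReal (Real.exp (γ * b)) *
            (ENNReal.ofReal (Real.exp (γ * r)) * ψ (0 + b + r))
            = ∫⁻ r in Ioi (0 : ℝ), ENNReal.ofReal (Real.exp (γ * (r + b))) * ψ (r + b) := by
              refine lintegral_congr fun r => ?_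
              rw [← mul_assoc, ← ENNReal.ofReal_mul (Real.exp_pos _).le, ← Real.exp_add,
                show γ * b + γ * r = γ * (r + b) by ring, show 0 + b + r = r + b by ring]
          _ = ∫⁻ s in Ioi b, ENNReal.ofReal (Real.exp (γ * s)) * ψ s := hshift
          _ ≤ ∫⁻ s in Ioi (0 : ℝ), ENNReal.ofReal (Real.exp (γ * s)) * ψ s :=
              lintegral_mono_set (Ioi_subset_Ioi hb0.le)
          _ = ∫⁻ b in Ioi (0 : ℝ), ENNReal.ofReal (Real.exp (γ * b)) * ψ (0 + b) := by
              simp only [zero_add]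
      have h5 : ENNReal.ofReal (Real.exp (2 * γ * b)) = ENNReal.ofReal (Real.exp (γ * b)) *
          ENNReal.ofReal (Real.exp (γ * b)) := by
        rw [← ENNReal.ofReal_mul (Real.exp_pos _).le, ← Real.exp_add]
        congr 2; ring
      rw [h5]
      calc ENNReal.ofReal (Real.exp (γ * b)) * ENNReal.ofReal (Real.exp (γ * b)) *
          (ψ (0 + b) * J γ ψ (0 + b)) = (ENNReal.ofReal (Real.exp (γ * b)) * ψ (0 + b)) *
            (ENNReal.ofReal (Real.exp (γ * b)) * J γ ψ (0 + b)) := by ring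
        _ ≤ (ENNReal.ofReal (Real.exp (γ * b)) * ψ (0 + b)) * J γ ψ 0 := by gcongr
    calc J (2 * γ) (fun s => ψ s * J γ ψ s) 0
        ≤ ∫⁻ b in Ioi (0 : ℝ), (ENNReal.ofReal (Real.exp (γ * b)) * ψ (0 + b)) * J γ ψ 0 :=
          setLIntegral_mono' measurableSet_Ioi hpt
      _ = (J γ ψ 0) ^ 2 := by
          rw [lintegral_mul_const _ (by fun_prop), sq]
          rfl
  calc ∑ i ∈ Finset.range n, ∑ j ∈ Finset.Ico (i + 1) n,
      ∫⁻ c, ψ (clk c (i + 1)) * ψ (clk c (j + 1)) ∂(clockLaw β γ)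
      ≤ ∑ i ∈ Finset.range n, ∫⁻ c, ENNReal.ofReal (siz c i + 1) *
        (ψ (clk c (i + 1)) * J γ ψ (clk c (i + 1))) ∂(clockLaw β γ) := Finset.sum_le_sum h1
    _ ≤ 2 * J (2 * γ) (fun s => ψ s * J γ ψ s) 0 := h2
    _ ≤ 2 * (J γ ψ 0) ^ 2 := by gcongr

/-- Second moment of a sum over the birth events (fitness one). -/
theorem second_moment (ψ : ℝ → ℝ≥0∞) (hψ : Measurable ψ) :
    ∫⁻ c, (∑' j, ψ (clk c (j + 1))) ^ 2 ∂(clockLaw β γ) ≤
      J γ (fun s => ψ s ^ 2) 0 + 4 * (J γ ψ 0) ^ 2 := by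
  have hclk := measurable_clk
  -- partial sums
  have hpart : ∀ n : ℕ, ∫⁻ c, (∑ j ∈ Finset.range n, ψ (clk c (j + 1))) ^ 2 ∂(clockLaw β γ) ≤
      J γ (fun s => ψ s ^ 2) 0 + 4 * (J γ ψ 0) ^ 2 := by
    intro n
    have hsq : ∀ a : ℕ → ℝ≥0∞, (∑ j ∈ Finset.range n, a j) ^ 2 =
        ∑ j ∈ Finset.range n, a j ^ 2 +
          2 * ∑ i ∈ Finset.range n, ∑ j ∈ Finset.Ico (i + 1) n, a i * a j := by
      intro a
      induction n with
      | zero => simp
      | succ n ih =>
        rw [Finset.sum_range_succ, Finset.sum_range_succ, add_sq, ih, Finset.sum_range_succ]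
        have hz : Finset.Ico (n + 1) (n + 1) = ∅ := by simp
        rw [hz, Finset.sum_empty, add_zero]
        have hs : ∑ i ∈ Finset.range n, ∑ j ∈ Finset.Ico (i + 1) (n + 1), a i * a j =
            ∑ i ∈ Finset.range n, ∑ j ∈ Finset.Ico (i + 1) n, a i * a j +
              (∑ i ∈ Finset.range n, a i) * a n := by
          rw [Finset.sum_mul, ← Finset.sum_add_distrib]
          refine Finset.sum_congr rfl fun i hi => ?_
          rw [Finset.mem_range] at hi
          rw [Finset.sum_Ico_succ_top (by omega)]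
        rw [hs]
        ring
    have hm : ∀ j : ℕ, Measurable fun c : ℕ → Mark => ψ (clk c (j + 1)) :=
      fun j => hψ.comp (hclk (j + 1))
    calc ∫⁻ c, (∑ j ∈ Finset.range n, ψ (clk c (j + 1))) ^ 2 ∂(clockLaw β γ)
        = ∫⁻ c, (∑ j ∈ Finset.range n, ψ (clk c (j + 1)) ^ 2 +
          2 * ∑ i ∈ Finset.range n, ∑ j ∈ Finset.Ico (i + 1) n,
            ψ (clk c (i + 1)) * ψ (clk c (j + 1))) ∂(clockLaw β γ) := by
          refine lintegral_congr fun c => ?_
          exact hsq fun j => ψ (clk c (j + 1))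
      _ = ∑ j ∈ Finset.range n, ∫⁻ c, ψ (clk c (j + 1)) ^ 2 ∂(clockLaw β γ) +
          2 * ∑ i ∈ Finset.range n, ∑ j ∈ Finset.Ico (i + 1) n,
            ∫⁻ c, ψ (clk c (i + 1)) * ψ (clk c (j + 1)) ∂(clockLaw β γ) := by
          rw [lintegral_add_left, lintegral_finsetSum, lintegral_const_mul, lintegral_finsetSum]
          · congr 2
            refine Finset.sum_congr rfl fun i _ => ?_
            rw [lintegral_finsetSum]
            exact fun j _ => (hm i).mul (hm j)
          · exact fun i _ => Finset.measurable_sum _ fun j _ => (hm i).mul (hm j)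
          · exact Finset.measurable_sum _ fun i _ => Finset.measurable_sum _
              fun j _ => (hm i).mul (hm j)
          · exact fun j _ => (hm j).pow_const 2
          · exact Finset.measurable_sum _ fun j _ => (hm j).pow_const 2
      _ ≤ J γ (fun s => ψ s ^ 2) 0 + 2 * (2 * (J γ ψ 0) ^ 2) := by
          gcongr
          · rw [← intensity (β := β) (fun s => ψ s ^ 2) (hψ.pow_const 2)]
            exact ENNReal.sum_le_tsum _
          · exact two_point ψ hψ n
      _ = J γ (fun s => ψ s ^ 2) 0 + 4 * (J γ ψ 0) ^ 2 := by ring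
  have hlim : ∀ c : ℕ → Mark, Tendsto (fun n : ℕ =>
      (∑ j ∈ Finset.range n, ψ (clk c (j + 1))) ^ 2) atTop
      (𝓝 ((∑' j, ψ (clk c (j + 1))) ^ 2)) := by
    intro c
    exact (ENNReal.continuous_pow 2).continuousAt.tendsto.comp (ENNReal.tendsto_nat_tsum _)
  have hmono : ∀ c : ℕ → Mark, Monotone fun n : ℕ =>
      (∑ j ∈ Finset.range n, ψ (clk c (j + 1))) ^ 2 := by
    intro c a b hab
    have : ∑ j ∈ Finset.range a, ψ (clk c (j + 1)) ≤ ∑ j ∈ Finset.range b, ψ (clk c (j + 1)) :=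
      Finset.sum_le_sum_of_subset (Finset.range_mono hab)
    simp only
    gcongr
  have hmeas : ∀ n : ℕ, Measurable fun c : ℕ → Mark =>
      (∑ j ∈ Finset.range n, ψ (clk c (j + 1))) ^ 2 := fun n =>
    (Finset.measurable_sum _ fun j _ => hψ.comp (hclk (j + 1))).pow_const 2
  have hconv := lintegral_tendsto_of_tendsto_of_monotone
    (μ := clockLaw β γ) (fun n => (hmeas n).aemeasurable)
    (Filter.Eventually.of_forall hmono) (Filter.Eventually.of_forall hlim)
  exact le_of_tendsto' hconv hpart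

end Pool.Agent.H96.Cond
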