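import Mathlib
import Pool.Agent.H96.Cond.Moments

/-!
# The tree of families: measurability, dependence on ancestors, sums over labels
-/

set_option autoImplicit false

open MeasureTheory ProbabilityTheory Set Filter Topology
open scoped ENNReal

namespace Pool.Agent.H96.Cond

theorem meas_tsum {α ι : Type*} [MeasurableSpace α] [Countable ι] {f : ι → α → ℝ≥0∞}
    (h : ∀ i, Measurable (f i)) : Measurable fun x => ∑' i, f i x :=
  Measurable.tsum h

/-! ### Lives -/

theorem age_eq (L : Life) (j : ℕ) : age L j = clk L.2 (j + 1) / L.1 := by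
  unfold age clk
  rw [Finset.sum_div]
  refine Finset.sum_congr rfl fun i _ => ?_
  rw [mul_comm, div_mul_eq_div_div]

theorem measurable_age (j : ℕ) : Measurable fun L : Life => age L j := by
  simp only [age_eq]
  exact ((measurable_clk (j + 1)).comp measurable_snd).div measurable_fst

theorem measurableSet_G (j : ℕ) : MeasurableSet {c : ℕ → Mark | (c j).2.2 = true} :=
  (measurable_snd.comp (measurable_snd.comp (measurable_pi_apply j)))
    (measurableSet_singleton true)

theorem measurableSet_B (j : ℕ) : MeasurableSet {c : ℕ → Mark | (c j).2.1 = true} :=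
  (measurable_fst.comp (measurable_snd.comp (measurable_pi_apply j)))
    (measurableSet_singleton true)

theorem measurable_members : Measurable fun p : Life × ℝ => members p.1 p.2 := by
  unfold members
  refine measurable_const.add (meas_tsum fun j => ?_)
  refine Measurable.ite ?_ measurable_const measurable_const
  exact (measurableSet_le ((measurable_age j).comp measurable_fst) measurable_snd).inter
    ((measurable_snd.comp measurable_fst) (measurableSet_G j))

/-! ### The tilted weights -/

open Classical in
/-- The tilted weight `e^{-γ τ_u}` of the family `u` (zero if it is never founded). -/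
noncomputable def wgt (γ : ℝ) (ω : Pop) (u : List ℕ) : ℝ≥0∞ :=
  if alive ω u then ENNReal.ofReal (Real.exp (-(γ * birth ω u))) else 0

/-- Tilted weight of the `j`-th child relative to its parent. -/
noncomputable def cw (γ : ℝ) (L : Life) (j : ℕ) : ℝ≥0∞ :=
  (if (L.2 j).2.1 = true then 1 else 0) * ENNReal.ofReal (Real.exp (-(γ * age L j)))

theorem wgt_nil (γ : ℝ) (ω : Pop) : wgt γ ω [] = 1 := by
  simp [wgt, alive, birth]

theorem wgt_cons (γ : ℝ) (ω : Pop) (j : ℕ) (u : List ℕ) :
    wgt γ ω (j :: u) = wgt γ ω u * cw γ (ω u) j := by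
  unfold wgt cw
  by_cases h1 : alive ω u
  · by_cases h2 : ((ω u).2 j).2.1 = true
    · rw [if_pos (show alive ω (j :: u) from ⟨h1, h2⟩), if_pos h1, if_pos h2, one_mul,
        ← ENNReal.ofReal_mul (Real.exp_pos _).le, ← Real.exp_add]
      simp only [birth]
      congr 2
      ring
    · rw [if_neg (show ¬ alive ω (j :: u) from fun h => h2 h.2), if_neg h2, zero_mul, mul_zero]
  · rw [if_neg (show ¬ alive ω (j :: u) from fun h => h1 h.1), if_neg h1, zero_mul]

theorem measurable_cw (γ : ℝ) (j : ℕ) : Measurable fun L : Life => cw γ L j := by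
  unfold cw
  refine Measurable.mul ?_ ((((measurable_age j).const_mul γ).neg.exp).ennreal_ofReal)
  exact Measurable.ite (measurable_snd (measurableSet_B j)) measurable_const measurable_const

theorem measurable_birth (u : List ℕ) : Measurable fun ω : Pop => birth ω u := by
  induction u with
  | nil => exact measurable_const
  | cons j u ih => exact ih.add ((measurable_age j).comp (measurable_pi_apply u))

theorem measurable_wgt (γ : ℝ) (u : List ℕ) : Measurable fun ω : Pop => wgt γ ω u := by
  induction u with
  | nil => simp only [wgt_nil]; exact measurable_const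
  | cons j u ih =>
    simp only [wgt_cons]
    exact ih.mul ((measurable_cw γ j).comp (measurable_pi_apply u))

theorem measurableSet_alive (u : List ℕ) : MeasurableSet {ω : Pop | alive ω u} := by
  induction u with
  | nil => simp [alive]
  | cons j u ih =>
    have : {ω : Pop | alive ω (j :: u)} = {ω | alive ω u} ∩
        (fun ω : Pop => (ω u).2) ⁻¹' {c | (c j).2.1 = true} := by
      ext ω; rfl
    rw [this]
    exact ih.inter ((measurable_snd.comp (measurable_pi_apply u)) (measurableSet_B j))

/-! ### Dependence on strict ancestors only -/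

/-- `x` and `y` agree on the strict ancestors of `u`. -/
def AgreeAnc (x y : Pop) (u : List ℕ) : Prop := ∀ w, w <:+ u → w ≠ u → x w = y w

theorem AgreeAnc.parent {x y : Pop} {j : ℕ} {u : List ℕ} (h : AgreeAnc x y (j :: u)) :
    AgreeAnc x y u := by
  intro w hw _
  refine h w (hw.trans (List.suffix_cons j u)) ?_
  intro hc
  have h1 := hw.length_le
  rw [hc, List.length_cons] at h1
  omega

theorem AgreeAnc.at_parent {x y : Pop} {j : ℕ} {u : List ℕ} (h : AgreeAnc x y (j :: u)) :
    x u = y u := by
  refine h u (List.suffix_cons j u) ?_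
  intro hc
  have := congrArg List.length hc
  simp at this

theorem birth_congr {x y : Pop} (u : List ℕ) (h : AgreeAnc x y u) : birth x u = birth y u := by
  induction u with
  | nil => rfl
  | cons j u ih =>
    simp only [birth]
    rw [ih h.parent, h.at_parent]

theorem wgt_congr (γ : ℝ) {x y : Pop} (u : List ℕ) (h : AgreeAnc x y u) :
    wgt γ x u = wgt γ y u := by
  induction u with
  | nil => simp [wgt_nil]
  | cons j u ih =>
    rw [wgt_cons, wgt_cons, ih h.parent, h.at_parent]

theorem agreeAnc_update (x : Pop) (u : List ℕ) (L : Life) :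
    AgreeAnc (Function.update x u L) x u := by
  intro w _ hw
  exact Function.update_of_ne hw _ _

theorem agreeAnc_glue {x y : Pop} (v u : List ℕ) (h : ¬ (v <:+ u ∧ v ≠ u)) :
    AgreeAnc (glue v x y) x u := by
  intro w hw hne
  apply glue_of_not_suffix
  intro hv
  apply h
  refine ⟨hv.trans hw, ?_⟩
  rintro rfl
  exact hne (hw.eq_of_length (le_antisymm hw.length_le hv.length_le))

/-! ### Sums over labels -/

/-- Nonempty labels split off their first letter. -/
theorem tsum_list (f : List ℕ → ℝ≥0∞) :
    ∑' u, f u = f [] + ∑' u : List ℕ, ∑' j : ℕ, f (j :: u) := by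
  rw [ENNReal.tsum_eq_add_tsum_ite []]
  congr 1
  have hinj : Function.Injective fun p : List ℕ × ℕ => p.2 :: p.1 := by
    rintro ⟨u, j⟩ ⟨v, k⟩ h
    simp only [List.cons.injEq] at h
    rw [Prod.mk.injEq]
    exact ⟨h.2, h.1⟩
  have hsupp : Function.support (fun u : List ℕ => ite (u = []) 0 (f u)) ⊆
      Set.range fun p : List ℕ × ℕ => p.2 :: p.1 := by
    intro u hu
    cases u with
    | nil => simp at hu
    | cons j u => exact ⟨(u, j), rfl⟩
  have key : ∑' u : List ℕ, (if u = [] then 0 else f u) = ∑' u : List ℕ, ∑' j : ℕ, f (j :: u) := by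
    rw [← hinj.tsum_eq hsupp,
      ENNReal.tsum_prod (f := fun u j => ite (j :: u = []) 0 (f (j :: u)))]
    simp
  convert key

/-- Tilted sum over all families of a characteristic depending on the time since foundation. -/
noncomputable def cmj (γ : ℝ) (χ : ℝ → Life → ℝ≥0∞) (t : ℝ) (ω : Pop) : ℝ≥0∞ :=
  ∑' u, wgt γ ω u * χ (t - birth ω u) (ω u)

/-- The tilted renewal measure. -/
noncomputable def ren (μ : Measure ℝ) (β γ : ℝ) : Measure ℝ :=
  Measure.sum fun u : List ℕ =>
    ((popLaw μ β γ).withDensity fun ω => wgt γ ω u).map fun ω => birth ω u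

theorem lintegral_ren (μ : Measure ℝ) (β γ : ℝ) (ψ : ℝ → ℝ≥0∞) (hψ : Measurable ψ) :
    ∫⁻ r, ψ r ∂(ren μ β γ) = ∑' u, ∫⁻ ω, wgt γ ω u * ψ (birth ω u) ∂(popLaw μ β γ) := by
  unfold ren
  rw [lintegral_sum_measure]
  refine tsum_congr fun u => ?_
  have hm : Measurable fun ω : Pop => ψ (birth ω u) := hψ.comp (measurable_birth u)
  rw [lintegral_map hψ (measurable_birth u),
    lintegral_withDensity_eq_lintegral_mul _ (measurable_wgt γ u) hm]
  rfl

section mean

variable {β γ : ℝ} [hp : Params β γ] (μ : Measure ℝ) [IsProbabilityMeasure μ]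

/-- Independence of the life of `u` from its strict ancestors. -/
theorem lintegral_at (u : List ℕ) (Φ : ℝ≥0∞ → ℝ → Life → ℝ≥0∞)
    (hΦ : Measurable fun p : (ℝ≥0∞ × ℝ) × Life => Φ p.1.1 p.1.2 p.2) :
    ∫⁻ ω, Φ (wgt γ ω u) (birth ω u) (ω u) ∂(popLaw μ β γ) =
      ∫⁻ ω, ∫⁻ L, Φ (wgt γ ω u) (birth ω u) L ∂(lifeLaw μ β γ) ∂(popLaw μ β γ) := by
  have h1 : Measurable fun p : Pop × Life => ((wgt γ p.1 u, birth p.1 u), p.2) :=
    (((measurable_wgt γ u).comp measurable_fst).prodMk
      ((measurable_birth u).comp measurable_fst)).prodMk measurable_snd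
  exact lintegral_coord (lifeLaw μ β γ) u (fun ω L => Φ (wgt γ ω u) (birth ω u) L)
    (hΦ.comp h1) (by
      intro x y z
      rw [wgt_congr γ u (agreeAnc_update x u y), birth_congr u (agreeAnc_update x u y)])

/-- Mean of a tilted sum. -/
theorem lintegral_cmj (χ : ℝ → Life → ℝ≥0∞) (hχ : Measurable fun p : ℝ × Life => χ p.1 p.2)
    (t : ℝ) :
    ∫⁻ ω, cmj γ χ t ω ∂(popLaw μ β γ) =
      ∫⁻ r, ∫⁻ L, χ (t - r) L ∂(lifeLaw μ β γ) ∂(ren μ β γ) := by
  have hm : Measurable fun r : ℝ => ∫⁻ L, χ (t - r) L ∂(lifeLaw μ β γ) := by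
    apply Measurable.lintegral_prod_right' (f := fun p : ℝ × Life => χ (t - p.1) p.2)
    exact hχ.comp ((measurable_const.sub measurable_fst).prodMk measurable_snd)
  rw [lintegral_ren μ β γ _ hm]
  unfold cmj
  rw [lintegral_tsum]
  · refine tsum_congr fun u => ?_
    rw [lintegral_at μ u (fun w b L => w * χ (t - b) L)]
    · refine lintegral_congr fun ω => ?_
      rw [lintegral_const_mul]
      exact hχ.comp (measurable_const.prodMk measurable_id)
    · exact (measurable_fst.comp measurable_fst).mul
        (hχ.comp ((measurable_const.sub (measurable_snd.comp measurable_fst)).prodMk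
          measurable_snd))
  · intro u
    exact ((measurable_wgt γ u).mul (hχ.comp ((measurable_const.sub (measurable_birth u)).prodMk
      (measurable_pi_apply u)))).aemeasurable

end mean

end Pool.Agent.H96.Cond
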