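import Mathlib
import Pool.Agent.H96.Cond.Tree

/-!
# Moments of a family with given fitness
-/

set_option autoImplicit false

open MeasureTheory ProbabilityTheory Set Filter Topology
open scoped ENNReal

namespace Pool.Agent.H96.Cond

theorem add_sq_le (a b : ℝ≥0∞) : (a + b) ^ 2 ≤ 2 * (a ^ 2 + b ^ 2) := by
  by_cases ha : a = ⊤
  · simp [ha]
  · by_cases hb : b = ⊤
    · simp [hb]
    · lift a to NNReal using ha
      lift b to NNReal using hb
      norm_cast
      rw [← NNReal.coe_le_coe]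
      push_cast
      nlinarith [sq_nonneg ((a : ℝ) - b)]

/-- Growth kernel of a family with fitness `y`. -/
noncomputable def Kf (γ y : ℝ) (φ : ℝ → ℝ≥0∞) : ℝ≥0∞ :=
  ∫⁻ a in Ioi (0 : ℝ), ENNReal.ofReal (y * Real.exp (γ * y * a)) * φ a

theorem J_scale (γ y : ℝ) (hy : 0 < y) (φ : ℝ → ℝ≥0∞) (hφ : Measurable φ) :
    J γ (fun s => φ (s / y)) 0 = Kf γ y φ := by
  unfold J Kf
  have hmap : Measure.map (fun a => y * a) (volume : Measure ℝ) =
      ENNReal.ofReal |y⁻¹| • (volume : Measure ℝ) := Real.map_volume_mul_left hy.ne'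
  have hvol : (volume : Measure ℝ) = ENNReal.ofReal y • Measure.map (fun a => y * a) volume := by
    rw [hmap, smul_smul, ← ENNReal.ofReal_mul hy.le, abs_of_pos (inv_pos.2 hy),
      mul_inv_cancel₀ hy.ne', ENNReal.ofReal_one, one_smul]
  rw [← lintegral_indicator measurableSet_Ioi, ← lintegral_indicator measurableSet_Ioi]
  conv_lhs => rw [hvol]
  rw [lintegral_smul_measure, lintegral_map, smul_eq_mul, ← lintegral_const_mul' _ _
    ENNReal.ofReal_ne_top]
  · refine lintegral_congr fun a => ?_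
    by_cases ha : 0 < a
    · rw [indicator_of_mem (show y * a ∈ Ioi (0 : ℝ) from mul_pos hy ha),
        indicator_of_mem (show a ∈ Ioi (0 : ℝ) from ha), zero_add, ← mul_assoc,
        ← ENNReal.ofReal_mul hy.le, mul_assoc γ y a]
      beta_reduce
      rw [mul_div_cancel_left₀ _ hy.ne']
    · rw [indicator_of_notMem, indicator_of_notMem, mul_zero]
      · exact ha
      · simp only [mem_Ioi, not_lt] at ha ⊢
        exact mul_nonpos_of_nonneg_of_nonpos hy.le ha
  · refine Measurable.indicator ?_ measurableSet_Ioi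
    fun_prop
  · fun_prop

variable {β γ : ℝ} [hp : Params β γ]

theorem mean_ages (y : ℝ) (hy : 0 < y) (φ : ℝ → ℝ≥0∞) (hφ : Measurable φ) :
    ∫⁻ c, ∑' j, φ (age (y, c) j) ∂(clockLaw β γ) = Kf γ y φ := by
  have hφ' : Measurable fun s : ℝ => φ (s / y) := by fun_prop
  rw [← J_scale γ y hy φ hφ, ← intensity (β := β) _ hφ', lintegral_tsum]
  · simp only [age_eq]
  · intro j
    simp only [age_eq]
    exact (hφ'.comp (measurable_clk (j + 1))).aemeasurable

theorem mean_agesB (y : ℝ) (hy : 0 < y) (φ : ℝ → ℝ≥0∞) (hφ : Measurable φ) :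
    ∫⁻ c, ∑' j, (if (c j).2.1 = true then 1 else 0) * φ (age (y, c) j) ∂(clockLaw β γ) =
      ENNReal.ofReal β * Kf γ y φ := by
  have hφ' : Measurable fun s : ℝ => φ (s / y) := by fun_prop
  rw [← J_scale γ y hy φ hφ, ← intensityB (β := β) _ hφ', lintegral_tsum]
  · simp only [age_eq]
  · intro j
    simp only [age_eq]
    exact ((Measurable.ite (measurableSet_B j) measurable_const measurable_const).mul
      (hφ'.comp (measurable_clk (j + 1)))).aemeasurable

theorem mean_agesG (y : ℝ) (hy : 0 < y) (φ : ℝ → ℝ≥0∞) (hφ : Measurable φ) :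
    ∫⁻ c, ∑' j, (if (c j).2.2 = true then 1 else 0) * φ (age (y, c) j) ∂(clockLaw β γ) =
      ENNReal.ofReal γ * Kf γ y φ := by
  have hφ' : Measurable fun s : ℝ => φ (s / y) := by fun_prop
  rw [← J_scale γ y hy φ hφ, ← intensityG (β := β) _ hφ', lintegral_tsum]
  · simp only [age_eq]
  · intro j
    simp only [age_eq]
    exact ((Measurable.ite (measurableSet_G j) measurable_const measurable_const).mul
      (hφ'.comp (measurable_clk (j + 1)))).aemeasurable

theorem second_ages (y : ℝ) (hy : 0 < y) (φ : ℝ → ℝ≥0∞) (hφ : Measurable φ) :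
    ∫⁻ c, (∑' j, φ (age (y, c) j)) ^ 2 ∂(clockLaw β γ) ≤
      Kf γ y (fun a => φ a ^ 2) + 4 * (Kf γ y φ) ^ 2 := by
  have hφ' : Measurable fun s : ℝ => φ (s / y) := by fun_prop
  rw [← J_scale γ y hy φ hφ, ← J_scale γ y hy _ (hφ.pow_const 2)]
  simp only [age_eq]
  exact second_moment _ hφ'

omit hp in
theorem Kf_Iic (hγ : 0 < γ) (y : ℝ) (hy : 0 < y) (a : ℝ) (ha : 0 ≤ a) :
    Kf γ y ((Iic a).indicator fun _ => 1) = ENNReal.ofReal ((Real.exp (γ * y * a) - 1) / γ) := by
  unfold Kf
  have h1 : ∫⁻ s in Ioi (0 : ℝ), ENNReal.ofReal (y * Real.exp (γ * y * s)) *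
      (Iic a).indicator (fun _ => 1) s =
      ∫⁻ s in Ioc (0 : ℝ) a, ENNReal.ofReal (y * Real.exp (γ * y * s)) := by
    rw [← lintegral_indicator measurableSet_Ioi, ← lintegral_indicator measurableSet_Ioc]
    refine lintegral_congr fun s => ?_
    by_cases h0 : 0 < s
    · by_cases h1 : s ≤ a
      · rw [indicator_of_mem (show s ∈ Ioi (0 : ℝ) from h0),
          indicator_of_mem (show s ∈ Iic a from h1), indicator_of_mem
          (show s ∈ Ioc 0 a from ⟨h0, h1⟩), mul_one]
      · rw [indicator_of_mem (show s ∈ Ioi (0 : ℝ) from h0),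
          indicator_of_notMem (show s ∉ Iic a from h1),
          indicator_of_notMem (show s ∉ Ioc 0 a from fun h => h1 h.2), mul_zero]
    · rw [indicator_of_notMem (show s ∉ Ioi (0 : ℝ) from h0),
          indicator_of_notMem (show s ∉ Ioc 0 a from fun h => h0 h.1)]
  have h2 : ∫ s in (0 : ℝ)..a, y * Real.exp (γ * y * s) = (Real.exp (γ * y * a) - 1) / γ := by
    have hderiv : ∀ s ∈ uIcc (0 : ℝ) a, HasDerivAt (fun s => Real.exp (γ * y * s) / γ)
        (y * Real.exp (γ * y * s)) s := by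
      intro s _
      have h1 : HasDerivAt (fun s : ℝ => γ * y * s) (γ * y) s := by
        simpa using (hasDerivAt_id s).const_mul (γ * y)
      refine (h1.exp.div_const γ).congr_deriv ?_
      field_simp
    rw [intervalIntegral.integral_eq_sub_of_hasDerivAt hderiv
      (Continuous.intervalIntegrable (by fun_prop) _ _)]
    simp only [mul_zero, Real.exp_zero]
    ring
  rw [h1, ← h2, intervalIntegral.integral_of_le ha, ofReal_integral_eq_lintegral_ofReal]
  · exact (Continuous.integrableOn_Icc (by fun_prop)).mono_set Ioc_subset_Icc_self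
  · exact Filter.Eventually.of_forall fun s => by positivity

omit hp in
theorem members_eq (L : Life) (a : ℝ) :
    members L a = 1 + ∑' j, (if (L.2 j).2.2 = true then 1 else 0) *
      (Iic a).indicator (fun _ => (1 : ℝ≥0∞)) (age L j) := by
  unfold members
  congr 1
  refine tsum_congr fun j => ?_
  by_cases h1 : age L j ≤ a
  · by_cases h2 : (L.2 j).2.2 = true
    · simp [h1, h2]
    · simp [h2]
  · simp [h1]

/-- Mean size of a family. -/
theorem mean_members (y : ℝ) (hy : 0 < y) (a : ℝ) (ha : 0 ≤ a) :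
    ∫⁻ c, members (y, c) a ∂(clockLaw β γ) = ENNReal.ofReal (Real.exp (γ * y * a)) := by
  have hγ := hp.γ_pos
  simp only [members_eq]
  rw [lintegral_add_left measurable_const, lintegral_const, measure_univ, mul_one,
    mean_agesG y hy _ (measurable_const.indicator measurableSet_Iic), Kf_Iic hγ y hy a ha,
    ← ENNReal.ofReal_mul hγ.le, ← ENNReal.ofReal_one, ← ENNReal.ofReal_add zero_le_one]
  · congr 1
    field_simp
    ring
  · have : 1 ≤ Real.exp (γ * y * a) := Real.one_le_exp (by positivity)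
    apply mul_nonneg hγ.le
    apply div_nonneg _ hγ.le
    linarith

/-- Second moment of the size of a family. -/
theorem second_members (y : ℝ) (hy : 0 < y) (a : ℝ) (ha : 0 ≤ a) :
    ∫⁻ c, members (y, c) a ^ 2 ∂(clockLaw β γ) ≤
      ENNReal.ofReal ((2 + 2 / γ + 8 / γ ^ 2) * Real.exp (2 * (γ * y * a))) := by
  have hγ := hp.γ_pos
  set φ : ℝ → ℝ≥0∞ := (Iic a).indicator fun _ => 1 with hφ
  have hφm : Measurable φ := measurable_const.indicator measurableSet_Iic
  have hφ2 : (fun s => φ s ^ 2) = φ := by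
    funext s
    simp only [hφ]
    by_cases h : s ∈ Iic a
    · rw [indicator_of_mem h, one_pow]
    · rw [indicator_of_notMem h]; simp
  have hpt : ∀ c : ℕ → Mark, members (y, c) a ^ 2 ≤ 2 + 2 * (∑' j, φ (age (y, c) j)) ^ 2 := by
    intro c
    have h1 : members (y, c) a ≤ 1 + ∑' j, φ (age (y, c) j) := by
      rw [members_eq]
      gcongr with j
      split_ifs
      · rw [one_mul]
      · rw [zero_mul]; exact zero_le
    have h2 : ∀ x : ℝ≥0∞, (1 + x) ^ 2 ≤ 2 + 2 * x ^ 2 := by
      intro x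
      have := add_sq_le 1 x
      simpa [mul_add] using this
    calc members (y, c) a ^ 2 ≤ (1 + ∑' j, φ (age (y, c) j)) ^ 2 := by gcongr
      _ ≤ _ := h2 _
  calc ∫⁻ c, members (y, c) a ^ 2 ∂(clockLaw β γ)
      ≤ ∫⁻ c, (2 + 2 * (∑' j, φ (age (y, c) j)) ^ 2) ∂(clockLaw β γ) := lintegral_mono hpt
    _ = 2 + 2 * ∫⁻ c, (∑' j, φ (age (y, c) j)) ^ 2 ∂(clockLaw β γ) := by
        rw [lintegral_add_left measurable_const, lintegral_const, measure_univ, mul_one,
          lintegral_const_mul' _ _ (by norm_num)]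
    _ ≤ 2 + 2 * (Kf γ y φ + 4 * (Kf γ y φ) ^ 2) := by
        gcongr
        have := second_ages (β := β) (γ := γ) y hy φ hφm
        rwa [hφ2] at this
    _ ≤ ENNReal.ofReal ((2 + 2 / γ + 8 / γ ^ 2) * Real.exp (2 * (γ * y * a))) := by
        rw [hφ, Kf_Iic hγ y hy a ha]
        have h1 : 1 ≤ Real.exp (γ * y * a) := Real.one_le_exp (by positivity)
        set E := Real.exp (γ * y * a) with hE
        have hq : 0 ≤ (E - 1) / γ := div_nonneg (by linarith) hγ.le
        have hE2 : Real.exp (2 * (γ * y * a)) = E ^ 2 := by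
          rw [hE, ← Real.exp_nat_mul]; norm_num
        rw [hE2]
        have e1 : (2 : ℝ≥0∞) + 2 * (ENNReal.ofReal ((E - 1) / γ) +
            4 * ENNReal.ofReal ((E - 1) / γ) ^ 2) =
            ENNReal.ofReal (2 + 2 * ((E - 1) / γ + 4 * ((E - 1) / γ) ^ 2)) := by
          rw [ENNReal.ofReal_add (by norm_num) (by positivity), ENNReal.ofReal_mul (by norm_num),
            ENNReal.ofReal_add hq (by positivity), ENNReal.ofReal_mul (by norm_num),
            ENNReal.ofReal_pow hq]
          norm_num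
        rw [e1]
        apply ENNReal.ofReal_le_ofReal
        have h3 : (E - 1) / γ ≤ E / γ := div_le_div_of_nonneg_right (by linarith) hγ.le
        have h4 : ((E - 1) / γ) ^ 2 ≤ (E / γ) ^ 2 := by gcongr
        have h5 : E / γ ≤ E ^ 2 / γ := div_le_div_of_nonneg_right (by nlinarith) hγ.le
        have h6 : (E / γ) ^ 2 = E ^ 2 / γ ^ 2 := by rw [div_pow]
        have h7 : (2 + 2 / γ + 8 / γ ^ 2) * E ^ 2 = 2 * E ^ 2 + 2 * (E ^ 2 / γ) +
            8 * (E ^ 2 / γ ^ 2) := by ring
        rw [h7, ← h6]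
        nlinarith

end Pool.Agent.H96.Cond
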