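import Mathlib
import Pool.Agent.H96.Cond.LifeMoments

/-!
# The renewal equation
-/

set_option autoImplicit false

open MeasureTheory ProbabilityTheory Set Filter Topology
open scoped ENNReal

namespace Pool.Agent.H96.Cond

/-- Laplace transform of the distance of the fitness to its maximum. -/
noncomputable def lap (μ : Measure ℝ) (γ t : ℝ) : ℝ≥0∞ :=
  ∫⁻ y, ENNReal.ofReal (Real.exp (-(γ * (1 - y) * t))) ∂μ

/-- Density of the tilted reproduction kernel (up to the factor `β`). -/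
noncomputable def ker (μ : Measure ℝ) (γ a : ℝ) : ℝ≥0∞ :=
  ∫⁻ y, ENNReal.ofReal (y * Real.exp (-(γ * (1 - y) * a))) ∂μ

/-- Total mass of the tilted reproduction kernel. -/
noncomputable def bm (μ : Measure ℝ) (β γ : ℝ) : ℝ≥0∞ :=
  ENNReal.ofReal β * ∫⁻ a in Ioi (0 : ℝ), ker μ γ a

theorem measurable_lap (μ : Measure ℝ) [SFinite μ] (γ : ℝ) : Measurable (lap μ γ) := by
  unfold lap
  apply Measurable.lintegral_prod_right' (f := fun p : ℝ × ℝ =>
    ENNReal.ofReal (Real.exp (-(γ * (1 - p.2) * p.1))))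
  fun_prop

theorem measurable_ker (μ : Measure ℝ) [SFinite μ] (γ : ℝ) : Measurable (ker μ γ) := by
  unfold ker
  apply Measurable.lintegral_prod_right' (f := fun p : ℝ × ℝ =>
    ENNReal.ofReal (p.2 * Real.exp (-(γ * (1 - p.2) * p.1))))
  fun_prop

section child

variable {β γ : ℝ} [hp : Params β γ] (μ : Measure ℝ) [IsProbabilityMeasure μ]

/-- Mean of a sum over the children of a family whose fitness is in `A`. -/
theorem child_mean (hμ : ∀ᵐ y ∂μ, 0 < y ∧ y < 1) (A : Set ℝ) (hA : MeasurableSet A)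
    (φ : ℝ → ℝ≥0∞) (hφ : Measurable φ) :
    ∫⁻ L, A.indicator (fun _ => 1) L.1 * ∑' j, cw γ L j * φ (age L j) ∂(lifeLaw μ β γ) =
      ENNReal.ofReal β * ∫⁻ a in Ioi (0 : ℝ), ker (μ.restrict A) γ a * φ a := by
  have hmeas : Measurable fun L : Life =>
      A.indicator (fun _ => (1 : ℝ≥0∞)) L.1 * ∑' j, cw γ L j * φ (age L j) :=
    ((measurable_const.indicator hA).comp measurable_fst).mul
      (meas_tsum fun j => (measurable_cw γ j).mul (hφ.comp (measurable_age j)))
  unfold lifeLaw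
  rw [lintegral_prod _ hmeas.aemeasurable]
  have h1 : ∀ y : ℝ, 0 < y → ∫⁻ c, A.indicator (fun _ => (1 : ℝ≥0∞)) y *
      ∑' j, cw γ (y, c) j * φ (age (y, c) j) ∂(clockLaw β γ) =
      ENNReal.ofReal β * (A.indicator (fun _ => 1) y *
        ∫⁻ a in Ioi (0 : ℝ), ENNReal.ofReal (y * Real.exp (-(γ * (1 - y) * a))) * φ a) := by
    intro y hy
    have hφ2 : Measurable fun a : ℝ => ENNReal.ofReal (Real.exp (-(γ * a))) * φ a := by fun_prop
    rw [lintegral_const_mul]
    · have h2 := mean_agesB (β := β) (γ := γ) y hy _ hφ2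
      have h3 : ∀ c : ℕ → Mark, ∑' j, cw γ (y, c) j * φ (age (y, c) j) =
          ∑' j, (if (c j).2.1 = true then 1 else 0) *
            (ENNReal.ofReal (Real.exp (-(γ * age (y, c) j))) * φ (age (y, c) j)) := by
        intro c
        refine tsum_congr fun j => ?_
        unfold cw
        rw [mul_assoc]
      simp only [h3]
      rw [h2]
      unfold Kf
      rw [← mul_assoc, ← mul_assoc, mul_comm (A.indicator _ _)]
      congr 1
      refine lintegral_congr fun a => ?_
      rw [← mul_assoc, ← ENNReal.ofReal_mul (by positivity), mul_assoc, ← Real.exp_add]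
      congr 3
      ring_nf
    · exact (meas_tsum fun j => (measurable_cw γ j).mul (hφ.comp (measurable_age j))).comp
        (measurable_const.prodMk measurable_id)
  have h4 : ∫⁻ y, ∫⁻ c, A.indicator (fun _ => (1 : ℝ≥0∞)) (y, c).1 *
      ∑' j, cw γ (y, c) j * φ (age (y, c) j) ∂(clockLaw β γ) ∂μ =
      ∫⁻ y, ENNReal.ofReal β * (A.indicator (fun _ => 1) y *
        ∫⁻ a in Ioi (0 : ℝ), ENNReal.ofReal (y * Real.exp (-(γ * (1 - y) * a))) * φ a) ∂μ :=
    lintegral_congr_ae (hμ.mono fun y hy => h1 y hy.1)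
  rw [h4, lintegral_const_mul' _ _ ENNReal.ofReal_ne_top]
  congr 1
  have h5 : ∀ y : ℝ, A.indicator (fun _ => (1 : ℝ≥0∞)) y *
        ∫⁻ a in Ioi (0 : ℝ), ENNReal.ofReal (y * Real.exp (-(γ * (1 - y) * a))) * φ a =
      A.indicator (fun y => ∫⁻ a in Ioi (0 : ℝ),
        ENNReal.ofReal (y * Real.exp (-(γ * (1 - y) * a))) * φ a) y := by
    intro y
    by_cases hy : y ∈ A
    · simp [hy]
    · simp [hy]
  simp only [h5]
  rw [lintegral_indicator hA, lintegral_lintegral_swap]
  · refine lintegral_congr fun a => ?_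
    unfold ker
    rw [lintegral_mul_const]
    fun_prop
  · apply Measurable.aemeasurable
    fun_prop

theorem child_mean' (hμ : ∀ᵐ y ∂μ, 0 < y ∧ y < 1) (φ : ℝ → ℝ≥0∞) (hφ : Measurable φ) :
    ∫⁻ L, ∑' j, cw γ L j * φ (age L j) ∂(lifeLaw μ β γ) =
      ENNReal.ofReal β * ∫⁻ a in Ioi (0 : ℝ), ker μ γ a * φ a := by
  have h := child_mean (β := β) (γ := γ) μ hμ univ MeasurableSet.univ φ hφ
  simpa using h

/-- Sums over children of all families, in expectation. -/
theorem sum_children (hμ : ∀ᵐ y ∂μ, 0 < y ∧ y < 1) (A : Set ℝ) (hA : MeasurableSet A)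
    (φ : ℝ → ℝ → ℝ≥0∞) (hφ : Measurable fun p : ℝ × ℝ => φ p.1 p.2) :
    ∑' u : List ℕ, ∑' j : ℕ, ∫⁻ ω, A.indicator (fun _ => 1) (ω u).1 *
      (wgt γ ω (j :: u) * φ (birth ω u) (birth ω (j :: u))) ∂(popLaw μ β γ) =
    ∫⁻ r, (ENNReal.ofReal β * ∫⁻ a in Ioi (0 : ℝ), ker (μ.restrict A) γ a * φ r (r + a))
      ∂(ren μ β γ) := by
  have hm : Measurable fun r : ℝ => ENNReal.ofReal β *
      ∫⁻ a in Ioi (0 : ℝ), ker (μ.restrict A) γ a * φ r (r + a) := by
    apply Measurable.const_mul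
    apply Measurable.lintegral_prod_right' (f := fun p : ℝ × ℝ =>
      ker (μ.restrict A) γ p.2 * φ p.1 (p.1 + p.2))
    exact ((measurable_ker _ γ).comp measurable_snd).mul
      (hφ.comp (measurable_fst.prodMk (measurable_fst.add measurable_snd)))
  rw [lintegral_ren μ β γ _ hm]
  refine tsum_congr fun u => ?_
  have h1 : ∀ r : ℝ, ENNReal.ofReal β *
      ∫⁻ a in Ioi (0 : ℝ), ker (μ.restrict A) γ a * φ r (r + a) =
      ∫⁻ L, A.indicator (fun _ => 1) L.1 * ∑' j, cw γ L j * φ r (r + age L j)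
        ∂(lifeLaw μ β γ) := by
    intro r
    rw [child_mean μ hμ A hA (fun a => φ r (r + a))]
    exact hφ.comp (measurable_const.prodMk (measurable_const.add measurable_id))
  simp only [h1]
  rw [← lintegral_tsum]
  · have h2 : ∀ ω : Pop, ∑' j : ℕ, A.indicator (fun _ => (1 : ℝ≥0∞)) (ω u).1 *
        (wgt γ ω (j :: u) * φ (birth ω u) (birth ω (j :: u))) =
        wgt γ ω u * (A.indicator (fun _ => 1) (ω u).1 *
          ∑' j, cw γ (ω u) j * φ (birth ω u) (birth ω u + age (ω u) j)) := by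
      intro ω
      rw [← ENNReal.tsum_mul_left, ← ENNReal.tsum_mul_left]
      refine tsum_congr fun j => ?_
      rw [wgt_cons]
      simp only [birth]
      ring
    simp only [h2]
    have hmm : Measurable fun p : (ℝ≥0∞ × ℝ) × Life => p.1.1 *
        (A.indicator (fun _ => (1 : ℝ≥0∞)) p.2.1 *
          ∑' j, cw γ p.2 j * φ p.1.2 (p.1.2 + age p.2 j)) := by
      refine (measurable_fst.comp measurable_fst).mul
        (((measurable_const.indicator hA).comp (measurable_fst.comp measurable_snd)).mul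
          (meas_tsum fun j => ?_))
      exact ((measurable_cw γ j).comp measurable_snd).mul
        (hφ.comp ((measurable_snd.comp measurable_fst).prodMk
          ((measurable_snd.comp measurable_fst).add ((measurable_age j).comp measurable_snd))))
    rw [lintegral_at μ u (fun w b L => w * (A.indicator (fun _ => 1) L.1 *
          ∑' j, cw γ L j * φ b (b + age L j))) hmm]
    refine lintegral_congr fun ω => ?_
    rw [lintegral_const_mul]
    exact ((measurable_const.indicator hA).comp measurable_fst).mul (meas_tsum fun j =>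
      (measurable_cw γ j).mul (hφ.comp (measurable_const.prodMk
        (measurable_const.add (measurable_age j)))))
  · intro j
    exact (((measurable_const.indicator hA).comp
      (measurable_fst.comp (measurable_pi_apply u))).mul ((measurable_wgt γ (j :: u)).mul
        (hφ.comp ((measurable_birth u).prodMk (measurable_birth (j :: u)))))).aemeasurable

/-- The renewal equation. -/
theorem renewal (hμ : ∀ᵐ y ∂μ, 0 < y ∧ y < 1) (ψ : ℝ → ℝ≥0∞) (hψ : Measurable ψ) :
    ∫⁻ r, ψ r ∂(ren μ β γ) = ψ 0 +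
      ∫⁻ r, (ENNReal.ofReal β * ∫⁻ a in Ioi (0 : ℝ), ker μ γ a * ψ (r + a)) ∂(ren μ β γ) := by
  have h := sum_children (β := β) (γ := γ) μ hμ univ MeasurableSet.univ (fun _ b => ψ b)
    (hψ.comp measurable_snd)
  rw [Measure.restrict_univ] at h
  rw [← h, lintegral_ren μ β γ ψ hψ, tsum_list]
  congr 1
  · simp [wgt_nil, birth]
  · simp

theorem one_add_mul_inv (b : ℝ≥0∞) (hb : b < 1) : 1 + b * (1 - b)⁻¹ = (1 - b)⁻¹ := by
  have h1 : (1 - b) ≠ 0 := (tsub_pos_of_lt hb).ne'
  have h2 : (1 - b) ≠ ⊤ := ne_top_of_le_ne_top ENNReal.one_ne_top tsub_le_self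
  calc 1 + b * (1 - b)⁻¹ = (1 - b) * (1 - b)⁻¹ + b * (1 - b)⁻¹ := by
        rw [ENNReal.mul_inv_cancel h1 h2]
    _ = ((1 - b) + b) * (1 - b)⁻¹ := by rw [add_mul]
    _ = (1 - b)⁻¹ := by rw [tsub_add_cancel_of_le hb.le, one_mul]

theorem wgt_children (hμ : ∀ᵐ y ∂μ, 0 < y ∧ y < 1) (u : List ℕ) :
    ∑' j : ℕ, ∫⁻ ω, wgt γ ω (j :: u) ∂(popLaw μ β γ) =
      bm μ β γ * ∫⁻ ω, wgt γ ω u ∂(popLaw μ β γ) := by
  rw [← lintegral_tsum fun j => (measurable_wgt γ (j :: u)).aemeasurable]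
  have h1 : ∀ ω : Pop, ∑' j : ℕ, wgt γ ω (j :: u) = wgt γ ω u * ∑' j, cw γ (ω u) j := by
    intro ω
    rw [← ENNReal.tsum_mul_left]
    exact tsum_congr fun j => wgt_cons γ ω j u
  simp only [h1]
  rw [lintegral_at μ u (fun w _ L => w * ∑' j, cw γ L j)]
  · have h2 : ∫⁻ L, ∑' j, cw γ L j ∂(lifeLaw μ β γ) = bm μ β γ := by
      have := child_mean' (β := β) (γ := γ) μ hμ (fun _ => 1) measurable_const
      simp only [mul_one] at this
      exact this
    have h3 : ∀ ω : Pop, ∫⁻ L, wgt γ ω u * ∑' j, cw γ L j ∂(lifeLaw μ β γ) =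
        bm μ β γ * wgt γ ω u := by
      intro ω
      rw [lintegral_const_mul _ (meas_tsum fun j => measurable_cw γ j), h2, mul_comm]
    simp only [h3]
    rw [lintegral_const_mul _ (measurable_wgt γ u)]
  · exact (measurable_fst.comp measurable_fst).mul
      ((meas_tsum fun j => measurable_cw γ j).comp measurable_snd)

theorem gen_mass (hμ : ∀ᵐ y ∂μ, 0 < y ∧ y < 1) (hb : bm μ β γ < 1) (n : ℕ) :
    ∑' u : List ℕ, (if u.length ≤ n then ∫⁻ ω, wgt γ ω u ∂(popLaw μ β γ) else 0) ≤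
      (1 - bm μ β γ)⁻¹ := by
  induction n with
  | zero =>
    rw [tsum_list]
    simp only [List.length_nil, le_refl, if_true, List.length_cons, Nat.le_zero,
      Nat.add_eq_zero_iff, one_ne_zero, and_false, if_false, tsum_zero, add_zero]
    simp only [wgt_nil, lintegral_const, measure_univ, mul_one]
    rw [← one_add_mul_inv _ hb]
    exact le_self_add
  | succ n ih =>
    rw [tsum_list, ← one_add_mul_inv _ hb]
    gcongr
    · simp [wgt_nil]
    · calc ∑' (u : List ℕ) (j : ℕ), (if (j :: u).length ≤ n + 1 then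
            ∫⁻ ω, wgt γ ω (j :: u) ∂(popLaw μ β γ) else 0)
          = ∑' u : List ℕ, bm μ β γ *
            (if u.length ≤ n then ∫⁻ ω, wgt γ ω u ∂(popLaw μ β γ) else 0) := by
            refine tsum_congr fun u => ?_
            by_cases hu : u.length ≤ n
            · simp only [List.length_cons, Nat.add_le_add_iff_right, hu, if_true]
              exact wgt_children μ hμ u
            · simp [hu]
        _ = bm μ β γ * ∑' u : List ℕ,
            (if u.length ≤ n then ∫⁻ ω, wgt γ ω u ∂(popLaw μ β γ) else 0) :=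
            ENNReal.tsum_mul_left
        _ ≤ bm μ β γ * (1 - bm μ β γ)⁻¹ := by gcongr

theorem ren_univ_le (hμ : ∀ᵐ y ∂μ, 0 < y ∧ y < 1) (hb : bm μ β γ < 1) :
    ren μ β γ univ ≤ (1 - bm μ β γ)⁻¹ := by
  rw [← lintegral_one, lintegral_ren μ β γ _ measurable_const]
  simp only [mul_one]
  rw [ENNReal.tsum_eq_iSup_sum]
  refine iSup_le fun s => ?_
  refine le_trans ?_ (gen_mass (β := β) (γ := γ) μ hμ hb (s.sup List.length))
  refine le_trans (le_of_eq ?_) (ENNReal.sum_le_tsum s)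
  refine Finset.sum_congr rfl fun u hu => ?_
  rw [if_pos (Finset.le_sup (f := List.length) hu)]

omit hp [IsProbabilityMeasure μ] in
theorem bm_ne_top (hb : bm μ β γ < 1) : bm μ β γ ≠ ⊤ := (hb.trans ENNReal.one_lt_top).ne

theorem inv_ne_top (b : ℝ≥0∞) (hb : b < 1) : (1 - b)⁻¹ ≠ ⊤ := by
  rw [Ne, ENNReal.inv_eq_top]
  exact (tsub_pos_of_lt hb).ne'

theorem ren_finite (hμ : ∀ᵐ y ∂μ, 0 < y ∧ y < 1) (hb : bm μ β γ < 1) :
    IsFiniteMeasure (ren μ β γ) :=
  ⟨lt_of_le_of_lt (ren_univ_le μ hμ hb) (inv_ne_top _ hb).lt_top⟩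

theorem ren_univ (hμ : ∀ᵐ y ∂μ, 0 < y ∧ y < 1) (hb : bm μ β γ < 1) :
    ren μ β γ univ = (1 - bm μ β γ)⁻¹ := by
  have h := renewal (β := β) (γ := γ) μ hμ (fun _ => 1) measurable_const
  simp only [mul_one, lintegral_const, one_mul] at h
  have hb' : ENNReal.ofReal β * ∫⁻ a in Ioi (0 : ℝ), ker μ γ a = bm μ β γ := rfl
  rw [hb'] at h
  have hle := ren_univ_le (β := β) (γ := γ) μ hμ hb
  set S := ren μ β γ univ with hS
  have hS' : S ≠ ⊤ := ne_top_of_le_ne_top (inv_ne_top _ hb) hle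
  apply ENNReal.eq_inv_of_mul_eq_one_left
  have h3 : bm μ β γ * S ≠ ⊤ := ENNReal.mul_ne_top (bm_ne_top μ hb) hS'
  rw [ENNReal.mul_sub (fun _ _ => hS'), mul_one, mul_comm S]
  calc S - bm μ β γ * S = (1 + bm μ β γ * S) - bm μ β γ * S := by rw [← h]
    _ = 1 := ENNReal.add_sub_cancel_right h3

end child

end Pool.Agent.H96.Cond
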