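import Mathlib
import Pool.Agent.H96.Cond.Renewal

/-!
# Elementary estimates for the Laplace transform
-/

set_option autoImplicit false

open MeasureTheory ProbabilityTheory Set Filter Topology
open scoped ENNReal

namespace Pool.Agent.H96.Cond

section basic

variable (μ : Measure ℝ) (γ : ℝ)

theorem lap_anti (hγ : 0 ≤ γ) (hμ : ∀ᵐ y ∂μ, 0 < y ∧ y < 1) : Antitone (lap μ γ) := by
  intro s t hst
  unfold lap
  refine lintegral_mono_ae (hμ.mono fun y hy => ?_)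
  apply ENNReal.ofReal_le_ofReal
  apply Real.exp_le_exp.2
  have h1 : 0 ≤ γ * (1 - y) := mul_nonneg hγ (by linarith [hy.2])
  nlinarith [mul_le_mul_of_nonneg_left hst h1]

theorem ker_anti (hγ : 0 ≤ γ) (hμ : ∀ᵐ y ∂μ, 0 < y ∧ y < 1) : Antitone (ker μ γ) := by
  intro s t hst
  unfold ker
  refine lintegral_mono_ae (hμ.mono fun y hy => ?_)
  apply ENNReal.ofReal_le_ofReal
  apply mul_le_mul_of_nonneg_left _ hy.1.le
  apply Real.exp_le_exp.2
  have h1 : 0 ≤ γ * (1 - y) := mul_nonneg hγ (by linarith [hy.2])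
  nlinarith [mul_le_mul_of_nonneg_left hst h1]

theorem lap_zero [IsProbabilityMeasure μ] : lap μ γ 0 = 1 := by
  simp [lap]

theorem lap_le_one [IsProbabilityMeasure μ] (hγ : 0 ≤ γ) (hμ : ∀ᵐ y ∂μ, 0 < y ∧ y < 1)
    (t : ℝ) (ht : 0 ≤ t) : lap μ γ t ≤ 1 := by
  rw [← lap_zero μ γ]
  exact lap_anti μ γ hγ hμ ht

theorem lap_pos [IsProbabilityMeasure μ] (t : ℝ) : 0 < lap μ γ t := by
  unfold lap
  rw [pos_iff_ne_zero, Ne, lintegral_eq_zero_iff (by fun_prop)]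
  intro h
  have h2 : ∀ᵐ y ∂μ, False := h.mono fun y hy => by
    simp only [Pi.zero_apply, ENNReal.ofReal_eq_zero] at hy
    exact absurd hy (not_le.2 (Real.exp_pos _))
  simp only [eventually_false_iff_eq_bot, ae_eq_bot] at h2
  exact IsProbabilityMeasure.ne_zero μ h2

theorem ker_le_lap (hμ : ∀ᵐ y ∂μ, 0 < y ∧ y < 1) (t : ℝ) : ker μ γ t ≤ lap μ γ t := by
  unfold lap ker
  refine lintegral_mono_ae (hμ.mono fun y hy => ?_)
  apply ENNReal.ofReal_le_ofReal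
  nlinarith [Real.exp_pos (-(γ * (1 - y) * t)), hy.2]

theorem lap_sub_le_exp (hγ : 0 ≤ γ) (hμ : ∀ᵐ y ∂μ, 0 < y ∧ y < 1) (r a : ℝ) (ha : 0 ≤ a) :
    lap μ γ (r - a) ≤ ENNReal.ofReal (Real.exp (γ * a)) * lap μ γ r := by
  unfold lap
  rw [← lintegral_const_mul' _ _ ENNReal.ofReal_ne_top]
  refine lintegral_mono_ae (hμ.mono fun y hy => ?_)
  rw [← ENNReal.ofReal_mul (Real.exp_pos _).le, ← Real.exp_add]
  apply ENNReal.ofReal_le_ofReal
  apply Real.exp_le_exp.2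
  have h1 : 0 ≤ γ * a * y := mul_nonneg (mul_nonneg hγ ha) hy.1.le
  nlinarith

theorem lap_ne_top [IsProbabilityMeasure μ] (hγ : 0 ≤ γ) (hμ : ∀ᵐ y ∂μ, 0 < y ∧ y < 1) (t : ℝ) :
    lap μ γ t ≠ ⊤ := by
  rcases le_total 0 t with ht | ht
  · exact ne_top_of_le_ne_top ENNReal.one_ne_top (lap_le_one μ γ hγ hμ t ht)
  · have h := lap_sub_le_exp μ γ hγ hμ 0 (-t) (by linarith)
    rw [lap_zero, sub_neg_eq_add, zero_add, mul_one] at h
    exact ne_top_of_le_ne_top ENNReal.ofReal_ne_top h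

theorem exp_aux (z t a : ℝ) (hz : 0 ≤ z) (ht : 0 < t) (ha : 0 ≤ a) (hat : a ≤ t / 4) :
    Real.exp (-(z * (t - a))) ≤ Real.exp (-(z * t)) + 4 * a / t * Real.exp (-(z * (t / 2))) := by
  have hza : 0 ≤ z * a := mul_nonneg hz ha
  have h1 : Real.exp (z * a) ≤ 1 + z * a * Real.exp (z * a) := by
    have h := Real.add_one_le_exp (-(z * a))
    have h2 : Real.exp (z * a) * Real.exp (-(z * a)) = 1 := by
      rw [← Real.exp_add]; simp
    have h3 : (-(z * a) + 1) * Real.exp (z * a) ≤ 1 := by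
      calc (-(z * a) + 1) * Real.exp (z * a) ≤ Real.exp (-(z * a)) * Real.exp (z * a) :=
            mul_le_mul_of_nonneg_right h (Real.exp_pos _).le
        _ = 1 := by rw [mul_comm]; exact h2
    nlinarith
  have h4 : z * t / 4 ≤ Real.exp (z * t / 4) := by
    have := Real.add_one_le_exp (z * t / 4)
    linarith
  have h5 : Real.exp (z * a) ≤ Real.exp (z * t / 4) := by
    apply Real.exp_le_exp.2
    nlinarith
  have h6 : z * a ≤ 4 * a / t * Real.exp (z * t / 4) := by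
    have : z * a = 4 * a / t * (z * t / 4) := by field_simp
    rw [this]
    exact mul_le_mul_of_nonneg_left h4 (by positivity)
  have h7 : z * a * Real.exp (z * a) ≤ 4 * a / t * Real.exp (z * (t / 2)) := by
    calc z * a * Real.exp (z * a) ≤ (4 * a / t * Real.exp (z * t / 4)) * Real.exp (z * t / 4) :=
          mul_le_mul h6 h5 (Real.exp_pos _).le (by positivity)
      _ = 4 * a / t * Real.exp (z * (t / 2)) := by
          rw [mul_assoc, ← Real.exp_add]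
          congr 2
          ring
  have h8 : Real.exp (-(z * (t - a))) = Real.exp (-(z * t)) * Real.exp (z * a) := by
    rw [← Real.exp_add]; congr 1; ring
  have h9 : Real.exp (-(z * (t / 2))) = Real.exp (-(z * t)) * Real.exp (z * (t / 2)) := by
    rw [← Real.exp_add]; congr 1; ring
  rw [h8, h9]
  have hE := Real.exp_pos (-(z * t))
  calc Real.exp (-(z * t)) * Real.exp (z * a)
      ≤ Real.exp (-(z * t)) * (1 + 4 * a / t * Real.exp (z * (t / 2))) := by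
        apply mul_le_mul_of_nonneg_left _ hE.le
        linarith
    _ = _ := by ring

theorem lap_sub_le (hγ : 0 ≤ γ) (hμ : ∀ᵐ y ∂μ, 0 < y ∧ y < 1) (t a : ℝ) (ht : 0 < t)
    (ha : 0 ≤ a) (hat : a ≤ t / 4) :
    lap μ γ (t - a) ≤ lap μ γ t + ENNReal.ofReal (4 * a / t) * lap μ γ (t / 2) := by
  unfold lap
  rw [← lintegral_const_mul' _ _ ENNReal.ofReal_ne_top, ← lintegral_add_left (by fun_prop)]
  refine lintegral_mono_ae (hμ.mono fun y hy => ?_)
  rw [← ENNReal.ofReal_mul (by positivity), ← ENNReal.ofReal_add (Real.exp_pos _).le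
    (by positivity)]
  apply ENNReal.ofReal_le_ofReal
  exact exp_aux (γ * (1 - y)) t a (mul_nonneg hγ (by linarith [hy.2])) ht ha hat

theorem lap_le_ker (hγ : 0 < γ) (hμ : ∀ᵐ y ∂μ, 0 < y ∧ y < 1) (t : ℝ) (ht : 0 < t) :
    lap μ γ t ≤ ker μ γ t + ENNReal.ofReal (2 / (γ * t)) * lap μ γ (t / 2) := by
  unfold lap ker
  rw [← lintegral_const_mul' _ _ ENNReal.ofReal_ne_top, ← lintegral_add_left (by fun_prop)]
  refine lintegral_mono_ae (hμ.mono fun y hy => ?_)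
  rw [← ENNReal.ofReal_mul (by positivity), ← ENNReal.ofReal_add
    (mul_nonneg hy.1.le (Real.exp_pos _).le) (by positivity)]
  apply ENNReal.ofReal_le_ofReal
  set z := γ * (1 - y) with hz
  have hz0 : 0 ≤ z := mul_nonneg hγ.le (by linarith [hy.2])
  have h4 : z * t / 2 ≤ Real.exp (z * t / 2) := by
    have := Real.add_one_le_exp (z * t / 2)
    linarith
  have h9 : Real.exp (-(z * (t / 2))) = Real.exp (-(z * t)) * Real.exp (z * t / 2) := by
    rw [← Real.exp_add]; congr 1; ring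
  have h10 : 1 - y = 2 / (γ * t) * (z * t / 2) := by
    rw [hz]; field_simp
  have h11 : (1 - y) * Real.exp (-(z * t)) ≤ 2 / (γ * t) * Real.exp (-(z * (t / 2))) := by
    rw [h9, h10, mul_assoc]
    apply mul_le_mul_of_nonneg_left _ (by positivity)
    rw [mul_comm]
    exact mul_le_mul_of_nonneg_left h4 (Real.exp_pos _).le
  linarith

theorem lintegral_exp_neg (z : ℝ) (hz : 0 < z) :
    ∫⁻ a in Ioi (0 : ℝ), ENNReal.ofReal (Real.exp (-(z * a))) = ENNReal.ofReal (1 / z) := by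
  have h1 := integral_exp_mul_Ioi (a := -z) (by linarith) 0
  have h2 := integrableOn_exp_mul_Ioi (a := -z) (by linarith) 0
  rw [mul_zero, Real.exp_zero, neg_div_neg_eq] at h1
  rw [← h1, ofReal_integral_eq_lintegral_ofReal h2
    (Filter.Eventually.of_forall fun _ => (Real.exp_pos _).le)]
  refine lintegral_congr fun a => ?_
  rw [neg_mul]

/-- Total integral of the Laplace transform. -/
theorem lintegral_lap_eq [SFinite μ] (hγ : 0 < γ) (hμ : ∀ᵐ y ∂μ, 0 < y ∧ y < 1) :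
    ∫⁻ a in Ioi (0 : ℝ), lap μ γ a = ∫⁻ y, ENNReal.ofReal (1 / (γ * (1 - y))) ∂μ := by
  unfold lap
  rw [lintegral_lintegral_swap (by
    apply Measurable.aemeasurable
    fun_prop)]
  refine lintegral_congr_ae (hμ.mono fun y hy => ?_)
  have hz : 0 < γ * (1 - y) := mul_pos hγ (by linarith [hy.2])
  exact lintegral_exp_neg _ hz

theorem lintegral_ker_eq [SFinite μ] (hγ : 0 < γ) (hμ : ∀ᵐ y ∂μ, 0 < y ∧ y < 1) :
    ∫⁻ a in Ioi (0 : ℝ), ker μ γ a = ∫⁻ y, ENNReal.ofReal (y / (γ * (1 - y))) ∂μ := by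
  unfold ker
  rw [lintegral_lintegral_swap (by
    apply Measurable.aemeasurable
    fun_prop)]
  refine lintegral_congr_ae (hμ.mono fun y hy => ?_)
  have hz : 0 < γ * (1 - y) := mul_pos hγ (by linarith [hy.2])
  beta_reduce
  simp only [ENNReal.ofReal_mul hy.1.le]
  rw [lintegral_const_mul' _ _ ENNReal.ofReal_ne_top, lintegral_exp_neg _ hz,
    ← ENNReal.ofReal_mul hy.1.le, mul_one_div]

theorem lintegral_lap_ker [IsProbabilityMeasure μ] (hγ : 0 < γ)
    (hμ : ∀ᵐ y ∂μ, 0 < y ∧ y < 1) :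
    ∫⁻ a in Ioi (0 : ℝ), lap μ γ a =
      (∫⁻ a in Ioi (0 : ℝ), ker μ γ a) + ENNReal.ofReal (1 / γ) := by
  rw [lintegral_lap_eq μ γ hγ hμ, lintegral_ker_eq μ γ hγ hμ]
  have h1 : ENNReal.ofReal (1 / γ) = ∫⁻ _, ENNReal.ofReal (1 / γ) ∂μ := by
    rw [lintegral_const, measure_univ, mul_one]
  rw [h1, ← lintegral_add_left (by fun_prop)]
  refine lintegral_congr_ae (hμ.mono fun y hy => ?_)
  have h2 : 0 < 1 - y := by linarith [hy.2]
  beta_reduce
  rw [← ENNReal.ofReal_add (div_nonneg hy.1.le (mul_pos hγ h2).le) (by positivity)]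
  congr 1
  field_simp
  ring

theorem lintegral_lap_ne_top [IsProbabilityMeasure μ] {β : ℝ} (hβ : 0 < β) (hγ : 0 < γ)
    (hμ : ∀ᵐ y ∂μ, 0 < y ∧ y < 1) (hb : bm μ β γ < 1) :
    ∫⁻ a in Ioi (0 : ℝ), lap μ γ a ≠ ⊤ := by
  rw [lintegral_lap_ker μ γ hγ hμ]
  refine ENNReal.add_ne_top.2 ⟨?_, ENNReal.ofReal_ne_top⟩
  intro h
  unfold bm at hb
  rw [h, ENNReal.mul_top (by simpa using hβ)] at hb
  simp at hb

end basic

section dbl

variable (μ : Measure ℝ) [IsProbabilityMeasure μ] (γ : ℝ)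

/-- The doubling property of the Laplace transform. -/
def Dbl (D : ℝ≥0∞) : Prop := D ≠ ⊤ ∧ ∀ t, 0 ≤ t → lap μ γ (t / 2) ≤ D * lap μ γ t

variable {μ γ}

theorem Dbl.one_le {D : ℝ≥0∞} (h : Dbl μ γ D) : 1 ≤ D := by
  have := h.2 0 le_rfl
  rwa [zero_div, lap_zero, mul_one] at this

theorem lap_ratio_le {D : ℝ≥0∞} (h : Dbl μ γ D) (hγ : 0 < γ) (hμ : ∀ᵐ y ∂μ, 0 < y ∧ y < 1)
    (t a : ℝ) (ht : 0 < t) (ha : 0 ≤ a) (hat : a ≤ t / 4) :
    lap μ γ (t - a) ≤ (1 + ENNReal.ofReal (4 * a / t) * D) * lap μ γ t := by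
  refine (lap_sub_le μ γ hγ.le hμ t a ht ha hat).trans ?_
  rw [add_mul, one_mul, mul_assoc]
  gcongr
  exact h.2 t ht.le

theorem lap_le_ker' {D : ℝ≥0∞} (h : Dbl μ γ D) (hγ : 0 < γ) (hμ : ∀ᵐ y ∂μ, 0 < y ∧ y < 1)
    (t : ℝ) (ht : 0 < t) :
    lap μ γ t ≤ ker μ γ t + ENNReal.ofReal (2 / (γ * t)) * D * lap μ γ t := by
  refine (lap_le_ker μ γ hγ hμ t ht).trans ?_
  rw [mul_assoc]
  gcongr
  exact h.2 t ht.le

theorem tendsto_ofReal_div (c : ℝ) (D : ℝ≥0∞) (hD : D ≠ ⊤) :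
    Tendsto (fun t : ℝ => ENNReal.ofReal (c / t) * D) atTop (𝓝 0) := by
  have h1 : Tendsto (fun t : ℝ => c / t) atTop (𝓝 0) := tendsto_const_nhds.div_atTop tendsto_id
  have h2 := ENNReal.Tendsto.mul_const (ENNReal.tendsto_ofReal h1) (Or.inr hD)
  simpa using h2

theorem tendsto_lap_ratio {D : ℝ≥0∞} (h : Dbl μ γ D) (hγ : 0 < γ)
    (hμ : ∀ᵐ y ∂μ, 0 < y ∧ y < 1) (a : ℝ) (ha : 0 ≤ a) :
    Tendsto (fun t => lap μ γ (t - a) / lap μ γ t) atTop (𝓝 1) := by
  have h1 : Tendsto (fun t : ℝ => 1 + ENNReal.ofReal (4 * a / t) * D) atTop (𝓝 1) := by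
    have := (tendsto_ofReal_div (4 * a) D h.1).const_add 1
    rwa [add_zero] at this
  refine tendsto_of_tendsto_of_tendsto_of_le_of_le' tendsto_const_nhds h1 ?_ ?_
  · refine Filter.Eventually.of_forall fun t => ?_
    rw [ENNReal.le_div_iff_mul_le (Or.inl (lap_pos μ γ t).ne')
      (Or.inl (lap_ne_top μ γ hγ.le hμ t)), one_mul]
    exact lap_anti μ γ hγ.le hμ (by linarith)
  · filter_upwards [eventually_gt_atTop (0 : ℝ), eventually_ge_atTop (4 * a)] with t ht hat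
    apply ENNReal.div_le_of_le_mul
    exact lap_ratio_le h hγ hμ t a ht ha (by linarith)

theorem tendsto_ker_lap {D : ℝ≥0∞} (h : Dbl μ γ D) (hγ : 0 < γ)
    (hμ : ∀ᵐ y ∂μ, 0 < y ∧ y < 1) :
    Tendsto (fun t => ker μ γ t / lap μ γ t) atTop (𝓝 1) := by
  have h1 : Tendsto (fun t : ℝ => 1 - ENNReal.ofReal (2 / γ / t) * D) atTop (𝓝 1) := by
    have h2 := ENNReal.Tendsto.sub (tendsto_const_nhds (x := (1 : ℝ≥0∞)) (f := atTop))
      (tendsto_ofReal_div (2 / γ) D h.1) (Or.inl ENNReal.one_ne_top)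
    simpa using h2
  refine tendsto_of_tendsto_of_tendsto_of_le_of_le' h1 tendsto_const_nhds ?_ ?_
  · filter_upwards [eventually_gt_atTop (0 : ℝ)] with t ht
    rw [tsub_le_iff_right, div_div]
    have h3 := lap_le_ker' h hγ hμ t ht
    have hpos := (lap_pos μ γ t).ne'
    have hfin := lap_ne_top μ γ hγ.le hμ t
    calc (1 : ℝ≥0∞) = lap μ γ t / lap μ γ t := (ENNReal.div_self hpos hfin).symm
      _ ≤ (ker μ γ t + ENNReal.ofReal (2 / (γ * t)) * D * lap μ γ t) / lap μ γ t :=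
          ENNReal.div_le_div_right h3 _
      _ = _ := by
          rw [ENNReal.add_div, ENNReal.mul_div_cancel_right hpos hfin]
  · refine Filter.Eventually.of_forall fun t => ?_
    apply ENNReal.div_le_of_le_mul
    rw [one_mul]
    exact ker_le_lap μ γ hμ t

theorem tendsto_ker_ratio {D : ℝ≥0∞} (h : Dbl μ γ D) (hγ : 0 < γ)
    (hμ : ∀ᵐ y ∂μ, 0 < y ∧ y < 1) (a : ℝ) (ha : 0 ≤ a) :
    Tendsto (fun t => ker μ γ (t - a) / lap μ γ t) atTop (𝓝 1) := by
  have h1 := (tendsto_ker_lap h hγ hμ).comp (tendsto_atTop_add_const_right atTop (-a) tendsto_id)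
  have h2 := tendsto_lap_ratio h hγ hμ a ha
  have h3 := ENNReal.Tendsto.mul h1 (Or.inl one_ne_zero) h2 (Or.inl one_ne_zero)
  rw [mul_one] at h3
  refine h3.congr fun t => ?_
  simp only [Function.comp, id, ← sub_eq_add_neg]
  have hpos := (lap_pos μ γ (t - a)).ne'
  have hfin := lap_ne_top μ γ hγ.le hμ (t - a)
  rw [div_eq_mul_inv, div_eq_mul_inv, mul_assoc, ← mul_assoc _ (lap μ γ (t - a)),
    ENNReal.inv_mul_cancel hpos hfin, one_mul, ← div_eq_mul_inv]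

end dbl

end Pool.Agent.H96.Cond
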