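import Mathlib
import Pool.Agent.H96.Cond.Lap

/-!
# The tilted mean mass
-/

set_option autoImplicit false

open MeasureTheory ProbabilityTheory Set Filter Topology
open scoped ENNReal

namespace Pool.Agent.H96.Cond

/-- Tilted mean mass at time `t` of the families with fitness in `A`. -/
noncomputable def mt (μ : Measure ℝ) (β γ : ℝ) (A : Set ℝ) (t : ℝ) : ℝ≥0∞ :=
  ∫⁻ r, (Iic t).indicator (fun r => lap (μ.restrict A) γ (t - r)) r ∂(ren μ β γ)

theorem tail_tendsto (f : ℝ → ℝ≥0∞) (hf : Measurable f) (h : ∫⁻ a in Ioi (0 : ℝ), f a ≠ ⊤) :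
    Tendsto (fun A : ℝ => ∫⁻ a in Ioi A, f a) atTop (𝓝 0) := by
  have h1 : Tendsto (fun A : ℝ => ∫⁻ a in Ioi (0 : ℝ), (Ioi A).indicator f a) atTop
      (𝓝 (∫⁻ _ in Ioi (0 : ℝ), 0)) := by
    refine tendsto_lintegral_filter_of_dominated_convergence f ?_ ?_ h ?_
    · exact Filter.Eventually.of_forall fun A => hf.indicator measurableSet_Ioi
    · exact Filter.Eventually.of_forall fun A => Filter.Eventually.of_forall fun a =>
        indicator_le_self _ _ a
    · refine Filter.Eventually.of_forall fun a => ?_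
      refine tendsto_const_nhds.congr' ?_
      filter_upwards [eventually_ge_atTop a] with A hA
      rw [indicator_of_notMem (by simpa using hA)]
  rw [lintegral_zero] at h1
  refine h1.congr' ?_
  filter_upwards [eventually_ge_atTop (0 : ℝ)] with A hA
  rw [← lintegral_indicator measurableSet_Ioi, ← lintegral_indicator measurableSet_Ioi]
  refine lintegral_congr fun a => ?_
  by_cases ha : A < a
  · rw [indicator_of_mem (show a ∈ Ioi (0 : ℝ) from lt_of_le_of_lt hA ha)]
  · have h2 : (Ioi A).indicator f a = 0 := indicator_of_notMem (by simpa using ha) _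
    rw [h2]
    by_cases h0 : a ∈ Ioi (0 : ℝ)
    · rw [indicator_of_mem h0, h2]
    · rw [indicator_of_notMem h0]

theorem le_of_le_add_mul (K C ρ : ℝ≥0∞) (hK : K ≠ ⊤) (hρ : ρ < 1) (h : K ≤ C + ρ * K) :
    K ≤ C * (1 - ρ)⁻¹ := by
  have h1 : (1 - ρ) ≠ 0 := (tsub_pos_of_lt hρ).ne'
  have h2 : (1 - ρ) ≠ ⊤ := ne_top_of_le_ne_top ENNReal.one_ne_top tsub_le_self
  rw [← div_eq_mul_inv, ENNReal.le_div_iff_mul_le (Or.inl h1) (Or.inl h2),
    ENNReal.mul_sub (fun _ _ => hK), mul_one, tsub_le_iff_right, mul_comm K]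
  exact h

theorem ge_of_ge_add_mul (K C ρ : ℝ≥0∞) (hK : K ≠ ⊤) (hρ : ρ < 1) (h : C + ρ * K ≤ K) :
    C * (1 - ρ)⁻¹ ≤ K := by
  have h1 : (1 - ρ) ≠ 0 := (tsub_pos_of_lt hρ).ne'
  have h2 : (1 - ρ) ≠ ⊤ := ne_top_of_le_ne_top ENNReal.one_ne_top tsub_le_self
  have h3 : ρ * K ≠ ⊤ := ENNReal.mul_ne_top (hρ.trans ENNReal.one_lt_top).ne hK
  rw [← div_eq_mul_inv, ENNReal.div_le_iff h1 h2, ENNReal.mul_sub (fun _ _ => hK), mul_one,
    mul_comm K]
  exact ENNReal.le_sub_of_add_le_right h3 h

section mean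

variable {β γ : ℝ} [hp : Params β γ] (μ : Measure ℝ) [IsProbabilityMeasure μ]

theorem ren_neg (hμ : ∀ᵐ y ∂μ, 0 < y ∧ y < 1) (hb : bm μ β γ < 1) :
    ren μ β γ (Iio 0) = 0 := by
  have h := renewal (β := β) (γ := γ) μ hμ ((Iio (0 : ℝ)).indicator fun _ => 1)
    (measurable_const.indicator measurableSet_Iio)
  rw [lintegral_indicator_const measurableSet_Iio, one_mul,
    indicator_of_notMem (by simp), zero_add] at h
  have hfin : ren μ β γ (Iio 0) ≠ ⊤ := by
    have := ren_finite (β := β) (γ := γ) μ hμ hb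
    exact measure_ne_top _ _
  have h1 : ren μ β γ (Iio 0) ≤ bm μ β γ * ren μ β γ (Iio 0) := by
    conv_lhs => rw [h]
    rw [← one_mul (ren μ β γ (Iio 0)), ← lintegral_indicator_const measurableSet_Iio,
      ← lintegral_const_mul _ (measurable_const.indicator measurableSet_Iio)]
    refine lintegral_mono fun r => ?_
    by_cases hr : r < 0
    · rw [indicator_of_mem (show r ∈ Iio (0 : ℝ) from hr), mul_one]
      unfold bm
      gcongr with a
      calc ker μ γ a * (Iio (0 : ℝ)).indicator (fun _ => 1) (r + a) ≤ ker μ γ a * 1 := by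
            gcongr
            exact indicator_le_self' (fun _ _ => zero_le_one) _
        _ = ker μ γ a := mul_one _
    · rw [indicator_of_notMem (show r ∉ Iio (0 : ℝ) from hr), mul_zero]
      refine le_of_eq ?_
      rw [setLIntegral_congr_fun (g := fun _ => 0) measurableSet_Ioi, lintegral_zero, mul_zero]
      intro a ha
      beta_reduce
      rw [indicator_of_notMem, mul_zero]
      simp only [mem_Iio, not_lt] at hr ⊢
      have : (0 : ℝ) < a := ha
      linarith
  have h2 := le_of_le_add_mul _ 0 _ hfin hb (by rwa [zero_add])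
  simpa using h2

theorem mt_neg (hμ : ∀ᵐ y ∂μ, 0 < y ∧ y < 1) (hb : bm μ β γ < 1) (A : Set ℝ) (t : ℝ)
    (ht : t < 0) : mt μ β γ A t = 0 := by
  unfold mt
  rw [lintegral_indicator measurableSet_Iic]
  apply setLIntegral_measure_zero
  exact measure_mono_null (fun r hr => lt_of_le_of_lt hr ht) (ren_neg (β := β) (γ := γ) μ hμ hb)

theorem measurable_mt_aux (A : Set ℝ) :
    Measurable fun p : ℝ × ℝ => (Iic p.1).indicator
      (fun r => lap (μ.restrict A) γ (p.1 - r)) p.2 := by
  have : (fun p : ℝ × ℝ => (Iic p.1).indicator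
      (fun r => lap (μ.restrict A) γ (p.1 - r)) p.2) =
      {p : ℝ × ℝ | p.2 ≤ p.1}.indicator fun p => lap (μ.restrict A) γ (p.1 - p.2) := by
    funext p
    by_cases h : p.2 ≤ p.1
    · rw [indicator_of_mem (show p.2 ∈ Iic p.1 from h), indicator_of_mem (by exact h)]
    · rw [indicator_of_notMem (show p.2 ∉ Iic p.1 from h), indicator_of_notMem (by exact h)]
  rw [this]
  refine Measurable.indicator ?_ (measurableSet_le measurable_snd measurable_fst)
  exact (measurable_lap _ γ).comp (measurable_fst.sub measurable_snd)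

theorem measurable_mt (hμ : ∀ᵐ y ∂μ, 0 < y ∧ y < 1) (hb : bm μ β γ < 1) (A : Set ℝ) :
    Measurable (mt μ β γ A) := by
  have := ren_finite (β := β) (γ := γ) μ hμ hb
  unfold mt
  exact Measurable.lintegral_prod_right' (measurable_mt_aux μ A)

/-- Renewal equation for the mean mass. -/
theorem mt_renewal (hμ : ∀ᵐ y ∂μ, 0 < y ∧ y < 1) (hb : bm μ β γ < 1) (A : Set ℝ) (t : ℝ)
    (ht : 0 ≤ t) :
    mt μ β γ A t = lap (μ.restrict A) γ t +
      ENNReal.ofReal β * ∫⁻ a in Ioi (0 : ℝ), ker μ γ a * mt μ β γ A (t - a) := by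
  have := ren_finite (β := β) (γ := γ) μ hμ hb
  have hm : Measurable ((Iic t).indicator fun r => lap (μ.restrict A) γ (t - r)) :=
    ((measurable_lap _ γ).comp (measurable_const.sub measurable_id)).indicator measurableSet_Iic
  conv_lhs => unfold mt
  rw [renewal μ hμ _ hm, indicator_of_mem (show (0 : ℝ) ∈ Iic t from ht), sub_zero]
  congr 1
  have hshift : ∀ r a : ℝ, (Iic t).indicator (fun r => lap (μ.restrict A) γ (t - r)) (r + a) =
      (Iic (t - a)).indicator (fun r => lap (μ.restrict A) γ (t - a - r)) r := by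
    intro r a
    by_cases h : r + a ≤ t
    · rw [indicator_of_mem (show r + a ∈ Iic t from h),
        indicator_of_mem (show r ∈ Iic (t - a) from by simp only [mem_Iic]; linarith)]
      congr 1
      ring
    · rw [indicator_of_notMem (show r + a ∉ Iic t from h),
        indicator_of_notMem (show r ∉ Iic (t - a) from by
          simp only [mem_Iic, not_le] at h ⊢; linarith)]
  simp only [hshift]
  have hmm : Measurable fun p : ℝ × ℝ => ker μ γ p.2 * (Iic (t - p.2)).indicator
      (fun r => lap (μ.restrict A) γ (t - p.2 - r)) p.1 :=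
    ((measurable_ker μ γ).comp measurable_snd).mul
      ((measurable_mt_aux μ A).comp ((measurable_const.sub measurable_snd).prodMk measurable_fst))
  rw [lintegral_const_mul' _ _ ENNReal.ofReal_ne_top, lintegral_lintegral_swap hmm.aemeasurable]
  congr 1
  refine lintegral_congr fun a => ?_
  rw [lintegral_const_mul]
  · rfl
  · exact (measurable_mt_aux μ A).comp (measurable_const.prodMk measurable_id)

/-- Total integral of the mean mass. -/
theorem lintegral_mt (hμ : ∀ᵐ y ∂μ, 0 < y ∧ y < 1) (hb : bm μ β γ < 1) (A : Set ℝ) :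
    ∫⁻ t in Ioi (0 : ℝ), mt μ β γ A t =
      (1 - bm μ β γ)⁻¹ * ∫⁻ a in Ioi (0 : ℝ), lap (μ.restrict A) γ a := by
  have := ren_finite (β := β) (γ := γ) μ hμ hb
  have h0 : ∫⁻ t in Ioi (0 : ℝ), mt μ β γ A t = ∫⁻ t, mt μ β γ A t := by
    rw [← lintegral_indicator measurableSet_Ioi]
    have hae : ∀ᵐ t : ℝ, t ≠ 0 := by simp [ae_iff]
    refine lintegral_congr_ae (hae.mono fun t ht => ?_)
    rcases lt_or_gt_of_ne ht with h | h
    · beta_reduce
      rw [indicator_of_notMem (by simp [h.le]), mt_neg μ hμ hb A t h]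
    · exact indicator_of_mem h _
  rw [h0]
  unfold mt
  rw [lintegral_lintegral_swap (measurable_mt_aux μ A).aemeasurable]
  have h1 : ∀ r : ℝ, ∫⁻ t, (Iic t).indicator (fun r => lap (μ.restrict A) γ (t - r)) r =
      ∫⁻ a in Ioi (0 : ℝ), lap (μ.restrict A) γ a := by
    intro r
    have h2 : ∀ t : ℝ, (Iic t).indicator (fun r => lap (μ.restrict A) γ (t - r)) r =
        (Ici (0 : ℝ)).indicator (lap (μ.restrict A) γ) (t - r) := by
      intro t
      by_cases h : r ≤ t
      · rw [indicator_of_mem (show r ∈ Iic t from h),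
          indicator_of_mem (show t - r ∈ Ici (0 : ℝ) from by simpa using h)]
      · rw [indicator_of_notMem (show r ∉ Iic t from h),
          indicator_of_notMem (show t - r ∉ Ici (0 : ℝ) from by simpa using h)]
    simp only [h2]
    rw [lintegral_sub_right_eq_self (fun a => (Ici (0 : ℝ)).indicator (lap (μ.restrict A) γ) a) r,
      lintegral_indicator measurableSet_Ici, setLIntegral_congr Ioi_ae_eq_Ici]
  simp only [h1]
  rw [lintegral_const, ren_univ μ hμ hb, mul_comm]

theorem mt_le (hμ : ∀ᵐ y ∂μ, 0 < y ∧ y < 1) (hb : bm μ β γ < 1) (A : Set ℝ) (t : ℝ) :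
    mt μ β γ A t ≤ (1 - bm μ β γ)⁻¹ := by
  rw [← ren_univ (β := β) (γ := γ) μ hμ hb, ← lintegral_one]
  unfold mt
  refine lintegral_mono fun r => ?_
  by_cases h : r ∈ Iic t
  · rw [indicator_of_mem h]
    calc lap (μ.restrict A) γ (t - r) ≤ lap μ γ (t - r) := by
          unfold lap
          exact lintegral_mono' Measure.restrict_le_self le_rfl
      _ ≤ 1 := lap_le_one μ γ hp.γ_pos.le hμ _ (by simpa using h)
  · rw [indicator_of_notMem h]; exact zero_le

end mean

end Pool.Agent.H96.Cond
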