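import Mathlib
import Pool.Agent.H96.Cond.Mean

/-!
# The tilted mean mass is comparable to the Laplace transform
-/

set_option autoImplicit false

open MeasureTheory ProbabilityTheory Set Filter Topology
open scoped ENNReal

namespace Pool.Agent.H96.Cond

variable {β γ : ℝ} [hp : Params β γ] (μ : Measure ℝ) [IsProbabilityMeasure μ]

/-- Convolution with the reproduction kernel on the first half of the time interval. -/
theorem conv_first_half {D : ℝ≥0∞} (h : Dbl μ γ D) (hμ : ∀ᵐ y ∂μ, 0 < y ∧ y < 1)
    (hb : bm μ β γ < 1) (R : ℝ → ℝ≥0∞) (hR : Measurable R) (C R0 : ℝ≥0∞) (hC : C ≠ ⊤)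
    (hRC : ∀ t, 0 ≤ t → R t ≤ C) (hR0 : R0 ≠ ⊤) (hlim : Tendsto R atTop (𝓝 R0)) :
    Tendsto (fun t : ℝ => ∫⁻ a in Ioi (0 : ℝ), (Iic (t / 2)).indicator (fun a =>
      ENNReal.ofReal β * ker μ γ a * (R (t - a) * (lap μ γ (t - a) / lap μ γ t))) a) atTop
      (𝓝 (bm μ β γ * R0)) := by
  have hγ := hp.γ_pos
  have hval : bm μ β γ * R0 = ∫⁻ a in Ioi (0 : ℝ), ENNReal.ofReal β * ker μ γ a * R0 := by
    rw [lintegral_mul_const' _ _ hR0, lintegral_const_mul' _ _ ENNReal.ofReal_ne_top]
    rfl
  rw [hval]
  refine tendsto_lintegral_filter_of_dominated_convergence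
    (fun a => ENNReal.ofReal β * ker μ γ a * (C * D)) ?_ ?_ ?_ ?_
  · refine Filter.Eventually.of_forall fun t => ?_
    refine Measurable.indicator ?_ measurableSet_Iic
    refine ((measurable_ker μ γ).const_mul _).mul ?_
    refine (hR.comp (measurable_const.sub measurable_id)).mul ?_
    exact ((measurable_lap μ γ).comp (measurable_const.sub measurable_id)).div_const _
  · refine (eventually_ge_atTop (0 : ℝ)).mono fun t ht => ?_
    refine Filter.Eventually.of_forall fun a => ?_
    by_cases ha : a ∈ Iic (t / 2)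
    · rw [indicator_of_mem ha]
      have ha' : a ≤ t / 2 := ha
      gcongr
      · exact hRC _ (by linarith)
      · apply ENNReal.div_le_of_le_mul
        exact (lap_anti μ γ hγ.le hμ (show t / 2 ≤ t - a by linarith)).trans (h.2 t ht)
    · rw [indicator_of_notMem ha]
      exact zero_le
  · rw [lintegral_mul_const' _ _ (ENNReal.mul_ne_top hC h.1),
      lintegral_const_mul' _ _ ENNReal.ofReal_ne_top]
    exact ENNReal.mul_ne_top (bm_ne_top μ hb) (ENNReal.mul_ne_top hC h.1)
  · refine (ae_restrict_mem measurableSet_Ioi).mono fun a ha => ?_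
    have ha0 : (0 : ℝ) < a := ha
    have h1 : Tendsto (fun t : ℝ => R (t - a)) atTop (𝓝 R0) :=
      hlim.comp (by simpa [sub_eq_add_neg] using
        (tendsto_atTop_add_const_right atTop (-a) tendsto_id))
    have h2 := tendsto_lap_ratio h hγ hμ a ha0.le
    have h3 := ENNReal.Tendsto.mul h1 (Or.inr ENNReal.one_ne_top) h2 (Or.inl one_ne_zero)
    rw [mul_one] at h3
    have h4 : ENNReal.ofReal β * ker μ γ a ≠ ⊤ := by
      apply ENNReal.mul_ne_top ENNReal.ofReal_ne_top
      exact ne_top_of_le_ne_top (lap_ne_top μ γ hγ.le hμ a) (ker_le_lap μ γ hμ a)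
    have h5 := ENNReal.Tendsto.const_mul (a := ENNReal.ofReal β * ker μ γ a) h3 (Or.inr h4)
    refine h5.congr' ?_
    filter_upwards [eventually_ge_atTop (2 * a)] with t ht
    rw [indicator_of_mem (show a ∈ Iic (t / 2) from by simp only [mem_Iic]; linarith)]

theorem lintegral_reflect (f : ℝ → ℝ≥0∞) (t : ℝ) : ∫⁻ a, f (t - a) = ∫⁻ a, f a :=
  lintegral_sub_left_eq_self f t

/-- The tilted mean mass is bounded by a multiple of the Laplace transform. -/
theorem mt_bound {D : ℝ≥0∞} (h : Dbl μ γ D) (hμ : ∀ᵐ y ∂μ, 0 < y ∧ y < 1)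
    (hb : bm μ β γ < 1) :
    ∃ C : ℝ≥0∞, C ≠ ⊤ ∧ ∀ t, mt μ β γ univ t ≤ C * lap μ γ t := by
  have hγ := hp.γ_pos
  have hβ := hp.β_pos
  have hβ1 : ENNReal.ofReal β ≤ 1 := by
    rw [← ENNReal.ofReal_one]; exact ENNReal.ofReal_le_ofReal hp.β_le
  set b := bm μ β γ with hbdef
  have hbt : b ≠ ⊤ := bm_ne_top μ hb
  set ε := (1 - b) / 4 with hε
  have h1b : (1 - b) ≠ 0 := (tsub_pos_of_lt hb).ne'
  have h1b' : (1 - b) ≠ ⊤ := ne_top_of_le_ne_top ENNReal.one_ne_top tsub_le_self
  have hεpos : 0 < ε := ENNReal.div_pos h1b (by norm_num)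
  have hεt : ε ≠ ⊤ := ENNReal.div_ne_top h1b' (by norm_num)
  set ρ := b + 2 * ε with hρ
  have hρ1 : ρ < 1 := by
    have h2 : 2 * ε < 1 - b := by
      rw [hε, mul_comm, ← ENNReal.mul_div_right_comm]
      rw [ENNReal.div_lt_iff (Or.inl (by norm_num)) (Or.inl (by norm_num))]
      exact (ENNReal.mul_lt_mul_iff_right h1b h1b').2 (by norm_num)
    calc ρ < b + (1 - b) := by
          rw [hρ]; exact (ENNReal.add_lt_add_iff_left hbt).2 h2
      _ = 1 := add_tsub_cancel_of_le hb.le
  have hlI := lintegral_lap_ne_top μ γ hβ hγ hμ hb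
  -- choice of the cut
  obtain ⟨A, hA1, hA⟩ : ∃ A : ℝ, 1 ≤ A ∧ D * ∫⁻ a in Ioi A, lap μ γ a ≤ ε := by
    have h1 := ENNReal.Tendsto.const_mul (a := D) (tail_tendsto _ (measurable_lap μ γ) hlI)
      (Or.inr h.1)
    rw [mul_zero] at h1
    obtain ⟨A, hA⟩ := ((h1.eventually (gt_mem_nhds hεpos)).and (eventually_ge_atTop 1)).exists
    exact ⟨A, hA.2, hA.1.le⟩
  -- first half
  have hfirst := conv_first_half (β := β) μ h hμ hb (fun _ => 1) measurable_const 1 1
    ENNReal.one_ne_top (fun _ _ => le_rfl) ENNReal.one_ne_top tendsto_const_nhds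
  rw [mul_one] at hfirst
  have hlt : b < b + ε := ENNReal.lt_add_right hbt hεpos.ne'
  obtain ⟨t0, ht0⟩ := ((hfirst.eventually (gt_mem_nhds hlt)).and
    (eventually_ge_atTop (2 * A))).exists_forall_of_atTop
  set t1 := max t0 (2 * A) with ht1
  have ht1pos : 0 < t1 := lt_of_lt_of_le (by linarith) (le_max_right _ _)
  set B := (1 - b)⁻¹ with hB
  have hBt : B ≠ ⊤ := inv_ne_top b hb
  set C1 := B / lap μ γ t1 with hC1
  have hC1t : C1 ≠ ⊤ := ENNReal.div_ne_top hBt (lap_pos μ γ t1).ne'
  set C2 := D * B * ENNReal.ofReal A with hC2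
  have hC2t : C2 ≠ ⊤ := ENNReal.mul_ne_top (ENNReal.mul_ne_top h.1 hBt) ENNReal.ofReal_ne_top
  have hone : ∀ t, 0 ≤ t → lap μ γ t ≠ 0 := fun t _ => (lap_pos μ γ t).ne'
  -- bound on [0, T]
  have main : ∀ T : ℝ, 0 ≤ T → (⨆ t ∈ Icc (0 : ℝ) T, mt μ β γ univ t / lap μ γ t) ≤
      (C1 + 1 + C2) * (1 - ρ)⁻¹ := by
    intro T hT
    set K := ⨆ t ∈ Icc (0 : ℝ) T, mt μ β γ univ t / lap μ γ t with hK
    have hKt : K ≠ ⊤ := by
      refine ne_top_of_le_ne_top (ENNReal.div_ne_top hBt (lap_pos μ γ T).ne') ?_
      refine iSup₂_le fun t ht => ?_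
      exact ENNReal.div_le_div (mt_le μ hμ hb univ t) (lap_anti μ γ hγ.le hμ ht.2)
    have hKle : ∀ t, t ≤ T → mt μ β γ univ t ≤ K * lap μ γ t := by
      intro t htT
      rcases lt_or_ge t 0 with hneg | hpos
      · rw [mt_neg μ hμ hb univ t hneg]; exact zero_le
      · have : mt μ β γ univ t / lap μ γ t ≤ K :=
          le_iSup₂_of_le t ⟨hpos, htT⟩ le_rfl
        rwa [ENNReal.div_le_iff (lap_pos μ γ t).ne' (lap_ne_top μ γ hγ.le hμ t)] at this
    apply le_of_le_add_mul K _ ρ hKt hρ1
    refine iSup₂_le fun t ht => ?_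
    rcases lt_or_ge t t1 with hlt1 | hge1
    · calc mt μ β γ univ t / lap μ γ t ≤ C1 :=
            ENNReal.div_le_div (mt_le μ hμ hb univ t) (lap_anti μ γ hγ.le hμ hlt1.le)
        _ ≤ C1 + 1 + C2 + ρ * K := by
            rw [add_assoc, add_assoc]; exact le_self_add
    · have htA : 2 * A ≤ t := le_trans (le_max_right _ _) hge1
      have ht0' := ht0 t (le_trans (le_max_left _ _) hge1)
      have htpos : 0 < t := lt_of_lt_of_le ht1pos hge1
      rw [ENNReal.div_le_iff (lap_pos μ γ t).ne' (lap_ne_top μ γ hγ.le hμ t),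
        mt_renewal μ hμ hb univ t htpos.le, Measure.restrict_univ,
        ← lintegral_const_mul' _ _ ENNReal.ofReal_ne_top]
      have hDt := h.2 t htpos.le
      -- pointwise bound
      have hpt : ∀ a ∈ Ioi (0 : ℝ), ENNReal.ofReal β * (ker μ γ a * mt μ β γ univ (t - a)) ≤
          K * lap μ γ t * (Iic (t / 2)).indicator (fun a =>
            ENNReal.ofReal β * ker μ γ a * (1 * (lap μ γ (t - a) / lap μ γ t))) a +
          (D * lap μ γ t * K * (Ici A).indicator (lap μ γ) (t - a) +
          D * lap μ γ t * B * (Icc (t - A) t).indicator (fun _ => 1) a) := by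
        intro a ha
        have ha0 : (0 : ℝ) < a := ha
        have hmt := hKle (t - a) (by linarith [ht.2])
        by_cases h1 : a ≤ t / 2
        · rw [indicator_of_mem (show a ∈ Iic (t / 2) from h1)]
          refine le_trans ?_ le_self_add
          calc ENNReal.ofReal β * (ker μ γ a * mt μ β γ univ (t - a))
              ≤ ENNReal.ofReal β * (ker μ γ a * (K * lap μ γ (t - a))) := by gcongr
            _ = ENNReal.ofReal β * (ker μ γ a * (K * (lap μ γ t *
                (lap μ γ (t - a) / lap μ γ t)))) := by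
                rw [ENNReal.mul_div_cancel (lap_pos μ γ t).ne' (lap_ne_top μ γ hγ.le hμ t)]
            _ = _ := by ring
        · refine le_trans ?_ le_add_self
          have hker : ENNReal.ofReal β * ker μ γ a ≤ D * lap μ γ t := by
            calc ENNReal.ofReal β * ker μ γ a ≤ 1 * lap μ γ a := by
                  gcongr
                  exact ker_le_lap μ γ hμ a
              _ ≤ 1 * lap μ γ (t / 2) := by
                  gcongr
                  exact lap_anti μ γ hγ.le hμ (not_le.1 h1).le
              _ ≤ D * lap μ γ t := by rw [one_mul]; exact hDt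
          by_cases h2 : a ≤ t - A
          · rw [indicator_of_mem (show t - a ∈ Ici A from by simp only [mem_Ici]; linarith)]
            refine le_trans ?_ le_self_add
            calc ENNReal.ofReal β * (ker μ γ a * mt μ β γ univ (t - a))
                = (ENNReal.ofReal β * ker μ γ a) * mt μ β γ univ (t - a) := by ring
              _ ≤ (D * lap μ γ t) * (K * lap μ γ (t - a)) := by gcongr
              _ = _ := by ring
          · refine le_trans ?_ le_add_self
            by_cases h3 : a ≤ t
            · rw [indicator_of_mem (show a ∈ Icc (t - A) t from ⟨(not_le.1 h2).le, h3⟩), mul_one]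
              calc ENNReal.ofReal β * (ker μ γ a * mt μ β γ univ (t - a))
                  = (ENNReal.ofReal β * ker μ γ a) * mt μ β γ univ (t - a) := by ring
                _ ≤ (D * lap μ γ t) * B := by
                    gcongr
                    exact mt_le μ hμ hb univ _
            · rw [mt_neg μ hμ hb univ (t - a) (by linarith [not_le.1 h3]), mul_zero, mul_zero]
              exact zero_le
      calc lap μ γ t + ∫⁻ a in Ioi (0 : ℝ), ENNReal.ofReal β *
            (ker μ γ a * mt μ β γ univ (t - a))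
          ≤ lap μ γ t + ∫⁻ a in Ioi (0 : ℝ), (K * lap μ γ t *
            (Iic (t / 2)).indicator (fun a =>
              ENNReal.ofReal β * ker μ γ a * (1 * (lap μ γ (t - a) / lap μ γ t))) a +
            (D * lap μ γ t * K * (Ici A).indicator (lap μ γ) (t - a) +
            D * lap μ γ t * B * (Icc (t - A) t).indicator (fun _ => 1) a)) := by
            exact add_le_add le_rfl (setLIntegral_mono' measurableSet_Ioi hpt)
        _ ≤ lap μ γ t + (K * lap μ γ t * (b + ε) + (lap μ γ t * K * ε +
              D * lap μ γ t * B * ENNReal.ofReal A)) := by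
            refine add_le_add le_rfl ?_
            have hm1 : Measurable fun a : ℝ => (Ici A).indicator (lap μ γ) (t - a) :=
              ((measurable_lap μ γ).indicator measurableSet_Ici).comp
                (measurable_const.sub measurable_id)
            have hm2 : Measurable fun a : ℝ => (Icc (t - A) t).indicator
                (fun _ => (1 : ℝ≥0∞)) a := measurable_const.indicator measurableSet_Icc
            have hm3 : Measurable fun a : ℝ => D * lap μ γ t * K *
                (Ici A).indicator (lap μ γ) (t - a) +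
                D * lap μ γ t * B * (Icc (t - A) t).indicator (fun _ => (1 : ℝ≥0∞)) a :=
              (hm1.const_mul _).add (hm2.const_mul _)
            rw [lintegral_add_right _ hm3, lintegral_add_right _ (hm2.const_mul _)]
            have hlapt := lap_ne_top μ γ hγ.le hμ t
            refine add_le_add ?_ (add_le_add ?_ ?_)
            · rw [lintegral_const_mul' _ _ (ENNReal.mul_ne_top hKt hlapt)]
              gcongr
              exact ht0'.1.le
            · rw [lintegral_const_mul' _ _
                (ENNReal.mul_ne_top (ENNReal.mul_ne_top h.1 hlapt) hKt)]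
              calc D * lap μ γ t * K * ∫⁻ a in Ioi (0 : ℝ), (Ici A).indicator (lap μ γ) (t - a)
                  ≤ D * lap μ γ t * K * ∫⁻ a, (Ici A).indicator (lap μ γ) (t - a) := by
                    gcongr
                    exact Measure.restrict_le_self
                _ = D * lap μ γ t * K * ∫⁻ a in Ioi A, lap μ γ a := by
                    rw [lintegral_reflect (fun a => (Ici A).indicator (lap μ γ) a) t,
                      lintegral_indicator measurableSet_Ici, setLIntegral_congr Ioi_ae_eq_Ici]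
                _ = lap μ γ t * K * (D * ∫⁻ a in Ioi A, lap μ γ a) := by ring
                _ ≤ _ := by gcongr
            · rw [lintegral_const_mul' _ _
                (ENNReal.mul_ne_top (ENNReal.mul_ne_top h.1 hlapt) hBt)]
              gcongr
              calc ∫⁻ a in Ioi (0 : ℝ), (Icc (t - A) t).indicator (fun _ => (1 : ℝ≥0∞)) a
                  ≤ ∫⁻ a, (Icc (t - A) t).indicator (fun _ => (1 : ℝ≥0∞)) a := by
                    gcongr
                    exact Measure.restrict_le_self
                _ = ENNReal.ofReal A := by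
                    rw [lintegral_indicator_const measurableSet_Icc, Real.volume_Icc, one_mul]
                    congr 1
                    ring
        _ = (1 + C2 + ρ * K) * lap μ γ t := by
            rw [hC2, hρ]; ring
        _ ≤ (C1 + 1 + C2 + ρ * K) * lap μ γ t := by
            gcongr
            exact le_add_self
  refine ⟨(C1 + 1 + C2) * (1 - ρ)⁻¹, ?_, fun t => ?_⟩
  · exact ENNReal.mul_ne_top (ENNReal.add_ne_top.2 ⟨ENNReal.add_ne_top.2
      ⟨hC1t, ENNReal.one_ne_top⟩, hC2t⟩) (inv_ne_top ρ hρ1)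
  · rcases lt_or_ge t 0 with hneg | hpos
    · rw [mt_neg μ hμ hb univ t hneg]; exact zero_le
    · rw [← ENNReal.div_le_iff (lap_pos μ γ t).ne' (lap_ne_top μ γ hγ.le hμ t)]
      refine le_trans ?_ (main t hpos)
      exact le_iSup₂_of_le t ⟨hpos, le_rfl⟩ le_rfl

end Pool.Agent.H96.Cond
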