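import Mathlib
import Pool.Agent.H96.Cond.MeanBound

/-!
# Asymptotics of the tilted mean mass
-/

set_option autoImplicit false

open MeasureTheory ProbabilityTheory Set Filter Topology
open scoped ENNReal

namespace Pool.Agent.H96.Cond

/-- The limit of the ratio of the tilted mean mass and the Laplace transform. -/
noncomputable def Llim (μ : Measure ℝ) (β γ : ℝ) : ℝ≥0∞ :=
  (1 + ENNReal.ofReal β * ((1 - bm μ β γ)⁻¹ * ∫⁻ a in Ioi (0 : ℝ), lap μ γ a)) *
    (1 - bm μ β γ)⁻¹

variable {β γ : ℝ} [hp : Params β γ] (μ : Measure ℝ) [IsProbabilityMeasure μ]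

theorem Llim_ne_top (hμ : ∀ᵐ y ∂μ, 0 < y ∧ y < 1) (hb : bm μ β γ < 1) : Llim μ β γ ≠ ⊤ := by
  unfold Llim
  have h1 := inv_ne_top _ hb
  have h2 := lintegral_lap_ne_top μ γ hp.β_pos hp.γ_pos hμ hb
  exact ENNReal.mul_ne_top (ENNReal.add_ne_top.2 ⟨ENNReal.one_ne_top,
    ENNReal.mul_ne_top ENNReal.ofReal_ne_top (ENNReal.mul_ne_top h1 h2)⟩) h1

/-- Convolution with the mean mass on the second half of the time interval. -/
theorem conv_second_half {D : ℝ≥0∞} (h : Dbl μ γ D) (hμ : ∀ᵐ y ∂μ, 0 < y ∧ y < 1)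
    (hb : bm μ β γ < 1) :
    Tendsto (fun t : ℝ => ∫⁻ z in Ioi (0 : ℝ), (Iio (t / 2)).indicator (fun z =>
      ENNReal.ofReal β * (mt μ β γ univ z * (ker μ γ (t - z) / lap μ γ t))) z) atTop
      (𝓝 (ENNReal.ofReal β * ∫⁻ z in Ioi (0 : ℝ), mt μ β γ univ z)) := by
  have hγ := hp.γ_pos
  have hS : ∫⁻ z in Ioi (0 : ℝ), mt μ β γ univ z ≠ ⊤ := by
    rw [lintegral_mt μ hμ hb, Measure.restrict_univ]
    exact ENNReal.mul_ne_top (inv_ne_top _ hb) (lintegral_lap_ne_top μ γ hp.β_pos hγ hμ hb)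
  rw [← lintegral_const_mul' _ _ ENNReal.ofReal_ne_top]
  refine tendsto_lintegral_filter_of_dominated_convergence
    (fun z => ENNReal.ofReal β * (mt μ β γ univ z * D)) ?_ ?_ ?_ ?_
  · refine Filter.Eventually.of_forall fun t => ?_
    refine Measurable.indicator ?_ measurableSet_Iio
    refine ((measurable_mt μ hμ hb univ).mul ?_).const_mul _
    exact ((measurable_ker μ γ).comp (measurable_const.sub measurable_id)).div_const _
  · refine (eventually_ge_atTop (0 : ℝ)).mono fun t ht => ?_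
    refine Filter.Eventually.of_forall fun z => ?_
    by_cases hz : z ∈ Iio (t / 2)
    · rw [indicator_of_mem hz]
      have hz' : z < t / 2 := hz
      gcongr
      apply ENNReal.div_le_of_le_mul
      refine (ker_le_lap μ γ hμ _).trans ?_
      exact (lap_anti μ γ hγ.le hμ (show t / 2 ≤ t - z by linarith)).trans (h.2 t ht)
    · rw [indicator_of_notMem hz]
      exact zero_le
  · rw [lintegral_const_mul' _ _ ENNReal.ofReal_ne_top, lintegral_mul_const' _ _ h.1]
    exact ENNReal.mul_ne_top ENNReal.ofReal_ne_top (ENNReal.mul_ne_top hS h.1)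
  · refine (ae_restrict_mem measurableSet_Ioi).mono fun z hz => ?_
    have hz0 : (0 : ℝ) < z := hz
    have h1 := tendsto_ker_ratio h hγ hμ z hz0.le
    have h2 := ENNReal.Tendsto.const_mul (a := mt μ β γ univ z) h1 (Or.inl one_ne_zero)
    rw [mul_one] at h2
    have h3 := ENNReal.Tendsto.const_mul (a := ENNReal.ofReal β) h2 (Or.inr ENNReal.ofReal_ne_top)
    refine h3.congr' ?_
    filter_upwards [eventually_gt_atTop (2 * z)] with t ht
    rw [indicator_of_mem (show z ∈ Iio (t / 2) from by simp only [mem_Iio]; linarith)]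

/-- Decomposition of the ratio. -/
theorem ratio_decomp (hμ : ∀ᵐ y ∂μ, 0 < y ∧ y < 1) (hb : bm μ β γ < 1) (t : ℝ) (ht : 0 < t) :
    mt μ β γ univ t / lap μ γ t = 1 +
      (∫⁻ a in Ioi (0 : ℝ), (Iic (t / 2)).indicator (fun a =>
        ENNReal.ofReal β * ker μ γ a * ((mt μ β γ univ (t - a) / lap μ γ (t - a)) *
          (lap μ γ (t - a) / lap μ γ t))) a) +
      (∫⁻ z in Ioi (0 : ℝ), (Iio (t / 2)).indicator (fun z =>
        ENNReal.ofReal β * (mt μ β γ univ z * (ker μ γ (t - z) / lap μ γ t))) z) := by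
  have hγ := hp.γ_pos
  have hpos : ∀ t, lap μ γ t ≠ 0 := fun t => (lap_pos μ γ t).ne'
  have hfin : ∀ t, lap μ γ t ≠ ⊤ := fun t => lap_ne_top μ γ hγ.le hμ t
  rw [mt_renewal μ hμ hb univ t ht.le, Measure.restrict_univ, ENNReal.add_div,
    ENNReal.div_self (hpos t) (hfin t), add_assoc]
  congr 1
  have hmt := measurable_mt (β := β) (γ := γ) μ hμ hb univ
  have hmk := measurable_ker μ γ
  rw [div_eq_mul_inv, ← lintegral_const_mul' _ _ ENNReal.ofReal_ne_top,
    ← lintegral_mul_const' _ _ (ENNReal.inv_ne_top.2 (hpos t))]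
  have hsplit : ∀ a, ENNReal.ofReal β * (ker μ γ a * mt μ β γ univ (t - a)) * (lap μ γ t)⁻¹ =
      (Iic (t / 2)).indicator (fun a => ENNReal.ofReal β * ker μ γ a *
        ((mt μ β γ univ (t - a) / lap μ γ (t - a)) * (lap μ γ (t - a) / lap μ γ t))) a +
      (Ioi (t / 2)).indicator (fun a => ENNReal.ofReal β * (ker μ γ a *
        mt μ β γ univ (t - a)) * (lap μ γ t)⁻¹) a := by
    intro a
    by_cases h1 : a ≤ t / 2
    · rw [indicator_of_mem (show a ∈ Iic (t / 2) from h1),
        indicator_of_notMem (show a ∉ Ioi (t / 2) from not_lt.2 h1), add_zero]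
      have : mt μ β γ univ (t - a) / lap μ γ (t - a) * (lap μ γ (t - a) / lap μ γ t) =
          mt μ β γ univ (t - a) * (lap μ γ t)⁻¹ := by
        rw [div_eq_mul_inv, div_eq_mul_inv, mul_assoc, ← mul_assoc _ (lap μ γ (t - a)),
          ENNReal.inv_mul_cancel (hpos _) (hfin _), one_mul]
      rw [this]
      ring
    · rw [indicator_of_notMem (show a ∉ Iic (t / 2) from h1),
        indicator_of_mem (show a ∈ Ioi (t / 2) from not_le.1 h1), zero_add]
  rw [lintegral_congr hsplit]
  have hm2 : Measurable fun a : ℝ => (Ioi (t / 2)).indicator (fun a => ENNReal.ofReal β *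
      (ker μ γ a * mt μ β γ univ (t - a)) * (lap μ γ t)⁻¹) a := by
    refine Measurable.indicator ?_ measurableSet_Ioi
    exact ((hmk.mul (hmt.comp (measurable_const.sub measurable_id))).const_mul _).mul_const _
  rw [lintegral_add_right _ hm2]
  congr 1
  have h1 : ∫⁻ a in Ioi (0 : ℝ), (Ioi (t / 2)).indicator (fun a => ENNReal.ofReal β *
      (ker μ γ a * mt μ β γ univ (t - a)) * (lap μ γ t)⁻¹) a =
      ∫⁻ a, (Ioi (t / 2)).indicator (fun a => ENNReal.ofReal β *
      (ker μ γ a * mt μ β γ univ (t - a)) * (lap μ γ t)⁻¹) a := by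
    rw [← lintegral_indicator measurableSet_Ioi]
    refine lintegral_congr fun a => ?_
    by_cases h0 : a ∈ Ioi (0 : ℝ)
    · rw [indicator_of_mem h0]
    · rw [indicator_of_notMem h0, indicator_of_notMem]
      intro hc
      apply h0
      have : t / 2 < a := hc
      simp only [mem_Ioi]
      linarith
  have h2 : ∫⁻ z in Ioi (0 : ℝ), (Iio (t / 2)).indicator (fun z =>
        ENNReal.ofReal β * (mt μ β γ univ z * (ker μ γ (t - z) / lap μ γ t))) z =
      ∫⁻ z, (Iio (t / 2)).indicator (fun z =>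
        ENNReal.ofReal β * (mt μ β γ univ z * (ker μ γ (t - z) / lap μ γ t))) z := by
    rw [← lintegral_indicator measurableSet_Ioi]
    have hae : ∀ᵐ z : ℝ, z ≠ 0 := by simp [ae_iff]
    refine lintegral_congr_ae (hae.mono fun z hz => ?_)
    rcases lt_or_gt_of_ne hz with h0 | h0
    · rw [indicator_of_notMem (by simp [h0.le])]
      symm
      by_cases h3 : z ∈ Iio (t / 2)
      · rw [indicator_of_mem h3, mt_neg μ hμ hb univ z h0, zero_mul, mul_zero]
      · rw [indicator_of_notMem h3]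
    · exact indicator_of_mem h0 _
  rw [h1, h2, ← lintegral_reflect _ t]
  refine lintegral_congr fun z => ?_
  by_cases h3 : z < t / 2
  · rw [indicator_of_mem (show z ∈ Iio (t / 2) from h3),
      indicator_of_mem (show t - z ∈ Ioi (t / 2) from by simp only [mem_Ioi]; linarith),
      sub_sub_cancel, div_eq_mul_inv]
    ring
  · rw [indicator_of_notMem (show z ∉ Iio (t / 2) from h3),
      indicator_of_notMem (show t - z ∉ Ioi (t / 2) from by
        simp only [mem_Ioi, not_lt] at h3 ⊢; linarith)]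

/-- Asymptotics of the tilted mean mass. -/
theorem mt_tendsto {D : ℝ≥0∞} (h : Dbl μ γ D) (hμ : ∀ᵐ y ∂μ, 0 < y ∧ y < 1)
    (hb : bm μ β γ < 1) :
    Tendsto (fun t => mt μ β γ univ t / lap μ γ t) atTop (𝓝 (Llim μ β γ)) := by
  have hγ := hp.γ_pos
  obtain ⟨C, hC, hCle⟩ := mt_bound (β := β) μ h hμ hb
  set R : ℝ → ℝ≥0∞ := fun t => mt μ β γ univ t / lap μ γ t with hR
  have hRC : ∀ t, R t ≤ C := by
    intro t
    simp only [hR]
    rw [ENNReal.div_le_iff (lap_pos μ γ t).ne' (lap_ne_top μ γ hγ.le hμ t)]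
    exact hCle t
  set U : ℝ → ℝ≥0∞ := fun t => ⨆ s ∈ Ici t, R s with hU
  set W : ℝ → ℝ≥0∞ := fun t => ⨅ s ∈ Ici t, R s with hW
  have hUanti : Antitone U := fun s t hst => iSup₂_le fun r hr =>
    le_iSup₂_of_le r (le_trans hst hr) le_rfl
  have hWmono : Monotone W := fun s t hst => le_iInf₂ fun r hr =>
    iInf₂_le_of_le r (le_trans hst hr) le_rfl
  have hRU : ∀ t, R t ≤ U t := fun t => le_iSup₂_of_le t (mem_Ici.2 le_rfl) le_rfl
  have hWR : ∀ t, W t ≤ R t := fun t => iInf₂_le_of_le t (mem_Ici.2 le_rfl) le_rfl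
  have hUC : ∀ t, U t ≤ C := fun t => iSup₂_le fun r _ => hRC r
  have hWC : ∀ t, W t ≤ C := fun t => (hWR t).trans (hRC t)
  have hUlim : Tendsto U atTop (𝓝 (⨅ t, U t)) := tendsto_atTop_iInf hUanti
  have hWlim : Tendsto W atTop (𝓝 (⨆ t, W t)) := tendsto_atTop_iSup hWmono
  set U0 := ⨅ t, U t with hU0
  set W0 := ⨆ t, W t with hW0
  have hU0t : U0 ≠ ⊤ := ne_top_of_le_ne_top hC ((iInf_le U 0).trans (hUC 0))
  have hW0t : W0 ≠ ⊤ := ne_top_of_le_ne_top hC (iSup_le hWC)
  have hXU := conv_first_half (β := β) μ h hμ hb U hUanti.measurable C U0 hC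
    (fun t _ => hUC t) hU0t hUlim
  have hXW := conv_first_half (β := β) μ h hμ hb W hWmono.measurable C W0 hC
    (fun t _ => hWC t) hW0t hWlim
  have hY := conv_second_half (β := β) μ h hμ hb
  set S := ENNReal.ofReal β * ∫⁻ z in Ioi (0 : ℝ), mt μ β γ univ z with hS
  have hSval : Llim μ β γ = (1 + S) * (1 - bm μ β γ)⁻¹ := by
    unfold Llim
    rw [hS, lintegral_mt μ hμ hb, Measure.restrict_univ]
  have hup := (hXU.const_add 1).add hY
  have hlo := (hXW.const_add 1).add hY
  have h1 : U0 ≤ 1 + S + bm μ β γ * U0 := by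
    apply le_of_forall_gt_imp_ge_of_dense
    intro c hc
    have hc' : 1 + bm μ β γ * U0 + S < c := by
      calc 1 + bm μ β γ * U0 + S = 1 + S + bm μ β γ * U0 := by ring
        _ < c := hc
    obtain ⟨T, hT⟩ := ((hup.eventually (gt_mem_nhds hc')).and
      (eventually_gt_atTop (0 : ℝ))).exists_forall_of_atTop
    refine (iInf_le U T).trans (iSup₂_le fun s hs => ?_)
    obtain ⟨h2, h3⟩ := hT s hs
    refine le_trans ?_ h2.le
    simp only [hR]
    rw [ratio_decomp μ hμ hb s h3]
    refine add_le_add (add_le_add le_rfl (lintegral_mono fun a => ?_)) le_rfl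
    refine indicator_le_indicator ?_
    gcongr
    exact hRU _
  have h2 : 1 + S + bm μ β γ * W0 ≤ W0 := by
    apply le_of_forall_lt_imp_le_of_dense
    intro c hc
    have hc' : c < 1 + bm μ β γ * W0 + S := by
      calc c < 1 + S + bm μ β γ * W0 := hc
        _ = 1 + bm μ β γ * W0 + S := by ring
    obtain ⟨T, hT⟩ := ((hlo.eventually (lt_mem_nhds hc')).and
      (eventually_gt_atTop (0 : ℝ))).exists_forall_of_atTop
    refine le_trans (le_iInf₂ fun s hs => ?_) (le_iSup W T)
    obtain ⟨h2, h3⟩ := hT s hs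
    refine h2.le.trans ?_
    simp only [hR]
    rw [ratio_decomp μ hμ hb s h3]
    refine add_le_add (add_le_add le_rfl (lintegral_mono fun a => ?_)) le_rfl
    refine indicator_le_indicator ?_
    gcongr
    exact hWR _
  have h3 := le_of_le_add_mul U0 (1 + S) _ hU0t hb h1
  have h4 := ge_of_ge_add_mul W0 (1 + S) _ hW0t hb h2
  have h5 : W0 ≤ U0 := iSup_le fun s => le_iInf fun t => by
    calc W s ≤ W (max s t) := hWmono (le_max_left _ _)
      _ ≤ U (max s t) := (hWR _).trans (hRU _)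
      _ ≤ U t := hUanti (le_max_right _ _)
  rw [← hSval] at h3 h4
  have h6 : U0 = Llim μ β γ := le_antisymm h3 (h4.trans h5)
  have h7 : W0 = Llim μ β γ := le_antisymm (h5.trans h3) h4
  rw [h6] at hUlim
  rw [h7] at hWlim
  exact tendsto_of_tendsto_of_tendsto_of_le_of_le hWlim hUlim hWR hRU

end Pool.Agent.H96.Cond
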