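import Mathlib
import Pool.Agent.H96.Cond.MeanLim

/-!
# Density bound for the renewal measure
-/

set_option autoImplicit false

open MeasureTheory ProbabilityTheory Set Filter Topology
open scoped ENNReal

namespace Pool.Agent.H96.Cond

variable {β γ : ℝ} [hp : Params β γ] (μ : Measure ℝ) [IsProbabilityMeasure μ]

theorem ren_le_mt (hμ : ∀ᵐ y ∂μ, 0 < y ∧ y < 1) (hb : bm μ β γ < 1)
    (s : ℝ) (hs : 0 ≤ s) (φ : ℝ → ℝ≥0∞) (hφ : Measurable φ) :
    ∫⁻ r in Ioi s, φ r ∂(ren μ β γ) ≤ ∫⁻ r in Ioi s, mt μ β γ univ r * φ r := by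
  have := ren_finite (β := β) (γ := γ) μ hμ hb
  have hβ1 : ENNReal.ofReal β ≤ 1 := by
    rw [← ENNReal.ofReal_one]; exact ENNReal.ofReal_le_ofReal hp.β_le
  set ψ := (Ioi s).indicator φ with hψ
  have hψm : Measurable ψ := hφ.indicator measurableSet_Ioi
  rw [← lintegral_indicator measurableSet_Ioi, ← lintegral_indicator measurableSet_Ioi]
  rw [renewal μ hμ _ hψm, hψ, indicator_of_notMem (show (0 : ℝ) ∉ Ioi s from by simpa using hs),
    zero_add, ← hψ]
  have h1 : ∀ r : ℝ, ENNReal.ofReal β * ∫⁻ a in Ioi (0 : ℝ), ker μ γ a * ψ (r + a) ≤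
      ∫⁻ ρ, (Iic ρ).indicator (fun r => lap (μ.restrict univ) γ (ρ - r)) r * ψ ρ := by
    intro r
    calc ENNReal.ofReal β * ∫⁻ a in Ioi (0 : ℝ), ker μ γ a * ψ (r + a)
        ≤ 1 * ∫⁻ a in Ioi (0 : ℝ), lap μ γ a * ψ (r + a) := by
          gcongr
          exact ker_le_lap μ γ hμ _
      _ = ∫⁻ a, (Ioi (0 : ℝ)).indicator (fun a => lap μ γ a * ψ (r + a)) a := by
          rw [one_mul, lintegral_indicator measurableSet_Ioi]
      _ = ∫⁻ ρ, (Ioi (0 : ℝ)).indicator (fun a => lap μ γ a * ψ (r + a)) (ρ - r) :=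
          (lintegral_sub_right_eq_self _ r).symm
      _ ≤ _ := by
          refine lintegral_mono fun ρ => ?_
          by_cases h : ρ - r ∈ Ioi (0 : ℝ)
          · rw [indicator_of_mem h, indicator_of_mem (show r ∈ Iic ρ from by
              simp only [mem_Ioi, mem_Iic] at h ⊢; linarith), Measure.restrict_univ,
              add_sub_cancel]
          · rw [indicator_of_notMem h]; exact zero_le
  calc ∫⁻ r, (ENNReal.ofReal β * ∫⁻ a in Ioi (0 : ℝ), ker μ γ a * ψ (r + a)) ∂(ren μ β γ)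
      ≤ ∫⁻ r, ∫⁻ ρ, (Iic ρ).indicator (fun r => lap (μ.restrict univ) γ (ρ - r)) r * ψ ρ
        ∂volume ∂(ren μ β γ) := lintegral_mono h1
    _ = ∫⁻ ρ, ∫⁻ r, (Iic ρ).indicator (fun r => lap (μ.restrict univ) γ (ρ - r)) r * ψ ρ
        ∂(ren μ β γ) := by
        rw [lintegral_lintegral_swap]
        apply Measurable.aemeasurable
        exact ((measurable_mt_aux μ univ).comp (measurable_snd.prodMk measurable_fst)).mul
          (hψm.comp measurable_snd)
    _ = ∫⁻ ρ, mt μ β γ univ ρ * ψ ρ := by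
        refine lintegral_congr fun ρ => ?_
        rw [lintegral_mul_const]
        · rfl
        · exact (measurable_mt_aux μ univ).comp (measurable_const.prodMk measurable_id)
    _ = ∫⁻ a, (Ioi s).indicator (fun r => mt μ β γ univ r * φ r) a := by
        refine lintegral_congr fun ρ => ?_
        by_cases h : ρ ∈ Ioi s
        · rw [indicator_of_mem h, hψ, indicator_of_mem h]
        · rw [indicator_of_notMem h, hψ, indicator_of_notMem h, mul_zero]

/-- Density bound for the renewal measure. -/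
theorem ren_density {C : ℝ≥0∞} (hC : ∀ t, mt μ β γ univ t ≤ C * lap μ γ t)
    (hμ : ∀ᵐ y ∂μ, 0 < y ∧ y < 1) (hb : bm μ β γ < 1)
    (s : ℝ) (hs : 0 ≤ s) (φ : ℝ → ℝ≥0∞) (hφ : Measurable φ) :
    ∫⁻ r in Ioi s, φ r ∂(ren μ β γ) ≤ C * ∫⁻ r in Ioi s, lap μ γ r * φ r := by
  refine (ren_le_mt μ hμ hb s hs φ hφ).trans ?_
  have hm : Measurable fun r => lap μ γ r * φ r := (measurable_lap μ γ).mul hφ
  rw [← lintegral_const_mul _ hm]
  refine lintegral_mono fun r => ?_
  rw [← mul_assoc]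
  gcongr
  exact hC r

end Pool.Agent.H96.Cond
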