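import Mathlib
import Pool.Agent.H96.Cond.Tree

/-!
# Second moments of sums over antichains of labels
-/

set_option autoImplicit false

open MeasureTheory ProbabilityTheory Set Filter Topology
open scoped ENNReal

namespace Pool.Agent.H96.Cond

/-- Weights and marks of an antichain of labels determined by the strict ancestors. -/
structure LineData (a : List ℕ → Pop → ℝ≥0∞) (b : List ℕ → Pop → ℝ) : Prop where
  meas_a : ∀ v, Measurable (a v)
  meas_b : ∀ v, Measurable (b v)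
  anc_a : ∀ v x y, AgreeAnc x y v → a v x = a v y
  anc_b : ∀ v x y, AgreeAnc x y v → b v x = b v y
  anti : ∀ v w ω, v <:+ w → v ≠ w → a v ω * a w ω = 0

theorem shift_glue_incomparable (v w : List ℕ) (x y : Pop) (h1 : ¬ v <:+ w) (h2 : ¬ w <:+ v) :
    shift w (glue v x y) = shift w x := by
  funext u
  unfold shift
  apply glue_of_not_suffix
  intro h
  rcases List.suffix_or_suffix_of_suffix h (List.suffix_append u w) with h3 | h3
  · exact h1 h3
  · exact h2 h3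

theorem tsum_sq (f : List ℕ → ℝ≥0∞) : (∑' v, f v) ^ 2 = ∑' v, ∑' w, f v * f w := by
  rw [sq, ← ENNReal.tsum_mul_right]
  refine tsum_congr fun v => ?_
  rw [ENNReal.tsum_mul_left]

theorem tsum_mul_tsum' (f g : List ℕ → ℝ≥0∞) :
    (∑' v, f v) * (∑' w, g w) = ∑' v, ∑' w, f v * g w := by
  rw [← ENNReal.tsum_mul_right]
  refine tsum_congr fun v => ?_
  rw [ENNReal.tsum_mul_left]

section

variable {β γ : ℝ} [hp : Params β γ] (μ : Measure ℝ) [IsProbabilityMeasure μ]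
  {a : List ℕ → Pop → ℝ≥0∞} {b : List ℕ → Pop → ℝ} (F : ℝ → Pop → ℝ≥0∞)

/-- Mean of the functional `F`. -/
noncomputable def mF (μ : Measure ℝ) (β γ : ℝ) (F : ℝ → Pop → ℝ≥0∞) (r : ℝ) : ℝ≥0∞ :=
  ∫⁻ ω, F r ω ∂(popLaw μ β γ)

/-- Second moment of the functional `F`. -/
noncomputable def vF (μ : Measure ℝ) (β γ : ℝ) (F : ℝ → Pop → ℝ≥0∞) (r : ℝ) : ℝ≥0∞ :=
  ∫⁻ ω, F r ω ^ 2 ∂(popLaw μ β γ)

/-- The sum over the antichain. -/
noncomputable def sF (a : List ℕ → Pop → ℝ≥0∞) (b : List ℕ → Pop → ℝ) (F : ℝ → Pop → ℝ≥0∞)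
    (ω : Pop) : ℝ≥0∞ := ∑' v, a v ω * F (b v ω) (shift v ω)

/-- The sum of the conditional means over the antichain. -/
noncomputable def cF (a : List ℕ → Pop → ℝ≥0∞) (b : List ℕ → Pop → ℝ) (m : ℝ → ℝ≥0∞)
    (ω : Pop) : ℝ≥0∞ := ∑' v, a v ω * m (b v ω)

theorem measurable_mF (hF : Measurable fun p : ℝ × Pop => F p.1 p.2) :
    Measurable (mF μ β γ F) := hF.lintegral_prod_right'

theorem measurable_vF (hF : Measurable fun p : ℝ × Pop => F p.1 p.2) :
    Measurable (vF μ β γ F) := (hF.pow_const 2).lintegral_prod_right'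

theorem meas_term (h : LineData a b) (hF : Measurable fun p : ℝ × Pop => F p.1 p.2)
    (v : List ℕ) : Measurable fun ω => a v ω * F (b v ω) (shift v ω) :=
  (h.meas_a v).mul (hF.comp ((h.meas_b v).prodMk (measurable_shift v)))

theorem meas_cterm (h : LineData a b) (m : ℝ → ℝ≥0∞) (hm : Measurable m)
    (v : List ℕ) : Measurable fun ω => a v ω * m (b v ω) :=
  (h.meas_a v).mul (hm.comp (h.meas_b v))

/-- Replace the functional of the subtree by its mean, in presence of a factor that does not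
depend on the subtree. -/
theorem term_mean (h : LineData a b) (hF : Measurable fun p : ℝ × Pop => F p.1 p.2)
    (v : List ℕ) (R : Pop → ℝ≥0∞) (hR : Measurable R) (hinv : ∀ x y, R (glue v x y) = R x) :
    ∫⁻ ω, (a v ω * F (b v ω) (shift v ω)) * R ω ∂(popLaw μ β γ) =
      ∫⁻ ω, (a v ω * mF μ β γ F (b v ω)) * R ω ∂(popLaw μ β γ) := by
  have hΦ : Measurable fun p : Pop × Pop => (a v p.1 * F (b v p.1) p.2) * R p.1 :=
    (((h.meas_a v).comp measurable_fst).mul (hF.comp (((h.meas_b v).comp measurable_fst).prodMk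
      measurable_snd))).mul (hR.comp measurable_fst)
  have key := lintegral_shift (lifeLaw μ β γ) v (fun x y => (a v x * F (b v x) y) * R x) hΦ
    (fun x y z => by
      have h1 : AgreeAnc (glue v x y) x v := agreeAnc_glue v v (fun hc => hc.2 rfl)
      rw [h.anc_a v _ _ h1, h.anc_b v _ _ h1, hinv])
  refine key.trans (lintegral_congr fun x => ?_)
  have hFx : Measurable fun y : Pop => F (b v x) y := hF.comp (measurable_const.prodMk measurable_id)
  have : (fun y : Pop => (a v x * F (b v x) y) * R x) = fun y => (a v x * R x) * F (b v x) y := by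
    funext y; ring
  rw [this, lintegral_const_mul _ hFx]
  unfold mF popLaw
  ring

theorem lintegral_sF (h : LineData a b) (hF : Measurable fun p : ℝ × Pop => F p.1 p.2) :
    ∫⁻ ω, sF a b F ω ∂(popLaw μ β γ) = ∫⁻ ω, cF a b (mF μ β γ F) ω ∂(popLaw μ β γ) := by
  unfold sF cF
  rw [lintegral_tsum fun v => (meas_term F h hF v).aemeasurable,
    lintegral_tsum fun v => (meas_cterm h _ (measurable_mF μ F hF) v).aemeasurable]
  refine tsum_congr fun v => ?_
  have := term_mean (β := β) (γ := γ) μ F h hF v (fun _ => 1) measurable_const (fun _ _ => rfl)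
  simpa using this

theorem term_sq (h : LineData a b) (hF : Measurable fun p : ℝ × Pop => F p.1 p.2)
    (v : List ℕ) :
    ∫⁻ ω, (a v ω * F (b v ω) (shift v ω)) * (a v ω * F (b v ω) (shift v ω)) ∂(popLaw μ β γ) =
      ∫⁻ ω, a v ω ^ 2 * vF μ β γ F (b v ω) ∂(popLaw μ β γ) := by
  have hΦ : Measurable fun p : Pop × Pop => a v p.1 ^ 2 * F (b v p.1) p.2 ^ 2 :=
    (((h.meas_a v).comp measurable_fst).pow_const 2).mul
      ((hF.comp (((h.meas_b v).comp measurable_fst).prodMk measurable_snd)).pow_const 2)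
  have key := lintegral_shift (lifeLaw μ β γ) v (fun x y => a v x ^ 2 * F (b v x) y ^ 2) hΦ
    (fun x y z => by
      have h1 : AgreeAnc (glue v x y) x v := agreeAnc_glue v v (fun hc => hc.2 rfl)
      rw [h.anc_a v _ _ h1, h.anc_b v _ _ h1])
  have h2 : ∀ ω : Pop, (a v ω * F (b v ω) (shift v ω)) * (a v ω * F (b v ω) (shift v ω)) =
      a v ω ^ 2 * F (b v ω) (shift v ω) ^ 2 := fun ω => by ring
  simp only [h2]
  refine key.trans (lintegral_congr fun x => ?_)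
  have hFx : Measurable fun y : Pop => F (b v x) y ^ 2 :=
    (hF.comp (measurable_const.prodMk measurable_id)).pow_const 2
  rw [lintegral_const_mul _ hFx]
  rfl

theorem term_prod (h : LineData a b) (hF : Measurable fun p : ℝ × Pop => F p.1 p.2)
    (v w : List ℕ) (hvw : v ≠ w) :
    ∫⁻ ω, (a v ω * F (b v ω) (shift v ω)) * (a w ω * F (b w ω) (shift w ω)) ∂(popLaw μ β γ) =
      ∫⁻ ω, (a v ω * mF μ β γ F (b v ω)) * (a w ω * mF μ β γ F (b w ω)) ∂(popLaw μ β γ) := by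
  by_cases h1 : v <:+ w
  · have h2 := fun ω => h.anti v w ω h1 hvw
    refine lintegral_congr fun ω => ?_
    calc (a v ω * F (b v ω) (shift v ω)) * (a w ω * F (b w ω) (shift w ω))
        = (a v ω * a w ω) * (F (b v ω) (shift v ω) * F (b w ω) (shift w ω)) := by ring
      _ = (a v ω * a w ω) * (mF μ β γ F (b v ω) * mF μ β γ F (b w ω)) := by rw [h2]; simp
      _ = _ := by ring
  by_cases h1' : w <:+ v
  · have h2 := fun ω => h.anti w v ω h1' hvw.symm
    refine lintegral_congr fun ω => ?_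
    calc (a v ω * F (b v ω) (shift v ω)) * (a w ω * F (b w ω) (shift w ω))
        = (a w ω * a v ω) * (F (b v ω) (shift v ω) * F (b w ω) (shift w ω)) := by ring
      _ = (a w ω * a v ω) * (mF μ β γ F (b v ω) * mF μ β γ F (b w ω)) := by rw [h2]; simp
      _ = _ := by ring
  rw [term_mean μ F h hF v _ (meas_term F h hF w)]
  · have hcomm : ∀ ω : Pop, (a v ω * mF μ β γ F (b v ω)) * (a w ω * F (b w ω) (shift w ω)) =
        (a w ω * F (b w ω) (shift w ω)) * (a v ω * mF μ β γ F (b v ω)) := fun ω => mul_comm _ _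
    simp only [hcomm]
    rw [term_mean μ F h hF w _ (meas_cterm h _ (measurable_mF μ F hF) v)]
    · exact lintegral_congr fun ω => mul_comm _ _
    · intro x y
      have h3 : AgreeAnc (glue w x y) x v := agreeAnc_glue w v (fun hc => h1' hc.1)
      rw [h.anc_a v _ _ h3, h.anc_b v _ _ h3]
  · intro x y
    have h3 : AgreeAnc (glue v x y) x w := agreeAnc_glue v w (fun hc => h1 hc.1)
    rw [h.anc_a w _ _ h3, h.anc_b w _ _ h3, shift_glue_incomparable v w x y h1 h1']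

theorem term_cross (h : LineData a b) (hF : Measurable fun p : ℝ × Pop => F p.1 p.2)
    (v w : List ℕ) :
    ∫⁻ ω, (a v ω * F (b v ω) (shift v ω)) * (a w ω * mF μ β γ F (b w ω)) ∂(popLaw μ β γ) =
      ∫⁻ ω, (a v ω * mF μ β γ F (b v ω)) * (a w ω * mF μ β γ F (b w ω)) ∂(popLaw μ β γ) := by
  by_cases h1 : v <:+ w ∧ v ≠ w
  · have h2 := fun ω => h.anti v w ω h1.1 h1.2
    refine lintegral_congr fun ω => ?_
    calc (a v ω * F (b v ω) (shift v ω)) * (a w ω * mF μ β γ F (b w ω))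
        = (a v ω * a w ω) * (F (b v ω) (shift v ω) * mF μ β γ F (b w ω)) := by ring
      _ = (a v ω * a w ω) * (mF μ β γ F (b v ω) * mF μ β γ F (b w ω)) := by rw [h2]; simp
      _ = _ := by ring
  · refine term_mean μ F h hF v _ (meas_cterm h _ (measurable_mF μ F hF) w) ?_
    intro x y
    have h3 : AgreeAnc (glue v x y) x w := agreeAnc_glue v w h1
    rw [h.anc_a w _ _ h3, h.anc_b w _ _ h3]

theorem lintegral_tsum_tsum (f g : List ℕ → Pop → ℝ≥0∞) (hf : ∀ v, Measurable (f v))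
    (hg : ∀ v, Measurable (g v)) :
    ∫⁻ ω, (∑' v, f v ω) * (∑' w, g w ω) ∂(popLaw μ β γ) =
      ∑' v, ∑' w, ∫⁻ ω, f v ω * g w ω ∂(popLaw μ β γ) := by
  have hm : ∀ v w, Measurable fun ω => f v ω * g w ω := fun v w => (hf v).mul (hg w)
  have hm' : ∀ v, Measurable fun ω => ∑' w, f v ω * g w ω := fun v => meas_tsum (hm v)
  simp only [tsum_mul_tsum']
  rw [lintegral_tsum fun v => (hm' v).aemeasurable]
  refine tsum_congr fun v => ?_
  rw [lintegral_tsum fun w => (hm v w).aemeasurable]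

/-- Second moment of the sum over the antichain. -/
theorem second_sF (h : LineData a b) (hF : Measurable fun p : ℝ × Pop => F p.1 p.2) :
    ∫⁻ ω, sF a b F ω ^ 2 ∂(popLaw μ β γ) ≤
      ∫⁻ ω, cF a b (mF μ β γ F) ω ^ 2 ∂(popLaw μ β γ) +
        ∫⁻ ω, ∑' v, a v ω ^ 2 * vF μ β γ F (b v ω) ∂(popLaw μ β γ) := by
  have hmt := meas_term F h hF
  have hct := meas_cterm h _ (measurable_mF (β := β) (γ := γ) μ F hF)
  have h1 : ∫⁻ ω, sF a b F ω ^ 2 ∂(popLaw μ β γ) = ∑' v, ∑' w, ∫⁻ ω,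
      (a v ω * F (b v ω) (shift v ω)) * (a w ω * F (b w ω) (shift w ω)) ∂(popLaw μ β γ) := by
    unfold sF
    simp only [sq]
    exact lintegral_tsum_tsum μ _ _ hmt hmt
  have h2 : ∫⁻ ω, cF a b (mF μ β γ F) ω ^ 2 ∂(popLaw μ β γ) = ∑' v, ∑' w, ∫⁻ ω,
      (a v ω * mF μ β γ F (b v ω)) * (a w ω * mF μ β γ F (b w ω)) ∂(popLaw μ β γ) := by
    unfold cF
    simp only [sq]
    exact lintegral_tsum_tsum μ _ _ hct hct
  have h3 : ∫⁻ ω, ∑' v, a v ω ^ 2 * vF μ β γ F (b v ω) ∂(popLaw μ β γ) =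
      ∑' v, ∑' w, (if w = v then ∫⁻ ω, a v ω ^ 2 * vF μ β γ F (b v ω) ∂(popLaw μ β γ) else 0) := by
    have hm : ∀ v, Measurable fun ω => a v ω ^ 2 * vF μ β γ F (b v ω) := fun v =>
      ((h.meas_a v).pow_const 2).mul ((measurable_vF μ F hF).comp (h.meas_b v))
    rw [lintegral_tsum fun v => (hm v).aemeasurable]
    refine tsum_congr fun v => ?_
    rw [tsum_ite_eq v]
  rw [h1, h2, h3, ← ENNReal.tsum_add]
  refine ENNReal.tsum_le_tsum fun v => ?_
  rw [← ENNReal.tsum_add]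
  refine ENNReal.tsum_le_tsum fun w => ?_
  by_cases hvw : w = v
  · subst hvw
    rw [if_pos rfl, term_sq μ F h hF]
    exact le_add_self
  · rw [if_neg hvw, add_zero, term_prod μ F h hF v w (Ne.symm hvw)]

theorem cross_sF (h : LineData a b) (hF : Measurable fun p : ℝ × Pop => F p.1 p.2) :
    ∫⁻ ω, sF a b F ω * cF a b (mF μ β γ F) ω ∂(popLaw μ β γ) =
      ∫⁻ ω, cF a b (mF μ β γ F) ω ^ 2 ∂(popLaw μ β γ) := by
  have hmt := meas_term F h hF
  have hct := meas_cterm h _ (measurable_mF (β := β) (γ := γ) μ F hF)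
  unfold sF cF
  simp only [sq]
  rw [lintegral_tsum_tsum μ _ _ hmt hct, lintegral_tsum_tsum μ _ _ hct hct]
  exact tsum_congr fun v => tsum_congr fun w => term_cross μ F h hF v w

theorem sq_aux (S M : ℝ≥0∞) (hS : S ≠ ⊤) (hM : M ≠ ⊤) :
    ((S - M) + (M - S)) ^ 2 + 2 * (S * M) = S ^ 2 + M ^ 2 := by
  lift S to NNReal using hS
  lift M to NNReal using hM
  norm_cast
  rcases le_total S M with h | h
  · obtain ⟨c, rfl⟩ := exists_add_of_le h
    rw [tsub_eq_zero_of_le h, zero_add, add_tsub_cancel_left]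
    ring
  · obtain ⟨c, rfl⟩ := exists_add_of_le h
    rw [tsub_eq_zero_of_le h, add_zero, add_tsub_cancel_left]
    ring

/-- Deviation bound for the sum over the antichain. -/
theorem deviation (h : LineData a b) (hF : Measurable fun p : ℝ × Pop => F p.1 p.2)
    (hM2 : ∫⁻ ω, cF a b (mF μ β γ F) ω ^ 2 ∂(popLaw μ β γ) ≠ ⊤) (δ : ℝ≥0∞) (hδ : δ ≠ 0)
    (hδt : δ ≠ ⊤) :
    popLaw μ β γ {ω | sF a b F ω + δ ≤ cF a b (mF μ β γ F) ω ∨
      cF a b (mF μ β γ F) ω + δ ≤ sF a b F ω} ≤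
      (∫⁻ ω, ∑' v, a v ω ^ 2 * vF μ β γ F (b v ω) ∂(popLaw μ β γ)) / δ ^ 2 := by
  set Q := ∫⁻ ω, ∑' v, a v ω ^ 2 * vF μ β γ F (b v ω) ∂(popLaw μ β γ) with hQ
  by_cases hQt : Q = ⊤
  · rw [hQt, ENNReal.top_div_of_ne_top (ENNReal.pow_ne_top hδt)]
    exact le_top
  set S := sF a b F with hS
  set M := cF a b (mF μ β γ F) with hM
  have hSm : Measurable S := meas_tsum (meas_term F h hF)
  have hMm : Measurable M := meas_tsum (meas_cterm h _ (measurable_mF μ F hF))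
  have hS2 : ∫⁻ ω, S ω ^ 2 ∂(popLaw μ β γ) ≠ ⊤ :=
    ne_top_of_le_ne_top (ENNReal.add_ne_top.2 ⟨hM2, hQt⟩) (second_sF μ F h hF)
  have hSae : ∀ᵐ ω ∂(popLaw μ β γ), S ω ≠ ⊤ := by
    refine (ae_lt_top (hSm.pow_const 2) hS2).mono fun ω hω hc => ?_
    rw [hc] at hω
    simp at hω
  have hMae : ∀ᵐ ω ∂(popLaw μ β γ), M ω ≠ ⊤ := by
    refine (ae_lt_top (hMm.pow_const 2) hM2).mono fun ω hω hc => ?_
    rw [hc] at hω
    simp at hω
  set d : Pop → ℝ≥0∞ := fun ω => (S ω - M ω) + (M ω - S ω) with hd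
  have hdm : Measurable d := (hSm.sub hMm).add (hMm.sub hSm)
  have h1 : ∫⁻ ω, d ω ^ 2 ∂(popLaw μ β γ) + 2 * ∫⁻ ω, M ω ^ 2 ∂(popLaw μ β γ) ≤
      Q + 2 * ∫⁻ ω, M ω ^ 2 ∂(popLaw μ β γ) := by
    calc ∫⁻ ω, d ω ^ 2 ∂(popLaw μ β γ) + 2 * ∫⁻ ω, M ω ^ 2 ∂(popLaw μ β γ)
        = ∫⁻ ω, d ω ^ 2 ∂(popLaw μ β γ) + ∫⁻ ω, 2 * (S ω * M ω) ∂(popLaw μ β γ) := by
          have hm : Measurable fun ω => S ω * M ω := hSm.mul hMm
          rw [← cross_sF μ F h hF, lintegral_const_mul _ hm]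
      _ = ∫⁻ ω, (d ω ^ 2 + 2 * (S ω * M ω)) ∂(popLaw μ β γ) := by
          rw [lintegral_add_left (hdm.pow_const 2)]
      _ = ∫⁻ ω, (S ω ^ 2 + M ω ^ 2) ∂(popLaw μ β γ) := by
          refine lintegral_congr_ae ?_
          filter_upwards [hSae, hMae] with ω h2 h3
          exact sq_aux _ _ h2 h3
      _ = ∫⁻ ω, S ω ^ 2 ∂(popLaw μ β γ) + ∫⁻ ω, M ω ^ 2 ∂(popLaw μ β γ) := by
          rw [lintegral_add_left (hSm.pow_const 2)]
      _ ≤ (∫⁻ ω, M ω ^ 2 ∂(popLaw μ β γ) + Q) + ∫⁻ ω, M ω ^ 2 ∂(popLaw μ β γ) := by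
          gcongr
          exact second_sF μ F h hF
      _ = _ := by ring
  have h2 : ∫⁻ ω, d ω ^ 2 ∂(popLaw μ β γ) ≤ Q :=
    (ENNReal.add_le_add_iff_right (ENNReal.mul_ne_top (by norm_num) hM2)).1 h1
  have hδ2 : δ ^ 2 ≠ 0 := pow_ne_zero 2 hδ
  have hδ2t : δ ^ 2 ≠ ⊤ := ENNReal.pow_ne_top hδt
  calc popLaw μ β γ {ω | S ω + δ ≤ M ω ∨ M ω + δ ≤ S ω}
      ≤ popLaw μ β γ {ω | δ ^ 2 ≤ d ω ^ 2} := by
        apply measure_mono_ae
        filter_upwards [hSae, hMae] with ω h3 h4 h5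
        have h6 : δ ≤ d ω := by
          rcases h5 with h5 | h5
          · exact (ENNReal.le_sub_of_add_le_left h3 h5).trans le_add_self
          · exact (ENNReal.le_sub_of_add_le_left h4 h5).trans le_self_add
        exact pow_le_pow_left' h6 2
    _ ≤ (∫⁻ ω, d ω ^ 2 ∂(popLaw μ β γ)) / δ ^ 2 :=
        meas_ge_le_lintegral_div (hdm.pow_const 2).aemeasurable hδ2 hδ2t
    _ ≤ Q / δ ^ 2 := ENNReal.div_le_div_right h2 _

end

end Pool.Agent.H96.Cond
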