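import Mathlib
import Pool.Agent.H96.Cond.L2
import Pool.Agent.H96.Cond.Density

/-!
# Decomposition of the population at the root
-/

set_option autoImplicit false

open MeasureTheory ProbabilityTheory Set Filter Topology
open scoped ENNReal

namespace Pool.Agent.H96.Cond

theorem alive_append (ω : Pop) (v w : List ℕ) :
    alive ω (w ++ v) ↔ alive ω v ∧ alive (shift v ω) w := by
  induction w with
  | nil => simp [alive]
  | cons j w ih =>
    simp only [List.cons_append, alive, ih, shift]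
    tauto

theorem birth_append (ω : Pop) (v w : List ℕ) :
    birth ω (w ++ v) = birth ω v + birth (shift v ω) w := by
  induction w with
  | nil => simp [birth]
  | cons j w ih =>
    simp only [List.cons_append, birth, ih, shift]
    ring

theorem wgt_append (γ : ℝ) (ω : Pop) (v w : List ℕ) :
    wgt γ ω (w ++ v) = wgt γ ω v * wgt γ (shift v ω) w := by
  induction w with
  | nil => simp [wgt_nil]
  | cons j w ih =>
    rw [List.cons_append, wgt_cons, wgt_cons, ih, mul_assoc]
    rfl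

/-- Nonempty labels split off their last letter (the child of the root). -/
theorem tsum_root (f : List ℕ → ℝ≥0∞) :
    ∑' u, f u = f [] + ∑' j : ℕ, ∑' u : List ℕ, f (u ++ [j]) := by
  rw [ENNReal.tsum_eq_add_tsum_ite []]
  congr 1
  have hinj : Function.Injective fun p : ℕ × List ℕ => p.2 ++ [p.1] := by
    rintro ⟨j, u⟩ ⟨k, v⟩ h
    have := List.append_inj' h rfl
    rw [Prod.mk.injEq]
    exact ⟨by simpa using this.2, this.1⟩
  have hsupp : Function.support (fun u : List ℕ => ite (u = []) 0 (f u)) ⊆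
      Set.range fun p : ℕ × List ℕ => p.2 ++ [p.1] := by
    intro u hu
    rcases List.eq_nil_or_concat u with rfl | ⟨v, j, rfl⟩
    · simp at hu
    · exact ⟨(j, v), by simp⟩
  have key : ∑' u : List ℕ, (if u = [] then 0 else f u) =
      ∑' j : ℕ, ∑' u : List ℕ, f (u ++ [j]) := by
    rw [← hinj.tsum_eq hsupp,
      ENNReal.tsum_prod (f := fun j u => ite (u ++ [j] = []) 0 (f (u ++ [j])))]
    simp
  convert key

/-- Truncated tilted sum: families of generation at most `n`. -/
noncomputable def cmjn (γ : ℝ) (χ : ℝ → Life → ℝ≥0∞) (n : ℕ) (t : ℝ) (ω : Pop) : ℝ≥0∞ :=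
  ∑' u : List ℕ, if u.length ≤ n then wgt γ ω u * χ (t - birth ω u) (ω u) else 0

theorem cmjn_zero (γ : ℝ) (χ : ℝ → Life → ℝ≥0∞) (t : ℝ) (ω : Pop) :
    cmjn γ χ 0 t ω = χ t (ω []) := by
  unfold cmjn
  rw [tsum_root]
  simp [wgt_nil, birth]

theorem cmjn_succ (γ : ℝ) (χ : ℝ → Life → ℝ≥0∞) (n : ℕ) (t : ℝ) (ω : Pop) :
    cmjn γ χ (n + 1) t ω = χ t (ω []) +
      ∑' j, cw γ (ω []) j * cmjn γ χ n (t - age (ω []) j) (shift [j] ω) := by
  unfold cmjn
  rw [tsum_root]
  congr 1
  · simp [wgt_nil, birth]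
  · refine tsum_congr fun j => ?_
    rw [← ENNReal.tsum_mul_left]
    refine tsum_congr fun u => ?_
    have h1 : wgt γ ω [j] = cw γ (ω []) j := by rw [wgt_cons, wgt_nil, one_mul]
    have h2 : birth ω [j] = age (ω []) j := by simp [birth]
    by_cases hu : u.length ≤ n
    · rw [if_pos (by simpa using hu), if_pos hu, wgt_append, birth_append, h1, h2, mul_assoc,
        sub_sub]
      rfl
    · rw [if_neg (by simpa using hu), if_neg hu, mul_zero]

theorem cmjn_mono (γ : ℝ) (χ : ℝ → Life → ℝ≥0∞) (t : ℝ) (ω : Pop) :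
    Monotone fun n => cmjn γ χ n t ω := by
  intro m n hmn
  unfold cmjn
  refine ENNReal.tsum_le_tsum fun u => ?_
  by_cases hu : u.length ≤ m
  · rw [if_pos hu, if_pos (hu.trans hmn)]
  · rw [if_neg hu]; exact zero_le

theorem cmjn_le (γ : ℝ) (χ : ℝ → Life → ℝ≥0∞) (n : ℕ) (t : ℝ) (ω : Pop) :
    cmjn γ χ n t ω ≤ cmj γ χ t ω := by
  unfold cmjn cmj
  refine ENNReal.tsum_le_tsum fun u => ?_
  split_ifs
  · exact le_rfl
  · exact zero_le

theorem cmj_eq_iSup (γ : ℝ) (χ : ℝ → Life → ℝ≥0∞) (t : ℝ) (ω : Pop) :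
    cmj γ χ t ω = ⨆ n, cmjn γ χ n t ω := by
  apply le_antisymm
  · unfold cmj
    rw [ENNReal.tsum_eq_iSup_sum]
    refine iSup_le fun s => ?_
    refine le_trans ?_ (le_iSup _ (s.sup List.length))
    unfold cmjn
    refine le_trans (le_of_eq ?_) (ENNReal.sum_le_tsum s)
    refine Finset.sum_congr rfl fun u hu => ?_
    rw [if_pos (Finset.le_sup (f := List.length) hu)]
  · exact iSup_le fun n => cmjn_le γ χ n t ω

theorem tendsto_cmjn (γ : ℝ) (χ : ℝ → Life → ℝ≥0∞) (t : ℝ) (ω : Pop) :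
    Tendsto (fun n => cmjn γ χ n t ω) atTop (𝓝 (cmj γ χ t ω)) := by
  rw [cmj_eq_iSup]
  exact tendsto_atTop_iSup (cmjn_mono γ χ t ω)

theorem measurable_cmj (γ : ℝ) (χ : ℝ → Life → ℝ≥0∞)
    (hχ : Measurable fun p : ℝ × Life => χ p.1 p.2) :
    Measurable fun p : ℝ × Pop => cmj γ χ p.1 p.2 := by
  unfold cmj
  refine meas_tsum fun u => ?_
  exact ((measurable_wgt γ u).comp measurable_snd).mul (hχ.comp
    ((measurable_fst.sub ((measurable_birth u).comp measurable_snd)).prodMk
      ((measurable_pi_apply u).comp measurable_snd)))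

theorem measurable_cmjn (γ : ℝ) (χ : ℝ → Life → ℝ≥0∞)
    (hχ : Measurable fun p : ℝ × Life => χ p.1 p.2) (n : ℕ) :
    Measurable fun p : ℝ × Pop => cmjn γ χ n p.1 p.2 := by
  unfold cmjn
  refine meas_tsum fun u => ?_
  by_cases hu : u.length ≤ n
  · simp only [if_pos hu]
    exact ((measurable_wgt γ u).comp measurable_snd).mul (hχ.comp
      ((measurable_fst.sub ((measurable_birth u).comp measurable_snd)).prodMk
        ((measurable_pi_apply u).comp measurable_snd)))
  · simp only [if_neg hu]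
    exact measurable_const

/-! ### The antichain of the children of the root -/

/-- Weights of the children of the root. -/
noncomputable def ra (γ : ℝ) (v : List ℕ) (ω : Pop) : ℝ≥0∞ :=
  if v.length = 1 then cw γ (ω []) v.headI else 0

/-- Birth times of the children of the root. -/
noncomputable def rb (v : List ℕ) (ω : Pop) : ℝ :=
  if v.length = 1 then age (ω []) v.headI else 0

theorem agree_root {x y : Pop} {v : List ℕ} (h : AgreeAnc x y v) (hv : v.length = 1) :
    x [] = y [] := by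
  apply h [] (List.nil_suffix)
  rintro rfl
  simp at hv

theorem lineData_root (γ : ℝ) (c : Life → ℝ≥0∞) (hc : Measurable c) :
    LineData (fun v ω => c (ω []) * ra γ v ω) rb := by
  constructor
  · intro v
    refine (hc.comp (measurable_pi_apply [])).mul ?_
    unfold ra
    by_cases hv : v.length = 1
    · simp only [if_pos hv]
      exact (measurable_cw γ _).comp (measurable_pi_apply [])
    · simp only [if_neg hv]
      exact measurable_const
  · intro v
    unfold rb
    by_cases hv : v.length = 1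
    · simp only [if_pos hv]
      exact (measurable_age _).comp (measurable_pi_apply [])
    · simp only [if_neg hv]
      exact measurable_const
  · intro v x y h
    unfold ra
    by_cases hv : v.length = 1
    · simp only [if_pos hv, agree_root h hv]
    · simp only [if_neg hv, mul_zero]
  · intro v x y h
    unfold rb
    by_cases hv : v.length = 1
    · simp only [if_pos hv, agree_root h hv]
    · simp only [if_neg hv]
  · intro v w ω h hne
    unfold ra
    by_cases hv : v.length = 1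
    · by_cases hw : w.length = 1
      · exact absurd (h.eq_of_length (hv.trans hw.symm)) hne
      · simp only [if_neg hw, mul_zero]
    · simp only [if_neg hv, mul_zero, zero_mul]

theorem tsum_singletons (f : List ℕ → ℝ≥0∞) (hf : ∀ v, v.length ≠ 1 → f v = 0) :
    ∑' v, f v = ∑' j : ℕ, f [j] := by
  have hinj : Function.Injective fun j : ℕ => [j] := fun a b h => by simpa using h
  have hsupp : Function.support f ⊆ Set.range fun j : ℕ => [j] := by
    intro v hv
    have h1 : v.length = 1 := by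
      by_contra h
      exact hv (hf v h)
    obtain ⟨a, rfl⟩ := List.length_eq_one_iff.1 h1
    exact ⟨a, rfl⟩
  exact (hinj.tsum_eq hsupp).symm

theorem sF_root (γ : ℝ) (c : Life → ℝ≥0∞) (F : ℝ → Pop → ℝ≥0∞) (ω : Pop) :
    sF (fun v ω => c (ω []) * ra γ v ω) rb F ω =
      c (ω []) * ∑' j, cw γ (ω []) j * F (age (ω []) j) (shift [j] ω) := by
  unfold sF
  rw [tsum_singletons, ← ENNReal.tsum_mul_left]
  · refine tsum_congr fun j => ?_
    simp only [ra, rb, List.length_singleton, if_true, List.headI, mul_assoc]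
  · intro v hv
    simp only [ra, if_neg hv, mul_zero, zero_mul]

theorem cF_root (γ : ℝ) (c : Life → ℝ≥0∞) (m : ℝ → ℝ≥0∞) (ω : Pop) :
    cF (fun v ω => c (ω []) * ra γ v ω) rb m ω =
      c (ω []) * ∑' j, cw γ (ω []) j * m (age (ω []) j) := by
  unfold cF
  rw [tsum_singletons, ← ENNReal.tsum_mul_left]
  · refine tsum_congr fun j => ?_
    simp only [ra, rb, List.length_singleton, if_true, List.headI, mul_assoc]
  · intro v hv
    simp only [ra, if_neg hv, mul_zero, zero_mul]

theorem two_mul_le' (x y : ℝ≥0∞) : 2 * (x * y) ≤ x ^ 2 + y ^ 2 := by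
  by_cases hx : x = ⊤
  · simp [hx]
  · by_cases hy : y = ⊤
    · simp [hy]
    · rw [← sq_aux x y hx hy]
      exact le_add_self

section rec

variable {β γ : ℝ} [hp : Params β γ] (μ : Measure ℝ) [IsProbabilityMeasure μ]

theorem lintegral_root (f : Life → ℝ≥0∞) (hf : Measurable f) :
    ∫⁻ ω : Pop, f (ω []) ∂(popLaw μ β γ) = ∫⁻ L, f L ∂(lifeLaw μ β γ) := by
  have := lintegral_at (β := β) (γ := γ) μ [] (fun _ _ L => f L) (hf.comp measurable_snd)
  simpa using this

/-- The second moment recursion. -/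
theorem second_rec (χ : ℝ → Life → ℝ≥0∞) (hχ : Measurable fun p : ℝ × Life => χ p.1 p.2)
    (n : ℕ) (t : ℝ) :
    ∫⁻ ω, cmjn γ χ (n + 1) t ω ^ 2 ∂(popLaw μ β γ) ≤
      2 * ∫⁻ L, χ t L ^ 2 ∂(lifeLaw μ β γ) +
      2 * ∫⁻ L, (∑' j, cw γ L j * ∫⁻ ω, cmjn γ χ n (t - age L j) ω ∂(popLaw μ β γ)) ^ 2
        ∂(lifeLaw μ β γ) +
      ∫⁻ L, (∑' j, cw γ L j ^ 2 * ∫⁻ ω, cmjn γ χ n (t - age L j) ω ^ 2 ∂(popLaw μ β γ))
        ∂(lifeLaw μ β γ) := by
  set F : ℝ → Pop → ℝ≥0∞ := fun r ω => cmjn γ χ n (t - r) ω with hF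
  have hFm : Measurable fun p : ℝ × Pop => F p.1 p.2 :=
    (measurable_cmjn γ χ hχ n).comp ((measurable_const.sub measurable_fst).prodMk measurable_snd)
  set m : ℝ → ℝ≥0∞ := mF μ β γ F with hm
  set V : ℝ → ℝ≥0∞ := vF μ β γ F with hV
  have hmm : Measurable m := measurable_mF μ F hFm
  have hVm : Measurable V := measurable_vF μ F hFm
  set cχ : Pop → ℝ≥0∞ := fun ω => χ t (ω []) with hcχ
  have hχt : Measurable (χ t) := hχ.comp (measurable_const.prodMk measurable_id)
  have hcm : Measurable cχ := hχt.comp (measurable_pi_apply [])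
  set S : Pop → ℝ≥0∞ := fun ω => ∑' j, cw γ (ω []) j * F (age (ω []) j) (shift [j] ω) with hS
  set M : Pop → ℝ≥0∞ := fun ω => ∑' j, cw γ (ω []) j * m (age (ω []) j) with hM
  have hSm : Measurable S := meas_tsum fun j =>
    ((measurable_cw γ j).comp (measurable_pi_apply [])).mul (hFm.comp
      (((measurable_age j).comp (measurable_pi_apply [])).prodMk (measurable_shift [j])))
  have hMLm : Measurable fun L : Life => ∑' j, cw γ L j * m (age L j) := meas_tsum fun j =>
    (measurable_cw γ j).mul (hmm.comp (measurable_age j))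
  have hMm : Measurable M := hMLm.comp (measurable_pi_apply [])
  have h1 : LineData (fun v ω => (1 : ℝ≥0∞) * ra γ v ω) rb :=
    lineData_root γ (fun _ => 1) measurable_const
  have h2 : LineData (fun v ω => χ t (ω []) * ra γ v ω) rb := lineData_root γ (χ t) hχt
  have e1 : ∀ ω, sF (fun v ω => (1 : ℝ≥0∞) * ra γ v ω) rb F ω = S ω := by
    intro ω
    rw [sF_root γ (fun _ => 1) F ω, one_mul]
  have e2 : ∀ ω, cF (fun v ω => (1 : ℝ≥0∞) * ra γ v ω) rb m ω = M ω := by
    intro ω
    rw [cF_root γ (fun _ => 1) m ω, one_mul]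
  have e3 : ∀ ω, sF (fun v ω => χ t (ω []) * ra γ v ω) rb F ω = cχ ω * S ω := fun ω =>
    sF_root γ (χ t) F ω
  have e4 : ∀ ω, cF (fun v ω => χ t (ω []) * ra γ v ω) rb m ω = cχ ω * M ω := fun ω =>
    cF_root γ (χ t) m ω
  have hcross := lintegral_sF (β := β) (γ := γ) μ F h2 hFm
  rw [← hm] at hcross
  simp only [e3, e4] at hcross
  have hsec := second_sF (β := β) (γ := γ) μ F h1 hFm
  rw [← hm, ← hV] at hsec
  simp only [e1, e2] at hsec
  have e5 : ∀ ω : Pop, ∑' v : List ℕ, ((1 : ℝ≥0∞) * ra γ v ω) ^ 2 * V (rb v ω) =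
      ∑' j, cw γ (ω []) j ^ 2 * V (age (ω []) j) := by
    intro ω
    rw [tsum_singletons]
    · refine tsum_congr fun j => ?_
      simp only [ra, rb, List.length_singleton, if_true, List.headI, one_mul]
    · intro v hv
      simp only [ra, if_neg hv, mul_zero]
      rw [zero_pow two_ne_zero, zero_mul]
  simp only [e5] at hsec
  have hexp : ∫⁻ ω, cmjn γ χ (n + 1) t ω ^ 2 ∂(popLaw μ β γ) =
      ∫⁻ ω, cχ ω ^ 2 ∂(popLaw μ β γ) + 2 * ∫⁻ ω, cχ ω * S ω ∂(popLaw μ β γ) +
        ∫⁻ ω, S ω ^ 2 ∂(popLaw μ β γ) := by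
    have hmul : Measurable fun ω => cχ ω * S ω := hcm.mul hSm
    have hm1 : Measurable fun ω => cχ ω ^ 2 := hcm.pow_const 2
    have hm2 : Measurable fun ω => cχ ω ^ 2 + 2 * (cχ ω * S ω) := hm1.add (hmul.const_mul 2)
    rw [← lintegral_const_mul _ hmul, ← lintegral_add_left hm1, ← lintegral_add_left hm2]
    refine lintegral_congr fun ω => ?_
    rw [cmjn_succ]
    simp only [hcχ, hS, hF]
    ring
  have hroot1 := lintegral_root (β := β) (γ := γ) μ (fun L => χ t L ^ 2) (hχt.pow_const 2)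
  have hroot2 := lintegral_root (β := β) (γ := γ) μ
    (fun L => (∑' j, cw γ L j * m (age L j)) ^ 2) (hMLm.pow_const 2)
  have hroot3 := lintegral_root (β := β) (γ := γ) μ
    (fun L => ∑' j, cw γ L j ^ 2 * V (age L j)) (meas_tsum fun j =>
      ((measurable_cw γ j).pow_const 2).mul (hVm.comp (measurable_age j)))
  have hx : 2 * ∫⁻ ω, cχ ω * S ω ∂(popLaw μ β γ) ≤
      ∫⁻ ω, cχ ω ^ 2 ∂(popLaw μ β γ) + ∫⁻ ω, M ω ^ 2 ∂(popLaw μ β γ) := by
    have hm1 : Measurable fun ω => cχ ω ^ 2 := hcm.pow_const 2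
    have hmul : Measurable fun ω => cχ ω * M ω := hcm.mul hMm
    rw [hcross, ← lintegral_const_mul _ hmul, ← lintegral_add_left hm1]
    exact lintegral_mono fun ω => two_mul_le' _ _
  rw [hexp]
  calc ∫⁻ ω, cχ ω ^ 2 ∂(popLaw μ β γ) + 2 * ∫⁻ ω, cχ ω * S ω ∂(popLaw μ β γ) +
        ∫⁻ ω, S ω ^ 2 ∂(popLaw μ β γ)
      ≤ ∫⁻ ω, cχ ω ^ 2 ∂(popLaw μ β γ) + (∫⁻ ω, cχ ω ^ 2 ∂(popLaw μ β γ) +
        ∫⁻ ω, M ω ^ 2 ∂(popLaw μ β γ)) + (∫⁻ ω, M ω ^ 2 ∂(popLaw μ β γ) +
        ∫⁻ ω, ∑' j, cw γ (ω []) j ^ 2 * V (age (ω []) j) ∂(popLaw μ β γ)) := by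
        gcongr
    _ = 2 * ∫⁻ ω, cχ ω ^ 2 ∂(popLaw μ β γ) + 2 * ∫⁻ ω, M ω ^ 2 ∂(popLaw μ β γ) +
        ∫⁻ ω, ∑' j, cw γ (ω []) j ^ 2 * V (age (ω []) j) ∂(popLaw μ β γ) := by ring
    _ = _ := by
        rw [← hroot1]
        congr 1
        · congr 1
          rw [hM]
          exact congrArg (2 * ·) hroot2

end rec

end Pool.Agent.H96.Cond
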