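import Mathlib
import Pool.Agent.H96.Cond.Root

/-!
# The characteristic counting the individuals with fitness in a set
-/

set_option autoImplicit false

open MeasureTheory ProbabilityTheory Set Filter Topology
open scoped ENNReal

namespace Pool.Agent.H96.Cond

open Classical in
/-- Tilted size of a family at age `s` if its fitness is in `A`. -/
noncomputable def chi (γ : ℝ) (A : Set ℝ) (s : ℝ) (L : Life) : ℝ≥0∞ :=
  if 0 ≤ s ∧ L.1 ∈ A then ENNReal.ofReal (Real.exp (-(γ * s))) * members L s else 0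

theorem measurable_members' : Measurable fun p : ℝ × Life => members p.2 p.1 := by
  have h : Measurable fun p : ℝ × Life => ((p.2, p.1) : Life × ℝ) := by
    exact Measurable.prodMk measurable_snd measurable_fst
  have h2 := Measurable.comp measurable_members h
  simpa only [Function.comp_def] using h2

theorem measurable_chi (γ : ℝ) (A : Set ℝ) (hA : MeasurableSet A) :
    Measurable fun p : ℝ × Life => chi γ A p.1 p.2 := by
  have h1 : MeasurableSet {p : ℝ × Life | 0 ≤ p.1} := measurableSet_le measurable_const measurable_fst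
  have h2 : MeasurableSet {p : ℝ × Life | p.2.1 ∈ A} := (measurable_fst.comp measurable_snd) hA
  have h3 := measurable_members'
  have h4 : Measurable fun p : ℝ × Life => ENNReal.ofReal (Real.exp (-(γ * p.1))) := by fun_prop
  have h5 : (fun p : ℝ × Life => chi γ A p.1 p.2) =
      ({p : ℝ × Life | 0 ≤ p.1} ∩ {p : ℝ × Life | p.2.1 ∈ A}).indicator
        fun p => ENNReal.ofReal (Real.exp (-(γ * p.1))) * members p.2 p.1 := by
    funext p
    unfold chi
    by_cases h : 0 ≤ p.1 ∧ p.2.1 ∈ A
    · rw [if_pos h, indicator_of_mem]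
      exact h
    · rw [if_neg h, indicator_of_notMem]
      exact h
  rw [h5]
  exact (h4.mul h3).indicator (h1.inter h2)

/-- Relation between the mass and the tilted sum. -/
theorem mass_eq_cmj (γ : ℝ) (A : Set ℝ) (t : ℝ) (ω : Pop) :
    ENNReal.ofReal (Real.exp (-(γ * t))) * mass ω t A = cmj γ (chi γ A) t ω := by
  unfold mass cmj
  rw [← ENNReal.tsum_mul_left]
  refine tsum_congr fun u => ?_
  unfold wgt chi
  by_cases h1 : alive ω u
  · by_cases h2 : birth ω u ≤ t
    · by_cases h3 : (ω u).1 ∈ A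
      · rw [if_pos ⟨h1, h2, h3⟩, if_pos h1, if_pos ⟨by linarith, h3⟩, ← mul_assoc,
          ← ENNReal.ofReal_mul (Real.exp_pos _).le, ← Real.exp_add]
        congr 3
        ring
      · have e1 : ¬ (alive ω u ∧ birth ω u ≤ t ∧ (ω u).1 ∈ A) := fun h => h3 h.2.2
        have e2 : ¬ (0 ≤ t - birth ω u ∧ (ω u).1 ∈ A) := fun h => h3 h.2
        rw [if_neg e1, if_neg e2, mul_zero, mul_zero]
    · have e1 : ¬ (alive ω u ∧ birth ω u ≤ t ∧ (ω u).1 ∈ A) := fun h => h2 h.2.1
      have e2 : ¬ (0 ≤ t - birth ω u ∧ (ω u).1 ∈ A) := fun h => h2 (by linarith [h.1])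
      rw [if_neg e1, if_neg e2, mul_zero, mul_zero]
  · have e1 : ¬ (alive ω u ∧ birth ω u ≤ t ∧ (ω u).1 ∈ A) := fun h => h1 h.1
    rw [if_neg e1, if_neg h1, mul_zero, zero_mul]

section

variable {β γ : ℝ} [hp : Params β γ] (μ : Measure ℝ) [IsProbabilityMeasure μ]

omit [IsProbabilityMeasure μ] in
theorem mean_chi [SFinite μ] (hμ : ∀ᵐ y ∂μ, 0 < y ∧ y < 1) (A : Set ℝ) (hA : MeasurableSet A) (s : ℝ) :
    ∫⁻ L, chi γ A s L ∂(lifeLaw μ β γ) =
      (Ici (0 : ℝ)).indicator (lap (μ.restrict A) γ) s := by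
  have hm : Measurable fun L : Life => chi γ A s L :=
    (measurable_chi γ A hA).comp (measurable_const.prodMk measurable_id)
  by_cases hs : 0 ≤ s
  · rw [indicator_of_mem (show s ∈ Ici (0 : ℝ) from hs)]
    unfold lifeLaw
    rw [lintegral_prod _ hm.aemeasurable]
    unfold lap
    rw [← lintegral_indicator hA]
    refine lintegral_congr_ae (hμ.mono fun y hy => ?_)
    beta_reduce
    by_cases hy2 : y ∈ A
    · rw [indicator_of_mem hy2]
      have h1 : ∀ c : ℕ → Mark, chi γ A s (y, c) =
          ENNReal.ofReal (Real.exp (-(γ * s))) * members (y, c) s := fun c => by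
        unfold chi
        rw [if_pos ⟨hs, hy2⟩]
      simp only [h1]
      rw [lintegral_const_mul' _ _ ENNReal.ofReal_ne_top, mean_members y hy.1 s hs,
        ← ENNReal.ofReal_mul (Real.exp_pos _).le, ← Real.exp_add]
      congr 2
      ring
    · rw [indicator_of_notMem hy2]
      have h1 : ∀ c : ℕ → Mark, chi γ A s (y, c) = 0 := fun c => by
        unfold chi
        rw [if_neg (fun h => hy2 h.2)]
      simp only [h1, lintegral_zero]
  · rw [indicator_of_notMem (show s ∉ Ici (0 : ℝ) from hs)]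
    have h1 : ∀ L : Life, chi γ A s L = 0 := fun L => by
      unfold chi
      rw [if_neg (fun h => hs h.1)]
    simp only [h1, lintegral_zero]

/-- The mean of the tilted sum. -/
theorem mean_cmj_chi (hμ : ∀ᵐ y ∂μ, 0 < y ∧ y < 1) (A : Set ℝ) (hA : MeasurableSet A) (t : ℝ) :
    ∫⁻ ω, cmj γ (chi γ A) t ω ∂(popLaw μ β γ) = mt μ β γ A t := by
  rw [lintegral_cmj μ _ (measurable_chi γ A hA)]
  unfold mt
  refine lintegral_congr fun r => ?_
  rw [mean_chi μ hμ A hA]
  by_cases h : r ≤ t
  · rw [indicator_of_mem (show r ∈ Iic t from h),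
      indicator_of_mem (show t - r ∈ Ici (0 : ℝ) from by simpa using h)]
  · rw [indicator_of_notMem (show r ∉ Iic t from h),
      indicator_of_notMem (show t - r ∉ Ici (0 : ℝ) from by simpa using h)]

/-- Second moment constant of the size of a family. -/
noncomputable def cz (γ : ℝ) : ℝ≥0∞ := ENNReal.ofReal (2 + 2 / γ + 8 / γ ^ 2)

theorem second_chi (hμ : ∀ᵐ y ∂μ, 0 < y ∧ y < 1) (s : ℝ) :
    ∫⁻ L, chi γ univ s L ^ 2 ∂(lifeLaw μ β γ) ≤
      cz γ * (Ici (0 : ℝ)).indicator (lap μ γ) s := by
  have hγ := hp.γ_pos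
  have hm : Measurable fun L : Life => chi γ univ s L ^ 2 :=
    ((measurable_chi γ univ MeasurableSet.univ).comp
      (measurable_const.prodMk measurable_id)).pow_const 2
  by_cases hs : 0 ≤ s
  · rw [indicator_of_mem (show s ∈ Ici (0 : ℝ) from hs)]
    unfold lifeLaw
    rw [lintegral_prod _ hm.aemeasurable]
    unfold lap
    rw [← lintegral_const_mul' _ _ (by unfold cz; exact ENNReal.ofReal_ne_top)]
    refine lintegral_mono_ae (hμ.mono fun y hy => ?_)
    have h1 : ∀ c : ℕ → Mark, chi γ univ s (y, c) ^ 2 =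
        ENNReal.ofReal (Real.exp (-(γ * s))) ^ 2 * members (y, c) s ^ 2 := fun c => by
      unfold chi
      rw [if_pos ⟨hs, mem_univ _⟩, mul_pow]
    simp only [h1]
    rw [lintegral_const_mul' _ _ (ENNReal.pow_ne_top ENNReal.ofReal_ne_top)]
    refine (mul_le_mul_right (second_members y hy.1 s hs) _).trans ?_
    unfold cz
    rw [← ENNReal.ofReal_pow (Real.exp_pos _).le, ← ENNReal.ofReal_mul (by positivity),
      ← ENNReal.ofReal_mul (by positivity)]
    apply ENNReal.ofReal_le_ofReal
    rw [mul_left_comm]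
    apply mul_le_mul_of_nonneg_left _ (by positivity)
    rw [← Real.exp_nat_mul, ← Real.exp_add]
    apply Real.exp_le_exp.2
    push_cast
    nlinarith [mul_nonneg (mul_nonneg hγ.le hs) (show 0 ≤ 1 - y by linarith [hy.2])]
  · rw [indicator_of_notMem (show s ∉ Ici (0 : ℝ) from hs)]
    have h1 : ∀ L : Life, chi γ univ s L = 0 := fun L => by
      unfold chi
      rw [if_neg (fun h => hs h.1)]
    simp only [h1]
    simp

end

end Pool.Agent.H96.Cond
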