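import Mathlib
import Pool.Agent.H96.Cond.Chi

/-!
# Second moment of the tilted mass
-/

set_option autoImplicit false

open MeasureTheory ProbabilityTheory Set Filter Topology
open scoped ENNReal

namespace Pool.Agent.H96.Cond

variable {β γ : ℝ} [hp : Params β γ] (μ : Measure ℝ) [IsProbabilityMeasure μ]

theorem cw_le (L : Life) (j : ℕ) : cw γ L j ≤ ENNReal.ofReal (Real.exp (-(γ * age L j))) := by
  unfold cw
  split_ifs
  · rw [one_mul]
  · rw [zero_mul]; exact zero_le

/-- Second moment of a weighted sum over the children. -/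
theorem second_children (m : ℝ → ℝ≥0∞) (hm : Measurable m) (hμ : ∀ᵐ y ∂μ, 0 < y ∧ y < 1) :
    ∫⁻ L, (∑' j, cw γ L j * m (age L j)) ^ 2 ∂(lifeLaw μ β γ) ≤
      ∫⁻ y, (Kf γ y (fun a => (ENNReal.ofReal (Real.exp (-(γ * a))) * m a) ^ 2) +
        4 * (Kf γ y (fun a => ENNReal.ofReal (Real.exp (-(γ * a))) * m a)) ^ 2) ∂μ := by
  have hmeas : Measurable fun L : Life => (∑' j, cw γ L j * m (age L j)) ^ 2 :=
    (meas_tsum fun j => (measurable_cw γ j).mul (hm.comp (measurable_age j))).pow_const 2
  have hψ : Measurable fun a : ℝ => ENNReal.ofReal (Real.exp (-(γ * a))) * m a := by fun_prop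
  unfold lifeLaw
  rw [lintegral_prod _ hmeas.aemeasurable]
  refine lintegral_mono_ae (hμ.mono fun y hy => ?_)
  refine le_trans (lintegral_mono fun c => ?_) (second_ages (β := β) (γ := γ) y hy.1 _ hψ)
  gcongr with j
  exact cw_le _ _

theorem Kf_tilt (y : ℝ) (hy : 0 < y) (m : ℝ → ℝ≥0∞) :
    Kf γ y (fun a => ENNReal.ofReal (Real.exp (-(γ * a))) * m a) =
      ∫⁻ a in Ioi (0 : ℝ), ENNReal.ofReal (y * Real.exp (-(γ * (1 - y) * a))) * m a := by
  unfold Kf
  refine lintegral_congr fun a => ?_
  rw [← mul_assoc, ← ENNReal.ofReal_mul (by positivity), mul_assoc, ← Real.exp_add]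
  congr 4
  ring

/-- Second moment of the conditional mean given the founding family. -/
theorem second_M {D C : ℝ≥0∞} (h : Dbl μ γ D) (hμ : ∀ᵐ y ∂μ, 0 < y ∧ y < 1)
    (hb : bm μ β γ < 1) (hC : ∀ t, mt μ β γ univ t ≤ C * lap μ γ t) (hCt : C ≠ ⊤) :
    ∃ CM : ℝ≥0∞, CM ≠ ⊤ ∧ ∀ t, ∫⁻ L, (∑' j, cw γ L j * mt μ β γ univ (t - age L j)) ^ 2
      ∂(lifeLaw μ β γ) ≤ CM * (Ici (0 : ℝ)).indicator (lap μ γ) t := by
  have hγ := hp.γ_pos
  set B := (1 - bm μ β γ)⁻¹ with hB
  have hBt : B ≠ ⊤ := inv_ne_top _ hb
  set lI := ∫⁻ a in Ioi (0 : ℝ), lap μ γ a with hlI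
  have hlIt : lI ≠ ⊤ := lintegral_lap_ne_top μ γ hp.β_pos hγ hμ hb
  set kI := ∫⁻ a in Ioi (0 : ℝ), ker μ γ a with hkI
  have hkIt : kI ≠ ⊤ := by
    refine ne_top_of_le_ne_top hlIt ?_
    exact lintegral_mono fun a => ker_le_lap μ γ hμ a
  set S := ∫⁻ z in Ioi (0 : ℝ), mt μ β γ univ z with hS
  have hSt : S ≠ ⊤ := by
    rw [hS, lintegral_mt μ hμ hb, Measure.restrict_univ]
    exact ENNReal.mul_ne_top hBt hlIt
  have hmt := measurable_mt (β := β) (γ := γ) μ hμ hb univ
  refine ⟨B * C * kI + 4 * (2 * (C ^ 2 * D ^ 2 * lI * lI + S ^ 2)), ?_, fun t => ?_⟩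
  · refine ENNReal.add_ne_top.2 ⟨ENNReal.mul_ne_top (ENNReal.mul_ne_top hBt hCt) hkIt,
      ENNReal.mul_ne_top (by norm_num) (ENNReal.mul_ne_top (by norm_num)
        (ENNReal.add_ne_top.2 ⟨?_, ENNReal.pow_ne_top hSt⟩))⟩
    exact ENNReal.mul_ne_top (ENNReal.mul_ne_top (ENNReal.mul_ne_top
      (ENNReal.pow_ne_top hCt) (ENNReal.pow_ne_top h.1)) hlIt) hlIt
  have hmt' : Measurable fun a => mt μ β γ univ (t - a) :=
    hmt.comp (measurable_const.sub measurable_id)
  refine (second_children (β := β) (γ := γ) μ (fun a => mt μ β γ univ (t - a)) hmt' hμ).trans ?_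
  rcases lt_or_ge t 0 with hneg | hpos
  · rw [indicator_of_notMem (show t ∉ Ici (0 : ℝ) from by simpa using hneg), mul_zero]
    refine le_of_eq ?_
    have h0 : ∀ a ∈ Ioi (0 : ℝ), mt μ β γ univ (t - a) = 0 := fun a ha =>
      mt_neg μ hμ hb univ _ (by have : (0 : ℝ) < a := ha; linarith)
    have h1 : ∀ y : ℝ, Kf γ y (fun a => (ENNReal.ofReal (Real.exp (-(γ * a))) *
        mt μ β γ univ (t - a)) ^ 2) = 0 := by
      intro y
      unfold Kf
      rw [setLIntegral_congr_fun (g := fun _ => 0) measurableSet_Ioi, lintegral_zero]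
      intro a ha
      beta_reduce
      rw [h0 a ha, mul_zero, zero_pow two_ne_zero, mul_zero]
    have h2 : ∀ y : ℝ, Kf γ y (fun a => ENNReal.ofReal (Real.exp (-(γ * a))) *
        mt μ β γ univ (t - a)) = 0 := by
      intro y
      unfold Kf
      rw [setLIntegral_congr_fun (g := fun _ => 0) measurableSet_Ioi, lintegral_zero]
      intro a ha
      beta_reduce
      rw [h0 a ha, mul_zero, mul_zero]
    simp only [h1, h2]
    simp
  · rw [indicator_of_mem (show t ∈ Ici (0 : ℝ) from hpos)]
    -- first part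
    have hA : ∀ y : ℝ, 0 < y → Kf γ y (fun a => (ENNReal.ofReal (Real.exp (-(γ * a))) *
        mt μ β γ univ (t - a)) ^ 2) ≤ (B * C * lap μ γ t) *
        ∫⁻ a in Ioi (0 : ℝ), ENNReal.ofReal (y * Real.exp (-(γ * (1 - y) * a))) := by
      intro y hy
      have hc : B * C * lap μ γ t ≠ ⊤ :=
        ENNReal.mul_ne_top (ENNReal.mul_ne_top hBt hCt) (lap_ne_top μ γ hγ.le hμ t)
      rw [← lintegral_const_mul' _ _ hc]
      unfold Kf
      refine setLIntegral_mono' measurableSet_Ioi fun a ha => ?_
      have ha0 : (0 : ℝ) < a := ha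
      have h1 : ENNReal.ofReal (Real.exp (-(γ * a))) * mt μ β γ univ (t - a) ≤
          C * lap μ γ t := by
        calc ENNReal.ofReal (Real.exp (-(γ * a))) * mt μ β γ univ (t - a)
            ≤ ENNReal.ofReal (Real.exp (-(γ * a))) * (C * (ENNReal.ofReal (Real.exp (γ * a)) *
              lap μ γ t)) := by
              gcongr
              exact (hC _).trans (by gcongr; exact lap_sub_le_exp μ γ hγ.le hμ t a ha0.le)
          _ = C * lap μ γ t * (ENNReal.ofReal (Real.exp (-(γ * a))) *
              ENNReal.ofReal (Real.exp (γ * a))) := by ring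
          _ = C * lap μ γ t := by
              rw [← ENNReal.ofReal_mul (Real.exp_pos _).le, ← Real.exp_add, neg_add_cancel,
                Real.exp_zero, ENNReal.ofReal_one, mul_one]
      calc ENNReal.ofReal (y * Real.exp (γ * y * a)) *
            (ENNReal.ofReal (Real.exp (-(γ * a))) * mt μ β γ univ (t - a)) ^ 2
          = (ENNReal.ofReal (y * Real.exp (γ * y * a)) * ENNReal.ofReal (Real.exp (-(γ * a)))) *
            mt μ β γ univ (t - a) *
            (ENNReal.ofReal (Real.exp (-(γ * a))) * mt μ β γ univ (t - a)) := by ring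
        _ ≤ (ENNReal.ofReal (y * Real.exp (γ * y * a)) * ENNReal.ofReal (Real.exp (-(γ * a)))) *
            B * (C * lap μ γ t) := by
            gcongr
            exact mt_le μ hμ hb univ _
        _ = B * C * lap μ γ t * ENNReal.ofReal (y * Real.exp (-(γ * (1 - y) * a))) := by
            rw [← ENNReal.ofReal_mul (by positivity), mul_assoc y, ← Real.exp_add,
              show γ * y * a + -(γ * a) = -(γ * (1 - y) * a) by ring]
            ring
    -- second part
    have hBd : ∀ y : ℝ, 0 < y → y < 1 → (Kf γ y (fun a => ENNReal.ofReal (Real.exp (-(γ * a))) *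
        mt μ β γ univ (t - a))) ^ 2 ≤
        2 * (C ^ 2 * D ^ 2 * lI * lap μ γ t * ENNReal.ofReal (1 / (γ * (1 - y))) +
          S ^ 2 * ENNReal.ofReal (Real.exp (-(γ * (1 - y) * t)))) := by
      intro y hy hy1
      rw [Kf_tilt y hy]
      have hz : 0 < γ * (1 - y) := mul_pos hγ (by linarith)
      set q : ℝ≥0∞ := ∫⁻ a in Ioc (0 : ℝ) t, ENNReal.ofReal (Real.exp (-(γ * (1 - y) * a)))
        with hq
      have hq1 : q ≤ ENNReal.ofReal t := by
        calc q ≤ ∫⁻ a in Ioc (0 : ℝ) t, 1 := by
              refine setLIntegral_mono' measurableSet_Ioc fun a ha => ?_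
              rw [← ENNReal.ofReal_one]
              apply ENNReal.ofReal_le_ofReal
              apply Real.exp_le_one_iff.2
              have := mul_pos hz ha.1
              linarith
          _ = ENNReal.ofReal t := by simp
      have hq2 : q ≤ ENNReal.ofReal (1 / (γ * (1 - y))) := by
        rw [← lintegral_exp_neg _ hz]
        exact lintegral_mono_set Ioc_subset_Ioi_self
      have hlt : ENNReal.ofReal t * lap μ γ t ≤ lI := by
        calc ENNReal.ofReal t * lap μ γ t = ∫⁻ a in Ioc (0 : ℝ) t, lap μ γ t := by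
              simp [mul_comm]
          _ ≤ ∫⁻ a in Ioc (0 : ℝ) t, lap μ γ a :=
              setLIntegral_mono' measurableSet_Ioc fun a ha => lap_anti μ γ hγ.le hμ ha.2
          _ ≤ lI := lintegral_mono_set Ioc_subset_Ioi_self
      have hsplit : ∫⁻ a in Ioi (0 : ℝ), ENNReal.ofReal (y * Real.exp (-(γ * (1 - y) * a))) *
          mt μ β γ univ (t - a) ≤ C * D * lap μ γ t * q +
          S * ENNReal.ofReal (Real.exp (-(γ * (1 - y) * (t / 2)))) := by
        have hpt : ∀ a ∈ Ioi (0 : ℝ), ENNReal.ofReal (y * Real.exp (-(γ * (1 - y) * a))) *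
            mt μ β γ univ (t - a) ≤
            C * D * lap μ γ t * (Ioc (0 : ℝ) t).indicator
              (fun a => ENNReal.ofReal (Real.exp (-(γ * (1 - y) * a)))) a +
            ENNReal.ofReal (Real.exp (-(γ * (1 - y) * (t / 2)))) * mt μ β γ univ (t - a) := by
          intro a ha
          have ha0 : (0 : ℝ) < a := ha
          have hye : ∀ x : ℝ, 0 ≤ x → y * x ≤ x := fun x hx => by nlinarith
          by_cases h1 : a ≤ t / 2
          · refine le_trans ?_ le_self_add
            rw [indicator_of_mem (show a ∈ Ioc (0 : ℝ) t from ⟨ha0, by linarith⟩)]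
            calc ENNReal.ofReal (y * Real.exp (-(γ * (1 - y) * a))) * mt μ β γ univ (t - a)
                ≤ ENNReal.ofReal (Real.exp (-(γ * (1 - y) * a))) * (C * (D * lap μ γ t)) := by
                  gcongr
                  · exact hye _ (Real.exp_pos _).le
                  · refine (hC _).trans ?_
                    gcongr
                    exact (lap_anti μ γ hγ.le hμ (show t / 2 ≤ t - a by linarith)).trans
                      (h.2 t hpos)
              _ = _ := by ring
          · refine le_trans ?_ le_add_self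
            gcongr
            refine (hye _ (Real.exp_pos _).le).trans ?_
            apply Real.exp_le_exp.2
            have := mul_le_mul_of_nonneg_left (not_le.1 h1).le hz.le
            linarith
        refine (setLIntegral_mono' measurableSet_Ioi hpt).trans ?_
        rw [lintegral_add_right _ (hmt'.const_mul _)]
        refine add_le_add ?_ ?_
        · rw [lintegral_const_mul' _ _ (ENNReal.mul_ne_top (ENNReal.mul_ne_top hCt h.1)
            (lap_ne_top μ γ hγ.le hμ t))]
          gcongr
          rw [hq, ← lintegral_indicator measurableSet_Ioc]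
          exact lintegral_mono' Measure.restrict_le_self le_rfl
        · rw [lintegral_const_mul _ hmt', mul_comm]
          gcongr
          calc ∫⁻ a in Ioi (0 : ℝ), mt μ β γ univ (t - a) ≤ ∫⁻ a, mt μ β γ univ (t - a) :=
                lintegral_mono' Measure.restrict_le_self le_rfl
            _ = ∫⁻ a, mt μ β γ univ a := lintegral_reflect (fun a => mt μ β γ univ a) t
            _ = S := by
                rw [hS, ← lintegral_indicator measurableSet_Ioi]
                have hae : ∀ᵐ z : ℝ, z ≠ 0 := by simp [ae_iff]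
                refine lintegral_congr_ae (hae.mono fun z hz => ?_)
                rcases lt_or_gt_of_ne hz with h0 | h0
                · beta_reduce
                  rw [indicator_of_notMem (by simp [h0.le]), mt_neg μ hμ hb univ z h0]
                · exact (indicator_of_mem (show z ∈ Ioi (0 : ℝ) from h0) _).symm
      calc (∫⁻ a in Ioi (0 : ℝ), ENNReal.ofReal (y * Real.exp (-(γ * (1 - y) * a))) *
            mt μ β γ univ (t - a)) ^ 2
          ≤ (C * D * lap μ γ t * q +
          S * ENNReal.ofReal (Real.exp (-(γ * (1 - y) * (t / 2))))) ^ 2 := by gcongr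
        _ ≤ 2 * ((C * D * lap μ γ t * q) ^ 2 +
          (S * ENNReal.ofReal (Real.exp (-(γ * (1 - y) * (t / 2))))) ^ 2) := add_sq_le _ _
        _ ≤ _ := by
          gcongr 2 * (?_ + ?_)
          · calc (C * D * lap μ γ t * q) ^ 2 = C ^ 2 * D ^ 2 * (lap μ γ t) * (lap μ γ t * (q * q)) := by
                  ring
              _ ≤ C ^ 2 * D ^ 2 * (lap μ γ t) * (lap μ γ t *
                  (ENNReal.ofReal t * ENNReal.ofReal (1 / (γ * (1 - y))))) := by gcongr
              _ = C ^ 2 * D ^ 2 * (ENNReal.ofReal t * lap μ γ t) * lap μ γ t *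
                  ENNReal.ofReal (1 / (γ * (1 - y))) := by ring
              _ ≤ _ := by gcongr
          · rw [mul_pow, ← ENNReal.ofReal_pow (Real.exp_pos _).le, ← Real.exp_nat_mul]
            gcongr
            apply le_of_eq
            push_cast
            ring
    have hm1 : Measurable fun y : ℝ =>
        ∫⁻ a in Ioi (0 : ℝ), ENNReal.ofReal (y * Real.exp (-(γ * (1 - y) * a))) := by
      apply Measurable.lintegral_prod_right' (f := fun p : ℝ × ℝ =>
        ENNReal.ofReal (p.1 * Real.exp (-(γ * (1 - p.1) * p.2))))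
      fun_prop
    calc ∫⁻ y, (Kf γ y (fun a => (ENNReal.ofReal (Real.exp (-(γ * a))) *
          mt μ β γ univ (t - a)) ^ 2) +
          4 * (Kf γ y (fun a => ENNReal.ofReal (Real.exp (-(γ * a))) *
          mt μ β γ univ (t - a))) ^ 2) ∂μ
        ≤ ∫⁻ y, ((B * C * lap μ γ t) *
          (∫⁻ a in Ioi (0 : ℝ), ENNReal.ofReal (y * Real.exp (-(γ * (1 - y) * a)))) +
          4 * (2 * (C ^ 2 * D ^ 2 * lI * lap μ γ t * ENNReal.ofReal (1 / (γ * (1 - y))) +
          S ^ 2 * ENNReal.ofReal (Real.exp (-(γ * (1 - y) * t)))))) ∂μ := by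
          refine lintegral_mono_ae (hμ.mono fun y hy => ?_)
          beta_reduce
          gcongr
          · exact hA y hy.1
          · exact hBd y hy.1 hy.2
      _ = (B * C * lap μ γ t) * kI + 4 * (2 * (C ^ 2 * D ^ 2 * lI * lap μ γ t * lI +
          S ^ 2 * lap μ γ t)) := by
          rw [lintegral_add_left (hm1.const_mul _), lintegral_const_mul _ hm1,
            lintegral_const_mul _ (by fun_prop), lintegral_const_mul _ (by fun_prop),
            lintegral_add_left (by fun_prop), lintegral_const_mul _ (by fun_prop),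
            lintegral_const_mul _ (by fun_prop)]
          have e1 : ∫⁻ y, ∫⁻ a in Ioi (0 : ℝ),
              ENNReal.ofReal (y * Real.exp (-(γ * (1 - y) * a))) ∂volume ∂μ = kI := by
            rw [hkI]
            unfold ker
            rw [lintegral_lintegral_swap (by
              apply Measurable.aemeasurable
              fun_prop)]
          have e2 : ∫⁻ y, ENNReal.ofReal (1 / (γ * (1 - y))) ∂μ = lI := by
            rw [hlI, lintegral_lap_eq μ γ hγ hμ]
          rw [e1, e2]
          rfl
      _ = _ := by ring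

end Pool.Agent.H96.Cond
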