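import Mathlib
import Pool.Agent.H96.Cond.VBound

/-!
# Second moment of the tilted mass: conclusion
-/

set_option autoImplicit false

open MeasureTheory ProbabilityTheory Set Filter Topology
open scoped ENNReal

namespace Pool.Agent.H96.Cond

variable {β γ : ℝ} [hp : Params β γ] (μ : Measure ℝ) [IsProbabilityMeasure μ]

/-- The Laplace transform on the half line. -/
noncomputable def lap0 (μ : Measure ℝ) (γ : ℝ) (t : ℝ) : ℝ≥0∞ :=
  (Ici (0 : ℝ)).indicator (lap μ γ) t

omit [IsProbabilityMeasure μ] in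
theorem lap0_tilt (hγ : 0 < γ) (hμ : ∀ᵐ y ∂μ, 0 < y ∧ y < 1) (t a : ℝ) (ha : 0 < a) :
    ENNReal.ofReal (Real.exp (-(γ * a))) * lap0 μ γ (t - a) ≤ lap0 μ γ t := by
  unfold lap0
  by_cases h : 0 ≤ t - a
  · rw [indicator_of_mem (show t - a ∈ Ici (0 : ℝ) from h),
      indicator_of_mem (show t ∈ Ici (0 : ℝ) from by simp only [mem_Ici]; linarith)]
    calc ENNReal.ofReal (Real.exp (-(γ * a))) * lap μ γ (t - a)
        ≤ ENNReal.ofReal (Real.exp (-(γ * a))) * (ENNReal.ofReal (Real.exp (γ * a)) *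
          lap μ γ t) := by
          gcongr
          exact lap_sub_le_exp μ γ hγ.le hμ t a ha.le
      _ = lap μ γ t := by
          rw [← mul_assoc, ← ENNReal.ofReal_mul (Real.exp_pos _).le, ← Real.exp_add,
            neg_add_cancel, Real.exp_zero, ENNReal.ofReal_one, one_mul]
  · rw [indicator_of_notMem (show t - a ∉ Ici (0 : ℝ) from h), mul_zero]
    exact zero_le

theorem measurable_lap0 : Measurable (lap0 μ γ) :=
  (measurable_lap μ γ).indicator measurableSet_Ici

theorem V_rec_bound {D C : ℝ≥0∞} (h : Dbl μ γ D) (hμ : ∀ᵐ y ∂μ, 0 < y ∧ y < 1)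
    (hb : bm μ β γ < 1) (hC : ∀ t, mt μ β γ univ t ≤ C * lap μ γ t) (hCt : C ≠ ⊤) :
    ∃ CV : ℝ≥0∞, CV ≠ ⊤ ∧ ∀ n t, ∫⁻ ω, cmjn γ (chi γ univ) n t ω ^ 2 ∂(popLaw μ β γ) ≤
      CV * lap0 μ γ t := by
  obtain ⟨CM, hCMt, hCM⟩ := second_M (β := β) μ h hμ hb hC hCt
  have hχ := measurable_chi γ univ MeasurableSet.univ
  set X := 2 * cz γ + 2 * CM with hX
  have hcz : cz γ ≠ ⊤ := by unfold cz; exact ENNReal.ofReal_ne_top
  have hXt : X ≠ ⊤ := ENNReal.add_ne_top.2 ⟨ENNReal.mul_ne_top (by norm_num) hcz,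
    ENNReal.mul_ne_top (by norm_num) hCMt⟩
  have hinv := inv_ne_top _ hb
  refine ⟨X * (1 - bm μ β γ)⁻¹, ENNReal.mul_ne_top hXt hinv, fun n => ?_⟩
  set CV := X * (1 - bm μ β γ)⁻¹ with hCV
  have hCVeq : X + bm μ β γ * CV = CV := by
    rw [hCV]
    calc X + bm μ β γ * (X * (1 - bm μ β γ)⁻¹) = X * (1 + bm μ β γ * (1 - bm μ β γ)⁻¹) := by ring
      _ = _ := by rw [one_add_mul_inv _ hb]
  have hCVt : CV ≠ ⊤ := ENNReal.mul_ne_top hXt hinv
  induction n with
  | zero =>
    intro t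
    simp only [cmjn_zero]
    rw [lintegral_root (β := β) (γ := γ) μ (fun L => chi γ univ t L ^ 2)
      ((hχ.comp (measurable_const.prodMk measurable_id)).pow_const 2)]
    refine (second_chi (β := β) μ hμ t).trans ?_
    unfold lap0
    gcongr
    rw [← hCVeq, hX]
    calc cz γ ≤ 2 * cz γ := by
          rw [two_mul]; exact le_self_add
      _ ≤ 2 * cz γ + 2 * CM + bm μ β γ * CV := by
          rw [add_assoc]; exact le_self_add
  | succ n ih =>
    intro t
    refine (second_rec (β := β) (γ := γ) μ (chi γ univ) hχ n t).trans ?_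
    rw [← hCVeq, hX, add_mul, add_mul]
    refine add_le_add (add_le_add ?_ ?_) ?_
    · rw [mul_assoc]
      gcongr
      exact second_chi (β := β) μ hμ t
    · rw [mul_assoc]
      gcongr
      refine le_trans (lintegral_mono fun L => ?_) (hCM t)
      gcongr with j
      rw [← mean_cmj_chi (β := β) (γ := γ) μ hμ univ MeasurableSet.univ]
      exact lintegral_mono fun ω => cmjn_le _ _ _ _ _
    · set φ : ℝ → ℝ≥0∞ := fun a => ENNReal.ofReal (Real.exp (-(γ * a))) *
        (CV * lap0 μ γ (t - a)) with hφ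
      have hφm : Measurable φ := by
        have := (measurable_lap0 (γ := γ) μ).comp (measurable_const.sub measurable_id : 
          Measurable fun a : ℝ => t - a)
        exact Measurable.mul (by fun_prop) (this.const_mul CV)
      calc ∫⁻ L, ∑' j, cw γ L j ^ 2 *
            ∫⁻ ω, cmjn γ (chi γ univ) n (t - age L j) ω ^ 2 ∂(popLaw μ β γ) ∂(lifeLaw μ β γ)
          ≤ ∫⁻ L, ∑' j, cw γ L j * φ (age L j) ∂(lifeLaw μ β γ) := by
            refine lintegral_mono fun L => ENNReal.tsum_le_tsum fun j => ?_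
            rw [sq, mul_assoc, hφ]
            exact mul_le_mul' le_rfl (mul_le_mul' (cw_le L j) (ih _))
        _ = ENNReal.ofReal β * ∫⁻ a in Ioi (0 : ℝ), ker μ γ a * φ a :=
            child_mean' (β := β) μ hμ φ hφm
        _ ≤ ENNReal.ofReal β * ∫⁻ a in Ioi (0 : ℝ), ker μ γ a * (CV * lap0 μ γ t) := by
            refine mul_le_mul' le_rfl ?_
            refine setLIntegral_mono' measurableSet_Ioi fun a ha => ?_
            gcongr
            rw [hφ]
            calc ENNReal.ofReal (Real.exp (-(γ * a))) * (CV * lap0 μ γ (t - a))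
                = CV * (ENNReal.ofReal (Real.exp (-(γ * a))) * lap0 μ γ (t - a)) := by ring
              _ ≤ CV * lap0 μ γ t := by
                  gcongr
                  exact lap0_tilt μ hp.γ_pos hμ t a ha
        _ = bm μ β γ * CV * lap0 μ γ t := by
            rw [lintegral_mul_const _ (measurable_ker μ γ)]
            unfold bm
            ring

/-- Second moment bound for the tilted mass. -/
theorem V_bound {D C : ℝ≥0∞} (h : Dbl μ γ D) (hμ : ∀ᵐ y ∂μ, 0 < y ∧ y < 1)
    (hb : bm μ β γ < 1) (hC : ∀ t, mt μ β γ univ t ≤ C * lap μ γ t) (hCt : C ≠ ⊤) :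
    ∃ CV : ℝ≥0∞, CV ≠ ⊤ ∧ ∀ t, ∫⁻ ω, cmj γ (chi γ univ) t ω ^ 2 ∂(popLaw μ β γ) ≤
      CV * lap0 μ γ t := by
  obtain ⟨CV, hCVt, hCV⟩ := V_rec_bound (β := β) μ h hμ hb hC hCt
  have hχ := measurable_chi γ univ MeasurableSet.univ
  refine ⟨CV, hCVt, fun t => ?_⟩
  have hlim : Tendsto (fun n => ∫⁻ ω, cmjn γ (chi γ univ) n t ω ^ 2 ∂(popLaw μ β γ)) atTop
      (𝓝 (∫⁻ ω, cmj γ (chi γ univ) t ω ^ 2 ∂(popLaw μ β γ))) := by
    refine lintegral_tendsto_of_tendsto_of_monotone (fun n => ?_) ?_ ?_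
    · have h1 : Measurable fun ω : Pop => cmjn γ (chi γ univ) n t ω :=
        (measurable_cmjn γ _ hχ n).comp (measurable_const.prodMk measurable_id)
      exact (h1.pow_const 2).aemeasurable
    · refine Filter.Eventually.of_forall fun ω m n hmn => ?_
      exact pow_le_pow_left' (cmjn_mono γ _ t ω hmn) 2
    · refine Filter.Eventually.of_forall fun ω => ?_
      exact ENNReal.Tendsto.pow (tendsto_cmjn γ _ t ω)
  exact le_of_tendsto' hlim fun n => hCV n t

end Pool.Agent.H96.Cond
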