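import Mathlib
import Pool.Agent.H96.Cond.VBound2

/-!
# The stopping line of the families founded after a given time
-/

set_option autoImplicit false

open MeasureTheory ProbabilityTheory Set Filter Topology
open scoped ENNReal

namespace Pool.Agent.H96.Cond

/-- `u` and all its ancestors are founded not later than `s`. -/
def old (s : ℝ) (ω : Pop) : List ℕ → Prop
  | [] => True
  | j :: u => old s ω u ∧ birth ω (j :: u) ≤ s

/-- `u` is founded after time `s`, but all its strict ancestors are not. -/
def onLine (s : ℝ) (ω : Pop) : List ℕ → Prop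
  | [] => False
  | j :: u => old s ω u ∧ s < birth ω (j :: u)

open Classical in
/-- Indicator of `old`. -/
noncomputable def io (s : ℝ) (ω : Pop) (u : List ℕ) : ℝ≥0∞ := if old s ω u then 1 else 0

open Classical in
/-- Indicator of `onLine`. -/
noncomputable def il (s : ℝ) (ω : Pop) (u : List ℕ) : ℝ≥0∞ := if onLine s ω u then 1 else 0

theorem io_add_il (s : ℝ) (ω : Pop) (j : ℕ) (u : List ℕ) :
    il s ω (j :: u) + io s ω (j :: u) = io s ω u := by
  unfold io il
  by_cases h1 : old s ω u
  · by_cases h2 : birth ω (j :: u) ≤ s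
    · have e1 : old s ω (j :: u) := ⟨h1, h2⟩
      have e2 : ¬ onLine s ω (j :: u) := fun h => absurd h.2 (not_lt.2 h2)
      rw [if_neg e2, if_pos e1, if_pos h1, zero_add]
    · have e1 : ¬ old s ω (j :: u) := fun h => h2 h.2
      have e2 : onLine s ω (j :: u) := ⟨h1, not_le.1 h2⟩
      rw [if_pos e2, if_neg e1, if_pos h1, add_zero]
  · have e1 : ¬ old s ω (j :: u) := fun h => h1 h.1
    have e2 : ¬ onLine s ω (j :: u) := fun h => h1 h.1
    rw [if_neg e1, if_neg e2, if_neg h1, add_zero]

theorem not_cons_suffix (j : ℕ) (u : List ℕ) : ¬ (j :: u) <:+ u := by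
  intro h
  have := h.length_le
  simp at this

open Classical in
theorem sum_suffix (s : ℝ) (ω : Pop) (u : List ℕ) :
    (∑' v : List ℕ, if v <:+ u then il s ω v else 0) + io s ω u = 1 := by
  induction u with
  | nil =>
    have h1 : ∀ v : List ℕ, (if v <:+ [] then il s ω v else 0) = 0 := by
      intro v
      by_cases h : v <:+ []
      · rw [if_pos h]
        rw [List.suffix_nil] at h
        subst h
        simp [il, onLine]
      · rw [if_neg h]
    simp only [h1, tsum_zero, zero_add]
    simp [io, old]
  | cons j u ih =>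
    have h1 : ∀ v : List ℕ, (if v <:+ (j :: u) then il s ω v else 0) =
        (if v = j :: u then il s ω (j :: u) else 0) + (if v <:+ u then il s ω v else 0) := by
      intro v
      by_cases h2 : v = j :: u
      · subst h2
        rw [if_pos (List.suffix_refl _), if_pos rfl, if_neg (not_cons_suffix j u), add_zero]
      · rw [if_neg h2, zero_add]
        by_cases h3 : v <:+ u
        · rw [if_pos h3, if_pos (h3.trans (List.suffix_cons j u))]
        · have h4 : ¬ v <:+ (j :: u) := fun h => by
            rcases List.suffix_cons_iff.1 h with h5 | h5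
            · exact h2 h5
            · exact h3 h5
          rw [if_neg h3, if_neg h4]
    simp only [h1]
    rw [ENNReal.tsum_add, tsum_ite_eq]
    calc il s ω (j :: u) + (∑' v : List ℕ, if v <:+ u then il s ω v else 0) + io s ω (j :: u)
        = (∑' v : List ℕ, if v <:+ u then il s ω v else 0) +
          (il s ω (j :: u) + io s ω (j :: u)) := by ring
      _ = 1 := by rw [io_add_il, ih]

open Classical in
theorem tsum_suffix (v : List ℕ) (f : List ℕ → ℝ≥0∞) :
    (∑' u : List ℕ, if v <:+ u then f u else 0) = ∑' w : List ℕ, f (w ++ v) := by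
  have hinj : Function.Injective fun w : List ℕ => w ++ v := fun a b h => List.append_cancel_right h
  have hsupp : Function.support (fun u : List ℕ => if v <:+ u then f u else 0) ⊆
      Set.range fun w : List ℕ => w ++ v := by
    intro u hu
    have h1 : v <:+ u := by
      by_contra h
      simp [h] at hu
    obtain ⟨w, hw⟩ := h1
    exact ⟨w, hw⟩
  rw [← hinj.tsum_eq hsupp]
  refine tsum_congr fun w => ?_
  rw [if_pos (List.suffix_append w v)]

/-- Decomposition of a sum over labels along the line. -/
theorem tsum_line (s : ℝ) (ω : Pop) (f : List ℕ → ℝ≥0∞) :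
    ∑' u, f u = ∑' u, io s ω u * f u + ∑' v, il s ω v * ∑' w : List ℕ, f (w ++ v) := by
  classical
  have h1 : ∀ u, f u = io s ω u * f u + ∑' v, il s ω v * (if v <:+ u then f u else 0) := by
    intro u
    have h2 : ∀ v, il s ω v * (if v <:+ u then f u else 0) =
        (if v <:+ u then il s ω v else 0) * f u := by
      intro v
      by_cases h : v <:+ u
      · rw [if_pos h, if_pos h]
      · rw [if_neg h, if_neg h, mul_zero, zero_mul]
    simp only [h2]
    rw [ENNReal.tsum_mul_right, ← add_mul, add_comm, sum_suffix, one_mul]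
  calc ∑' u, f u = ∑' u, (io s ω u * f u + ∑' v, il s ω v * (if v <:+ u then f u else 0)) :=
        tsum_congr h1
    _ = ∑' u, io s ω u * f u + ∑' u, ∑' v, il s ω v * (if v <:+ u then f u else 0) :=
        ENNReal.tsum_add
    _ = ∑' u, io s ω u * f u + ∑' v, ∑' u, il s ω v * (if v <:+ u then f u else 0) := by
        rw [ENNReal.tsum_comm]
    _ = _ := by
        congr 1
        refine tsum_congr fun v => ?_
        rw [ENNReal.tsum_mul_left, tsum_suffix]

/-- Decomposition of a tilted sum along the line. -/
theorem cmj_line (γ : ℝ) (χ : ℝ → Life → ℝ≥0∞) (s t : ℝ) (ω : Pop) :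
    cmj γ χ t ω = ∑' u, io s ω u * (wgt γ ω u * χ (t - birth ω u) (ω u)) +
      ∑' v, il s ω v * (wgt γ ω v * cmj γ χ (t - birth ω v) (shift v ω)) := by
  unfold cmj
  rw [tsum_line s ω]
  congr 1
  refine tsum_congr fun v => ?_
  congr 1
  rw [← ENNReal.tsum_mul_left]
  refine tsum_congr fun w => ?_
  rw [wgt_append, birth_append, mul_assoc, sub_sub]
  rfl

theorem old_birth {s : ℝ} (hs : 0 ≤ s) {ω : Pop} {u : List ℕ} (h : old s ω u) :
    birth ω u ≤ s := by
  cases u with
  | nil => simpa [birth] using hs
  | cons j u => exact h.2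

theorem old_suffix {s : ℝ} {ω : Pop} {u v : List ℕ} (h : old s ω u) (hv : v <:+ u) :
    old s ω v := by
  induction u with
  | nil =>
    rw [List.suffix_nil] at hv
    subst hv
    exact h
  | cons j u ih =>
    rcases List.suffix_cons_iff.1 hv with h1 | h1
    · subst h1; exact h
    · exact ih h.1 h1

theorem onLine_birth {s : ℝ} {ω : Pop} {u : List ℕ} (h : onLine s ω u) : s < birth ω u := by
  cases u with
  | nil => exact h.elim
  | cons j u => exact h.2

theorem onLine_anti {s : ℝ} {ω : Pop} {v w : List ℕ} (hv : onLine s ω v) (hw : onLine s ω w)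
    (hvw : v <:+ w) (hne : v ≠ w) : False := by
  cases w with
  | nil => exact hw
  | cons j u =>
    rcases List.suffix_cons_iff.1 hvw with h1 | h1
    · exact hne h1
    · have h2 := old_suffix hw.1 h1
      cases v with
      | nil => exact hv
      | cons k v => exact absurd h2.2 (not_le.2 hv.2)

theorem old_congr (s : ℝ) {x y : Pop} (u : List ℕ) (h : AgreeAnc x y u) :
    old s x u ↔ old s y u := by
  induction u with
  | nil => exact Iff.rfl
  | cons j u ih =>
    unfold old
    rw [ih h.parent, birth_congr _ h]

theorem onLine_congr (s : ℝ) {x y : Pop} (u : List ℕ) (h : AgreeAnc x y u) :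
    onLine s x u ↔ onLine s y u := by
  cases u with
  | nil => exact Iff.rfl
  | cons j u =>
    show (old s x u ∧ s < birth x (j :: u)) ↔ (old s y u ∧ s < birth y (j :: u))
    rw [old_congr s u h.parent, birth_congr _ h]

theorem measurableSet_old (s : ℝ) (u : List ℕ) : MeasurableSet {ω : Pop | old s ω u} := by
  induction u with
  | nil => simp [old]
  | cons j u ih => exact ih.inter (measurableSet_le (measurable_birth (j :: u)) measurable_const)

theorem measurableSet_onLine (s : ℝ) (u : List ℕ) : MeasurableSet {ω : Pop | onLine s ω u} := by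
  cases u with
  | nil => simp [onLine]
  | cons j u =>
    exact (measurableSet_old s u).inter
      (measurableSet_lt measurable_const (measurable_birth (j :: u)))

theorem measurable_io (s : ℝ) (u : List ℕ) : Measurable fun ω : Pop => io s ω u :=
  Measurable.ite (measurableSet_old s u) measurable_const measurable_const

theorem measurable_il (s : ℝ) (u : List ℕ) : Measurable fun ω : Pop => il s ω u :=
  Measurable.ite (measurableSet_onLine s u) measurable_const measurable_const

/-- Weight of `v` on the line at `s`, restricted to birth times at most `s'`. -/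
noncomputable def la (γ s s' : ℝ) (v : List ℕ) (ω : Pop) : ℝ≥0∞ :=
  il s ω v * ((Iic s').indicator (fun _ => 1) (birth ω v) * wgt γ ω v)

theorem lineData_la (γ s s' : ℝ) : LineData (la γ s s') fun v ω => birth ω v := by
  constructor
  · intro v
    exact (measurable_il s v).mul (((measurable_const.indicator measurableSet_Iic).comp
      (measurable_birth v)).mul (measurable_wgt γ v))
  · intro v
    exact measurable_birth v
  · intro v x y h
    unfold la il
    rw [wgt_congr γ v h, birth_congr v h]
    congr 1
    by_cases h1 : onLine s x v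
    · rw [if_pos h1, if_pos ((onLine_congr s v h).1 h1)]
    · rw [if_neg h1, if_neg (fun h2 => h1 ((onLine_congr s v h).2 h2))]
  · intro v x y h
    exact birth_congr v h
  · intro v w ω hvw hne
    unfold la il
    by_cases h1 : onLine s ω v
    · by_cases h2 : onLine s ω w
      · exact (onLine_anti h1 h2 hvw hne).elim
      · rw [if_neg h2, zero_mul, mul_zero]
    · rw [if_neg h1, zero_mul, zero_mul]

/-- Total weight of the line restricted to birth times at most `s'`. -/
noncomputable def lW (γ s s' : ℝ) (ω : Pop) : ℝ≥0∞ := ∑' v, la γ s s' v ω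

theorem measurable_lW (γ s s' : ℝ) : Measurable (lW γ s s') :=
  meas_tsum fun v => (lineData_la γ s s').meas_a v

theorem wgt_le (γ : ℝ) (ω : Pop) (v : List ℕ) :
    wgt γ ω v ≤ ENNReal.ofReal (Real.exp (-(γ * birth ω v))) := by
  unfold wgt
  split_ifs
  · exact le_rfl
  · exact zero_le

theorem il_le_one (s : ℝ) (ω : Pop) (v : List ℕ) : il s ω v ≤ 1 := by
  unfold il
  split_ifs
  · exact le_rfl
  · exact zero_le

theorem io_le_one (s : ℝ) (ω : Pop) (v : List ℕ) : io s ω v ≤ 1 := by
  unfold io
  split_ifs
  · exact le_rfl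
  · exact zero_le

theorem la_le_wgt (γ s s' : ℝ) (v : List ℕ) (ω : Pop) : la γ s s' v ω ≤ wgt γ ω v := by
  unfold la
  calc il s ω v * ((Iic s').indicator (fun _ => 1) (birth ω v) * wgt γ ω v)
      ≤ 1 * (1 * wgt γ ω v) := by
        gcongr
        · exact il_le_one s ω v
        · exact indicator_le_self' (fun _ _ => zero_le_one) _
    _ = wgt γ ω v := by rw [one_mul, one_mul]

theorem la_le_exp (γ s s' : ℝ) (hγ : 0 ≤ γ) (v : List ℕ) (ω : Pop) :
    la γ s s' v ω ≤ ENNReal.ofReal (Real.exp (-(γ * s))) := by
  by_cases h1 : onLine s ω v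
  · refine (la_le_wgt γ s s' v ω).trans ((wgt_le γ ω v).trans ?_)
    apply ENNReal.ofReal_le_ofReal
    apply Real.exp_le_exp.2
    have := mul_le_mul_of_nonneg_left (onLine_birth h1).le hγ
    linarith
  · unfold la il
    rw [if_neg h1, zero_mul]
    exact zero_le

/-- Mean of a sum over the line. -/
theorem lintegral_line {β γ : ℝ} (μ : Measure ℝ) (s s' : ℝ) (φ : ℝ → ℝ≥0∞)
    (hφ : Measurable φ) :
    ∫⁻ ω, ∑' v, la γ s s' v ω * φ (birth ω v) ∂(popLaw μ β γ) ≤
      ∫⁻ r in Ioi s, φ r ∂(ren μ β γ) := by
  rw [← lintegral_indicator measurableSet_Ioi, lintegral_ren μ β γ _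
    (hφ.indicator measurableSet_Ioi)]
  have hm : ∀ v, Measurable fun ω => la γ s s' v ω * φ (birth ω v) := fun v =>
    ((lineData_la γ s s').meas_a v).mul (hφ.comp (measurable_birth v))
  rw [lintegral_tsum fun v => (hm v).aemeasurable]
  refine ENNReal.tsum_le_tsum fun v => lintegral_mono fun ω => ?_
  by_cases h1 : onLine s ω v
  · rw [indicator_of_mem (show birth ω v ∈ Ioi s from onLine_birth h1)]
    gcongr
    exact la_le_wgt γ s s' v ω
  · unfold la il
    rw [if_neg h1, zero_mul, zero_mul]
    exact zero_le

end Pool.Agent.H96.Cond
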