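import Mathlib
import Pool.Agent.H96.Cond.Lap

/-!
# Regular variation of the fitness law near its maximum
-/

set_option autoImplicit false

open MeasureTheory ProbabilityTheory Set Filter Topology
open scoped ENNReal

namespace Pool.Agent.H96.Cond

/-- Mass of the fitness law near `1`. -/
noncomputable def hh (μ : Measure ℝ) (ε : ℝ) : ℝ≥0∞ := μ (Ioo (1 - ε) 1)

theorem hh_mono (μ : Measure ℝ) : Monotone (hh μ) := by
  intro a b hab
  exact measure_mono (Ioo_subset_Ioo_left (by linarith))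

theorem hh_le_one (μ : Measure ℝ) [IsProbabilityMeasure μ] (ε : ℝ) : hh μ ε ≤ 1 := prob_le_one

theorem lintegral_exp_Ioi (γ z : ℝ) (hγ : 0 < γ) :
    ∫⁻ w in Ioi z, ENNReal.ofReal (γ * Real.exp (-(γ * w))) =
      ENNReal.ofReal (Real.exp (-(γ * z))) := by
  have h1 := integral_exp_mul_Ioi (a := -γ) (by linarith) z
  have h2 := integrableOn_exp_mul_Ioi (a := -γ) (by linarith) z
  have h3 : ∀ w, ENNReal.ofReal (γ * Real.exp (-(γ * w))) =
      ENNReal.ofReal γ * ENNReal.ofReal (Real.exp (-γ * w)) := fun w => by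
    rw [ENNReal.ofReal_mul hγ.le, neg_mul]
  simp only [h3]
  rw [lintegral_const_mul' _ _ ENNReal.ofReal_ne_top,
    ← ofReal_integral_eq_lintegral_ofReal h2
      (Filter.Eventually.of_forall fun _ => (Real.exp_pos _).le), h1,
    ← ENNReal.ofReal_mul hγ.le]
  congr 1
  rw [neg_div_neg_eq, neg_mul]
  field_simp

/-- Layer-cake formula for the Laplace transform. -/
theorem lap_layer (ν : Measure ℝ) [SFinite ν] (γ : ℝ) (hγ : 0 < γ)
    (hν : ∀ᵐ y ∂ν, 0 < y ∧ y < 1) (t : ℝ) (ht : 0 < t) :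
    lap ν γ t = ∫⁻ w in Ioi (0 : ℝ), ENNReal.ofReal (γ * Real.exp (-(γ * w))) *
      hh ν (w / t) := by
  have h1 : ∀ y : ℝ, 0 < y ∧ y < 1 → ENNReal.ofReal (Real.exp (-(γ * (1 - y) * t))) =
      ∫⁻ w in Ioi (0 : ℝ), {p : ℝ × ℝ | (1 - p.1) * t < p.2 ∧ p.1 < 1}.indicator
        (fun p => ENNReal.ofReal (γ * Real.exp (-(γ * p.2)))) (y, w) := by
    intro y hy
    have hz : 0 < (1 - y) * t := mul_pos (by linarith [hy.2]) ht
    rw [show γ * (1 - y) * t = γ * ((1 - y) * t) by ring, ← lintegral_exp_Ioi γ _ hγ,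
      ← lintegral_indicator measurableSet_Ioi, ← lintegral_indicator measurableSet_Ioi]
    refine lintegral_congr fun w => ?_
    by_cases hw : (1 - y) * t < w
    · rw [indicator_of_mem (show w ∈ Ioi ((1 - y) * t) from hw),
        indicator_of_mem (show w ∈ Ioi (0 : ℝ) from hz.trans hw), indicator_of_mem]
      exact ⟨hw, hy.2⟩
    · rw [indicator_of_notMem (show w ∉ Ioi ((1 - y) * t) from hw)]
      symm
      by_cases hw0 : w ∈ Ioi (0 : ℝ)
      · rw [indicator_of_mem hw0, indicator_of_notMem]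
        exact fun h => hw h.1
      · rw [indicator_of_notMem hw0]
  have hmeas : Measurable fun p : ℝ × ℝ => {p : ℝ × ℝ | (1 - p.1) * t < p.2 ∧ p.1 < 1}.indicator
        (fun p => ENNReal.ofReal (γ * Real.exp (-(γ * p.2)))) p := by
    refine Measurable.indicator (by fun_prop) ?_
    exact (measurableSet_lt (by fun_prop) measurable_snd).inter
      (measurableSet_lt measurable_fst measurable_const)
  unfold lap
  rw [lintegral_congr_ae (hν.mono h1), lintegral_lintegral_swap hmeas.aemeasurable]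
  refine lintegral_congr fun w => ?_
  have h2 : ∀ y : ℝ, {p : ℝ × ℝ | (1 - p.1) * t < p.2 ∧ p.1 < 1}.indicator
      (fun p => ENNReal.ofReal (γ * Real.exp (-(γ * p.2)))) (y, w) =
      (Ioo (1 - w / t) 1).indicator (fun _ => ENNReal.ofReal (γ * Real.exp (-(γ * w)))) y := by
    intro y
    have hiff : ((1 - y) * t < w ∧ y < 1) ↔ y ∈ Ioo (1 - w / t) 1 := by
      rw [← lt_div_iff₀ ht, mem_Ioo]
      constructor
      · rintro ⟨h, h'⟩; exact ⟨by linarith, h'⟩
      · rintro ⟨h, h'⟩; exact ⟨by linarith, h'⟩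
    by_cases h : (1 - y) * t < w ∧ y < 1
    · rw [indicator_of_mem (hiff.1 h), indicator_of_mem]
      exact h
    · rw [indicator_of_notMem (fun hc => h (hiff.2 hc)), indicator_of_notMem]
      exact h
  simp only [h2]
  rw [lintegral_indicator_const measurableSet_Ioo]
  rfl

/-- The assumption of regular variation. -/
structure RVar (μ : Measure ℝ) (α : ℝ) : Prop where
  pos : ∀ ε, 0 < ε → hh μ ε ≠ 0
  lim : ∀ c, 0 < c → Tendsto (fun ε => hh μ (c * ε) / hh μ ε) (𝓝[>] 0)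
    (𝓝 (ENNReal.ofReal (c ^ α)))

section

variable (μ : Measure ℝ) [IsProbabilityMeasure μ] {α : ℝ}

/-- Doubling for the mass near `1`. -/
theorem hh_doubling (h : RVar μ α) : ∃ D : ℝ≥0∞, D ≠ ⊤ ∧ ∀ ε, 0 < ε → hh μ (2 * ε) ≤ D * hh μ ε := by
  have h1 := h.lim 2 two_pos
  have hlt : ENNReal.ofReal ((2 : ℝ) ^ α) < ENNReal.ofReal ((2 : ℝ) ^ α) + 1 :=
    ENNReal.lt_add_right ENNReal.ofReal_ne_top one_ne_zero
  have h2 := h1.eventually (gt_mem_nhds hlt)
  rw [eventually_nhdsWithin_iff, Metric.eventually_nhds_iff] at h2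
  obtain ⟨e, he, h2⟩ := h2
  set D1 := ENNReal.ofReal ((2 : ℝ) ^ α) + 1 with hD1
  set D2 := (hh μ (e / 2))⁻¹ with hD2
  have hD2t : D2 ≠ ⊤ := ENNReal.inv_ne_top.2 (h.pos _ (by linarith))
  refine ⟨D1 + D2, ENNReal.add_ne_top.2 ⟨ENNReal.add_ne_top.2
    ⟨ENNReal.ofReal_ne_top, ENNReal.one_ne_top⟩, hD2t⟩, fun ε hε => ?_⟩
  rcases lt_or_ge ε e with hlt' | hge
  · have h3 := h2 (show dist ε 0 < e by rw [Real.dist_eq, sub_zero, abs_of_pos hε]; exact hlt') hε
    have h4 : hh μ (2 * ε) ≤ D1 * hh μ ε := by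
      rw [← ENNReal.div_le_iff (h.pos ε hε) (ne_top_of_le_ne_top ENNReal.one_ne_top
        (hh_le_one μ ε))]
      exact h3.le
    refine h4.trans ?_
    gcongr
    exact le_self_add
  · calc hh μ (2 * ε) ≤ 1 := hh_le_one μ _
      _ = D2 * hh μ (e / 2) := by
          rw [hD2, ENNReal.inv_mul_cancel (h.pos _ (by linarith))
            (ne_top_of_le_ne_top ENNReal.one_ne_top (hh_le_one μ _))]
      _ ≤ (D1 + D2) * hh μ ε := by
          gcongr
          · exact le_add_self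
          · exact hh_mono μ (by linarith)

/-- Polynomial comparison for the mass near `1`. -/
theorem hh_poly (h : RVar μ α) : ∃ p : ℕ, 1 ≤ p ∧ ∀ ε w, 0 < ε → 0 < w →
    hh μ (w * ε) ≤ ENNReal.ofReal ((2 * w + 2) ^ p) * hh μ ε := by
  obtain ⟨D, hD, hDle⟩ := hh_doubling μ h
  obtain ⟨n, hn⟩ := ENNReal.exists_nat_gt hD
  set p := n + 1 with hp
  have hDp : D ≤ ENNReal.ofReal ((2 : ℝ) ^ p) := by
    refine hn.le.trans ?_
    rw [← ENNReal.ofReal_natCast]
    apply ENNReal.ofReal_le_ofReal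
    have h1 : (n : ℝ) < 2 ^ n := by exact_mod_cast Nat.lt_two_pow_self
    have h2 : (2 : ℝ) ^ n ≤ 2 ^ p := pow_le_pow_right₀ (by norm_num) (by omega)
    linarith
  have hpow : ∀ (k : ℕ) (ε : ℝ), 0 < ε → hh μ (2 ^ k * ε) ≤
      ENNReal.ofReal (((2 : ℝ) ^ k) ^ p) * hh μ ε := by
    intro k ε hε
    induction k with
    | zero => simp
    | succ k ih =>
      calc hh μ (2 ^ (k + 1) * ε) = hh μ (2 * (2 ^ k * ε)) := by ring_nf
        _ ≤ D * hh μ (2 ^ k * ε) := hDle _ (by positivity)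
        _ ≤ ENNReal.ofReal ((2 : ℝ) ^ p) * (ENNReal.ofReal (((2 : ℝ) ^ k) ^ p) * hh μ ε) := by
            gcongr
        _ = _ := by
            rw [← mul_assoc, ← ENNReal.ofReal_mul (by positivity), ← mul_pow]
            congr 3
            ring
  refine ⟨p, by omega, fun ε w hε hw => ?_⟩
  rcases le_total w 1 with h1 | h1
  · calc hh μ (w * ε) ≤ hh μ ε := hh_mono μ (by nlinarith)
      _ = 1 * hh μ ε := (one_mul _).symm
      _ ≤ _ := by
          gcongr
          rw [← ENNReal.ofReal_one]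
          apply ENNReal.ofReal_le_ofReal
          exact one_le_pow₀ (by linarith)
  · obtain ⟨k, hk1, hk2⟩ := exists_nat_pow_near h1 (one_lt_two (α := ℝ))
    calc hh μ (w * ε) ≤ hh μ (2 ^ (k + 1) * ε) := hh_mono μ (by nlinarith)
      _ ≤ ENNReal.ofReal (((2 : ℝ) ^ (k + 1)) ^ p) * hh μ ε := hpow (k + 1) ε hε
      _ ≤ _ := by
          gcongr
          rw [pow_succ]
          linarith

theorem measurable_hh (t : ℝ) (ht : 0 < t) : Measurable fun w : ℝ => hh μ (w / t) := by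
  apply Monotone.measurable
  intro a b hab
  exact hh_mono μ (div_le_div_of_nonneg_right hab ht.le)

variable {γ : ℝ}

theorem dbl_of_poly {p : ℕ} (hp : ∀ ε w, 0 < ε → 0 < w →
    hh μ (w * ε) ≤ ENNReal.ofReal ((2 * w + 2) ^ p) * hh μ ε) (hγ : 0 < γ)
    (hμ : ∀ᵐ y ∂μ, 0 < y ∧ y < 1) : Dbl μ γ (ENNReal.ofReal (6 ^ p)) := by
  refine ⟨ENNReal.ofReal_ne_top, fun t ht => ?_⟩
  rcases ht.eq_or_lt with rfl | ht
  · rw [zero_div, lap_zero, mul_one, ← ENNReal.ofReal_one]
    apply ENNReal.ofReal_le_ofReal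
    exact one_le_pow₀ (by norm_num)
  · rw [lap_layer μ γ hγ hμ (t / 2) (by linarith), lap_layer μ γ hγ hμ t ht,
      ← lintegral_const_mul' _ _ ENNReal.ofReal_ne_top]
    refine setLIntegral_mono' measurableSet_Ioi fun w hw => ?_
    rw [mul_left_comm]
    gcongr
    have h1 := hp (w / t) 2 (div_pos hw ht) two_pos
    calc hh μ (w / (t / 2)) = hh μ (2 * (w / t)) := by
          congr 1
          field_simp
      _ ≤ _ := h1
      _ = _ := by norm_num

/-- Comparison of the Laplace transform and of the mass near `1`. -/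
theorem hh_le_lap (hγ : 0 < γ) (t : ℝ) (ht : 0 < t) :
    hh μ (1 / t) ≤ ENNReal.ofReal (Real.exp γ) * lap μ γ t := by
  unfold lap hh
  rw [← lintegral_const_mul' _ _ ENNReal.ofReal_ne_top, ← lintegral_indicator_one measurableSet_Ioo]
  refine lintegral_mono fun y => ?_
  by_cases hy : y ∈ Ioo (1 - 1 / t) 1
  · rw [indicator_of_mem hy, ← ENNReal.ofReal_mul (Real.exp_pos _).le, ← Real.exp_add]
    simp only [Pi.one_apply]
    rw [← ENNReal.ofReal_one]
    apply ENNReal.ofReal_le_ofReal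
    apply Real.one_le_exp
    have h1 : (1 - y) * t < 1 := by
      rw [← lt_div_iff₀ ht]
      linarith [hy.1]
    nlinarith
  · rw [indicator_of_notMem hy]
    exact zero_le

theorem lap_lower {p : ℕ} (hp : ∀ ε w, 0 < ε → 0 < w →
    hh μ (w * ε) ≤ ENNReal.ofReal ((2 * w + 2) ^ p) * hh μ ε) (hγ : 0 < γ)
    (hμ : ∀ᵐ y ∂μ, 0 < y ∧ y < 1) (t : ℝ) (ht : 0 < t) :
    1 ≤ ENNReal.ofReal (Real.exp γ * (2 * t + 2) ^ p) * lap μ γ t := by
  have h1 : hh μ 1 = 1 := by
    unfold hh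
    rw [sub_self]
    rw [prob_compl_eq_zero_iff measurableSet_Ioo |>.symm]
    exact mem_ae_iff.1 (hμ.mono fun y hy => hy)
  have h2 := hp (1 / t) t (by positivity) ht
  rw [mul_one_div, div_self ht.ne', h1] at h2
  calc (1 : ℝ≥0∞) ≤ ENNReal.ofReal ((2 * t + 2) ^ p) * hh μ (1 / t) := h2
    _ ≤ ENNReal.ofReal ((2 * t + 2) ^ p) * (ENNReal.ofReal (Real.exp γ) * lap μ γ t) := by
        gcongr
        exact hh_le_lap μ hγ t ht
    _ = _ := by
        rw [← mul_assoc, ← ENNReal.ofReal_mul (by positivity), mul_comm (Real.exp γ)]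

end

end Pool.Agent.H96.Cond
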