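import Mathlib
import Pool.Agent.H96.Cond.RV
import Pool.Agent.H96.Cond.Mean

/-!
# Limits of Laplace transforms under regular variation
-/

set_option autoImplicit false

open MeasureTheory ProbabilityTheory Set Filter Topology
open scoped ENNReal

namespace Pool.Agent.H96.Cond

/-- Unnormalized profile. -/
noncomputable def Gn (γ α x : ℝ) : ℝ≥0∞ :=
  ∫⁻ w in Ioi (0 : ℝ), ENNReal.ofReal (γ * Real.exp (-(γ * w))) * ENNReal.ofReal ((min w x) ^ α)

/-- Total mass of the unnormalized profile. -/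
noncomputable def Gd (γ α : ℝ) : ℝ≥0∞ :=
  ∫⁻ w in Ioi (0 : ℝ), ENNReal.ofReal (γ * Real.exp (-(γ * w))) * ENNReal.ofReal (w ^ α)

theorem exp_poly_ne_top (γ : ℝ) (hγ : 0 < γ) (p : ℕ) :
    ∫⁻ w in Ioi (0 : ℝ), ENNReal.ofReal (γ * Real.exp (-(γ * w))) *
      ENNReal.ofReal ((2 * w + 2) ^ p) ≠ ⊤ := by
  have h1 : ∀ w : ℝ, 0 < w → (2 * w + 2) ^ p ≤
      (4 / γ) ^ p * (p.factorial : ℝ) * Real.exp (γ / 2) * Real.exp (γ * w / 2) := by
    intro w hw
    have h2 := Real.pow_div_factorial_le_exp (γ * (w + 1) / 2) (by positivity) p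
    rw [div_le_iff₀ (by positivity)] at h2
    have h3 : (2 * w + 2) ^ p = (4 / γ) ^ p * (γ * (w + 1) / 2) ^ p := by
      rw [← mul_pow]
      congr 1
      field_simp
      ring
    have h4 : Real.exp (γ * (w + 1) / 2) = Real.exp (γ / 2) * Real.exp (γ * w / 2) := by
      rw [← Real.exp_add]
      congr 1
      ring
    rw [h3]
    calc (4 / γ) ^ p * (γ * (w + 1) / 2) ^ p ≤
          (4 / γ) ^ p * (Real.exp (γ * (w + 1) / 2) * (p.factorial : ℝ)) := by gcongr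
      _ = _ := by rw [h4]; ring
  set K := (4 / γ) ^ p * (p.factorial : ℝ) * Real.exp (γ / 2) with hK
  have hK0 : 0 ≤ K := by positivity
  refine ne_top_of_le_ne_top (b := ENNReal.ofReal (K * γ) *
    ENNReal.ofReal (1 / (γ / 2))) (ENNReal.mul_ne_top ENNReal.ofReal_ne_top
      ENNReal.ofReal_ne_top) ?_
  rw [← lintegral_exp_neg (γ / 2) (by linarith), ← lintegral_const_mul' _ _ ENNReal.ofReal_ne_top]
  refine setLIntegral_mono' measurableSet_Ioi fun w hw => ?_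
  rw [← ENNReal.ofReal_mul (by positivity), ← ENNReal.ofReal_mul (by positivity)]
  apply ENNReal.ofReal_le_ofReal
  have h5 : Real.exp (-(γ / 2 * w)) = Real.exp (-(γ * w)) * Real.exp (γ * w / 2) := by
    rw [← Real.exp_add]
    congr 1
    ring
  rw [h5]
  calc γ * Real.exp (-(γ * w)) * (2 * w + 2) ^ p
      ≤ γ * Real.exp (-(γ * w)) * (K * Real.exp (γ * w / 2)) :=
        mul_le_mul_of_nonneg_left (h1 w hw) (by positivity)
    _ = _ := by ring

theorem lintegral_div_c {X : Type*} [MeasurableSpace X] (ν : Measure X) (f : X → ℝ≥0∞)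
    (c : ℝ≥0∞) (hc : c ≠ 0) : (∫⁻ x, f x ∂ν) / c = ∫⁻ x, f x / c ∂ν := by
  simp only [div_eq_mul_inv]
  rw [lintegral_mul_const' _ _ (ENNReal.inv_ne_top.2 hc)]

theorem div_mul_div_cancel_mid (a b c : ℝ≥0∞) (hb : b ≠ 0) (hb' : b ≠ ⊤) :
    a / b * (b / c) = a / c := by
  rw [div_eq_mul_inv a b, div_eq_mul_inv b c, mul_assoc, ← mul_assoc _ b,
    ENNReal.inv_mul_cancel hb hb', one_mul, ← div_eq_mul_inv]

theorem div_div_cancel_right' (a b c : ℝ≥0∞) (hc : c ≠ 0) (hc' : c ≠ ⊤) :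
    (a / c) / (b / c) = a / b := by
  rw [div_eq_mul_inv a, div_eq_mul_inv b]
  exact ENNReal.mul_div_mul_right _ _ (ENNReal.inv_ne_zero.2 hc') (ENNReal.inv_ne_top.2 hc)

section

variable (μ : Measure ℝ) [IsProbabilityMeasure μ] {α γ : ℝ}

set_option linter.unusedSectionVars false

omit [IsProbabilityMeasure μ] in
theorem hh_restrict (t x w : ℝ) (ht : 0 < t) :
    hh (μ.restrict (Ioo (1 - x / t) 1)) (w / t) = hh μ (min w x / t) := by
  unfold hh
  rw [Measure.restrict_apply measurableSet_Ioo, Ioo_inter_Ioo]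
  congr 2
  · rcases le_total w x with h | h
    · have h1 : w / t ≤ x / t := div_le_div_of_nonneg_right h ht.le
      rw [min_eq_left h, sup_eq_left.2 (by linarith)]
    · have h1 : x / t ≤ w / t := div_le_div_of_nonneg_right h ht.le
      rw [min_eq_right h, sup_eq_right.2 (by linarith)]
  · simp

theorem measurable_hh_min (x t : ℝ) (ht : 0 < t) : Measurable fun w : ℝ => hh μ (min w x / t) := by
  apply Monotone.measurable
  intro a b hab
  exact hh_mono μ (div_le_div_of_nonneg_right (min_le_min_right x hab) ht.le)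

theorem tendsto_layer (h : RVar μ α) {p : ℕ} (hp : ∀ ε w, 0 < ε → 0 < w →
    hh μ (w * ε) ≤ ENNReal.ofReal ((2 * w + 2) ^ p) * hh μ ε) (hγ : 0 < γ)
    (c : ℝ → ℝ) (hc0 : ∀ w, 0 < w → 0 < c w) (hcw : ∀ w, 0 < w → c w ≤ w)
    (hcm : Monotone c) :
    Tendsto (fun t : ℝ => ∫⁻ w in Ioi (0 : ℝ), ENNReal.ofReal (γ * Real.exp (-(γ * w))) *
      (hh μ (c w / t) / hh μ (1 / t))) atTop
      (𝓝 (∫⁻ w in Ioi (0 : ℝ), ENNReal.ofReal (γ * Real.exp (-(γ * w))) *
        ENNReal.ofReal (c w ^ α))) := by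
  refine tendsto_lintegral_filter_of_dominated_convergence
    (fun w => ENNReal.ofReal (γ * Real.exp (-(γ * w))) * ENNReal.ofReal ((2 * w + 2) ^ p)) ?_ ?_
    (exp_poly_ne_top γ hγ p) ?_
  · refine (eventually_gt_atTop (0 : ℝ)).mono fun t ht => ?_
    refine Measurable.mul (by fun_prop) ?_
    refine Measurable.div_const ?_ _
    apply Monotone.measurable
    intro a b hab
    exact hh_mono μ (div_le_div_of_nonneg_right (hcm hab) ht.le)
  · refine (eventually_gt_atTop (0 : ℝ)).mono fun t ht => ?_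
    refine (ae_restrict_mem measurableSet_Ioi).mono fun w hw => ?_
    have hw0 : (0 : ℝ) < w := hw
    gcongr
    apply ENNReal.div_le_of_le_mul
    have h1 := hp (1 / t) w (by positivity) hw0
    refine le_trans (hh_mono μ ?_) h1
    rw [mul_one_div]
    exact div_le_div_of_nonneg_right (hcw w hw0) ht.le
  · refine (ae_restrict_mem measurableSet_Ioi).mono fun w hw => ?_
    have hw0 : (0 : ℝ) < w := hw
    have h1 := (h.lim (c w) (hc0 w hw0)).comp tendsto_inv_atTop_nhdsGT_zero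
    refine ENNReal.Tendsto.const_mul (h1.congr fun t => ?_) (Or.inr ENNReal.ofReal_ne_top)
    simp only [Function.comp, div_eq_mul_inv, one_mul]

theorem tendsto_lap_hh (h : RVar μ α) {p : ℕ} (hp : ∀ ε w, 0 < ε → 0 < w →
    hh μ (w * ε) ≤ ENNReal.ofReal ((2 * w + 2) ^ p) * hh μ ε) (hγ : 0 < γ)
    (hμ : ∀ᵐ y ∂μ, 0 < y ∧ y < 1) :
    Tendsto (fun t => lap μ γ t / hh μ (1 / t)) atTop (𝓝 (Gd γ α)) := by
  have h1 := tendsto_layer μ h hp hγ (fun w => w) (fun w hw => hw) (fun w _ => le_rfl)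
    monotone_id
  refine h1.congr' ?_
  filter_upwards [eventually_gt_atTop (0 : ℝ)] with t ht
  rw [lap_layer μ γ hγ hμ t ht, lintegral_div_c _ _ _ (h.pos _ (by positivity))]
  refine lintegral_congr fun w => ?_
  rw [mul_div_assoc]

theorem tendsto_lapA_hh (h : RVar μ α) {p : ℕ} (hp : ∀ ε w, 0 < ε → 0 < w →
    hh μ (w * ε) ≤ ENNReal.ofReal ((2 * w + 2) ^ p) * hh μ ε) (hγ : 0 < γ)
    (hμ : ∀ᵐ y ∂μ, 0 < y ∧ y < 1) (x : ℝ) (hx : 0 < x) :
    Tendsto (fun t => lap (μ.restrict (Ioo (1 - x / t) 1)) γ t / hh μ (1 / t)) atTop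
      (𝓝 (Gn γ α x)) := by
  have h1 := tendsto_layer μ h hp hγ (fun w => min w x) (fun w hw => lt_min hw hx)
    (fun w _ => min_le_left _ _) (fun a b hab => min_le_min_right x hab)
  refine h1.congr' ?_
  filter_upwards [eventually_gt_atTop (0 : ℝ)] with t ht
  rw [lap_layer (μ.restrict (Ioo (1 - x / t) 1)) γ hγ (ae_restrict_of_ae hμ) t ht,
    lintegral_div_c _ _ _ (h.pos _ (by positivity))]
  refine lintegral_congr fun w => ?_
  rw [mul_div_assoc, hh_restrict μ t x w ht]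

theorem Gd_pos (hγ : 0 < γ) (α : ℝ) : Gd γ α ≠ 0 := by
  unfold Gd
  rw [Ne, lintegral_eq_zero_iff (by fun_prop)]
  intro h
  have h2 : ∀ᵐ w : ℝ ∂(volume.restrict (Ioi (0 : ℝ))), False := by
    filter_upwards [h, ae_restrict_mem measurableSet_Ioi] with w hw hw0
    have hw1 : (0 : ℝ) < w := hw0
    simp only [Pi.zero_apply, mul_eq_zero, ENNReal.ofReal_eq_zero] at hw
    rcases hw with hw | hw
    · exact absurd hw (not_le.2 (by positivity))
    · exact absurd hw (not_le.2 (by positivity))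
  simp only [eventually_false_iff_eq_bot, ae_eq_bot] at h2
  have h3 : (volume : Measure ℝ) (Ioi (0 : ℝ)) = 0 := by
    rw [← Measure.restrict_apply_univ, h2]
    simp
  simp at h3

theorem Gd_ne_top (hγ : 0 < γ) (hα : 0 < α) : Gd γ α ≠ ⊤ := by
  obtain ⟨p, hp⟩ := exists_nat_ge α
  refine ne_top_of_le_ne_top (exp_poly_ne_top γ hγ p) ?_
  unfold Gd
  refine setLIntegral_mono' measurableSet_Ioi fun w hw => ?_
  have hw0 : (0 : ℝ) < w := hw
  gcongr
  calc w ^ α ≤ (2 * w + 2) ^ α := Real.rpow_le_rpow hw0.le (by linarith) hα.le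
    _ ≤ (2 * w + 2) ^ (p : ℝ) := Real.rpow_le_rpow_of_exponent_le (by linarith) hp
    _ = (2 * w + 2) ^ p := Real.rpow_natCast _ _

/-- The window ratio of Laplace transforms. -/
theorem tendsto_window (h : RVar μ α) {p : ℕ} (hp : ∀ ε w, 0 < ε → 0 < w →
    hh μ (w * ε) ≤ ENNReal.ofReal ((2 * w + 2) ^ p) * hh μ ε) (hγ : 0 < γ) (hα : 0 < α)
    (hμ : ∀ᵐ y ∂μ, 0 < y ∧ y < 1) (x : ℝ) (hx : 0 < x) :
    Tendsto (fun t => lap (μ.restrict (Ioo (1 - x / t) 1)) γ t / lap μ γ t) atTop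
      (𝓝 (Gn γ α x / Gd γ α)) := by
  have h1 := tendsto_lap_hh μ h hp hγ hμ
  have h2 := tendsto_lapA_hh μ h hp hγ hμ x hx
  have h3 := ENNReal.Tendsto.div h2 (Or.inr (Gd_pos hγ α)) h1 (Or.inl (Gd_ne_top hγ hα))
  refine h3.congr' ?_
  filter_upwards [eventually_gt_atTop (0 : ℝ)] with t ht
  have e1 := h.pos (1 / t) (by positivity)
  have e2 : hh μ (1 / t) ≠ ⊤ := ne_top_of_le_ne_top ENNReal.one_ne_top (hh_le_one μ _)
  exact div_div_cancel_right' _ _ _ e1 e2

/-- Ratio of the Laplace transform at `2 t` and `t`. -/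
theorem tendsto_lap_two (h : RVar μ α) {p : ℕ} (hp : ∀ ε w, 0 < ε → 0 < w →
    hh μ (w * ε) ≤ ENNReal.ofReal ((2 * w + 2) ^ p) * hh μ ε) (hγ : 0 < γ) (hα : 0 < α)
    (hμ : ∀ᵐ y ∂μ, 0 < y ∧ y < 1) :
    Tendsto (fun t => lap μ γ (2 * t) / lap μ γ t) atTop
      (𝓝 (ENNReal.ofReal ((1 / 2 : ℝ) ^ α))) := by
  have h1 := tendsto_lap_hh μ h hp hγ hμ
  have h2 : Tendsto (fun t : ℝ => 2 * t) atTop atTop := tendsto_id.const_mul_atTop two_pos
  have h3 := h1.comp h2
  have h4 := (h.lim (1 / 2) (by norm_num)).comp tendsto_inv_atTop_nhdsGT_zero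
  have hG0 := Gd_pos hγ α
  have hGt := Gd_ne_top hγ hα
  have h5 := ENNReal.Tendsto.div (ENNReal.Tendsto.mul h3 (Or.inl hG0) h4
    (Or.inr hGt)) (Or.inr hG0) h1 (Or.inl hGt)
  have e0 : Gd γ α * ENNReal.ofReal ((1 / 2 : ℝ) ^ α) / Gd γ α =
      ENNReal.ofReal ((1 / 2 : ℝ) ^ α) := by
    rw [mul_comm, ENNReal.mul_div_cancel_right hG0 hGt]
  rw [e0] at h5
  refine h5.congr' ?_
  filter_upwards [eventually_gt_atTop (0 : ℝ)] with t ht
  have e1 := h.pos (1 / t) (by positivity)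
  have e2 : hh μ (1 / t) ≠ ⊤ := ne_top_of_le_ne_top ENNReal.one_ne_top (hh_le_one μ _)
  have e3 := h.pos (1 / (2 * t)) (by positivity)
  have e4 : hh μ (1 / (2 * t)) ≠ ⊤ := ne_top_of_le_ne_top ENNReal.one_ne_top (hh_le_one μ _)
  simp only [Function.comp]
  have e5 : (1 / 2 : ℝ) * t⁻¹ = 1 / (2 * t) := by field_simp
  have e6 : t⁻¹ = 1 / t := (one_div t).symm
  rw [e5, e6]
  rw [div_mul_div_cancel_mid _ _ _ e3 e4]
  exact div_div_cancel_right' _ _ _ e1 e2

/-- Tail integral of the Laplace transform. -/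
noncomputable def lapT (μ : Measure ℝ) (γ s : ℝ) : ℝ≥0∞ := ∫⁻ a in Ioi s, lap μ γ a

theorem lapT_anti : Antitone (lapT μ γ) := fun _ _ hst =>
  lintegral_mono_set (Ioi_subset_Ioi hst)

theorem lapT_two (s : ℝ) : lapT μ γ (2 * s) = 2 * ∫⁻ a in Ioi s, lap μ γ (2 * a) := by
  unfold lapT
  have hmap : Measure.map (fun a => 2 * a) (volume : Measure ℝ) =
      ENNReal.ofReal |2⁻¹| • (volume : Measure ℝ) := Real.map_volume_mul_left two_ne_zero
  have hvol : (volume : Measure ℝ) = ENNReal.ofReal 2 • Measure.map (fun a => 2 * a) volume := by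
    rw [hmap, smul_smul, ← ENNReal.ofReal_mul zero_le_two, abs_of_pos (by norm_num),
      mul_inv_cancel₀ two_ne_zero, ENNReal.ofReal_one, one_smul]
  rw [← lintegral_indicator measurableSet_Ioi, ← lintegral_indicator measurableSet_Ioi]
  conv_lhs => rw [hvol]
  rw [lintegral_smul_measure, lintegral_map ((measurable_lap μ γ).indicator measurableSet_Ioi)
    (by fun_prop), smul_eq_mul]
  congr 1
  · simp
  · refine lintegral_congr fun a => ?_
    by_cases ha : s < a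
    · rw [indicator_of_mem (show a ∈ Ioi s from ha), indicator_of_mem]
      simp only [mem_Ioi]; linarith
    · rw [indicator_of_notMem (show a ∉ Ioi s from ha), indicator_of_notMem]
      simp only [mem_Ioi]; linarith

/-- Geometric decay of the tail integral and comparison with the Laplace transform. -/
theorem lapT_decay (h : RVar μ α) {p : ℕ} (hp : ∀ ε w, 0 < ε → 0 < w →
    hh μ (w * ε) ≤ ENNReal.ofReal ((2 * w + 2) ^ p) * hh μ ε) (hγ : 0 < γ) (hα : 1 < α)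
    (hμ : ∀ᵐ y ∂μ, 0 < y ∧ y < 1) (hI : ∫⁻ a in Ioi (0 : ℝ), lap μ γ a ≠ ⊤) :
    ∃ ρ : ℝ≥0∞, ρ < 1 ∧ ∃ T0 : ℝ, 0 < T0 ∧ (∀ s, T0 ≤ s → lapT μ γ (2 * s) ≤ ρ * lapT μ γ s) ∧
      (∀ s, T0 ≤ s → lapT μ γ s ≤ ENNReal.ofReal s * lap μ γ s * (1 - ρ)⁻¹) := by
  have h1 := tendsto_lap_two μ h hp hγ (by linarith) hμ
  have hq : ENNReal.ofReal ((1 / 2 : ℝ) ^ α) < 1 / 2 := by
    have e1 : (1 / 2 : ℝ) ^ α < (1 / 2 : ℝ) ^ (1 : ℝ) :=
      Real.rpow_lt_rpow_of_exponent_gt (by norm_num) (by norm_num) hα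
    rw [Real.rpow_one] at e1
    have e2 : (1 / 2 : ℝ≥0∞) = ENNReal.ofReal (1 / 2) := by
      rw [ENNReal.ofReal_div_of_pos two_pos, ENNReal.ofReal_one, ENNReal.ofReal_ofNat]
    rw [e2]
    exact (ENNReal.ofReal_lt_ofReal_iff (by norm_num)).2 e1
  obtain ⟨q, hq1, hq2⟩ := exists_between hq
  obtain ⟨T0, hT0⟩ := ((h1.eventually (gt_mem_nhds hq1)).and
    (eventually_gt_atTop (0 : ℝ))).exists_forall_of_atTop
  have hρ : 2 * q < 1 := by
    have := ENNReal.mul_lt_mul_right (a := 2) (by norm_num) (by norm_num) hq2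
    rwa [one_div, ENNReal.mul_inv_cancel (by norm_num) (by norm_num)] at this
  have hA : ∀ s, T0 ≤ s → lapT μ γ (2 * s) ≤ 2 * q * lapT μ γ s := by
    intro s hs
    rw [lapT_two, mul_assoc]
    gcongr
    unfold lapT
    rw [← lintegral_const_mul _ (measurable_lap μ γ)]
    refine setLIntegral_mono' measurableSet_Ioi fun a ha => ?_
    have h2 := (hT0 a (hs.trans (le_of_lt ha))).1
    rw [ENNReal.div_lt_iff (Or.inl (lap_pos μ γ a).ne') (Or.inl (lap_ne_top μ γ hγ.le hμ a))] at h2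
    exact h2.le
  refine ⟨2 * q, hρ, T0, (hT0 T0 le_rfl).2, hA, fun s hs => ?_⟩
  have hs0 : 0 < s := (hT0 s hs).2
  have hfin : lapT μ γ s ≠ ⊤ := ne_top_of_le_ne_top hI (lapT_anti μ hs0.le)
  apply le_of_le_add_mul _ _ _ hfin hρ
  calc lapT μ γ s ≤ (∫⁻ a in Ioc s (2 * s), lap μ γ a) + lapT μ γ (2 * s) := by
        unfold lapT
        rw [← Ioc_union_Ioi_eq_Ioi (show s ≤ 2 * s by linarith)]
        exact lintegral_union_le _ _ _
    _ ≤ (∫⁻ a in Ioc s (2 * s), lap μ γ s) + 2 * q * lapT μ γ s := by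
        refine add_le_add ?_ (hA s hs)
        exact setLIntegral_mono' measurableSet_Ioc fun a ha => lap_anti μ γ hγ.le hμ ha.1.le
    _ = ENNReal.ofReal s * lap μ γ s + 2 * q * lapT μ γ s := by
        rw [setLIntegral_const, Real.volume_Ioc, mul_comm]
        congr 3
        ring

end

end Pool.Agent.H96.Cond
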