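import Mathlib
import Pool.Agent.H96.Cond.Line
import Pool.Agent.H96.Cond.RVLim

/-!
# Children founded in a window of ages
-/

set_option autoImplicit false
set_option linter.unusedSectionVars false

open MeasureTheory ProbabilityTheory Set Filter Topology
open scoped ENNReal

namespace Pool.Agent.H96.Cond

/-- Tilted weight of the children founded at an age in `(a1, a2]`. -/
noncomputable def yw (γ a1 a2 : ℝ) (L : Life) : ℝ≥0∞ :=
  ∑' j, cw γ L j * (Ioc a1 a2).indicator (fun _ => 1) (age L j)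

theorem measurable_yw (γ a1 a2 : ℝ) : Measurable (yw γ a1 a2) :=
  meas_tsum fun j => (measurable_cw γ j).mul
    ((measurable_const.indicator measurableSet_Ioc).comp (measurable_age j))

/-- Mean weight over the window for a given fitness, up to the factor `β`. -/
noncomputable def kw (γ a1 a2 y : ℝ) : ℝ≥0∞ :=
  ∫⁻ a in Ioc a1 a2, ENNReal.ofReal (y * Real.exp (-(γ * (1 - y) * a)))

variable {β γ : ℝ} [hp : Params β γ] (μ : Measure ℝ) [IsProbabilityMeasure μ]

omit hp in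
theorem setLIntegral_window (a1 a2 : ℝ) (ha : 0 ≤ a1) (f : ℝ → ℝ≥0∞) :
    ∫⁻ a in Ioi (0 : ℝ), f a * (Ioc a1 a2).indicator (fun _ => 1) a = ∫⁻ a in Ioc a1 a2, f a := by
  rw [← lintegral_indicator measurableSet_Ioi, ← lintegral_indicator measurableSet_Ioc]
  refine lintegral_congr fun a => ?_
  by_cases h : a ∈ Ioc a1 a2
  · rw [indicator_of_mem (show a ∈ Ioi (0 : ℝ) from lt_of_le_of_lt ha h.1), indicator_of_mem h,
      indicator_of_mem h, mul_one]
  · rw [indicator_of_notMem h]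
    by_cases h0 : a ∈ Ioi (0 : ℝ)
    · rw [indicator_of_mem h0, indicator_of_notMem h, mul_zero]
    · rw [indicator_of_notMem h0]

theorem mean_yw (y : ℝ) (hy : 0 < y) (a1 a2 : ℝ) (ha : 0 ≤ a1) :
    ∫⁻ c, yw γ a1 a2 (y, c) ∂(clockLaw β γ) = ENNReal.ofReal β * kw γ a1 a2 y := by
  have hφ : Measurable fun a : ℝ => ENNReal.ofReal (Real.exp (-(γ * a))) *
      (Ioc a1 a2).indicator (fun _ => 1) a :=
    Measurable.mul (by fun_prop) (measurable_const.indicator measurableSet_Ioc)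
  have h1 : ∀ c : ℕ → Mark, yw γ a1 a2 (y, c) = ∑' j, (if (c j).2.1 = true then 1 else 0) *
      (ENNReal.ofReal (Real.exp (-(γ * age (y, c) j))) *
        (Ioc a1 a2).indicator (fun _ => 1) (age (y, c) j)) := by
    intro c
    unfold yw cw
    exact tsum_congr fun j => mul_assoc _ _ _
  simp only [h1]
  rw [mean_agesB (β := β) (γ := γ) y hy _ hφ, Kf_tilt y hy, setLIntegral_window a1 a2 ha]
  rfl

theorem kw_second (hγ : 0 < γ) (y : ℝ) (hy : 0 < y) (a1 a2 : ℝ) (ha : 0 ≤ a1) :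
    ∫⁻ c, yw γ a1 a2 (y, c) ^ 2 ∂(clockLaw β γ) ≤
      ENNReal.ofReal (Real.exp (-(γ * a1))) * kw γ a1 a2 y + 4 * (kw γ a1 a2 y) ^ 2 := by
  set φ : ℝ → ℝ≥0∞ := fun a => ENNReal.ofReal (Real.exp (-(γ * a))) *
      (Ioc a1 a2).indicator (fun _ => 1) a with hφd
  have hφ : Measurable φ :=
    Measurable.mul (by fun_prop) (measurable_const.indicator measurableSet_Ioc)
  have h1 : ∀ c : ℕ → Mark, yw γ a1 a2 (y, c) ≤ ∑' j, φ (age (y, c) j) := by
    intro c
    unfold yw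
    gcongr with j
    exact mul_le_mul' (cw_le _ _) le_rfl
  have h2 : Kf γ y φ = kw γ a1 a2 y := by
    rw [hφd, Kf_tilt y hy, setLIntegral_window a1 a2 ha]
    rfl
  have hφsq : ∀ a, φ a ^ 2 ≤ ENNReal.ofReal (Real.exp (-(γ * a1))) * φ a := by
    intro a
    rw [sq]
    by_cases ha2 : a ∈ Ioc a1 a2
    · refine mul_le_mul' ?_ le_rfl
      rw [hφd]
      beta_reduce
      rw [indicator_of_mem ha2, mul_one]
      apply ENNReal.ofReal_le_ofReal
      apply Real.exp_le_exp.2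
      have := mul_le_mul_of_nonneg_left ha2.1.le hγ.le
      linarith
    · have : φ a = 0 := by
        rw [hφd]
        beta_reduce
        rw [indicator_of_notMem ha2, mul_zero]
      rw [this, mul_zero, mul_zero]
  have h3 : Kf γ y (fun a => φ a ^ 2) ≤ ENNReal.ofReal (Real.exp (-(γ * a1))) * kw γ a1 a2 y := by
    rw [← h2]
    unfold Kf
    rw [← lintegral_const_mul' _ _ ENNReal.ofReal_ne_top]
    refine setLIntegral_mono' measurableSet_Ioi fun a _ => ?_
    rw [mul_left_comm]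
    exact mul_le_mul' le_rfl (hφsq a)
  calc ∫⁻ c, yw γ a1 a2 (y, c) ^ 2 ∂(clockLaw β γ)
      ≤ ∫⁻ c, (∑' j, φ (age (y, c) j)) ^ 2 ∂(clockLaw β γ) := by
        refine lintegral_mono fun c => ?_
        gcongr
        exact h1 c
    _ ≤ Kf γ y (fun a => φ a ^ 2) + 4 * (Kf γ y φ) ^ 2 := second_ages y hy φ hφ
    _ ≤ _ := by
        rw [h2]
        gcongr

omit hp in
theorem kw_lower (hγ : 0 < γ) (y : ℝ) (hy : 0 < y) (hy1 : y < 1) (a1 a2 : ℝ) :
    ENNReal.ofReal ((a2 - a1) * (y * Real.exp (-(γ * (1 - y) * a2)))) ≤ kw γ a1 a2 y := by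
  unfold kw
  calc ENNReal.ofReal ((a2 - a1) * (y * Real.exp (-(γ * (1 - y) * a2))))
      = ∫⁻ _ in Ioc a1 a2, ENNReal.ofReal (y * Real.exp (-(γ * (1 - y) * a2))) := by
        rw [setLIntegral_const, Real.volume_Ioc, mul_comm, ← ENNReal.ofReal_mul (by positivity)]
    _ ≤ _ := by
        refine setLIntegral_mono' measurableSet_Ioc fun a ha => ?_
        apply ENNReal.ofReal_le_ofReal
        apply mul_le_mul_of_nonneg_left _ hy.le
        apply Real.exp_le_exp.2
        have hz : 0 ≤ γ * (1 - y) := mul_nonneg hγ.le (by linarith)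
        have := mul_le_mul_of_nonneg_left ha.2 hz
        linarith

omit hp in
theorem kw_upper (hγ : 0 < γ) (y : ℝ) (hy1 : y < 1) (a1 a2 : ℝ) (h12 : a1 ≤ a2) :
    kw γ a1 a2 y ≤ ENNReal.ofReal ((a2 - a1) * Real.exp (-(γ * (1 - y) * a1))) := by
  unfold kw
  calc ∫⁻ a in Ioc a1 a2, ENNReal.ofReal (y * Real.exp (-(γ * (1 - y) * a)))
      ≤ ∫⁻ _ in Ioc a1 a2, ENNReal.ofReal (Real.exp (-(γ * (1 - y) * a1))) := by
        refine setLIntegral_mono' measurableSet_Ioc fun a ha => ?_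
        apply ENNReal.ofReal_le_ofReal
        have hz : 0 ≤ γ * (1 - y) := mul_nonneg hγ.le (by linarith)
        have h1 := mul_le_mul_of_nonneg_left ha.1.le hz
        have h2 : Real.exp (-(γ * (1 - y) * a)) ≤ Real.exp (-(γ * (1 - y) * a1)) :=
          Real.exp_le_exp.2 (by linarith)
        have h3 := Real.exp_pos (-(γ * (1 - y) * a))
        nlinarith
    _ = _ := by
        rw [setLIntegral_const, Real.volume_Ioc, mul_comm,
          ← ENNReal.ofReal_mul (by linarith)]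

/-- A second moment lower bound on a probability. -/
theorem paley_zygmund {X : Type*} [MeasurableSpace X] (ν : Measure X) [IsProbabilityMeasure ν]
    (Y : X → ℝ≥0∞) (hY : Measurable Y) (m K c : ℝ≥0∞) (hm : ∫⁻ x, Y x ∂ν = m) (hm0 : m ≠ 0)
    (hmt : m ≠ ⊤) (hK0 : K ≠ 0) (hKt : K ≠ ⊤) (h2 : ∫⁻ x, Y x ^ 2 ∂ν ≤ K * m ^ 2)
    (hc : 2 * c ≤ m) : (4 * K)⁻¹ ≤ ν {x | c ≤ Y x} := by
  set l : ℝ≥0∞ := (2 * K * m)⁻¹ with hl
  have h2K : 2 * K ≠ 0 := mul_ne_zero two_ne_zero hK0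
  have h2Kt : 2 * K ≠ ⊤ := ENNReal.mul_ne_top (by norm_num) hKt
  have hl0 : l ≠ 0 := ENNReal.inv_ne_zero.2 (ENNReal.mul_ne_top h2Kt hmt)
  have hlt : l ≠ ⊤ := ENNReal.inv_ne_top.2 (mul_ne_zero h2K hm0)
  have hlm : l * m = (2 * K)⁻¹ := by
    rw [hl, ENNReal.mul_inv (Or.inl h2K) (Or.inl h2Kt), mul_assoc,
      ENNReal.inv_mul_cancel hm0 hmt, mul_one]
  have hms : MeasurableSet {x | c ≤ Y x} := measurableSet_le measurable_const hY
  have hpt : ∀ x, 2 * (l * Y x) ≤ 2 * (l * c) + l ^ 2 * Y x ^ 2 +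
      {x | c ≤ Y x}.indicator (fun _ => 1) x := by
    intro x
    by_cases hx : c ≤ Y x
    · rw [indicator_of_mem (show x ∈ {x | c ≤ Y x} from hx)]
      have := two_mul_le' (l * Y x) 1
      rw [mul_one, one_pow, mul_pow] at this
      calc 2 * (l * Y x) ≤ l ^ 2 * Y x ^ 2 + 1 := this
        _ ≤ 2 * (l * c) + (l ^ 2 * Y x ^ 2 + 1) := le_add_self
        _ = _ := by rw [add_assoc]
    · rw [indicator_of_notMem (show x ∉ {x | c ≤ Y x} from hx), add_zero]
      refine le_trans ?_ le_self_add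
      gcongr
      exact (not_le.1 hx).le
  have hint := lintegral_mono (μ := ν) hpt
  have hm1 : Measurable fun x => {x | c ≤ Y x}.indicator (fun _ => (1 : ℝ≥0∞)) x :=
    measurable_const.indicator hms
  rw [lintegral_const_mul _ (hY.const_mul l), lintegral_const_mul _ hY, hm,
    lintegral_add_right _ hm1, lintegral_add_left measurable_const, lintegral_const, measure_univ,
    mul_one, lintegral_const_mul _ (hY.pow_const 2),
    lintegral_indicator_const hms, one_mul] at hint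
  set i : ℝ≥0∞ := (4 * K)⁻¹ with hi
  have hit : i ≠ ⊤ := ENNReal.inv_ne_top.2 (mul_ne_zero (by norm_num) hK0)
  have h2i : (2 * K)⁻¹ = 2 * i := by
    have e1 : (4 * K : ℝ≥0∞)⁻¹ = 2⁻¹ * (2 * K)⁻¹ := by
      rw [← ENNReal.mul_inv (Or.inl two_ne_zero) (Or.inl (by norm_num))]
      congr 1
      ring
    rw [hi, e1, ← mul_assoc, ENNReal.mul_inv_cancel two_ne_zero (by norm_num), one_mul]
  have h5 : 2 * (l * c) ≤ 2 * i := by
    rw [← h2i, ← hlm, mul_left_comm]
    gcongr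
  have h6 : l ^ 2 * ∫⁻ x, Y x ^ 2 ∂ν ≤ i := by
    calc l ^ 2 * ∫⁻ x, Y x ^ 2 ∂ν ≤ l ^ 2 * (K * m ^ 2) := by gcongr
      _ = K * (l * m) * (l * m) := by ring
      _ = K * (2 * K)⁻¹ * (2 * i) := by rw [hlm, ← h2i]
      _ = (K * 2 * (2 * K)⁻¹) * i := by ring
      _ = i := by
          rw [mul_comm K 2, ENNReal.mul_inv_cancel h2K h2Kt, one_mul]
  rw [hlm, h2i] at hint
  have h7 : 3 * i + i ≤ 3 * i + ν {x | c ≤ Y x} := by
    calc 3 * i + i = 2 * (2 * i) := by ring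
      _ ≤ 2 * (l * c) + l ^ 2 * ∫⁻ x, Y x ^ 2 ∂ν + ν {x | c ≤ Y x} := hint
      _ ≤ 2 * i + i + ν {x | c ≤ Y x} := by gcongr
      _ = _ := by ring
  exact (ENNReal.add_le_add_iff_left (ENNReal.mul_ne_top (by norm_num) hit)).1 h7

end Pool.Agent.H96.Cond
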