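import Mathlib
import Pool.Agent.H96.Cond.Window

/-!
# Independent trials at the root
-/

set_option autoImplicit false
set_option linter.unusedSectionVars false

open MeasureTheory ProbabilityTheory Set Filter Topology
open scoped ENNReal

namespace Pool.Agent.H96.Cond

variable {β γ : ℝ} [hp : Params β γ] (μ : Measure ℝ) [IsProbabilityMeasure μ]

omit hp in
theorem kw_window (hγ : 0 < γ) (δ : ℝ) (hδ : δ ≤ 1 / 3) (y : ℝ) (hy : y ∈ Ioo (1 - δ) 1)
    (r : ℝ) (hr : 1 ≤ r) :
    ENNReal.ofReal (1 / 3 * Real.exp (-(γ * δ * (3 / 2 * r)))) ≤ kw γ r (3 / 2 * r) y := by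
  refine le_trans ?_ (kw_lower hγ y (by linarith [hy.1]) hy.2 r (3 / 2 * r))
  apply ENNReal.ofReal_le_ofReal
  have h1 : Real.exp (-(γ * δ * (3 / 2 * r))) ≤ Real.exp (-(γ * (1 - y) * (3 / 2 * r))) := by
    apply Real.exp_le_exp.2
    have : γ * (1 - y) * (3 / 2 * r) ≤ γ * δ * (3 / 2 * r) := by
      apply mul_le_mul_of_nonneg_right _ (by linarith)
      apply mul_le_mul_of_nonneg_left _ hγ.le
      linarith [hy.1]
    linarith
  have h2 : 1 / 3 ≤ (3 / 2 * r - r) * y := by
    have := hy.1
    nlinarith
  calc 1 / 3 * Real.exp (-(γ * δ * (3 / 2 * r)))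
      ≤ ((3 / 2 * r - r) * y) * Real.exp (-(γ * (1 - y) * (3 / 2 * r))) :=
        mul_le_mul h2 h1 (Real.exp_pos _).le (le_trans (by norm_num) h2)
    _ = _ := by ring

/-- The constant in the success probability. -/
noncomputable def cK (β : ℝ) : ℝ≥0∞ := ENNReal.ofReal (7 / β ^ 2)

/-- Success probability of a trial. -/
theorem success (δ : ℝ) (hδ : δ ≤ 1 / 3) (hμ : ∀ᵐ y ∂μ, 0 < y ∧ y < 1)
    (r : ℝ) (hr : 1 ≤ r) :
    (4 * cK β)⁻¹ * hh μ δ ≤ lifeLaw μ β γ
      {L | ENNReal.ofReal (β / 6 * Real.exp (-(γ * δ * (3 / 2 * r)))) ≤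
        yw γ r (3 / 2 * r) L} := by
  have hγ := hp.γ_pos
  have hβ := hp.β_pos
  set c := ENNReal.ofReal (β / 6 * Real.exp (-(γ * δ * (3 / 2 * r)))) with hc
  have hms : MeasurableSet {L : Life | c ≤ yw γ r (3 / 2 * r) L} :=
    measurableSet_le measurable_const (measurable_yw γ r (3 / 2 * r))
  unfold lifeLaw
  rw [Measure.prod_apply hms]
  calc (4 * cK β)⁻¹ * hh μ δ = ∫⁻ y, (Ioo (1 - δ) 1).indicator (fun _ => (4 * cK β)⁻¹) y ∂μ := by
        rw [lintegral_indicator_const measurableSet_Ioo]
        rfl
    _ ≤ _ := by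
        refine lintegral_mono_ae (hμ.mono fun y hy => ?_)
        by_cases hy2 : y ∈ Ioo (1 - δ) 1
        · rw [indicator_of_mem hy2]
          set κ := kw γ r (3 / 2 * r) y with hκ
          have hlow := kw_window hγ δ hδ y hy2 r hr
          rw [← hκ] at hlow
          have hκ0 : κ ≠ 0 := by
            intro h0
            rw [h0, nonpos_iff_eq_zero, ENNReal.ofReal_eq_zero] at hlow
            exact absurd hlow (not_le.2 (by positivity))
          have hκt : κ ≠ ⊤ := ne_top_of_le_ne_top ENNReal.ofReal_ne_top
            (kw_upper hγ y hy.2 r (3 / 2 * r) (by linarith))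
          have hβ0 : ENNReal.ofReal β ≠ 0 := by simpa using hβ
          have hym : Measurable fun c : ℕ → Mark => yw γ r (3 / 2 * r) (y, c) :=
            (measurable_yw γ r (3 / 2 * r)).comp (measurable_const.prodMk measurable_id)
          refine paley_zygmund (clockLaw β γ) (fun c => yw γ r (3 / 2 * r) (y, c)) hym
            (ENNReal.ofReal β * κ) (cK β) c
            (mean_yw (β := β) (γ := γ) y hy.1 r (3 / 2 * r) (by linarith)) (mul_ne_zero hβ0 hκ0)
            (ENNReal.mul_ne_top ENNReal.ofReal_ne_top hκt) ?_ ?_ ?_ ?_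
          · unfold cK
            rw [Ne, ENNReal.ofReal_eq_zero, not_le]
            positivity
          · exact ENNReal.ofReal_ne_top
          · refine (kw_second (β := β) hγ y hy.1 r (3 / 2 * r) (by linarith)).trans ?_
            rw [← hκ]
            have h3 : ENNReal.ofReal (Real.exp (-(γ * r))) ≤ 3 * κ := by
              calc ENNReal.ofReal (Real.exp (-(γ * r)))
                  ≤ ENNReal.ofReal (3 * (1 / 3 * Real.exp (-(γ * δ * (3 / 2 * r))))) := by
                    apply ENNReal.ofReal_le_ofReal
                    rw [← mul_assoc]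
                    norm_num
                    have h4 := mul_le_mul_of_nonneg_left hδ (mul_pos hγ (by linarith : 0 < r)).le
                    nlinarith [mul_pos hγ (by linarith : 0 < r)]
                _ = 3 * ENNReal.ofReal (1 / 3 * Real.exp (-(γ * δ * (3 / 2 * r)))) := by
                    rw [ENNReal.ofReal_mul (by norm_num)]
                    norm_num
                _ ≤ 3 * κ := by gcongr
            have h5 : cK β * (ENNReal.ofReal β * κ) ^ 2 = 7 * κ ^ 2 := by
              unfold cK
              rw [mul_pow, ← mul_assoc, ← ENNReal.ofReal_pow hβ.le, ← ENNReal.ofReal_mul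
                (by positivity), div_mul_cancel₀ _ (by positivity)]
              norm_num
            rw [h5]
            calc ENNReal.ofReal (Real.exp (-(γ * r))) * κ + 4 * κ ^ 2
                ≤ 3 * κ * κ + 4 * κ ^ 2 := by gcongr
              _ = 7 * κ ^ 2 := by ring
          · calc 2 * c = ENNReal.ofReal β *
                  ENNReal.ofReal (1 / 3 * Real.exp (-(γ * δ * (3 / 2 * r)))) := by
                  rw [hc, ← ENNReal.ofReal_mul hβ.le]
                  have : (2 : ℝ≥0∞) = ENNReal.ofReal 2 := by norm_num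
                  rw [this, ← ENNReal.ofReal_mul (by norm_num)]
                  congr 1
                  ring
              _ ≤ ENNReal.ofReal β * κ := by gcongr
        · rw [indicator_of_notMem hy2]
          exact zero_le

/-! ### Product of independent trials -/

theorem outcome_g (p : ℝ≥0∞) (hp1 : p ≤ 1) :
    ∫⁻ o : Bool × Bool, (if o.1 = true then 1 - p else 1) ∂(outcomeLaw β γ) =
      1 - ENNReal.ofReal β * p := by
  have hβ := hp.β_pos
  have hpt : p ≠ ⊤ := ne_top_of_le_ne_top ENNReal.one_ne_top hp1
  rw [lintegral_outcomeLaw]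
  simp only [if_true, Bool.false_eq_true, if_false, mul_one]
  rw [← add_mul, ← ENNReal.ofReal_add (by linarith [hp.sum_ge]) (by linarith [hp.γ_le])]
  have e1 : β + γ - 1 + (1 - γ) = β := by ring
  rw [e1]
  apply ENNReal.eq_sub_of_add_eq (ENNReal.mul_ne_top ENNReal.ofReal_ne_top hpt)
  calc ENNReal.ofReal β * (1 - p) + ENNReal.ofReal (1 - β) + ENNReal.ofReal β * p
      = ENNReal.ofReal β * ((1 - p) + p) + ENNReal.ofReal (1 - β) := by ring
    _ = 1 := by
        rw [tsub_add_cancel_of_le hp1, mul_one, ← ENNReal.ofReal_add hβ.le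
          (by linarith [hp.β_le])]
        simp

theorem mark_g (p : ℝ≥0∞) (hp1 : p ≤ 1) :
    ∫⁻ m : Mark, (if m.2.1 = true then 1 - p else 1) ∂(markLaw β γ) =
      1 - ENNReal.ofReal β * p := by
  have hm : Measurable fun m : Mark => (if m.2.1 = true then 1 - p else 1) :=
    Measurable.ite ((measurable_fst.comp measurable_snd) (measurableSet_singleton true))
      measurable_const measurable_const
  unfold markLaw
  rw [lintegral_prod _ hm.aemeasurable]
  simp only [outcome_g (β := β) (γ := γ) p hp1]
  rw [lintegral_const, measure_univ, mul_one]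

theorem clock_prod (p : ℝ≥0∞) (hp1 : p ≤ 1) (n : ℕ) :
    ∫⁻ c, ∏ j ∈ Finset.range n, (if (c j).2.1 = true then 1 - p else 1) ∂(clockLaw β γ) =
      (1 - ENNReal.ofReal β * p) ^ n := by
  induction n with
  | zero => simp
  | succ n ih =>
    have hm : ∀ j, Measurable fun c : ℕ → Mark => (if (c j).2.1 = true then 1 - p else 1) :=
      fun j => Measurable.ite (measurableSet_B j) measurable_const measurable_const
    have hg : Measurable fun m : Mark => (if m.2.1 = true then 1 - p else 1) :=
      Measurable.ite ((measurable_fst.comp measurable_snd) (measurableSet_singleton true))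
        measurable_const measurable_const
    have hprod : Measurable fun c : ℕ → Mark =>
        ∏ j ∈ Finset.range n, (if (c j).2.1 = true then 1 - p else 1) :=
      Finset.measurable_prod _ fun j _ => hm j
    simp only [Finset.prod_range_succ]
    have key := lintegral_coord (markLaw β γ) n (fun c m =>
      (∏ j ∈ Finset.range n, (if (c j).2.1 = true then 1 - p else 1)) *
        (if m.2.1 = true then 1 - p else 1))
      ((hprod.comp measurable_fst).mul (hg.comp measurable_snd)) (by
        intro x y z
        congr 1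
        refine Finset.prod_congr rfl fun j hj => ?_
        rw [Function.update_of_ne]
        have := Finset.mem_range.1 hj
        omega)
    have key' : ∫⁻ c, (∏ j ∈ Finset.range n, (if (c j).2.1 = true then 1 - p else 1)) *
        (if (c n).2.1 = true then 1 - p else 1) ∂(clockLaw β γ) =
        ∫⁻ c, ∫⁻ m : Mark, (∏ j ∈ Finset.range n, (if (c j).2.1 = true then 1 - p else 1)) *
        (if m.2.1 = true then 1 - p else 1) ∂(markLaw β γ) ∂(clockLaw β γ) := key
    rw [key']
    have h1 : ∀ c : ℕ → Mark, ∫⁻ m : Mark,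
        (∏ j ∈ Finset.range n, (if (c j).2.1 = true then 1 - p else 1)) *
        (if m.2.1 = true then 1 - p else 1) ∂(markLaw β γ) =
        (∏ j ∈ Finset.range n, (if (c j).2.1 = true then 1 - p else 1)) *
          (1 - ENNReal.ofReal β * p) := by
      intro c
      rw [lintegral_const_mul _ hg, mark_g p hp1]
    simp only [h1]
    rw [lintegral_mul_const _ hprod, ih, pow_succ]

/-- Resampling the lives of the children of the root. -/
theorem root_children_prod (h : ℕ → Life → Life → ℝ≥0∞)
    (hh : ∀ j, Measurable fun p : Life × Life => h j p.1 p.2) (n : ℕ) (R : Life → ℝ≥0∞)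
    (hR : Measurable R) :
    ∫⁻ ω : Pop, R (ω []) * ∏ j ∈ Finset.range n, h j (ω []) (ω [j]) ∂(popLaw μ β γ) =
      ∫⁻ L, R L * ∏ j ∈ Finset.range n, (∫⁻ L', h j L L' ∂(lifeLaw μ β γ))
        ∂(lifeLaw μ β γ) := by
  have hG : ∀ j, Measurable fun L : Life => ∫⁻ L', h j L L' ∂(lifeLaw μ β γ) := fun j =>
    (hh j).lintegral_prod_right'
  induction n generalizing R with
  | zero =>
    simp only [Finset.range_zero, Finset.prod_empty, mul_one]
    exact lintegral_root μ R hR
  | succ n ih =>
    have hpair : ∀ j : ℕ, Measurable fun ω : Pop => ((ω [], ω [j]) : Life × Life) := fun j =>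
      Measurable.prodMk (measurable_pi_apply []) (measurable_pi_apply [j])
    have hprod : Measurable fun ω : Pop => ∏ j ∈ Finset.range n, h j (ω []) (ω [j]) :=
      Finset.measurable_prod _ fun j _ => (hh j).comp (hpair j)
    have h0 : Measurable fun ω : Pop => R (ω []) := hR.comp (measurable_pi_apply [])
    have hΦ : Measurable fun p : Pop × Life =>
        (R (p.1 []) * ∏ j ∈ Finset.range n, h j (p.1 []) (p.1 [j])) * h n (p.1 []) p.2 := by
      refine Measurable.mul ((h0.mul hprod).comp measurable_fst) ?_
      have hp2 : Measurable fun p : Pop × Life => ((p.1 [], p.2) : Life × Life) :=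
        Measurable.prodMk ((measurable_pi_apply ([] : List ℕ)).comp measurable_fst) measurable_snd
      exact (hh n).comp hp2
    have key := lintegral_coord (lifeLaw μ β γ) ([n] : List ℕ) (fun (ω : Pop) (L : Life) =>
      (R (ω []) * ∏ j ∈ Finset.range n, h j (ω []) (ω [j])) * h n (ω []) L) hΦ (by
        intro x y z
        have e0 : Function.update x [n] y [] = x [] := Function.update_of_ne (by simp) _ _
        have e1 : ∀ j ∈ Finset.range n, Function.update x [n] y [j] = x [j] := by
          intro j hj
          apply Function.update_of_ne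
          have := Finset.mem_range.1 hj
          intro hc
          simp only [List.cons.injEq, and_true] at hc
          omega
        simp only [e0]
        congr 2
        exact Finset.prod_congr rfl fun j hj => by rw [e1 j hj])
    have key' : ∫⁻ ω : Pop, (R (ω []) * ∏ j ∈ Finset.range n, h j (ω []) (ω [j])) *
        h n (ω []) (ω [n]) ∂(popLaw μ β γ) =
        ∫⁻ ω : Pop, ∫⁻ L, (R (ω []) * ∏ j ∈ Finset.range n, h j (ω []) (ω [j])) *
        h n (ω []) L ∂(lifeLaw μ β γ) ∂(popLaw μ β γ) := key
    simp only [Finset.prod_range_succ, ← mul_assoc]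
    rw [key']
    have hn : ∀ ω : Pop, Measurable fun L : Life => h n (ω []) L := fun ω =>
      (hh n).comp (measurable_const.prodMk measurable_id)
    have h2 : ∀ ω : Pop, ∫⁻ L, (R (ω []) * ∏ j ∈ Finset.range n, h j (ω []) (ω [j])) *
        h n (ω []) L ∂(lifeLaw μ β γ) =
        (R (ω []) * ∫⁻ L', h n (ω []) L' ∂(lifeLaw μ β γ)) *
          ∏ j ∈ Finset.range n, h j (ω []) (ω [j]) := by
      intro ω
      rw [lintegral_const_mul _ (hn ω)]
      ring
    simp only [h2]
    rw [ih (fun L => R L * ∫⁻ L', h n L L' ∂(lifeLaw μ β γ)) (hR.mul (hG n))]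
    refine lintegral_congr fun L => ?_
    ring

/-- Probability that all the first `n` trials fail. -/
theorem trials_fail (E : Set Life) (hE : MeasurableSet E) (p : ℝ≥0∞)
    (hpE : p ≤ lifeLaw μ β γ E) (n : ℕ) :
    popLaw μ β γ {ω | ∀ j < n, ¬ (((ω []).2 j).2.1 = true ∧ ω [j] ∈ E)} ≤
      (1 - ENNReal.ofReal β * p) ^ n := by
  classical
  have hp1 : p ≤ 1 := hpE.trans prob_le_one
  set h : ℕ → Life → Life → ℝ≥0∞ := fun j L L' =>
    if (L.2 j).2.1 = true ∧ L' ∈ E then 0 else 1 with hh
  have hS : ∀ j, MeasurableSet {p : Life × Life | (p.1.2 j).2.1 = true ∧ p.2 ∈ E} := fun j =>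
    ((measurable_snd.comp measurable_fst) (measurableSet_B j)).inter (measurable_snd hE)
  have hm : ∀ j, Measurable fun p : Life × Life => h j p.1 p.2 := fun j =>
    Measurable.ite (hS j) measurable_const measurable_const
  have hset : MeasurableSet {ω : Pop | ∀ j < n, ¬ (((ω []).2 j).2.1 = true ∧ ω [j] ∈ E)} := by
    have : {ω : Pop | ∀ j < n, ¬ (((ω []).2 j).2.1 = true ∧ ω [j] ∈ E)} =
        ⋂ j : ℕ, ⋂ _ : j < n, {ω : Pop | ((ω []).2 j).2.1 = true ∧ ω [j] ∈ E}ᶜ := by
      ext ω; simp
    rw [this]
    refine MeasurableSet.iInter fun j => MeasurableSet.iInter fun _ => MeasurableSet.compl ?_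
    exact ((measurable_snd.comp (measurable_pi_apply ([] : List ℕ))) (measurableSet_B j)).inter
      ((measurable_pi_apply ([j] : List ℕ)) hE)
  have h1 : popLaw μ β γ {ω | ∀ j < n, ¬ (((ω []).2 j).2.1 = true ∧ ω [j] ∈ E)} =
      ∫⁻ ω : Pop, 1 * ∏ j ∈ Finset.range n, h j (ω []) (ω [j]) ∂(popLaw μ β γ) := by
    rw [← lintegral_indicator_one hset]
    refine lintegral_congr fun ω => ?_
    by_cases hω : ω ∈ {ω : Pop | ∀ j < n, ¬ (((ω []).2 j).2.1 = true ∧ ω [j] ∈ E)}
    · rw [indicator_of_mem hω, one_mul, Pi.one_apply]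
      symm
      apply Finset.prod_eq_one
      intro j hj
      simp only [hh]
      rw [if_neg (hω j (Finset.mem_range.1 hj))]
    · rw [indicator_of_notMem hω, one_mul]
      symm
      simp only [mem_ofPred_eq, not_forall, not_not] at hω
      obtain ⟨j, hj, hj2⟩ := hω
      apply Finset.prod_eq_zero (Finset.mem_range.2 hj)
      simp only [hh]
      rw [if_pos hj2]
  rw [h1, root_children_prod μ h hm n (fun _ => 1) measurable_const]
  have hEc : lifeLaw μ β γ Eᶜ ≤ 1 - p := by
    rw [prob_compl_eq_one_sub hE]
    exact tsub_le_tsub_left hpE 1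
  have h2 : ∀ (L : Life) (j : ℕ), ∫⁻ L', h j L L' ∂(lifeLaw μ β γ) ≤
      (if (L.2 j).2.1 = true then 1 - p else 1) := by
    intro L j
    by_cases hB : (L.2 j).2.1 = true
    · rw [if_pos hB]
      have : ∀ L' : Life, h j L L' = Eᶜ.indicator 1 L' := by
        intro L'
        simp only [hh]
        by_cases hL : L' ∈ E
        · rw [if_pos ⟨hB, hL⟩, indicator_of_notMem (by simpa using hL)]
        · rw [if_neg (fun hc => hL hc.2), indicator_of_mem (by exact hL), Pi.one_apply]
      simp only [this]
      rw [lintegral_indicator_one hE.compl]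
      exact hEc
    · rw [if_neg hB]
      have : ∀ L' : Life, h j L L' = 1 := by
        intro L'
        simp only [hh]
        rw [if_neg (fun hc => hB hc.1)]
      simp only [this]
      rw [lintegral_const, measure_univ, mul_one]
  have hcm : Measurable fun c : ℕ → Mark =>
      ∏ j ∈ Finset.range n, (if (c j).2.1 = true then 1 - p else 1) :=
    Finset.measurable_prod _ fun j _ => Measurable.ite (measurableSet_B j) measurable_const
      measurable_const
  calc ∫⁻ L, 1 * ∏ j ∈ Finset.range n, (∫⁻ L', h j L L' ∂(lifeLaw μ β γ)) ∂(lifeLaw μ β γ)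
      ≤ ∫⁻ L : Life, ∏ j ∈ Finset.range n, (if (L.2 j).2.1 = true then 1 - p else 1)
        ∂(lifeLaw μ β γ) := by
        refine lintegral_mono fun L => ?_
        rw [one_mul]
        exact Finset.prod_le_prod' fun j _ => h2 L j
    _ = (1 - ENNReal.ofReal β * p) ^ n := by
        have hcm2 : Measurable fun L : Life =>
            ∏ j ∈ Finset.range n, (if (L.2 j).2.1 = true then 1 - p else 1) :=
          hcm.comp measurable_snd
        unfold lifeLaw
        rw [lintegral_prod _ hcm2.aemeasurable]
        simp only [clock_prod (β := β) (γ := γ) p hp1 n]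
        rw [lintegral_const, measure_univ, mul_one]

end Pool.Agent.H96.Cond
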