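import Mathlib
import Pool.Agent.H96.Cond.Trials

/-!
# A crude lower bound for the weight of the line
-/

set_option autoImplicit false
set_option linter.unusedSectionVars false

open MeasureTheory ProbabilityTheory Set Filter Topology
open scoped ENNReal

namespace Pool.Agent.H96.Cond

variable {β γ : ℝ} [hp : Params β γ] (μ : Measure ℝ) [IsProbabilityMeasure μ]

theorem ages_nonneg (hμ : ∀ᵐ y ∂μ, 0 < y ∧ y < 1) :
    ∀ᵐ L ∂(lifeLaw μ β γ), ∀ j, 0 ≤ age L j := by
  rw [ae_all_iff]
  intro j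
  have hS : MeasurableSet {L : Life | age L j < 0} := measurableSet_lt (measurable_age j)
    measurable_const
  have h1 : lifeLaw μ β γ {L : Life | age L j < 0} = 0 := by
    unfold lifeLaw
    rw [Measure.prod_apply hS, lintegral_eq_zero_iff (measurable_measure_prodMk_left hS)]
    refine hμ.mono fun y hy => ?_
    have hφ : Measurable ((Iio (0 : ℝ)).indicator fun _ => (1 : ℝ≥0∞)) :=
      measurable_const.indicator measurableSet_Iio
    have h2 := mean_ages (β := β) (γ := γ) y hy.1 _ hφ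
    have h3 : Kf γ y ((Iio (0 : ℝ)).indicator fun _ => (1 : ℝ≥0∞)) = 0 := by
      unfold Kf
      rw [setLIntegral_congr_fun (g := fun _ => 0) measurableSet_Ioi, lintegral_zero]
      intro a ha
      have ha0 : (0 : ℝ) < a := ha
      have : a ∉ Iio (0 : ℝ) := by simp [ha0.le]
      beta_reduce
      rw [indicator_of_notMem this, mul_zero]
    rw [h3] at h2
    have hpre : Measurable fun c : ℕ → Mark => ((y, c) : Life) :=
      measurable_const.prodMk measurable_id
    have hS2 : MeasurableSet {c : ℕ → Mark | age (y, c) j < 0} := hpre hS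
    refine le_antisymm ?_ zero_le
    show clockLaw β γ (Prod.mk y ⁻¹' {L : Life | age L j < 0}) ≤ 0
    rw [← h2]
    calc clockLaw β γ (Prod.mk y ⁻¹' {L : Life | age L j < 0})
        = ∫⁻ c, {c : ℕ → Mark | age (y, c) j < 0}.indicator (fun _ => 1) c ∂(clockLaw β γ) := by
          rw [lintegral_indicator_const hS2, one_mul]
          rfl
      _ ≤ ∫⁻ c, ∑' i, (Iio (0 : ℝ)).indicator (fun _ => (1 : ℝ≥0∞)) (age (y, c) i)
          ∂(clockLaw β γ) := by
          refine lintegral_mono fun c => ?_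
          refine le_trans ?_ (ENNReal.le_tsum j)
          exact le_of_eq rfl
  rw [ae_iff]
  convert h1 using 2
  ext L
  simp

theorem tendsto_ages (hμ : ∀ᵐ y ∂μ, 0 < y ∧ y < 1) (n : ℕ) :
    Tendsto (fun M : ℕ => lifeLaw μ β γ {L | ∃ j < n, ¬ (0 ≤ age L j ∧ age L j ≤ M)}) atTop
      (𝓝 0) := by
  have hms : ∀ M : ℕ, MeasurableSet {L : Life | ∃ j < n, ¬ (age L j ≤ M)} := by
    intro M
    have : {L : Life | ∃ j < n, ¬ (age L j ≤ M)} = ⋃ j : ℕ, ⋃ _ : j < n, {L | age L j ≤ M}ᶜ := by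
      ext L; simp
    rw [this]
    exact MeasurableSet.iUnion fun j => MeasurableSet.iUnion fun _ =>
      (measurableSet_le (measurable_age j) measurable_const).compl
  have h1 : Tendsto (fun M : ℕ => lifeLaw μ β γ {L | ∃ j < n, ¬ (age L j ≤ M)}) atTop
      (𝓝 (lifeLaw μ β γ (⋂ M : ℕ, {L | ∃ j < n, ¬ (age L j ≤ M)}))) := by
    refine tendsto_measure_iInter_atTop (fun M => (hms M).nullMeasurableSet) ?_
      ⟨0, measure_ne_top _ _⟩
    intro M M' hMM' L hL
    obtain ⟨j, hj, hj2⟩ := hL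
    refine ⟨j, hj, fun hc => hj2 (hc.trans ?_)⟩
    exact_mod_cast hMM'
  have h2 : (⋂ M : ℕ, {L : Life | ∃ j < n, ¬ (age L j ≤ M)}) = ∅ := by
    rw [eq_empty_iff_forall_notMem]
    intro L hL
    rw [mem_iInter] at hL
    obtain ⟨M, hM⟩ := exists_nat_ge (∑ j ∈ Finset.range n, |age L j|)
    obtain ⟨j, hj, hj2⟩ := hL M
    apply hj2
    calc age L j ≤ |age L j| := le_abs_self _
      _ ≤ ∑ j ∈ Finset.range n, |age L j| :=
        Finset.single_le_sum (fun i _ => abs_nonneg (age L i)) (Finset.mem_range.2 hj)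
      _ ≤ M := hM
  rw [h2, measure_empty] at h1
  refine h1.congr fun M => ?_
  apply measure_congr
  filter_upwards [ages_nonneg (β := β) (γ := γ) μ hμ] with L hL
  apply propext
  constructor
  · rintro ⟨j, hj, hj2⟩
    exact ⟨j, hj, fun hc => hj2 hc.2⟩
  · rintro ⟨j, hj, hj2⟩
    exact ⟨j, hj, fun hc => hj2 ⟨hL j, hc⟩⟩

omit hp in
/-- Children of an old family founded at ages in a window. -/
theorem la_children (r s' a2 : ℝ) (ω : Pop) (u : List ℕ) (hu : old r ω u) (hb : 0 ≤ birth ω u)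
    (hs' : birth ω u + a2 ≤ s') :
    wgt γ ω u * yw γ r a2 (ω u) ≤ ∑' k, la γ r s' (k :: u) ω := by
  unfold yw
  rw [← ENNReal.tsum_mul_left]
  refine ENNReal.tsum_le_tsum fun k => ?_
  by_cases ha : age (ω u) k ∈ Ioc r a2
  · rw [indicator_of_mem ha, mul_one, ← wgt_cons]
    unfold la il
    have h1 : birth ω (k :: u) = birth ω u + age (ω u) k := rfl
    have h2 : onLine r ω (k :: u) := ⟨hu, by rw [h1]; linarith [ha.1]⟩
    have h3 : birth ω (k :: u) ∈ Iic s' := by
      rw [h1, mem_Iic]; linarith [ha.2]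
    rw [if_pos h2, indicator_of_mem h3, one_mul, one_mul]
  · rw [indicator_of_notMem ha, mul_zero, mul_zero]
    exact zero_le

omit hp in
theorem lW_ge_children (r s' : ℝ) (ω : Pop) :
    ∑' u : List ℕ, ∑' k, la γ r s' (k :: u) ω ≤ lW γ r s' ω := by
  unfold lW
  calc ∑' u : List ℕ, ∑' k, la γ r s' (k :: u) ω
      ≤ la γ r s' [] ω + ∑' u : List ℕ, ∑' k, la γ r s' (k :: u) ω := le_add_self
    _ = ∑' v, la γ r s' v ω := (tsum_list fun v => la γ r s' v ω).symm

/-- Crude lower bound for the weight of the line. -/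
theorem crude {α : ℝ} (h : RVar μ α) (hμ : ∀ᵐ y ∂μ, 0 < y ∧ y < 1) (κ : ℝ) (hκ : 0 < κ) :
    Tendsto (fun r : ℝ => popLaw μ β γ {ω | lW γ r (2 * r) ω <
      ENNReal.ofReal (Real.exp (-(κ * r)))}) atTop (𝓝 0) := by
  have hγ := hp.γ_pos
  have hβ := hp.β_pos
  rw [ENNReal.tendsto_nhds_zero]
  intro ε hε
  set δ := min (1 / 3) (κ / (3 * γ)) with hδ
  have hδ0 : 0 < δ := lt_min (by norm_num) (by positivity)
  have hδ1 : δ ≤ 1 / 3 := min_le_left _ _
  have hδ2 : γ * δ * (3 / 2) ≤ κ / 2 := by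
    have h1 : δ ≤ κ / (3 * γ) := min_le_right _ _
    rw [le_div_iff₀ (by positivity)] at h1
    nlinarith
  set p0 := (4 * cK β)⁻¹ * hh μ δ with hp0
  have hcK : cK β ≠ ⊤ := ENNReal.ofReal_ne_top
  have hp00 : p0 ≠ 0 := mul_ne_zero (ENNReal.inv_ne_zero.2 (ENNReal.mul_ne_top (by norm_num) hcK))
    (h.pos δ hδ0)
  have hlt : 1 - ENNReal.ofReal β * p0 < 1 := by
    apply ENNReal.sub_lt_self ENNReal.one_ne_top one_ne_zero
    exact mul_ne_zero (by simpa using hβ) hp00
  have hε2 : 0 < ε / 2 := ENNReal.half_pos hε.ne'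
  obtain ⟨n, hn⟩ := ((ENNReal.tendsto_pow_atTop_nhds_zero_of_lt_one hlt).eventually
    (gt_mem_nhds hε2)).exists
  obtain ⟨M, hM⟩ := ((tendsto_ages (β := β) (γ := γ) μ hμ n).eventually
    (gt_mem_nhds hε2)).exists
  have hexp : Tendsto (fun r : ℝ => Real.exp (-(κ / 2 * r))) atTop (𝓝 0) := by
    refine Real.tendsto_exp_atBot.comp ?_
    exact tendsto_neg_atTop_atBot.comp (tendsto_id.const_mul_atTop (by linarith))
  have hc0 : 0 < Real.exp (-(γ * M)) * (β / 6) := by positivity
  filter_upwards [eventually_ge_atTop (1 : ℝ), eventually_ge_atTop (2 * (M : ℝ)),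
    hexp.eventually (gt_mem_nhds hc0)] with r hr1 hrM hr
  set E : Set Life := {L | ENNReal.ofReal (β / 6 * Real.exp (-(γ * δ * (3 / 2 * r)))) ≤
        yw γ r (3 / 2 * r) L} with hE
  have hEm : MeasurableSet E := measurableSet_le measurable_const (measurable_yw γ r (3 / 2 * r))
  have hsucc : p0 ≤ lifeLaw μ β γ E := success μ δ hδ1 hμ r hr1
  have hfail := trials_fail μ E hEm p0 hsucc n
  set bad : Set Life := {L | ∃ j < n, ¬ (0 ≤ age L j ∧ age L j ≤ M)} with hbad
  have hsub : {ω : Pop | lW γ r (2 * r) ω < ENNReal.ofReal (Real.exp (-(κ * r)))} ⊆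
      {ω | ∀ j < n, ¬ (((ω []).2 j).2.1 = true ∧ ω [j] ∈ E)} ∪ {ω | ω [] ∈ bad} := by
    intro ω hω
    by_contra hc
    simp only [mem_union, mem_ofPred_eq, not_or, not_forall, not_not] at hc
    obtain ⟨⟨j, hj, hB, hEj⟩, hnb⟩ := hc
    have hage : 0 ≤ age (ω []) j ∧ age (ω []) j ≤ M := by
      by_contra hc2
      exact hnb ⟨j, hj, hc2⟩
    have hbirth : birth ω [j] = age (ω []) j := by simp [birth]
    have hold : old r ω [j] := ⟨trivial, by rw [hbirth]; linarith [hage.2]⟩
    have h1 := la_children (γ := γ) r (2 * r) (3 / 2 * r) ω [j] hold (by rw [hbirth]; exact hage.1)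
      (by rw [hbirth]; linarith [hage.2])
    have hw : ENNReal.ofReal (Real.exp (-(γ * M))) ≤ wgt γ ω [j] := by
      rw [wgt_cons, wgt_nil, one_mul]
      unfold cw
      rw [if_pos hB, one_mul]
      apply ENNReal.ofReal_le_ofReal
      apply Real.exp_le_exp.2
      have := mul_le_mul_of_nonneg_left hage.2 hγ.le
      linarith
    have h2 : ENNReal.ofReal (Real.exp (-(κ * r))) ≤ lW γ r (2 * r) ω := by
      calc ENNReal.ofReal (Real.exp (-(κ * r)))
          ≤ ENNReal.ofReal (Real.exp (-(γ * M)) *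
            (β / 6 * Real.exp (-(γ * δ * (3 / 2 * r))))) := by
            apply ENNReal.ofReal_le_ofReal
            have e1 : Real.exp (-(κ * r)) = Real.exp (-(κ / 2 * r)) * Real.exp (-(κ / 2 * r)) := by
              rw [← Real.exp_add]; congr 1; ring
            have e2 : Real.exp (-(κ / 2 * r)) ≤ Real.exp (-(γ * δ * (3 / 2 * r))) := by
              apply Real.exp_le_exp.2
              have := mul_le_mul_of_nonneg_right hδ2 (by linarith : 0 ≤ r)
              linarith
            rw [e1]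
            calc Real.exp (-(κ / 2 * r)) * Real.exp (-(κ / 2 * r))
                ≤ (Real.exp (-(γ * M)) * (β / 6)) * Real.exp (-(γ * δ * (3 / 2 * r))) :=
                  mul_le_mul hr.le e2 (Real.exp_pos _).le hc0.le
              _ = _ := by ring
        _ = ENNReal.ofReal (Real.exp (-(γ * M))) *
            ENNReal.ofReal (β / 6 * Real.exp (-(γ * δ * (3 / 2 * r)))) := by
            rw [ENNReal.ofReal_mul (Real.exp_pos _).le]
        _ ≤ wgt γ ω [j] * yw γ r (3 / 2 * r) (ω [j]) := by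
            gcongr
            exact hEj
        _ ≤ ∑' k, la γ r (2 * r) (k :: [j]) ω := h1
        _ ≤ ∑' u : List ℕ, ∑' k, la γ r (2 * r) (k :: u) ω :=
            ENNReal.le_tsum (f := fun u : List ℕ => ∑' k, la γ r (2 * r) (k :: u) ω) [j]
        _ ≤ lW γ r (2 * r) ω := lW_ge_children r (2 * r) ω
    exact absurd hω (not_lt.2 h2)
  have hbadm : MeasurableSet bad := by
    have : bad = ⋃ j : ℕ, ⋃ _ : j < n, ({L : Life | 0 ≤ age L j} ∩ {L | age L j ≤ M})ᶜ := by
      ext L
      simp only [hbad, mem_ofPred_eq, mem_iUnion, mem_compl_iff, mem_inter_iff, exists_prop]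
    rw [this]
    exact MeasurableSet.iUnion fun j => MeasurableSet.iUnion fun _ =>
      ((measurableSet_le measurable_const (measurable_age j)).inter
        (measurableSet_le (measurable_age j) measurable_const)).compl
  have hroot : popLaw μ β γ {ω : Pop | ω [] ∈ bad} = lifeLaw μ β γ bad := by
    have h1 := lintegral_root (β := β) (γ := γ) μ (bad.indicator 1)
      (measurable_one.indicator hbadm)
    rw [lintegral_indicator_one hbadm] at h1
    have hSb : MeasurableSet {ω : Pop | ω [] ∈ bad} := (measurable_pi_apply ([] : List ℕ)) hbadm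
    rw [← h1, ← lintegral_indicator_one hSb]
    rfl
  calc popLaw μ β γ {ω : Pop | lW γ r (2 * r) ω < ENNReal.ofReal (Real.exp (-(κ * r)))}
      ≤ popLaw μ β γ {ω | ∀ j < n, ¬ (((ω []).2 j).2.1 = true ∧ ω [j] ∈ E)} +
        popLaw μ β γ {ω | ω [] ∈ bad} := (measure_mono hsub).trans (measure_union_le _ _)
    _ ≤ ε / 2 + ε / 2 := by
        gcongr
        · exact hfail.trans hn.le
        · rw [hroot]; exact hM.le
    _ = ε := ENNReal.add_halves ε

end Pool.Agent.H96.Cond
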