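import Mathlib
import Pool.Agent.H96.Cond.CrudeLow

/-!
# From a crude to a sharp lower bound for the weight of the line
-/

set_option autoImplicit false
set_option linter.unusedSectionVars false

open MeasureTheory ProbabilityTheory Set Filter Topology
open scoped ENNReal

namespace Pool.Agent.H96.Cond

theorem one_le_members (L : Life) (a : ℝ) : 1 ≤ members L a := by
  unfold members
  exact le_self_add

theorem old_mono {r s : ℝ} (hrs : r ≤ s) {ω : Pop} {u : List ℕ} (h : old r ω u) :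
    old s ω u := by
  induction u with
  | nil => trivial
  | cons j u ih => exact ⟨ih h.1, h.2.trans hrs⟩

theorem old_of_onLine {r s : ℝ} (hrs : r ≤ s) {ω : Pop} {v : List ℕ} (h : onLine r ω v)
    (hb : birth ω v ≤ s) : old s ω v := by
  cases v with
  | nil => trivial
  | cons j u => exact ⟨old_mono hrs h.1, hb⟩

/-- Either the weight vanishes, or the label is on the line and born early enough. -/
theorem la_cases (γ s s' : ℝ) (v : List ℕ) (ω : Pop) :
    la γ s s' v ω = 0 ∨ (onLine s ω v ∧ birth ω v ≤ s' ∧ la γ s s' v ω = wgt γ ω v) := by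
  unfold la il
  by_cases h1 : onLine s ω v
  · by_cases h2 : birth ω v ≤ s'
    · right
      refine ⟨h1, h2, ?_⟩
      rw [if_pos h1, indicator_of_mem (show birth ω v ∈ Iic s' from h2), one_mul, one_mul]
    · left
      rw [indicator_of_notMem (show birth ω v ∉ Iic s' from h2), zero_mul, mul_zero]
  · left
    rw [if_neg h1, zero_mul]

theorem lW_le_cmj (γ s s' : ℝ) (hγ : 0 ≤ γ) (hs : 0 ≤ s) (ω : Pop) :
    lW γ s s' ω ≤ ENNReal.ofReal (Real.exp (γ * s')) * cmj γ (chi γ univ) s' ω := by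
  unfold lW cmj
  rw [← ENNReal.tsum_mul_left]
  refine ENNReal.tsum_le_tsum fun v => ?_
  rcases la_cases γ s s' v ω with h | ⟨h1, h2, h3⟩
  · rw [h]; exact zero_le
  · rw [h3]
    unfold chi
    rw [if_pos ⟨by linarith, mem_univ _⟩]
    have hb : 0 ≤ birth ω v := hs.trans (onLine_birth h1).le
    calc wgt γ ω v = wgt γ ω v * 1 := (mul_one _).symm
      _ ≤ wgt γ ω v * ((ENNReal.ofReal (Real.exp (γ * s')) *
          ENNReal.ofReal (Real.exp (-(γ * (s' - birth ω v))))) *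
          members (ω v) (s' - birth ω v)) := by
          gcongr
          rw [← ENNReal.ofReal_mul (Real.exp_pos _).le, ← Real.exp_add]
          calc (1 : ℝ≥0∞) = 1 * 1 := (one_mul 1).symm
            _ ≤ _ := by
              gcongr
              · rw [← ENNReal.ofReal_one]
                apply ENNReal.ofReal_le_ofReal
                apply Real.one_le_exp
                have := mul_nonneg hγ hb
                linarith
              · exact one_le_members _ _
      _ = _ := by ring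

theorem lW_mono (γ s s' s'' : ℝ) (h : s' ≤ s'') (ω : Pop) : lW γ s s' ω ≤ lW γ s s'' ω := by
  unfold lW
  refine ENNReal.tsum_le_tsum fun v => ?_
  unfold la
  gcongr

variable {β γ : ℝ} [hp : Params β γ] (μ : Measure ℝ) [IsProbabilityMeasure μ]

theorem lW_sq_ne_top {CV : ℝ≥0∞} (hCVt : CV ≠ ⊤)
    (hV : ∀ t, ∫⁻ ω, cmj γ (chi γ univ) t ω ^ 2 ∂(popLaw μ β γ) ≤ CV * lap0 μ γ t)
    (hμ : ∀ᵐ y ∂μ, 0 < y ∧ y < 1) (s s' : ℝ) (hs : 0 ≤ s) :
    ∫⁻ ω, lW γ s s' ω ^ 2 ∂(popLaw μ β γ) ≠ ⊤ := by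
  have hγ := hp.γ_pos
  have hl : lap0 μ γ s' ≠ ⊤ := ne_top_of_le_ne_top (lap_ne_top μ γ hγ.le hμ s')
    (indicator_le_self _ _ _)
  refine ne_top_of_le_ne_top (b := ENNReal.ofReal (Real.exp (γ * s')) ^ 2 * (CV * lap0 μ γ s'))
    (ENNReal.mul_ne_top (ENNReal.pow_ne_top ENNReal.ofReal_ne_top) (ENNReal.mul_ne_top hCVt hl)) ?_
  calc ∫⁻ ω, lW γ s s' ω ^ 2 ∂(popLaw μ β γ)
      ≤ ∫⁻ ω, ENNReal.ofReal (Real.exp (γ * s')) ^ 2 * cmj γ (chi γ univ) s' ω ^ 2
        ∂(popLaw μ β γ) := by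
        refine lintegral_mono fun ω => ?_
        rw [← mul_pow]
        gcongr
        exact lW_le_cmj γ s s' hγ.le hs ω
    _ = ENNReal.ofReal (Real.exp (γ * s')) ^ 2 *
        ∫⁻ ω, cmj γ (chi γ univ) s' ω ^ 2 ∂(popLaw μ β γ) :=
        lintegral_const_mul' _ _ (ENNReal.pow_ne_top ENNReal.ofReal_ne_top)
    _ ≤ _ := by gcongr; exact hV s'

theorem mean_lW_ren (s s' : ℝ) :
    ∫⁻ ω, lW γ s s' ω ∂(popLaw μ β γ) ≤ ren μ β γ (Ioi s) := by
  have h := lintegral_line (β := β) (γ := γ) μ s s' (fun _ => 1) measurable_const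
  simp only [mul_one, lintegral_const, one_mul, Measure.restrict_apply MeasurableSet.univ,
    univ_inter] at h
  exact h

theorem mean_lW_le (hμ : ∀ᵐ y ∂μ, 0 < y ∧ y < 1) (hb : bm μ β γ < 1) (s s' : ℝ) :
    ∫⁻ ω, lW γ s s' ω ∂(popLaw μ β γ) ≤ (1 - bm μ β γ)⁻¹ :=
  (mean_lW_ren μ s s').trans ((measure_mono (subset_univ _)).trans (ren_univ_le μ hμ hb))

theorem mean_lW_le' {C : ℝ≥0∞} (hC : ∀ t, mt μ β γ univ t ≤ C * lap μ γ t)
    (hμ : ∀ᵐ y ∂μ, 0 < y ∧ y < 1) (hb : bm μ β γ < 1) (s s' : ℝ) (hs : 0 ≤ s) :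
    ∫⁻ ω, lW γ s s' ω ∂(popLaw μ β γ) ≤ C * lapT μ γ s := by
  refine (mean_lW_ren μ s s').trans ?_
  have h := ren_density (β := β) μ hC hμ hb s hs (fun _ => 1) measurable_const
  simp only [mul_one, lintegral_const, one_mul, Measure.restrict_apply MeasurableSet.univ,
    univ_inter] at h
  exact h

/-- Mean weight of the children born at ages in `(s, 2 s]`. -/
noncomputable def mY (μ : Measure ℝ) (β γ s : ℝ) : ℝ≥0∞ := ∫⁻ L, yw γ s (2 * s) L ∂(lifeLaw μ β γ)

/-- Second moment of the weight of the children born at ages in `(s, 2 s]`. -/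
noncomputable def vY (μ : Measure ℝ) (β γ s : ℝ) : ℝ≥0∞ :=
  ∫⁻ L, yw γ s (2 * s) L ^ 2 ∂(lifeLaw μ β γ)

theorem levelB {CV : ℝ≥0∞} (hCVt : CV ≠ ⊤)
    (hV : ∀ t, ∫⁻ ω, cmj γ (chi γ univ) t ω ^ 2 ∂(popLaw μ β γ) ≤ CV * lap0 μ γ t)
    (hμ : ∀ᵐ y ∂μ, 0 < y ∧ y < 1) (hb : bm μ β γ < 1)
    (r s s' : ℝ) (hr : 0 ≤ r) (hrs : r ≤ s) (hs' : 3 * s ≤ s') (w : ℝ≥0∞) (hw0 : w ≠ 0)
    (hwt : w ≠ ⊤) (hm0 : mY μ β γ s ≠ 0) (hmt : mY μ β γ s ≠ ⊤) :
    popLaw μ β γ {ω | lW γ s s' ω < mY μ β γ s * w / 2} ≤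
      popLaw μ β γ {ω | lW γ r s ω < w} +
      (vY μ β γ s * ENNReal.ofReal (Real.exp (-(γ * r))) * (1 - bm μ β γ)⁻¹) /
        (mY μ β γ s * w / 2) ^ 2 := by
  have hγ := hp.γ_pos
  set F : ℝ → Pop → ℝ≥0∞ := fun _ ω' => yw γ s (2 * s) (ω' []) with hF
  have hFm : Measurable fun p : ℝ × Pop => F p.1 p.2 :=
    (measurable_yw γ s (2 * s)).comp ((measurable_pi_apply ([] : List ℕ)).comp measurable_snd)
  have hLD := lineData_la γ r s
  have hmF : ∀ b, mF μ β γ F b = mY μ β γ s := fun b => by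
    unfold mF mY
    exact lintegral_root μ _ (measurable_yw γ s (2 * s))
  have hvF : ∀ b, vF μ β γ F b = vY μ β γ s := fun b => by
    unfold vF vY
    exact lintegral_root μ (fun L => yw γ s (2 * s) L ^ 2) ((measurable_yw γ s (2 * s)).pow_const 2)
  have hcF : ∀ ω, cF (la γ r s) (fun v ω => birth ω v) (mF μ β γ F) ω =
      lW γ r s ω * mY μ β γ s := fun ω => by
    unfold cF lW
    simp only [hmF]
    rw [ENNReal.tsum_mul_right]
  have hsF : ∀ ω, sF (la γ r s) (fun v ω => birth ω v) F ω ≤ lW γ s s' ω := fun ω => by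
    unfold sF
    refine le_trans (ENNReal.tsum_le_tsum fun v => ?_) (lW_ge_children s s' ω)
    rcases la_cases γ r s v ω with h | ⟨h1, h2, h3⟩
    · rw [h, zero_mul]; exact zero_le
    · rw [h3]
      exact la_children s s' (2 * s) ω v (old_of_onLine hrs h1 h2)
        (hr.trans (onLine_birth h1).le) (by linarith)
  set δ := mY μ β γ s * w / 2 with hδ
  have hδ0 : δ ≠ 0 := by
    rw [hδ]
    exact (ENNReal.div_pos (mul_ne_zero hm0 hw0) (by norm_num)).ne'
  have hδt : δ ≠ ⊤ := ENNReal.div_ne_top (ENNReal.mul_ne_top hmt hwt) (by norm_num)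
  have hM2 : ∫⁻ ω, cF (la γ r s) (fun v ω => birth ω v) (mF μ β γ F) ω ^ 2 ∂(popLaw μ β γ) ≠ ⊤ := by
    simp only [hcF, mul_pow]
    rw [lintegral_mul_const' _ _ (ENNReal.pow_ne_top hmt)]
    exact ENNReal.mul_ne_top (lW_sq_ne_top μ hCVt hV hμ r s hr) (ENNReal.pow_ne_top hmt)
  have hdev := deviation (β := β) (γ := γ) μ F hLD hFm hM2 δ hδ0 hδt
  have hQ : ∫⁻ ω, ∑' v, la γ r s v ω ^ 2 * vF μ β γ F (birth ω v) ∂(popLaw μ β γ) ≤
      vY μ β γ s * ENNReal.ofReal (Real.exp (-(γ * r))) * (1 - bm μ β γ)⁻¹ := by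
    calc ∫⁻ ω, ∑' v, la γ r s v ω ^ 2 * vF μ β γ F (birth ω v) ∂(popLaw μ β γ)
        ≤ ∫⁻ ω, (vY μ β γ s * ENNReal.ofReal (Real.exp (-(γ * r)))) * lW γ r s ω
          ∂(popLaw μ β γ) := by
          refine lintegral_mono fun ω => ?_
          unfold lW
          rw [← ENNReal.tsum_mul_left]
          refine ENNReal.tsum_le_tsum fun v => ?_
          rw [hvF, sq]
          calc la γ r s v ω * la γ r s v ω * vY μ β γ s
              ≤ ENNReal.ofReal (Real.exp (-(γ * r))) * la γ r s v ω * vY μ β γ s := by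
                gcongr
                exact la_le_exp γ r s hγ.le v ω
            _ = _ := by ring
      _ = (vY μ β γ s * ENNReal.ofReal (Real.exp (-(γ * r)))) *
          ∫⁻ ω, lW γ r s ω ∂(popLaw μ β γ) :=
          lintegral_const_mul _ (measurable_lW γ r s)
      _ ≤ _ := by
          gcongr
          exact mean_lW_le μ hμ hb r s
  have hsub : {ω : Pop | lW γ s s' ω < δ} ⊆ {ω | lW γ r s ω < w} ∪
      {ω | sF (la γ r s) (fun v ω => birth ω v) F ω + δ ≤
        cF (la γ r s) (fun v ω => birth ω v) (mF μ β γ F) ω ∨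
        cF (la γ r s) (fun v ω => birth ω v) (mF μ β γ F) ω + δ ≤
        sF (la γ r s) (fun v ω => birth ω v) F ω} := by
    intro ω hω
    by_cases h1 : lW γ r s ω < w
    · left; exact h1
    · right
      left
      rw [hcF]
      have h2 : sF (la γ r s) (fun v ω => birth ω v) F ω ≤ δ := (hsF ω).trans (le_of_lt hω)
      calc sF (la γ r s) (fun v ω => birth ω v) F ω + δ ≤ δ + δ := by gcongr
        _ = mY μ β γ s * w := ENNReal.add_halves _
        _ ≤ lW γ r s ω * mY μ β γ s := by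
            rw [mul_comm]
            gcongr
            exact not_lt.1 h1
  refine (measure_mono hsub).trans ((measure_union_le _ _).trans ?_)
  gcongr
  exact hdev.trans (ENNReal.div_le_div_right hQ _)

theorem mY_eq (hμ : ∀ᵐ y ∂μ, 0 < y ∧ y < 1) (s : ℝ) (hs : 0 ≤ s) :
    mY μ β γ s = ENNReal.ofReal β * ∫⁻ a in Ioc s (2 * s), ker μ γ a := by
  unfold mY yw
  rw [child_mean' μ hμ _ (measurable_const.indicator measurableSet_Ioc),
    setLIntegral_window s (2 * s) hs]

theorem mY_ne_top (hμ : ∀ᵐ y ∂μ, 0 < y ∧ y < 1) (hb : bm μ β γ < 1) (s : ℝ) (hs : 0 ≤ s) :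
    mY μ β γ s ≠ ⊤ := by
  rw [mY_eq μ hμ s hs]
  refine ne_top_of_le_ne_top (bm_ne_top μ hb) ?_
  unfold bm
  gcongr
  exact fun a ha => lt_of_le_of_lt hs ha.1

/-- Lower bound for the mean weight of the children in the window. -/
theorem mY_lower {D : ℝ≥0∞} (h : Dbl μ γ D) (hμ : ∀ᵐ y ∂μ, 0 < y ∧ y < 1) :
    ∀ᶠ s : ℝ in atTop, ENNReal.ofReal (β * s) * lap μ γ s ≤ 2 * D * mY μ β γ s := by
  have hγ := hp.γ_pos
  have hβ := hp.β_pos
  have h1 : Tendsto (fun s : ℝ => ker μ γ (2 * s) / lap μ γ (2 * s)) atTop (𝓝 1) :=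
    (tendsto_ker_lap h hγ hμ).comp (tendsto_id.const_mul_atTop two_pos)
  have hhalf : (1 / 2 : ℝ≥0∞) < 1 := by
    rw [one_div]
    exact ENNReal.inv_lt_one.2 (by norm_num)
  filter_upwards [h1.eventually (lt_mem_nhds hhalf), eventually_ge_atTop (0 : ℝ)] with s hs hs0
  rw [ENNReal.lt_div_iff_mul_lt (Or.inl (lap_pos μ γ _).ne')
    (Or.inl (lap_ne_top μ γ hγ.le hμ _))] at hs
  have h2 : lap μ γ (2 * s) ≤ 2 * ker μ γ (2 * s) := by
    calc lap μ γ (2 * s) = 2 * (1 / 2 * lap μ γ (2 * s)) := by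
          rw [← mul_assoc, one_div, ENNReal.mul_inv_cancel (by norm_num) (by norm_num), one_mul]
      _ ≤ 2 * ker μ γ (2 * s) := by gcongr
  have h3 : lap μ γ s ≤ D * lap μ γ (2 * s) := by
    have := h.2 (2 * s) (by linarith)
    rwa [show 2 * s / 2 = s by ring] at this
  rw [mY_eq μ hμ s hs0]
  calc ENNReal.ofReal (β * s) * lap μ γ s
      ≤ ENNReal.ofReal (β * s) * (D * (2 * ker μ γ (2 * s))) := by
        gcongr
        exact h3.trans (by gcongr)
    _ = 2 * D * (ENNReal.ofReal β * ∫⁻ _ in Ioc s (2 * s), ker μ γ (2 * s)) := by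
        rw [setLIntegral_const, Real.volume_Ioc, ENNReal.ofReal_mul hβ.le,
          show 2 * s - s = s by ring]
        ring
    _ ≤ _ := by
        gcongr 2 * D * (ENNReal.ofReal β * ?_)
        exact setLIntegral_mono' measurableSet_Ioc fun a ha => ker_anti μ γ hγ.le hμ ha.2

/-- Upper bound for the second moment of the weight of the children in the window. -/
theorem vY_upper (hμ : ∀ᵐ y ∂μ, 0 < y ∧ y < 1) (s : ℝ) (hs : 1 ≤ s) :
    vY μ β γ s ≤ ENNReal.ofReal (5 * s ^ 2) * lap μ γ s := by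
  have hγ := hp.γ_pos
  unfold vY lifeLaw
  rw [lintegral_prod _ ((measurable_yw γ s (2 * s)).pow_const 2).aemeasurable]
  unfold lap
  rw [← lintegral_const_mul' _ _ ENNReal.ofReal_ne_top]
  refine lintegral_mono_ae (hμ.mono fun y hy => ?_)
  refine (kw_second (β := β) hγ y hy.1 s (2 * s) (by linarith)).trans ?_
  have hk := kw_upper hγ y hy.2 s (2 * s) (by linarith)
  set e := Real.exp (-(γ * (1 - y) * s)) with he
  have he0 : 0 < e := Real.exp_pos _
  have he1 : e ≤ 1 := by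
    apply Real.exp_le_one_iff.2
    have := mul_nonneg (mul_nonneg hγ.le (show 0 ≤ 1 - y by linarith [hy.2]))
      (by linarith : 0 ≤ s)
    linarith
  have hes : Real.exp (-(γ * s)) ≤ 1 := by
    apply Real.exp_le_one_iff.2
    have := mul_nonneg hγ.le (by linarith : 0 ≤ s)
    linarith
  rw [show 2 * s - s = s by ring] at hk
  calc ENNReal.ofReal (Real.exp (-(γ * s))) * kw γ s (2 * s) y + 4 * (kw γ s (2 * s) y) ^ 2
      ≤ 1 * ENNReal.ofReal (s * e) + 4 * (ENNReal.ofReal (s * e)) ^ 2 := by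
        gcongr
        rw [← ENNReal.ofReal_one]
        exact ENNReal.ofReal_le_ofReal hes
    _ = ENNReal.ofReal (s * e + 4 * (s * e) ^ 2) := by
        have hse : 0 ≤ s * e := by positivity
        rw [one_mul, ENNReal.ofReal_add hse (by positivity),
          ENNReal.ofReal_mul (by norm_num : (0 : ℝ) ≤ 4), ENNReal.ofReal_pow hse]
        norm_num
    _ ≤ ENNReal.ofReal (5 * s ^ 2 * e) := by
        apply ENNReal.ofReal_le_ofReal
        have h1 : s * e ≤ s ^ 2 * e := by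
          apply mul_le_mul_of_nonneg_right _ he0.le
          nlinarith
        have h2 : (s * e) ^ 2 ≤ s ^ 2 * e := by
          rw [mul_pow]
          apply mul_le_mul_of_nonneg_left _ (by positivity)
          nlinarith
        linarith
    _ = _ := ENNReal.ofReal_mul (by positivity)

end Pool.Agent.H96.Cond
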