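import Mathlib
import Pool.Agent.H96.Cond.LevelB

/-!
# The decomposition of the mass at time `t` along the line at time `s`
-/

set_option autoImplicit false
set_option linter.unusedSectionVars false

open MeasureTheory ProbabilityTheory Set Filter Topology
open scoped ENNReal

namespace Pool.Agent.H96.Cond

/-- Contribution of the old families. -/
noncomputable def oldPart (γ : ℝ) (B : Set ℝ) (s t : ℝ) (ω : Pop) : ℝ≥0∞ :=
  ∑' u, io s ω u * (wgt γ ω u * chi γ B (t - birth ω u) (ω u))

/-- Contribution of the line up to birth time `s'`. -/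
noncomputable def mainPart (γ : ℝ) (B : Set ℝ) (s s' t : ℝ) (ω : Pop) : ℝ≥0∞ :=
  ∑' v, la γ s s' v ω * cmj γ (chi γ B) (t - birth ω v) (shift v ω)

/-- Contribution of the line after time `s'`. -/
noncomputable def farPart (γ : ℝ) (B : Set ℝ) (s s' t : ℝ) (ω : Pop) : ℝ≥0∞ :=
  ∑' v, il s ω v * ((Ioi s').indicator (fun _ => 1) (birth ω v) * (wgt γ ω v *
    cmj γ (chi γ B) (t - birth ω v) (shift v ω)))

theorem cmj_parts (γ : ℝ) (B : Set ℝ) (s s' t : ℝ) (ω : Pop) :
    cmj γ (chi γ B) t ω = oldPart γ B s t ω + mainPart γ B s s' t ω + farPart γ B s s' t ω := by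
  rw [cmj_line γ (chi γ B) s t ω, add_assoc]
  unfold oldPart mainPart farPart
  congr 1
  rw [← ENNReal.tsum_add]
  refine tsum_congr fun v => ?_
  unfold la
  by_cases h : birth ω v ≤ s'
  · rw [indicator_of_mem (show birth ω v ∈ Iic s' from h),
      indicator_of_notMem (show birth ω v ∉ Ioi s' from not_lt.2 h)]
    ring
  · rw [indicator_of_notMem (show birth ω v ∉ Iic s' from h),
      indicator_of_mem (show birth ω v ∈ Ioi s' from not_le.1 h)]
    ring

theorem chi_mono (γ : ℝ) (B : Set ℝ) (s : ℝ) (L : Life) : chi γ B s L ≤ chi γ univ s L := by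
  unfold chi
  by_cases h : 0 ≤ s ∧ L.1 ∈ B
  · rw [if_pos h, if_pos ⟨h.1, mem_univ _⟩]
  · rw [if_neg h]; exact zero_le

theorem cmj_chi_mono (γ : ℝ) (B : Set ℝ) (t : ℝ) (ω : Pop) :
    cmj γ (chi γ B) t ω ≤ cmj γ (chi γ univ) t ω := by
  unfold cmj
  refine ENNReal.tsum_le_tsum fun u => ?_
  gcongr
  exact chi_mono _ _ _ _

/-- The old families have fitness at most `1 - η`. -/
def GoodFit (η s : ℝ) (ω : Pop) : Prop := ∀ u, old s ω u → alive ω u → (ω u).1 ≤ 1 - η

/-- Contribution of the old families of low fitness. -/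
noncomputable def oldLow (γ η : ℝ) (s t : ℝ) (ω : Pop) : ℝ≥0∞ :=
  cmj γ (fun τ L => (Ici (t - s)).indicator (fun _ => 1) τ * chi γ (Iic (1 - η)) τ L) t ω

theorem oldPart_le (γ η : ℝ) (B : Set ℝ) (s t : ℝ) (hs : 0 ≤ s) (ω : Pop) (h : GoodFit η s ω) :
    oldPart γ B s t ω ≤ oldLow γ η s t ω := by
  unfold oldPart oldLow cmj
  refine ENNReal.tsum_le_tsum fun u => ?_
  by_cases h1 : old s ω u
  · by_cases h2 : alive ω u
    · have h3 : birth ω u ≤ s := old_birth hs h1
      beta_reduce
      rw [indicator_of_mem (show t - birth ω u ∈ Ici (t - s) from by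
        simp only [mem_Ici]; linarith), one_mul]
      calc io s ω u * (wgt γ ω u * chi γ B (t - birth ω u) (ω u))
          ≤ 1 * (wgt γ ω u * chi γ univ (t - birth ω u) (ω u)) := by
            gcongr
            · exact io_le_one s ω u
            · exact chi_mono _ _ _ _
        _ = wgt γ ω u * chi γ (Iic (1 - η)) (t - birth ω u) (ω u) := by
            rw [one_mul]
            congr 1
            unfold chi
            have h4 := h u h1 h2
            by_cases h5 : 0 ≤ t - birth ω u
            · rw [if_pos ⟨h5, mem_univ _⟩, if_pos ⟨h5, h4⟩]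
            · rw [if_neg (fun hc => h5 hc.1), if_neg (fun hc => h5 hc.1)]
    · have : wgt γ ω u = 0 := by unfold wgt; rw [if_neg h2]
      rw [this, zero_mul, mul_zero]
      exact zero_le
  · have : io s ω u = 0 := by unfold io; rw [if_neg h1]
    rw [this, zero_mul]
    exact zero_le

/-- Weights of the members of the line founded after `s'` by a family of low fitness. -/
noncomputable def fa (γ η s s' : ℝ) (v : List ℕ) (ω : Pop) : ℝ≥0∞ :=
  il s ω v * ((Ioi s').indicator (fun _ => 1) (birth ω v) *
    ((Iic (1 - η)).indicator (fun _ => 1) (ω v.tail).1 * wgt γ ω v))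

theorem lineData_fa (γ η s s' : ℝ) : LineData (fa γ η s s') fun v ω => birth ω v := by
  constructor
  · intro v
    refine (measurable_il s v).mul (((measurable_const.indicator measurableSet_Ioi).comp
      (measurable_birth v)).mul (Measurable.mul ?_ (measurable_wgt γ v)))
    exact (measurable_const.indicator measurableSet_Iic).comp
      (measurable_fst.comp (measurable_pi_apply v.tail))
  · intro v
    exact measurable_birth v
  · intro v x y h
    unfold fa
    cases v with
    | nil =>
      have : ∀ z : Pop, il s z [] = 0 := fun z => by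
        unfold il
        exact if_neg (fun hc : onLine s z [] => hc)
      rw [this, this, zero_mul, zero_mul]
    | cons j u =>
      rw [wgt_congr γ _ h, birth_congr _ h]
      have e1 : il s x (j :: u) = il s y (j :: u) := by
        unfold il
        by_cases h1 : onLine s x (j :: u)
        · rw [if_pos h1, if_pos ((onLine_congr s _ h).1 h1)]
        · rw [if_neg h1, if_neg (fun h2 => h1 ((onLine_congr s _ h).2 h2))]
      rw [e1]
      simp only [List.tail_cons]
      rw [h.at_parent]
  · intro v x y h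
    exact birth_congr v h
  · intro v w ω hvw hne
    unfold fa il
    by_cases h1 : onLine s ω v
    · by_cases h2 : onLine s ω w
      · exact (onLine_anti h1 h2 hvw hne).elim
      · rw [if_neg h2, zero_mul, mul_zero]
    · rw [if_neg h1, zero_mul, zero_mul]

/-- Contribution of the line after `s'`, restricted to parents of low fitness. -/
noncomputable def farLow (γ η s s' t : ℝ) (ω : Pop) : ℝ≥0∞ :=
  sF (fa γ η s s') (fun v ω => birth ω v) (fun b ω => cmj γ (chi γ univ) (t - b) ω) ω

theorem farPart_le (γ η : ℝ) (B : Set ℝ) (s s' t : ℝ) (ω : Pop) (h : GoodFit η s ω) :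
    farPart γ B s s' t ω ≤ farLow γ η s s' t ω := by
  unfold farPart farLow sF
  refine ENNReal.tsum_le_tsum fun v => ?_
  by_cases h1 : onLine s ω v
  · by_cases h2 : alive ω v
    · cases v with
      | nil => exact h1.elim
      | cons j u =>
        have h3 := h u h1.1 h2.1
        unfold fa
        simp only [List.tail_cons]
        rw [indicator_of_mem (show (ω u).1 ∈ Iic (1 - η) from h3), one_mul, mul_assoc, mul_assoc]
        gcongr
        exact cmj_chi_mono γ B _ _
    · have : wgt γ ω v = 0 := by unfold wgt; rw [if_neg h2]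
      rw [this, zero_mul, mul_zero, mul_zero]
      exact zero_le
  · have : il s ω v = 0 := by unfold il; rw [if_neg h1]
    rw [this, zero_mul]
    exact zero_le

section

variable {β γ : ℝ} [hp : Params β γ] (μ : Measure ℝ) [IsProbabilityMeasure μ]

/-- Probability that an old family has a fitness close to `1`. -/
theorem prob_not_goodFit (hμ : ∀ᵐ y ∂μ, 0 < y ∧ y < 1) (η s : ℝ) (hs : 0 ≤ s) :
    popLaw μ β γ {ω | ¬ GoodFit η s ω} ≤
      hh μ η * (ENNReal.ofReal (Real.exp (γ * s)) * mt μ β γ univ s) := by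
  have hγ := hp.γ_pos
  -- weight of a single family
  set Φ : ℝ≥0∞ → ℝ → Life → ℝ≥0∞ := fun w b L => (w * ((Iic s).indicator
    (fun b => ENNReal.ofReal (Real.exp (γ * b))) b)) * (Ioi (1 - η)).indicator (fun _ => 1) L.1
    with hΦ
  have hΦm : Measurable fun p : (ℝ≥0∞ × ℝ) × Life => Φ p.1.1 p.1.2 p.2 := by
    refine Measurable.mul (Measurable.mul (measurable_fst.comp measurable_fst) ?_) ?_
    · exact (Measurable.indicator (by fun_prop) measurableSet_Iic).comp
        (measurable_snd.comp measurable_fst)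
    · exact (measurable_const.indicator measurableSet_Ioi).comp
        (measurable_fst.comp measurable_snd)
  have hsub : {ω : Pop | ¬ GoodFit η s ω} ⊆
      ⋃ u : List ℕ, {ω : Pop | 1 ≤ Φ (wgt γ ω u) (birth ω u) (ω u)} := by
    intro ω hω
    simp only [GoodFit, mem_ofPred_eq, not_forall, not_le] at hω
    obtain ⟨u, h1, h2, h3⟩ := hω
    rw [mem_iUnion]
    refine ⟨u, ?_⟩
    simp only [mem_ofPred_eq, hΦ]
    rw [indicator_of_mem (show birth ω u ∈ Iic s from old_birth hs h1),
      indicator_of_mem (show (ω u).1 ∈ Ioi (1 - η) from h3), mul_one]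
    unfold wgt
    rw [if_pos h2, ← ENNReal.ofReal_mul (Real.exp_pos _).le, ← Real.exp_add, neg_add_cancel,
      Real.exp_zero, ENNReal.ofReal_one]
  have hmu : ∫⁻ L : Life, (Ioi (1 - η)).indicator (fun _ => (1 : ℝ≥0∞)) L.1 ∂(lifeLaw μ β γ) =
      hh μ η := by
    have hm : Measurable fun L : Life => (Ioi (1 - η)).indicator (fun _ => (1 : ℝ≥0∞)) L.1 :=
      (measurable_const.indicator measurableSet_Ioi).comp measurable_fst
    unfold lifeLaw
    rw [lintegral_prod _ hm.aemeasurable]
    simp only [lintegral_const, measure_univ, mul_one]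
    rw [lintegral_indicator_const measurableSet_Ioi, one_mul]
    unfold hh
    apply measure_congr
    filter_upwards [hμ] with y hy
    apply propext
    constructor
    · intro h; exact ⟨h, hy.2⟩
    · intro h; exact h.1
  have hterm : ∀ u : List ℕ, popLaw μ β γ {ω : Pop | 1 ≤ Φ (wgt γ ω u) (birth ω u) (ω u)} ≤
      hh μ η * (ENNReal.ofReal (Real.exp (γ * s)) *
        ∫⁻ ω, wgt γ ω u * chi γ univ (s - birth ω u) (ω u) ∂(popLaw μ β γ)) := by
    intro u
    have hm0 : Measurable fun ω : Pop => ((wgt γ ω u, birth ω u), ω u) :=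
      ((measurable_wgt γ u).prodMk (measurable_birth u)).prodMk (measurable_pi_apply u)
    have h1 := mul_meas_ge_le_lintegral (μ := popLaw μ β γ) (hΦm.comp hm0) 1
    rw [one_mul] at h1
    refine h1.trans ?_
    have h2 := lintegral_at (β := β) (γ := γ) μ u Φ hΦm
    simp only [Function.comp]
    rw [h2]
    have h3 : ∀ ω : Pop, ∫⁻ L, Φ (wgt γ ω u) (birth ω u) L ∂(lifeLaw μ β γ) =
        (wgt γ ω u * ((Iic s).indicator (fun b => ENNReal.ofReal (Real.exp (γ * b)))
          (birth ω u))) * hh μ η := by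
      intro ω
      simp only [hΦ]
      rw [lintegral_const_mul, hmu]
      exact (measurable_const.indicator measurableSet_Ioi).comp measurable_fst
    simp only [h3]
    have hm1 : Measurable fun ω : Pop => wgt γ ω u * ((Iic s).indicator
        (fun b => ENNReal.ofReal (Real.exp (γ * b))) (birth ω u)) := by
      refine (measurable_wgt γ u).mul ?_
      exact (Measurable.indicator (by fun_prop) measurableSet_Iic).comp (measurable_birth u)
    rw [lintegral_mul_const _ hm1, mul_comm, ← lintegral_const_mul' _ _ ENNReal.ofReal_ne_top]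
    refine mul_le_mul' le_rfl (lintegral_mono fun ω => ?_)
    rw [mul_left_comm]
    refine mul_le_mul' le_rfl ?_
    by_cases hb : birth ω u ∈ Iic s
    · rw [indicator_of_mem hb]
      unfold chi
      have hb' : birth ω u ≤ s := hb
      rw [if_pos ⟨by linarith, mem_univ _⟩, ← mul_assoc, ← ENNReal.ofReal_mul (Real.exp_pos _).le,
        ← Real.exp_add]
      calc ENNReal.ofReal (Real.exp (γ * birth ω u))
          = ENNReal.ofReal (Real.exp (γ * s + -(γ * (s - birth ω u)))) * 1 := by
            rw [mul_one]; congr 2; ring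
        _ ≤ _ := by
            gcongr
            exact one_le_members _ _
    · rw [indicator_of_notMem hb]; exact zero_le
  calc popLaw μ β γ {ω | ¬ GoodFit η s ω}
      ≤ ∑' u : List ℕ, popLaw μ β γ {ω : Pop | 1 ≤ Φ (wgt γ ω u) (birth ω u) (ω u)} :=
        (measure_mono hsub).trans (measure_iUnion_le _)
    _ ≤ ∑' u : List ℕ, hh μ η * (ENNReal.ofReal (Real.exp (γ * s)) *
        ∫⁻ ω, wgt γ ω u * chi γ univ (s - birth ω u) (ω u) ∂(popLaw μ β γ)) :=
        ENNReal.tsum_le_tsum hterm
    _ = hh μ η * (ENNReal.ofReal (Real.exp (γ * s)) *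
        ∫⁻ ω, cmj γ (chi γ univ) s ω ∂(popLaw μ β γ)) := by
        rw [ENNReal.tsum_mul_left, ENNReal.tsum_mul_left]
        unfold cmj
        rw [lintegral_tsum]
        intro u
        have hχ := measurable_chi γ univ MeasurableSet.univ
        exact ((measurable_wgt γ u).mul (hχ.comp ((measurable_const.sub
          (measurable_birth u)).prodMk (measurable_pi_apply u)))).aemeasurable
    _ = _ := by rw [mean_cmj_chi μ hμ univ MeasurableSet.univ]

/-- Laplace transform restricted to low fitness. -/
theorem lap_cut (hγ : 0 < γ) (hμ : ∀ᵐ y ∂μ, 0 < y ∧ y < 1) (η z : ℝ) (hz : 0 ≤ z) :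
    lap (μ.restrict (Iic (1 - η))) γ z ≤
      ENNReal.ofReal (Real.exp (-(γ * η * (z / 2)))) * lap μ γ (z / 2) := by
  unfold lap
  rw [← lintegral_indicator measurableSet_Iic, ← lintegral_const_mul' _ _ ENNReal.ofReal_ne_top]
  refine lintegral_mono_ae (hμ.mono fun y hy => ?_)
  by_cases h : y ∈ Iic (1 - η)
  · rw [indicator_of_mem h, ← ENNReal.ofReal_mul (Real.exp_pos _).le, ← Real.exp_add]
    apply ENNReal.ofReal_le_ofReal
    apply Real.exp_le_exp.2
    have h1 : η ≤ 1 - y := by
      have : y ≤ 1 - η := h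
      linarith
    have h2 : γ * η * (z / 2) ≤ γ * (1 - y) * (z / 2) :=
      mul_le_mul_of_nonneg_right (mul_le_mul_of_nonneg_left h1 hγ.le) (by linarith)
    linarith
  · rw [indicator_of_notMem h]; exact zero_le

/-- Mean contribution of the old families of low fitness. -/
theorem mean_oldLow {D : ℝ≥0∞} (h : Dbl μ γ D) (hμ : ∀ᵐ y ∂μ, 0 < y ∧ y < 1)
    (hb : bm μ β γ < 1) (η s t : ℝ) (ht : 0 ≤ t) (hst : s ≤ t / 2) :
    ∫⁻ ω, oldLow γ η s t ω ∂(popLaw μ β γ) ≤
      (1 - bm μ β γ)⁻¹ * (ENNReal.ofReal (Real.exp (-(γ * η * (t / 4)))) * (D ^ 2 * lap μ γ t)) := by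
  have hγ := hp.γ_pos
  unfold oldLow
  have hχ := measurable_chi γ (Iic (1 - η)) measurableSet_Iic
  have hχ' : Measurable fun p : ℝ × Life =>
      (Ici (t - s)).indicator (fun _ => (1 : ℝ≥0∞)) p.1 * chi γ (Iic (1 - η)) p.1 p.2 :=
    ((measurable_const.indicator measurableSet_Ici).comp measurable_fst).mul hχ
  rw [lintegral_cmj μ _ hχ']
  have hpt : ∀ r : ℝ, ∫⁻ L, (Ici (t - s)).indicator (fun _ => (1 : ℝ≥0∞)) (t - r) *
      chi γ (Iic (1 - η)) (t - r) L ∂(lifeLaw μ β γ) ≤
      ENNReal.ofReal (Real.exp (-(γ * η * (t / 4)))) * (D ^ 2 * lap μ γ t) := by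
    intro r
    by_cases hr : t - r ∈ Ici (t - s)
    · rw [indicator_of_mem hr]
      simp only [one_mul]
      rw [mean_chi μ hμ _ measurableSet_Iic]
      have hr' : t / 2 ≤ t - r := by
        have : t - s ≤ t - r := hr
        linarith
      rw [indicator_of_mem (show t - r ∈ Ici (0 : ℝ) from by simp only [mem_Ici]; linarith)]
      calc lap (μ.restrict (Iic (1 - η))) γ (t - r)
          ≤ lap (μ.restrict (Iic (1 - η))) γ (t / 2) :=
            lap_anti _ γ hγ.le (ae_restrict_of_ae hμ) hr'
        _ ≤ ENNReal.ofReal (Real.exp (-(γ * η * (t / 2 / 2)))) * lap μ γ (t / 2 / 2) :=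
            lap_cut μ hγ hμ η (t / 2) (by linarith)
        _ ≤ ENNReal.ofReal (Real.exp (-(γ * η * (t / 4)))) * (D ^ 2 * lap μ γ t) := by
            rw [show t / 2 / 2 = t / 4 by ring]
            gcongr
            rw [show t / 4 = t / 2 / 2 by ring, sq, mul_assoc]
            exact (h.2 (t / 2) (by linarith)).trans (by gcongr; exact h.2 t ht)
    · rw [indicator_of_notMem hr]
      simp
  calc ∫⁻ r, ∫⁻ L, (Ici (t - s)).indicator (fun _ => (1 : ℝ≥0∞)) (t - r) *
      chi γ (Iic (1 - η)) (t - r) L ∂(lifeLaw μ β γ) ∂(ren μ β γ)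
      ≤ ∫⁻ _, ENNReal.ofReal (Real.exp (-(γ * η * (t / 4)))) * (D ^ 2 * lap μ γ t)
        ∂(ren μ β γ) := lintegral_mono hpt
    _ = _ := by
        rw [lintegral_const, ren_univ μ hμ hb, mul_comm]

end

end Pool.Agent.H96.Cond
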