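import Mathlib
import Pool.Agent.H96.Cond.Top

/-!
# The contribution of the families founded late, and the main contribution
-/

set_option autoImplicit false
set_option linter.unusedSectionVars false

open MeasureTheory ProbabilityTheory Set Filter Topology
open scoped ENNReal

namespace Pool.Agent.H96.Cond

variable {β γ : ℝ} [hp : Params β γ] (μ : Measure ℝ) [IsProbabilityMeasure μ]

theorem measurable_Fc (B : Set ℝ) (hB : MeasurableSet B) (t : ℝ) :
    Measurable fun p : ℝ × Pop => cmj γ (chi γ B) (t - p.1) p.2 :=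
  (measurable_cmj γ _ (measurable_chi γ B hB)).comp
    ((measurable_const.sub measurable_fst).prodMk measurable_snd)

theorem mF_Fc (hμ : ∀ᵐ y ∂μ, 0 < y ∧ y < 1) (B : Set ℝ) (hB : MeasurableSet B) (t b : ℝ) :
    mF μ β γ (fun b ω => cmj γ (chi γ B) (t - b) ω) b = mt μ β γ B (t - b) := by
  unfold mF
  exact mean_cmj_chi μ hμ B hB (t - b)

theorem lintegral_add_shift (f : ℝ → ℝ≥0∞) (r : ℝ) : ∫⁻ a, f (r + a) = ∫⁻ a, f a :=
  lintegral_add_left_eq_self f r

/-- Mean contribution of the families founded after `s'` by families of low fitness. -/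
theorem mean_farLow {D C : ℝ≥0∞} (h : Dbl μ γ D) (hμ : ∀ᵐ y ∂μ, 0 < y ∧ y < 1)
    (hb : bm μ β γ < 1) (hC : ∀ t, mt μ β γ univ t ≤ C * lap μ γ t)
    (η s s' t : ℝ) (hs : 0 ≤ s) (hss' : 2 * s ≤ s') (ht : 0 ≤ t) :
    ∫⁻ ω, farLow γ η s s' t ω ∂(popLaw μ β γ) ≤
      (1 - bm μ β γ)⁻¹ * (C * D ^ 2 * lap μ γ t * lapT μ γ s' +
        ENNReal.ofReal (Real.exp (-(γ * η * (t / 8)))) * D ^ 3 * lap μ γ t *
          ∫⁻ z in Ioi (0 : ℝ), mt μ β γ univ z) := by
  have hγ := hp.γ_pos
  have hβ1 : ENNReal.ofReal β ≤ 1 := by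
    rw [← ENNReal.ofReal_one]; exact ENNReal.ofReal_le_ofReal hp.β_le
  have hFm := measurable_Fc (γ := γ) univ MeasurableSet.univ t
  have hmt := measurable_mt (β := β) (γ := γ) μ hμ hb univ
  set A : Set ℝ := Iic (1 - η) with hA
  have hAm : MeasurableSet A := measurableSet_Iic
  set φ : ℝ → ℝ → ℝ≥0∞ := fun r b => (Iic s).indicator (fun _ => 1) r *
    ((Ioi s').indicator (fun _ => 1) b * mt μ β γ univ (t - b)) with hφ
  have hφm : Measurable fun p : ℝ × ℝ => φ p.1 p.2 := by
    refine Measurable.mul ((measurable_const.indicator measurableSet_Iic).comp measurable_fst) ?_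
    exact ((measurable_const.indicator measurableSet_Ioi).comp measurable_snd).mul
      (hmt.comp (measurable_const.sub measurable_snd))
  -- step 1: replace by means
  have h1 : ∫⁻ ω, farLow γ η s s' t ω ∂(popLaw μ β γ) =
      ∫⁻ ω, ∑' v, fa γ η s s' v ω * mt μ β γ univ (t - birth ω v) ∂(popLaw μ β γ) := by
    unfold farLow
    rw [lintegral_sF μ _ (lineData_fa γ η s s') hFm]
    unfold cF
    simp only [mF_Fc μ hμ univ MeasurableSet.univ t]
  -- step 2: bound by the sum over children
  have hm2 : ∀ v, Measurable fun ω => fa γ η s s' v ω * mt μ β γ univ (t - birth ω v) := fun v =>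
    ((lineData_fa γ η s s').meas_a v).mul (hmt.comp (measurable_const.sub (measurable_birth v)))
  have h2 : ∫⁻ ω, ∑' v, fa γ η s s' v ω * mt μ β γ univ (t - birth ω v) ∂(popLaw μ β γ) ≤
      ∑' u : List ℕ, ∑' j : ℕ, ∫⁻ ω, A.indicator (fun _ => 1) (ω u).1 *
      (wgt γ ω (j :: u) * φ (birth ω u) (birth ω (j :: u))) ∂(popLaw μ β γ) := by
    rw [lintegral_tsum fun v => (hm2 v).aemeasurable, tsum_list]
    have e0 : ∫⁻ ω, fa γ η s s' [] ω * mt μ β γ univ (t - birth ω []) ∂(popLaw μ β γ) = 0 := by
      have : ∀ ω : Pop, fa γ η s s' [] ω = 0 := fun ω => by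
        unfold fa il
        rw [if_neg (fun hc : onLine s ω [] => hc), zero_mul]
      simp only [this, zero_mul, lintegral_zero]
    rw [e0, zero_add]
    refine ENNReal.tsum_le_tsum fun u => ENNReal.tsum_le_tsum fun j => lintegral_mono fun ω => ?_
    unfold fa
    simp only [List.tail_cons, hφ]
    by_cases h3 : onLine s ω (j :: u)
    · have h4 : birth ω u ≤ s := old_birth hs h3.1
      rw [indicator_of_mem (show birth ω u ∈ Iic s from h4)]
      calc il s ω (j :: u) * ((Ioi s').indicator (fun _ => 1) (birth ω (j :: u)) *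
          (A.indicator (fun _ => 1) (ω u).1 * wgt γ ω (j :: u))) *
          mt μ β γ univ (t - birth ω (j :: u))
          ≤ 1 * ((Ioi s').indicator (fun _ => 1) (birth ω (j :: u)) *
          (A.indicator (fun _ => 1) (ω u).1 * wgt γ ω (j :: u))) *
          mt μ β γ univ (t - birth ω (j :: u)) := by
            gcongr
            exact il_le_one _ _ _
        _ = _ := by ring
    · have : il s ω (j :: u) = 0 := by unfold il; rw [if_neg h3]
      rw [this, zero_mul, zero_mul]
      exact zero_le
  -- step 3: evaluate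
  have h3 := sum_children (β := β) (γ := γ) μ hμ A hAm φ hφm
  rw [h1]
  refine h2.trans ?_
  rw [h3]
  set K := C * D ^ 2 * lap μ γ t * lapT μ γ s' +
        ENNReal.ofReal (Real.exp (-(γ * η * (t / 8)))) * D ^ 3 * lap μ γ t *
          ∫⁻ z in Ioi (0 : ℝ), mt μ β γ univ z with hK
  have hpt : ∀ r : ℝ, ENNReal.ofReal β * ∫⁻ a in Ioi (0 : ℝ), ker (μ.restrict A) γ a *
      φ r (r + a) ≤ K := by
    intro r
    by_cases hr : r ≤ s
    · have hbound : ∀ a ∈ Ioi (0 : ℝ), ker (μ.restrict A) γ a * φ r (r + a) ≤
          C * D ^ 2 * lap μ γ t * (Ioi s').indicator (lap μ γ) (r + a) +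
          ENNReal.ofReal (Real.exp (-(γ * η * (t / 8)))) * D ^ 3 * lap μ γ t *
            mt μ β γ univ (t - (r + a)) := by
        intro a ha
        simp only [hφ]
        rw [indicator_of_mem (show r ∈ Iic s from hr), one_mul]
        by_cases h4 : s' < r + a
        · rw [indicator_of_mem (show r + a ∈ Ioi s' from h4), one_mul,
            indicator_of_mem (show r + a ∈ Ioi s' from h4)]
          have ha2 : (r + a) / 2 ≤ a := by linarith
          have hra : 0 ≤ r + a := by linarith
          have hkl : ker (μ.restrict A) γ a ≤ lap (μ.restrict A) γ a :=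
            ker_le_lap _ γ (ae_restrict_of_ae hμ) a
          by_cases h5 : r + a ≤ t / 2
          · refine le_trans ?_ le_self_add
            calc ker (μ.restrict A) γ a * mt μ β γ univ (t - (r + a))
                ≤ (D * lap μ γ (r + a)) * (C * (D * lap μ γ t)) := by
                  gcongr
                  · calc ker (μ.restrict A) γ a ≤ lap (μ.restrict A) γ a := hkl
                      _ ≤ lap μ γ a := by
                        unfold lap
                        exact lintegral_mono' Measure.restrict_le_self le_rfl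
                      _ ≤ lap μ γ ((r + a) / 2) := lap_anti μ γ hγ.le hμ ha2
                      _ ≤ D * lap μ γ (r + a) := h.2 _ hra
                  · refine (hC _).trans ?_
                    gcongr
                    exact (lap_anti μ γ hγ.le hμ (show t / 2 ≤ t - (r + a) by linarith)).trans
                      (h.2 t ht)
              _ = _ := by ring
          · refine le_trans ?_ le_add_self
            gcongr
            calc ker (μ.restrict A) γ a ≤ lap (μ.restrict A) γ a := hkl
              _ ≤ lap (μ.restrict A) γ (t / 4) :=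
                  lap_anti _ γ hγ.le (ae_restrict_of_ae hμ) (by linarith)
              _ ≤ ENNReal.ofReal (Real.exp (-(γ * η * (t / 4 / 2)))) * lap μ γ (t / 4 / 2) :=
                  lap_cut μ hγ hμ η (t / 4) (by linarith)
              _ ≤ ENNReal.ofReal (Real.exp (-(γ * η * (t / 8)))) * (D ^ 3 * lap μ γ t) := by
                  rw [show t / 4 / 2 = t / 8 by ring]
                  gcongr
                  calc lap μ γ (t / 8) = lap μ γ (t / 4 / 2) := by congr 1; ring
                    _ ≤ D * lap μ γ (t / 4) := h.2 _ (by linarith)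
                    _ = D * lap μ γ (t / 2 / 2) := by congr 2; ring
                    _ ≤ D * (D * lap μ γ (t / 2)) := by
                        gcongr
                        exact h.2 _ (by linarith)
                    _ ≤ D * (D * (D * lap μ γ t)) := by
                        gcongr
                        exact h.2 t ht
                    _ = _ := by ring
              _ = _ := by ring
        · rw [indicator_of_notMem (show r + a ∉ Ioi s' from h4), zero_mul, mul_zero]
          exact zero_le
      have hm3 : Measurable fun a : ℝ => mt μ β γ univ (t - (r + a)) :=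
        hmt.comp (measurable_const.sub (measurable_const.add measurable_id))
      have hm4 : Measurable fun a : ℝ => (Ioi s').indicator (lap μ γ) (r + a) :=
        ((measurable_lap μ γ).indicator measurableSet_Ioi).comp
          (measurable_const.add measurable_id)
      calc ENNReal.ofReal β * ∫⁻ a in Ioi (0 : ℝ), ker (μ.restrict A) γ a * φ r (r + a)
          ≤ 1 * ∫⁻ a in Ioi (0 : ℝ), (C * D ^ 2 * lap μ γ t *
              (Ioi s').indicator (lap μ γ) (r + a) +
            ENNReal.ofReal (Real.exp (-(γ * η * (t / 8)))) * D ^ 3 * lap μ γ t *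
            mt μ β γ univ (t - (r + a))) := by
            exact mul_le_mul' hβ1 (setLIntegral_mono' measurableSet_Ioi hbound)
        _ ≤ ∫⁻ a, (C * D ^ 2 * lap μ γ t * (Ioi s').indicator (lap μ γ) (r + a) +
            ENNReal.ofReal (Real.exp (-(γ * η * (t / 8)))) * D ^ 3 * lap μ γ t *
            mt μ β γ univ (t - (r + a))) := by
            rw [one_mul]
            exact lintegral_mono' Measure.restrict_le_self le_rfl
        _ = K := by
            rw [lintegral_add_left (hm4.const_mul _), lintegral_const_mul _ hm4,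
              lintegral_const_mul _ hm3, lintegral_add_shift (fun a => (Ioi s').indicator
                (lap μ γ) a) r, lintegral_indicator measurableSet_Ioi,
              lintegral_add_shift (fun a => mt μ β γ univ (t - a)) r,
              lintegral_reflect (fun a => mt μ β γ univ a) t]
            rw [hK]
            congr 2
            rw [← lintegral_indicator measurableSet_Ioi]
            have hae : ∀ᵐ z : ℝ, z ≠ 0 := by simp [ae_iff]
            refine lintegral_congr_ae (hae.mono fun z hz => ?_)
            rcases lt_or_gt_of_ne hz with h0 | h0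
            · beta_reduce
              rw [indicator_of_notMem (by simp [h0.le]), mt_neg μ hμ hb univ z h0]
            · exact (indicator_of_mem (show z ∈ Ioi (0 : ℝ) from h0) _).symm
    · have : ∀ a, φ r (r + a) = 0 := fun a => by
        simp only [hφ]
        rw [indicator_of_notMem (show r ∉ Iic s from hr), zero_mul]
      simp only [this, mul_zero, lintegral_zero]
      exact zero_le
  calc ∫⁻ r, (ENNReal.ofReal β * ∫⁻ a in Ioi (0 : ℝ), ker (μ.restrict A) γ a * φ r (r + a))
        ∂(ren μ β γ) ≤ ∫⁻ _, K ∂(ren μ β γ) := lintegral_mono hpt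
    _ = _ := by rw [lintegral_const, ren_univ μ hμ hb, mul_comm]

/-- Deviation of the main contribution from its conditional mean. -/
theorem main_dev {D C CV : ℝ≥0∞} (h : Dbl μ γ D) (hμ : ∀ᵐ y ∂μ, 0 < y ∧ y < 1)
    (hb : bm μ β γ < 1) (hC : ∀ t, mt μ β γ univ t ≤ C * lap μ γ t) (hCVt : CV ≠ ⊤)
    (hV : ∀ t, ∫⁻ ω, cmj γ (chi γ univ) t ω ^ 2 ∂(popLaw μ β γ) ≤ CV * lap0 μ γ t)
    (B : Set ℝ) (hB : MeasurableSet B) (s s' t : ℝ) (hs : 0 ≤ s) (hs't : s' ≤ t / 2)
    (ht : 0 ≤ t) (δ : ℝ≥0∞) (hδ0 : δ ≠ 0) (hδt : δ ≠ ⊤) :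
    popLaw μ β γ {ω | mainPart γ B s s' t ω + δ ≤
        cF (la γ s s') (fun v ω => birth ω v) (fun b => mt μ β γ B (t - b)) ω ∨
      cF (la γ s s') (fun v ω => birth ω v) (fun b => mt μ β γ B (t - b)) ω + δ ≤
        mainPart γ B s s' t ω} ≤
      (CV * D * lap μ γ t * ENNReal.ofReal (Real.exp (-(γ * s))) * (C * lapT μ γ s)) / δ ^ 2 := by
  have hγ := hp.γ_pos
  set F : ℝ → Pop → ℝ≥0∞ := fun b ω => cmj γ (chi γ B) (t - b) ω with hF
  have hFm : Measurable fun p : ℝ × Pop => F p.1 p.2 := measurable_Fc (γ := γ) B hB t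
  have hLD := lineData_la γ s s'
  have hmF : mF μ β γ F = fun b => mt μ β γ B (t - b) := by
    funext b
    exact mF_Fc μ hμ B hB t b
  have hBt : (1 - bm μ β γ)⁻¹ ≠ ⊤ := inv_ne_top _ hb
  have hM2 : ∫⁻ ω, cF (la γ s s') (fun v ω => birth ω v) (mF μ β γ F) ω ^ 2
      ∂(popLaw μ β γ) ≠ ⊤ := by
    refine ne_top_of_le_ne_top (ENNReal.mul_ne_top (lW_sq_ne_top μ hCVt hV hμ s s' hs)
      (ENNReal.pow_ne_top (n := 2) hBt)) ?_
    rw [← lintegral_mul_const' _ _ (ENNReal.pow_ne_top hBt)]
    refine lintegral_mono fun ω => ?_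
    rw [← mul_pow]
    gcongr
    unfold cF lW
    rw [← ENNReal.tsum_mul_right, hmF]
    refine ENNReal.tsum_le_tsum fun v => ?_
    gcongr
    exact mt_le μ hμ hb B _
  have hdev := deviation (β := β) (γ := γ) μ F hLD hFm hM2 δ hδ0 hδt
  rw [hmF] at hdev
  refine hdev.trans (ENNReal.div_le_div_right ?_ _)
  have hvF : ∀ b, b ≤ t / 2 → vF μ β γ F b ≤ CV * (D * lap μ γ t) := by
    intro b hbt
    unfold vF
    calc ∫⁻ ω, F b ω ^ 2 ∂(popLaw μ β γ)
        ≤ ∫⁻ ω, cmj γ (chi γ univ) (t - b) ω ^ 2 ∂(popLaw μ β γ) := by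
          refine lintegral_mono fun ω => ?_
          exact pow_le_pow_left' (cmj_chi_mono γ B (t - b) ω) 2
      _ ≤ CV * lap0 μ γ (t - b) := hV _
      _ ≤ CV * (D * lap μ γ t) := by
          gcongr
          unfold lap0
          refine (indicator_le_self _ _ _).trans ?_
          exact (lap_anti μ γ hγ.le hμ (show t / 2 ≤ t - b by linarith)).trans (h.2 t ht)
  calc ∫⁻ ω, ∑' v, la γ s s' v ω ^ 2 * vF μ β γ F (birth ω v) ∂(popLaw μ β γ)
      ≤ ∫⁻ ω, (CV * D * lap μ γ t * ENNReal.ofReal (Real.exp (-(γ * s)))) * lW γ s s' ω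
        ∂(popLaw μ β γ) := by
        refine lintegral_mono fun ω => ?_
        unfold lW
        rw [← ENNReal.tsum_mul_left]
        refine ENNReal.tsum_le_tsum fun v => ?_
        rcases la_cases γ s s' v ω with h1 | ⟨h1, h2, h3⟩
        · rw [h1]
          simp
        · rw [sq]
          calc la γ s s' v ω * la γ s s' v ω * vF μ β γ F (birth ω v)
              ≤ ENNReal.ofReal (Real.exp (-(γ * s))) * la γ s s' v ω *
                (CV * (D * lap μ γ t)) := by
                gcongr
                · exact la_le_exp γ s s' hγ.le v ω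
                · exact hvF _ (h2.trans hs't)
            _ = _ := by ring
    _ = (CV * D * lap μ γ t * ENNReal.ofReal (Real.exp (-(γ * s)))) *
        ∫⁻ ω, lW γ s s' ω ∂(popLaw μ β γ) := lintegral_const_mul _ (measurable_lW γ s s')
    _ ≤ _ := by
        gcongr
        exact mean_lW_le' μ hC hμ hb s s' hs

end Pool.Agent.H96.Cond
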