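import Mathlib
import Pool.Agent.H96.Cond.Far

/-!
# Collected constants and the scales
-/

set_option autoImplicit false
set_option linter.unusedSectionVars false

open MeasureTheory ProbabilityTheory Set Filter Topology
open scoped ENNReal

namespace Pool.Agent.H96.Cond

/-- Real version of the Laplace transform. -/
noncomputable def gR (μ : Measure ℝ) (γ t : ℝ) : ℝ := (lap μ γ t).toReal

/-- Constants attached to the model. -/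
structure Cst (μ : Measure ℝ) (β γ : ℝ) where
  p : ℕ
  one_le_p : 1 ≤ p
  poly : ∀ ε w, 0 < ε → 0 < w → hh μ (w * ε) ≤ ENNReal.ofReal ((2 * w + 2) ^ p) * hh μ ε
  C : ℝ
  C_pos : 0 < C
  hC : ∀ t, mt μ β γ univ t ≤ ENNReal.ofReal C * lap μ γ t
  V : ℝ
  V_pos : 0 < V
  hV : ∀ t, ∫⁻ ω, cmj γ (chi γ univ) t ω ^ 2 ∂(popLaw μ β γ) ≤ ENNReal.ofReal V * lap0 μ γ t
  B : ℝ
  B_pos : 0 < B
  hB : (1 - bm μ β γ)⁻¹ ≤ ENNReal.ofReal B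
  S : ℝ
  S_pos : 0 < S
  hS : ∫⁻ z in Ioi (0 : ℝ), mt μ β γ univ z ≤ ENNReal.ofReal S
  I : ℝ
  I_pos : 0 < I
  hI : ∫⁻ z in Ioi (0 : ℝ), lap μ γ z ≤ ENNReal.ofReal I
  ρ : ℝ
  ρ_pos : 0 < ρ
  ρ_lt : ρ < 1
  T0 : ℝ
  T0_pos : 0 < T0
  decay : ∀ s, T0 ≤ s → lapT μ γ (2 * s) ≤ ENNReal.ofReal ρ * lapT μ γ s
  R : ℝ
  R_pos : 0 < R
  tail : ∀ s, T0 ≤ s → lapT μ γ s ≤ ENNReal.ofReal (R * s) * lap μ γ s

theorem exists_real_bound (x : ℝ≥0∞) (hx : x ≠ ⊤) : ∃ r : ℝ, 0 < r ∧ x ≤ ENNReal.ofReal r := by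
  refine ⟨x.toReal + 1, by positivity, ?_⟩
  rw [ENNReal.ofReal_add ENNReal.toReal_nonneg zero_le_one, ENNReal.ofReal_toReal hx]
  exact le_self_add

section

variable {β γ : ℝ} [hp : Params β γ] (μ : Measure ℝ) [IsProbabilityMeasure μ]

theorem exists_cst {α : ℝ} (h : RVar μ α) (hα : 1 < α) (hμ : ∀ᵐ y ∂μ, 0 < y ∧ y < 1)
    (hb : bm μ β γ < 1) : Nonempty (Cst μ β γ) := by
  have hγ := hp.γ_pos
  obtain ⟨p, hp1, poly⟩ := hh_poly μ h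
  have hD := dbl_of_poly μ poly hγ hμ
  obtain ⟨C, hCt, hC⟩ := mt_bound (β := β) μ hD hμ hb
  obtain ⟨V, hVt, hV⟩ := V_bound (β := β) μ hD hμ hb hC hCt
  have hlI := lintegral_lap_ne_top μ γ hp.β_pos hγ hμ hb
  obtain ⟨ρ, hρ, T0, hT0, hdec, htail⟩ := lapT_decay μ h poly hγ hα hμ hlI
  have hBt := inv_ne_top _ hb
  have hSt : ∫⁻ z in Ioi (0 : ℝ), mt μ β γ univ z ≠ ⊤ := by
    rw [lintegral_mt μ hμ hb, Measure.restrict_univ]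
    exact ENNReal.mul_ne_top hBt hlI
  obtain ⟨Cr, hCr, hCr'⟩ := exists_real_bound C hCt
  obtain ⟨Vr, hVr, hVr'⟩ := exists_real_bound V hVt
  obtain ⟨Br, hBr, hBr'⟩ := exists_real_bound _ hBt
  obtain ⟨Sr, hSr, hSr'⟩ := exists_real_bound _ hSt
  obtain ⟨Ir, hIr, hIr'⟩ := exists_real_bound _ hlI
  obtain ⟨Rr, hRr, hRr'⟩ := exists_real_bound _ (inv_ne_top ρ hρ)
  obtain ⟨q, hq1, hq2⟩ := exists_between hρ
  have hqt : q ≠ ⊤ := (hq2.trans ENNReal.one_lt_top).ne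
  have hq0 : 0 < q.toReal := ENNReal.toReal_pos (lt_of_le_of_lt zero_le hq1).ne' hqt
  have hq1' : q.toReal < 1 := by
    rw [← ENNReal.toReal_one]
    exact (ENNReal.toReal_lt_toReal hqt ENNReal.one_ne_top).2 hq2
  refine ⟨⟨p, hp1, poly, Cr, hCr, fun t => (hC t).trans (by gcongr), Vr, hVr,
    fun t => (hV t).trans (by gcongr), Br, hBr, hBr', Sr, hSr, hSr', Ir, hIr, hIr', q.toReal, hq0,
    hq1', T0, hT0, fun s hs => (hdec s hs).trans ?_, Rr, hRr, fun s hs => (htail s hs).trans ?_⟩⟩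
  · rw [ENNReal.ofReal_toReal hqt]
    gcongr
  · have hs0 : 0 < s := lt_of_lt_of_le hT0 hs
    rw [ENNReal.ofReal_mul hRr.le]
    calc ENNReal.ofReal s * lap μ γ s * (1 - ρ)⁻¹
        ≤ ENNReal.ofReal s * lap μ γ s * ENNReal.ofReal Rr := by gcongr
      _ = _ := by ring

end

section facts

variable (μ : Measure ℝ) [IsProbabilityMeasure μ] {γ : ℝ}

theorem lap_eq_gR (hγ : 0 < γ) (hμ : ∀ᵐ y ∂μ, 0 < y ∧ y < 1) (t : ℝ) :
    lap μ γ t = ENNReal.ofReal (gR μ γ t) :=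
  (ENNReal.ofReal_toReal (lap_ne_top μ γ hγ.le hμ t)).symm

theorem gR_pos (hγ : 0 < γ) (hμ : ∀ᵐ y ∂μ, 0 < y ∧ y < 1) (t : ℝ) : 0 < gR μ γ t :=
  ENNReal.toReal_pos (lap_pos μ γ t).ne' (lap_ne_top μ γ hγ.le hμ t)

theorem gR_anti (hγ : 0 < γ) (hμ : ∀ᵐ y ∂μ, 0 < y ∧ y < 1) : Antitone (gR μ γ) := by
  intro s t hst
  exact ENNReal.toReal_mono (lap_ne_top μ γ hγ.le hμ s) (lap_anti μ γ hγ.le hμ hst)

theorem gR_le_one (hγ : 0 < γ) (hμ : ∀ᵐ y ∂μ, 0 < y ∧ y < 1) (t : ℝ) (ht : 0 ≤ t) :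
    gR μ γ t ≤ 1 := by
  have := ENNReal.toReal_mono ENNReal.one_ne_top (lap_le_one μ γ hγ.le hμ t ht)
  rwa [ENNReal.toReal_one] at this

variable {β : ℝ} (c : Cst μ β γ)

include c in
theorem gR_dbl (hγ : 0 < γ) (hμ : ∀ᵐ y ∂μ, 0 < y ∧ y < 1) (t : ℝ) (ht : 0 ≤ t) :
    gR μ γ (t / 2) ≤ 6 ^ c.p * gR μ γ t := by
  have h := (dbl_of_poly μ c.poly hγ hμ).2 t ht
  rw [lap_eq_gR μ hγ hμ, lap_eq_gR μ hγ hμ, ← ENNReal.ofReal_mul (by positivity)] at h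
  exact (ENNReal.ofReal_le_ofReal_iff (mul_pos (by positivity) (gR_pos μ hγ hμ t)).le).1 h

include c in
theorem gR_lower (hγ : 0 < γ) (hμ : ∀ᵐ y ∂μ, 0 < y ∧ y < 1) (t : ℝ) (ht : 0 < t) :
    1 ≤ Real.exp γ * (2 * t + 2) ^ c.p * gR μ γ t := by
  have h := lap_lower μ c.poly hγ hμ t ht
  rw [lap_eq_gR μ hγ hμ, ← ENNReal.ofReal_mul (by positivity), ← ENNReal.ofReal_one] at h
  exact (ENNReal.ofReal_le_ofReal_iff (mul_pos (by positivity) (gR_pos μ hγ hμ t)).le).1 h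

include c in
theorem gR_mul_le (hγ : 0 < γ) (hμ : ∀ᵐ y ∂μ, 0 < y ∧ y < 1) (t : ℝ) (ht : 0 ≤ t) :
    t * gR μ γ t ≤ c.I := by
  have h1 : ENNReal.ofReal t * lap μ γ t ≤ ENNReal.ofReal c.I := by
    calc ENNReal.ofReal t * lap μ γ t = ∫⁻ a in Ioc (0 : ℝ) t, lap μ γ t := by
          simp [mul_comm]
      _ ≤ ∫⁻ a in Ioc (0 : ℝ) t, lap μ γ a :=
          setLIntegral_mono' measurableSet_Ioc fun a ha => lap_anti μ γ hγ.le hμ ha.2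
      _ ≤ ∫⁻ a in Ioi (0 : ℝ), lap μ γ a := lintegral_mono_set Ioc_subset_Ioi_self
      _ ≤ _ := c.hI
  rw [lap_eq_gR μ hγ hμ, ← ENNReal.ofReal_mul ht] at h1
  exact (ENNReal.ofReal_le_ofReal_iff c.I_pos.le).1 h1

include c in
theorem gR_tendsto (hγ : 0 < γ) (hμ : ∀ᵐ y ∂μ, 0 < y ∧ y < 1) :
    Tendsto (gR μ γ) atTop (𝓝 0) := by
  have h1 : Tendsto (fun t : ℝ => c.I / t) atTop (𝓝 0) := tendsto_const_nhds.div_atTop tendsto_id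
  refine tendsto_of_tendsto_of_tendsto_of_le_of_le' tendsto_const_nhds h1 ?_ ?_
  · exact Filter.Eventually.of_forall fun t => (gR_pos μ hγ hμ t).le
  · filter_upwards [eventually_gt_atTop (0 : ℝ)] with t ht
    rw [le_div_iff₀ ht, mul_comm]
    exact gR_mul_le μ c hγ hμ t ht.le

/-- The first scale. -/
noncomputable def uu (μ : Measure ℝ) (γ t : ℝ) : ℝ := -Real.log (gR μ γ t) / γ

/-- The second scale. -/
noncomputable def ss (μ : Measure ℝ) (γ t : ℝ) : ℝ :=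
  uu μ γ t - Real.log (Real.sqrt (uu μ γ t) * gR μ γ (uu μ γ t)) / γ

theorem exp_uu (hγ : 0 < γ) (hμ : ∀ᵐ y ∂μ, 0 < y ∧ y < 1) (t : ℝ) :
    Real.exp (-(γ * uu μ γ t)) = gR μ γ t := by
  unfold uu
  rw [mul_div_cancel₀ _ hγ.ne', neg_neg, Real.exp_log (gR_pos μ hγ hμ t)]

include c in
theorem uu_tendsto (hγ : 0 < γ) (hμ : ∀ᵐ y ∂μ, 0 < y ∧ y < 1) :
    Tendsto (uu μ γ) atTop atTop := by
  unfold uu
  apply Tendsto.atTop_div_const hγ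
  apply tendsto_neg_atBot_atTop.comp
  have h1 : Tendsto (gR μ γ) atTop (𝓝[>] 0) := by
    rw [tendsto_nhdsWithin_iff]
    exact ⟨gR_tendsto μ c hγ hμ, Filter.Eventually.of_forall fun t => gR_pos μ hγ hμ t⟩
  exact Real.tendsto_log_nhdsGT_zero.comp h1

theorem exp_ss (hγ : 0 < γ) (hμ : ∀ᵐ y ∂μ, 0 < y ∧ y < 1) (t : ℝ) (hu : 0 < uu μ γ t) :
    Real.exp (-(γ * ss μ γ t)) =
      gR μ γ t * (Real.sqrt (uu μ γ t) * gR μ γ (uu μ γ t)) := by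
  have hpos : 0 < Real.sqrt (uu μ γ t) * gR μ γ (uu μ γ t) :=
    mul_pos (Real.sqrt_pos.2 hu) (gR_pos μ hγ hμ _)
  unfold ss
  rw [mul_sub, mul_div_cancel₀ _ hγ.ne', neg_sub, Real.exp_sub, Real.exp_log hpos,
    ← exp_uu μ hγ hμ t, Real.exp_neg (γ * uu μ γ t)]
  ring

end facts

end Pool.Agent.H96.Cond
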