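import Mathlib
import Pool.Agent.H96.Cond.Cst

/-!
# Asymptotics of the scales
-/

set_option autoImplicit false
set_option linter.unusedSectionVars false

open MeasureTheory ProbabilityTheory Set Filter Topology
open scoped ENNReal

namespace Pool.Agent.H96.Cond

theorem tendsto_poly_exp (p : ℕ) (b : ℝ) (hb : 0 < b) :
    Tendsto (fun u : ℝ => (2 * u + 2) ^ p * Real.exp (-(b * u))) atTop (𝓝 0) := by
  have h1 := tendsto_rpow_mul_exp_neg_mul_atTop_nhds_zero (p : ℝ) b hb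
  have h2 := h1.const_mul ((4 : ℝ) ^ p)
  rw [mul_zero] at h2
  refine tendsto_of_tendsto_of_tendsto_of_le_of_le' tendsto_const_nhds h2 ?_ ?_
  · filter_upwards [eventually_ge_atTop (1 : ℝ)] with u hu
    have : 0 ≤ 2 * u + 2 := by linarith
    positivity
  · filter_upwards [eventually_ge_atTop (1 : ℝ)] with u hu
    rw [Real.rpow_natCast, ← mul_assoc, ← mul_pow, neg_mul]
    gcongr
    linarith

section

variable (μ : Measure ℝ) [IsProbabilityMeasure μ] {β γ : ℝ} (c : Cst μ β γ)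

include c in
theorem ev_le_ss (hγ : 0 < γ) (hμ : ∀ᵐ y ∂μ, 0 < y ∧ y < 1) :
    ∀ᶠ t in atTop, uu μ γ t ≤ ss μ γ t := by
  filter_upwards [(uu_tendsto μ c hγ hμ).eventually (eventually_ge_atTop (max 1 (c.I ^ 2)))]
    with t ht
  have hu1 : 1 ≤ uu μ γ t := le_trans (le_max_left _ _) ht
  have hu2 : c.I ^ 2 ≤ uu μ γ t := le_trans (le_max_right _ _) ht
  set u := uu μ γ t with hu
  have hsq : c.I ≤ Real.sqrt u := Real.le_sqrt_of_sq_le hu2
  have hs0 : 0 < Real.sqrt u := Real.sqrt_pos.2 (by linarith)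
  have h1 := gR_mul_le μ c hγ hμ u (by linarith)
  have h2 : Real.sqrt u * gR μ γ u ≤ 1 := by
    have h3 : Real.sqrt u * (Real.sqrt u * gR μ γ u) ≤ Real.sqrt u * 1 := by
      rw [← mul_assoc, Real.mul_self_sqrt (by linarith), mul_one]
      linarith
    exact le_of_mul_le_mul_left h3 hs0
  have h4 : Real.log (Real.sqrt u * gR μ γ u) ≤ 0 :=
    Real.log_nonpos (mul_pos hs0 (gR_pos μ hγ hμ u)).le h2
  have h5 : Real.log (Real.sqrt u * gR μ γ u) / γ ≤ 0 := div_nonpos_of_nonpos_of_nonneg h4 hγ.le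
  unfold ss
  rw [← hu]
  linarith

include c in
theorem ev_ss_le (hγ : 0 < γ) (hμ : ∀ᵐ y ∂μ, 0 < y ∧ y < 1) :
    ∀ᶠ t in atTop, ss μ γ t ≤ 2 * uu μ γ t := by
  have h0 : 0 < Real.exp (-γ) := Real.exp_pos _
  filter_upwards [(uu_tendsto μ c hγ hμ).eventually (eventually_ge_atTop 1),
    (uu_tendsto μ c hγ hμ).eventually ((tendsto_poly_exp c.p γ hγ).eventually (gt_mem_nhds h0))]
    with t hu1 hu2
  set u := uu μ γ t with hu
  have h1 := gR_lower μ c hγ hμ u (by linarith)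
  have hg := gR_pos μ hγ hμ u
  have hsq : 1 ≤ Real.sqrt u := Real.one_le_sqrt.2 hu1
  have h2 : Real.exp (-(γ * u)) ≤ Real.sqrt u * gR μ γ u := by
    have h3 : Real.exp (-(γ * u)) ≤ gR μ γ u := by
      have h4 : 1 * Real.exp (-(γ * u)) ≤
          (Real.exp γ * (2 * u + 2) ^ c.p * gR μ γ u) * Real.exp (-(γ * u)) :=
        mul_le_mul_of_nonneg_right h1 (Real.exp_pos _).le
      have h5 : (Real.exp γ * (2 * u + 2) ^ c.p * gR μ γ u) * Real.exp (-(γ * u)) =
          Real.exp γ * ((2 * u + 2) ^ c.p * Real.exp (-(γ * u))) * gR μ γ u := by ring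
      have h6 : Real.exp γ * ((2 * u + 2) ^ c.p * Real.exp (-(γ * u))) ≤ 1 := by
        calc Real.exp γ * ((2 * u + 2) ^ c.p * Real.exp (-(γ * u)))
            ≤ Real.exp γ * Real.exp (-γ) := by gcongr
          _ = 1 := by rw [← Real.exp_add]; simp
      rw [h5, one_mul] at h4
      calc Real.exp (-(γ * u)) ≤ _ := h4
        _ ≤ 1 * gR μ γ u := mul_le_mul_of_nonneg_right h6 hg.le
        _ = _ := one_mul _
    calc Real.exp (-(γ * u)) ≤ gR μ γ u := h3
      _ = 1 * gR μ γ u := (one_mul _).symm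
      _ ≤ _ := mul_le_mul_of_nonneg_right hsq hg.le
  have h7 : -(γ * u) ≤ Real.log (Real.sqrt u * gR μ γ u) := by
    rw [Real.le_log_iff_exp_le (mul_pos (by linarith) hg)]
    exact h2
  have h8 : -u ≤ Real.log (Real.sqrt u * gR μ γ u) / γ := by
    rw [le_div_iff₀ hγ]
    linarith
  unfold ss
  rw [← hu]
  linarith

include c in
theorem ev_exp_le (hγ : 0 < γ) (hμ : ∀ᵐ y ∂μ, 0 < y ∧ y < 1) :
    ∀ᶠ t in atTop, Real.exp (γ / c.p * (uu μ γ t - 1)) ≤ 4 * t := by
  have hp0 : (0 : ℝ) < c.p := by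
    have := c.one_le_p
    exact_mod_cast (by omega : 0 < c.p)
  filter_upwards [eventually_ge_atTop (1 : ℝ)] with t ht
  have h1 := gR_lower μ c hγ hμ t (by linarith)
  rw [← exp_uu μ hγ hμ t] at h1
  set u := uu μ γ t with hu
  have h2 : Real.exp (γ / c.p * (u - 1)) ^ c.p ≤ (4 * t) ^ c.p := by
    rw [← Real.exp_nat_mul]
    have e1 : (c.p : ℝ) * (γ / c.p * (u - 1)) = γ * u - γ := by
      field_simp
    rw [e1]
    have h3 : (2 * t + 2) ^ c.p ≤ (4 * t) ^ c.p := by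
      gcongr
      linarith
    calc Real.exp (γ * u - γ) = 1 * Real.exp (γ * u - γ) := (one_mul _).symm
      _ ≤ (Real.exp γ * (2 * t + 2) ^ c.p * Real.exp (-(γ * u))) * Real.exp (γ * u - γ) :=
          mul_le_mul_of_nonneg_right h1 (Real.exp_pos _).le
      _ = (2 * t + 2) ^ c.p * (Real.exp γ * Real.exp (-(γ * u)) * Real.exp (γ * u - γ)) := by ring
      _ = (2 * t + 2) ^ c.p := by
          rw [← Real.exp_add, ← Real.exp_add]
          have : γ + -(γ * u) + (γ * u - γ) = 0 := by ring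
          rw [this, Real.exp_zero, mul_one]
      _ ≤ _ := h3
  exact (pow_le_pow_iff_left₀ (Real.exp_pos _).le (by linarith)
    (by have := c.one_le_p; omega)).1 h2

include c in
theorem ev_uu_small (hγ : 0 < γ) (hμ : ∀ᵐ y ∂μ, 0 < y ∧ y < 1) (ε : ℝ) (hε : 0 < ε) :
    ∀ᶠ t in atTop, uu μ γ t ≤ ε * t := by
  have hp0 : (0 : ℝ) < c.p := by
    have := c.one_le_p
    exact_mod_cast (by omega : 0 < c.p)
  have h1 := tendsto_poly_exp 1 (γ / c.p) (div_pos hγ hp0)
  have h0 : 0 < ε / 4 * Real.exp (-(γ / c.p)) := by positivity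
  filter_upwards [(uu_tendsto μ c hγ hμ).eventually (eventually_ge_atTop 1),
    (uu_tendsto μ c hγ hμ).eventually (h1.eventually (gt_mem_nhds h0)),
    ev_exp_le μ c hγ hμ] with t hu1 hu2 hu3
  set u := uu μ γ t with hu
  rw [pow_one] at hu2
  have h2 : (2 * u + 2) < ε / 4 * Real.exp (γ / c.p * (u - 1)) := by
    have h3 : (2 * u + 2) * Real.exp (-(γ / c.p * u)) * Real.exp (γ / c.p * u) <
        ε / 4 * Real.exp (-(γ / c.p)) * Real.exp (γ / c.p * u) :=
      mul_lt_mul_of_pos_right hu2 (Real.exp_pos _)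
    rw [mul_assoc, ← Real.exp_add, neg_add_cancel, Real.exp_zero, mul_one, mul_assoc,
      ← Real.exp_add] at h3
    have e1 : -(γ / c.p) + γ / c.p * u = γ / c.p * (u - 1) := by ring
    rwa [e1] at h3
  have h4 : ε / 4 * Real.exp (γ / c.p * (u - 1)) ≤ ε / 4 * (4 * t) := by gcongr
  nlinarith

/-- Polynomial decay of the tail integral. -/
theorem lapT_poly :
    ∃ d : ℝ, 0 < d ∧ ∀ s, c.T0 ≤ s →
      lapT μ γ s ≤ ENNReal.ofReal (c.I * (s / (2 * c.T0)) ^ (-d)) := by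
  have hT0 := c.T0_pos
  have hρ := c.ρ_pos
  have hlog : 0 < -Real.log c.ρ := neg_pos.2 (Real.log_neg hρ c.ρ_lt)
  have hlog2 : 0 < Real.log 2 := Real.log_pos (by norm_num)
  set d := -Real.log c.ρ / Real.log 2 with hd
  have hd0 : 0 < d := div_pos hlog hlog2
  have hρd : c.ρ = (2 : ℝ) ^ (-d) := by
    rw [Real.rpow_def_of_pos two_pos, hd]
    have : Real.log 2 * -(-Real.log c.ρ / Real.log 2) = Real.log c.ρ := by
      field_simp
    rw [this, Real.exp_log hρ]
  have hiter : ∀ k : ℕ, lapT μ γ (2 ^ k * c.T0) ≤ ENNReal.ofReal (c.ρ ^ k * c.I) := by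
    intro k
    induction k with
    | zero =>
      rw [pow_zero, one_mul, pow_zero, one_mul]
      exact (lapT_anti μ hT0.le).trans c.hI
    | succ k ih =>
      have h1 : c.T0 ≤ 2 ^ k * c.T0 := by
        have : (1 : ℝ) ≤ 2 ^ k := one_le_pow₀ (by norm_num)
        nlinarith
      calc lapT μ γ (2 ^ (k + 1) * c.T0) = lapT μ γ (2 * (2 ^ k * c.T0)) := by
            congr 1; ring
        _ ≤ ENNReal.ofReal c.ρ * lapT μ γ (2 ^ k * c.T0) := c.decay _ h1
        _ ≤ ENNReal.ofReal c.ρ * ENNReal.ofReal (c.ρ ^ k * c.I) := by gcongr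
        _ = _ := by
            rw [← ENNReal.ofReal_mul hρ.le]
            congr 1
            ring
  refine ⟨d, hd0, fun s hs => ?_⟩
  have h1 : 1 ≤ s / c.T0 := by rwa [le_div_iff₀ hT0, one_mul]
  obtain ⟨k, hk1, hk2⟩ := exists_nat_pow_near h1 (one_lt_two (α := ℝ))
  rw [le_div_iff₀ hT0] at hk1
  rw [div_lt_iff₀ hT0] at hk2
  refine ((lapT_anti μ hk1).trans (hiter k)).trans ?_
  apply ENNReal.ofReal_le_ofReal
  rw [mul_comm]
  gcongr
  · exact c.I_pos.le
  have h2 : s / (2 * c.T0) ≤ 2 ^ k := by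
    rw [div_le_iff₀ (by positivity)]
    rw [pow_succ] at hk2
    linarith
  have h3 : 0 < s / (2 * c.T0) := div_pos (lt_of_lt_of_le hT0 hs) (by positivity)
  calc c.ρ ^ k = ((2 : ℝ) ^ k) ^ (-d) := by
        rw [hρd, ← Real.rpow_natCast, ← Real.rpow_mul (by norm_num), ← Real.rpow_natCast,
          ← Real.rpow_mul (by norm_num)]
        congr 1
        ring
    _ ≤ (s / (2 * c.T0)) ^ (-d) := Real.rpow_le_rpow_of_nonpos h3 h2 (by linarith)

end

end Pool.Agent.H96.Cond
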