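import Mathlib
import Pool.Agent.H96.Cond.Scales

/-!
# The exceptional events have small probability
-/

set_option autoImplicit false
set_option linter.unusedSectionVars false

open MeasureTheory ProbabilityTheory Set Filter Topology
open scoped ENNReal

namespace Pool.Agent.H96.Cond

/-- Cutoff exponent. -/
noncomputable def ea {μ : Measure ℝ} {β γ : ℝ} (c : Cst μ β γ) : ℝ := 1 / (4 * c.p)

/-- Loss exponent. -/
noncomputable def et {μ : Measure ℝ} {β γ : ℝ} (c : Cst μ β γ) : ℝ := 1 / (8 * c.p)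

/-- Fitness cutoff. -/
noncomputable def etaf {μ : Measure ℝ} {β γ : ℝ} (c : Cst μ β γ) (t : ℝ) : ℝ :=
  uu μ γ t ^ ea c / t

/-- Lower bound for the weight of the line. -/
noncomputable def Wst {μ : Measure ℝ} {β γ : ℝ} (c : Cst μ β γ) (t : ℝ) : ℝ :=
  β / (4 * (6 ^ c.p) ^ 2) * (uu μ γ t * gR μ γ (uu μ γ t) * gR μ γ (uu μ γ t) ^ et c)

theorem cp_pos {μ : Measure ℝ} {β γ : ℝ} (c : Cst μ β γ) : (0 : ℝ) < c.p := by
  have := c.one_le_p
  exact_mod_cast (by omega : 0 < c.p)

theorem one_le_cp {μ : Measure ℝ} {β γ : ℝ} (c : Cst μ β γ) : (1 : ℝ) ≤ c.p := by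
  exact_mod_cast c.one_le_p

theorem ea_pos {μ : Measure ℝ} {β γ : ℝ} (c : Cst μ β γ) : 0 < ea c := by
  have := cp_pos c
  unfold ea; positivity

theorem et_pos {μ : Measure ℝ} {β γ : ℝ} (c : Cst μ β γ) : 0 < et c := by
  have := cp_pos c
  unfold et; positivity

theorem et_le {μ : Measure ℝ} {β γ : ℝ} (c : Cst μ β γ) : et c ≤ 1 / 8 := by
  have := one_le_cp c
  unfold et
  apply one_div_le_one_div_of_le (by norm_num)
  linarith

section

variable (μ : Measure ℝ) [IsProbabilityMeasure μ] {β γ : ℝ} [hpar : Params β γ] (c : Cst μ β γ)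

theorem Wst_pos (hμ : ∀ᵐ y ∂μ, 0 < y ∧ y < 1) (t : ℝ) (hu : 0 < uu μ γ t) : 0 < Wst c t := by
  have hβ := hpar.β_pos
  have hg := gR_pos μ hpar.γ_pos hμ (uu μ γ t)
  unfold Wst
  positivity

theorem tendsto_of_le_ofReal {f : ℝ → ℝ≥0∞} {h : ℝ → ℝ} (hh : Tendsto h atTop (𝓝 0))
    (hle : ∀ᶠ t in atTop, f t ≤ ENNReal.ofReal (h t)) : Tendsto f atTop (𝓝 0) := by
  have h1 : Tendsto (fun t => ENNReal.ofReal (h t)) atTop (𝓝 0) := by
    have := ENNReal.tendsto_ofReal hh
    simpa using this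
  exact tendsto_of_tendsto_of_tendsto_of_le_of_le' tendsto_const_nhds h1
    (Filter.Eventually.of_forall fun _ => zero_le) hle

/-- No old family has a fitness very close to `1`. -/
theorem tendsto_P1 (hμ : ∀ᵐ y ∂μ, 0 < y ∧ y < 1) :
    Tendsto (fun t => popLaw μ β γ {ω | ¬ GoodFit (etaf c t) (ss μ γ t) ω}) atTop (𝓝 0) := by
  have hγ := hpar.γ_pos
  have hp0 := cp_pos c
  have hlim : Tendsto (fun t => (4 ^ c.p * Real.exp γ * c.C) * uu μ γ t ^ (-(1 / 4 : ℝ))) atTop
      (𝓝 0) := by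
    have h1 := (tendsto_rpow_neg_atTop (y := 1 / 4) (by norm_num)).comp (uu_tendsto μ c hγ hμ)
    have h2 := h1.const_mul (4 ^ c.p * Real.exp γ * c.C)
    rwa [mul_zero] at h2
  refine tendsto_of_le_ofReal hlim ?_
  filter_upwards [eventually_gt_atTop (0 : ℝ),
    (uu_tendsto μ c hγ hμ).eventually (eventually_ge_atTop 1), ev_le_ss μ c hγ hμ]
    with t ht hu1 hus
  have hexp := exp_ss μ hγ hμ t (by linarith)
  have hP := prob_not_goodFit (β := β) (γ := γ) μ hμ (etaf c t) (ss μ γ t) (by linarith)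
  set u := uu μ γ t with hu
  set s := ss μ γ t with hs
  have hgt := gR_pos μ hγ hμ t
  have hgu := gR_pos μ hγ hμ u
  have hsq : 0 < Real.sqrt u := Real.sqrt_pos.2 (by linarith)
  have hua : 1 ≤ u ^ ea c := Real.one_le_rpow hu1 (ea_pos c).le
  -- the mass near 1
  have h1 : hh μ (etaf c t) ≤ ENNReal.ofReal ((2 * u ^ ea c + 2) ^ c.p) *
      (ENNReal.ofReal (Real.exp γ) * lap μ γ t) := by
    have h2 := c.poly (1 / t) (u ^ ea c) (by positivity) (by positivity)
    rw [mul_one_div] at h2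
    refine h2.trans ?_
    gcongr
    exact hh_le_lap μ hγ t ht
  have h3 : mt μ β γ univ s ≤ ENNReal.ofReal c.C * lap μ γ u := by
    refine (c.hC s).trans ?_
    gcongr
    exact lap_anti μ γ hγ.le hμ hus
  refine hP.trans ?_
  calc hh μ (etaf c t) * (ENNReal.ofReal (Real.exp (γ * s)) * mt μ β γ univ s)
      ≤ (ENNReal.ofReal ((2 * u ^ ea c + 2) ^ c.p) *
      (ENNReal.ofReal (Real.exp γ) * lap μ γ t)) * (ENNReal.ofReal (Real.exp (γ * s)) *
        (ENNReal.ofReal c.C * lap μ γ u)) := by gcongr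
    _ = ENNReal.ofReal (((2 * u ^ ea c + 2) ^ c.p * (Real.exp γ * gR μ γ t)) *
        (Real.exp (γ * s) * (c.C * gR μ γ u))) := by
        have hC := c.C_pos
        rw [lap_eq_gR μ hγ hμ, lap_eq_gR μ hγ hμ, ← ENNReal.ofReal_mul (Real.exp_pos _).le,
          ← ENNReal.ofReal_mul (by positivity), ← ENNReal.ofReal_mul hC.le,
          ← ENNReal.ofReal_mul (Real.exp_pos _).le, ← ENNReal.ofReal_mul (by positivity)]
    _ ≤ ENNReal.ofReal ((4 ^ c.p * Real.exp γ * c.C) * u ^ (-(1 / 4 : ℝ))) := by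
        apply ENNReal.ofReal_le_ofReal
        have e1 : Real.exp (γ * s) = 1 / (gR μ γ t * (Real.sqrt u * gR μ γ u)) := by
          rw [← hexp, Real.exp_neg, one_div, inv_inv]
        have e2 : (2 * u ^ ea c + 2) ^ c.p ≤ 4 ^ c.p * u ^ (1 / 4 : ℝ) := by
          calc (2 * u ^ ea c + 2) ^ c.p ≤ (4 * u ^ ea c) ^ c.p := by
                gcongr
                linarith
            _ = 4 ^ c.p * (u ^ ea c) ^ c.p := mul_pow _ _ _
            _ = 4 ^ c.p * u ^ (1 / 4 : ℝ) := by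
                congr 1
                rw [← Real.rpow_natCast, ← Real.rpow_mul (by linarith)]
                congr 1
                unfold ea
                field_simp
        have e3 : u ^ (1 / 4 : ℝ) / Real.sqrt u = u ^ (-(1 / 4 : ℝ)) := by
          rw [Real.sqrt_eq_rpow, ← Real.rpow_sub (by linarith)]
          norm_num
        have hC := c.C_pos
        calc ((2 * u ^ ea c + 2) ^ c.p * (Real.exp γ * gR μ γ t)) *
              (Real.exp (γ * s) * (c.C * gR μ γ u))
            = ((2 * u ^ ea c + 2) ^ c.p) * (Real.exp γ * c.C / Real.sqrt u) := by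
              rw [e1]
              field_simp
          _ ≤ (4 ^ c.p * u ^ (1 / 4 : ℝ)) * (Real.exp γ * c.C / Real.sqrt u) := by gcongr
          _ = (4 ^ c.p * Real.exp γ * c.C) * (u ^ (1 / 4 : ℝ) / Real.sqrt u) := by ring
          _ = _ := by rw [e3]

theorem inv_gR_le (hμ : ∀ᵐ y ∂μ, 0 < y ∧ y < 1) (u : ℝ) (hu : 1 ≤ u) :
    1 / gR μ γ u ≤ Real.exp γ * 4 ^ c.p * u ^ c.p := by
  have hγ := hpar.γ_pos
  have hg := gR_pos μ hγ hμ u
  have h1 := gR_lower μ c hγ hμ u (by linarith)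
  rw [div_le_iff₀ hg]
  calc (1 : ℝ) ≤ Real.exp γ * (2 * u + 2) ^ c.p * gR μ γ u := h1
    _ ≤ Real.exp γ * (4 * u) ^ c.p * gR μ γ u := by
        gcongr
        linarith
    _ = _ := by rw [mul_pow]; ring

/-- The main contribution is close to its conditional mean. -/
theorem tendsto_P2 (hμ : ∀ᵐ y ∂μ, 0 < y ∧ y < 1) (hb : bm μ β γ < 1) (Bt : ℝ → Set ℝ)
    (hBt : ∀ t, MeasurableSet (Bt t)) (ε : ℝ) (hε1 : ε ≤ 1 / 2)
    (ε2 : ℝ) (hε2 : 0 < ε2) :
    Tendsto (fun t => popLaw μ β γ {ω |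
      mainPart γ (Bt t) (ss μ γ t) (ε * t) t ω + ENNReal.ofReal (ε2 * (gR μ γ t * Wst c t)) ≤
        cF (la γ (ss μ γ t) (ε * t)) (fun v ω => birth ω v)
          (fun b => mt μ β γ (Bt t) (t - b)) ω ∨
      cF (la γ (ss μ γ t) (ε * t)) (fun v ω => birth ω v)
          (fun b => mt μ β γ (Bt t) (t - b)) ω + ENNReal.ofReal (ε2 * (gR μ γ t * Wst c t)) ≤
        mainPart γ (Bt t) (ss μ γ t) (ε * t) t ω}) atTop (𝓝 0) := by
  have hγ := hpar.γ_pos
  have hβ := hpar.β_pos
  have hp0 := cp_pos c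
  have hD := dbl_of_poly μ c.poly hγ hμ
  have hC := c.C_pos
  have hV := c.V_pos
  have hR := c.R_pos
  have hlim : Tendsto (fun t => (c.V * 6 ^ c.p * c.C * (c.R * 2) /
      (ε2 * (β / (4 * (6 ^ c.p) ^ 2))) ^ 2 * (Real.exp γ * 4 ^ c.p) ^ (2 * et c)) *
      uu μ γ t ^ (-(1 / 4 : ℝ))) atTop (𝓝 0) := by
    have h1 := (tendsto_rpow_neg_atTop (y := 1 / 4) (by norm_num)).comp (uu_tendsto μ c hγ hμ)
    have h2 := h1.const_mul (c.V * 6 ^ c.p * c.C * (c.R * 2) /
      (ε2 * (β / (4 * (6 ^ c.p) ^ 2))) ^ 2 * (Real.exp γ * 4 ^ c.p) ^ (2 * et c))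
    rwa [mul_zero] at h2
  refine tendsto_of_le_ofReal hlim ?_
  filter_upwards [eventually_gt_atTop (0 : ℝ),
    (uu_tendsto μ c hγ hμ).eventually (eventually_ge_atTop 1),
    (uu_tendsto μ c hγ hμ).eventually (eventually_ge_atTop c.T0), ev_le_ss μ c hγ hμ,
    ev_ss_le μ c hγ hμ] with t ht hu1 huT hus hsu
  have hexp := exp_ss μ hγ hμ t (by linarith)
  have hW := Wst_pos (β := β) μ c hμ t (by linarith)
  have hgt := gR_pos μ hγ hμ t
  have hδ0 : 0 < ε2 * (gR μ γ t * Wst c t) := by positivity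
  have hdev := main_dev (β := β) (γ := γ) μ hD hμ hb c.hC ENNReal.ofReal_ne_top c.hV (Bt t) (hBt t)
    (ss μ γ t) (ε * t) t (by linarith) (by nlinarith) ht.le
    (ENNReal.ofReal (ε2 * (gR μ γ t * Wst c t))) (by simpa using hδ0) ENNReal.ofReal_ne_top
  refine hdev.trans ?_
  set u := uu μ γ t with hu
  set s := ss μ γ t with hs
  have hgu := gR_pos μ hγ hμ u
  have hsq : 0 < Real.sqrt u := Real.sqrt_pos.2 (by linarith)
  have hT : lapT μ γ s ≤ ENNReal.ofReal (c.R * (2 * u)) * lap μ γ u := by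
    refine (c.tail s (by linarith)).trans ?_
    gcongr
    exact lap_anti μ γ hγ.le hμ hus
  set g := gR μ γ u with hg
  set W := Wst c t with hWdef
  calc ENNReal.ofReal c.V * ENNReal.ofReal (6 ^ c.p) * lap μ γ t *
        ENNReal.ofReal (Real.exp (-(γ * s))) * (ENNReal.ofReal c.C * lapT μ γ s) /
        ENNReal.ofReal (ε2 * (gR μ γ t * W)) ^ 2
      ≤ ENNReal.ofReal c.V * ENNReal.ofReal (6 ^ c.p) * lap μ γ t *
        ENNReal.ofReal (Real.exp (-(γ * s))) * (ENNReal.ofReal c.C *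
          (ENNReal.ofReal (c.R * (2 * u)) * lap μ γ u)) /
        ENNReal.ofReal (ε2 * (gR μ γ t * W)) ^ 2 := by gcongr
    _ = ENNReal.ofReal ((c.V * 6 ^ c.p * gR μ γ t * Real.exp (-(γ * s)) *
          (c.C * (c.R * (2 * u) * g))) / (ε2 * (gR μ γ t * W)) ^ 2) := by
        rw [lap_eq_gR μ hγ hμ, lap_eq_gR μ hγ hμ, ← ENNReal.ofReal_mul hV.le,
          ← ENNReal.ofReal_mul (by positivity), ← ENNReal.ofReal_mul (by positivity),
          ← ENNReal.ofReal_mul (by positivity), ← ENNReal.ofReal_mul hC.le,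
          ← ENNReal.ofReal_mul (by positivity), ← ENNReal.ofReal_pow hδ0.le,
          ← ENNReal.ofReal_div_of_pos (by positivity)]
    _ ≤ _ := by
        apply ENNReal.ofReal_le_ofReal
        rw [hexp]
        have hget : 0 < g ^ et c := Real.rpow_pos_of_pos hgu _
        have e1 : W = β / (4 * (6 ^ c.p) ^ 2) * (u * g * g ^ et c) := rfl
        have e2 : (1 / g) ^ (2 * et c) ≤ (Real.exp γ * 4 ^ c.p) ^ (2 * et c) * u ^ (1 / 4 : ℝ) := by
          have h1 := inv_gR_le (β := β) μ c hμ u hu1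
          calc (1 / g) ^ (2 * et c) ≤ (Real.exp γ * 4 ^ c.p * u ^ c.p) ^ (2 * et c) := by
                apply Real.rpow_le_rpow (by positivity) h1
                have := et_pos c
                positivity
            _ = (Real.exp γ * 4 ^ c.p) ^ (2 * et c) * (u ^ c.p) ^ (2 * et c) :=
                Real.mul_rpow (by positivity) (by positivity)
            _ = _ := by
                congr 1
                rw [← Real.rpow_natCast, ← Real.rpow_mul (by linarith)]
                congr 1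
                unfold et
                field_simp
                norm_num
        have e3 : u ^ (1 / 4 : ℝ) / Real.sqrt u = u ^ (-(1 / 4 : ℝ)) := by
          rw [Real.sqrt_eq_rpow, ← Real.rpow_sub (by linarith)]
          norm_num
        have e4 : Real.sqrt u * Real.sqrt u = u := Real.mul_self_sqrt (by linarith)
        have e5 : (1 / g) ^ (2 * et c) = 1 / (g ^ et c * g ^ et c) := by
          rw [Real.div_rpow zero_le_one hgu.le, Real.one_rpow, ← Real.rpow_add hgu]
          congr 2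
          ring
        set K := β / (4 * (6 ^ c.p) ^ 2) with hK
        have hK0 : 0 < K := by positivity
        calc c.V * 6 ^ c.p * gR μ γ t * (gR μ γ t * (Real.sqrt u * g)) *
              (c.C * (c.R * (2 * u) * g)) / (ε2 * (gR μ γ t * W)) ^ 2
            = (c.V * 6 ^ c.p * c.C * (c.R * 2) / (ε2 * K) ^ 2) *
              ((1 / (g ^ et c * g ^ et c)) * (Real.sqrt u / u)) := by
              rw [e1]
              field_simp
          _ = (c.V * 6 ^ c.p * c.C * (c.R * 2) / (ε2 * K) ^ 2) *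
              ((1 / g) ^ (2 * et c) * (1 / Real.sqrt u)) := by
              rw [e5]
              congr 2
              rw [div_eq_div_iff (by linarith) hsq.ne']
              linarith
          _ ≤ (c.V * 6 ^ c.p * c.C * (c.R * 2) / (ε2 * K) ^ 2) *
              (((Real.exp γ * 4 ^ c.p) ^ (2 * et c) * u ^ (1 / 4 : ℝ)) * (1 / Real.sqrt u)) := by
              gcongr
          _ = (c.V * 6 ^ c.p * c.C * (c.R * 2) / (ε2 * K) ^ 2 *
              (Real.exp γ * 4 ^ c.p) ^ (2 * et c)) * (u ^ (1 / 4 : ℝ) / Real.sqrt u) := by ring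
          _ = _ := by rw [e3]

end

end Pool.Agent.H96.Cond
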