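import Mathlib
import Pool.Agent.H96.Cond.Probs

/-!
# The old families and the families founded late contribute little
-/

set_option autoImplicit false
set_option linter.unusedSectionVars false

open MeasureTheory ProbabilityTheory Set Filter Topology
open scoped ENNReal

namespace Pool.Agent.H96.Cond

theorem tendsto_pow_exp_rpow (q : ℕ) (a b : ℝ) (ha : 0 < a) (hb : 0 < b) :
    Tendsto (fun u : ℝ => u ^ q * Real.exp (-(b * u ^ a))) atTop (𝓝 0) := by
  have h1 := tendsto_rpow_mul_exp_neg_mul_atTop_nhds_zero ((q : ℝ) / a) b hb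
  have h2 := h1.comp (tendsto_rpow_atTop ha)
  refine h2.congr' ?_
  filter_upwards [eventually_ge_atTop (0 : ℝ)] with u hu
  simp only [Function.comp]
  rw [← Real.rpow_mul hu, mul_div_cancel₀ _ ha.ne', Real.rpow_natCast, neg_mul]

theorem measurable_oldLow (γ η s t : ℝ) : Measurable (oldLow γ η s t) := by
  unfold oldLow
  have hχ := measurable_chi γ (Iic (1 - η)) measurableSet_Iic
  have hχ' : Measurable fun p : ℝ × Life =>
      (Ici (t - s)).indicator (fun _ => (1 : ℝ≥0∞)) p.1 * chi γ (Iic (1 - η)) p.1 p.2 :=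
    ((measurable_const.indicator measurableSet_Ici).comp measurable_fst).mul hχ
  exact (measurable_cmj γ (fun τ L => (Ici (t - s)).indicator (fun _ => (1 : ℝ≥0∞)) τ *
    chi γ (Iic (1 - η)) τ L) hχ').comp (measurable_const.prodMk measurable_id)

theorem measurable_farLow (γ η s s' t : ℝ) : Measurable (farLow γ η s s' t) := by
  unfold farLow sF
  refine meas_tsum fun v => ?_
  exact meas_term (fun b ω => cmj γ (chi γ univ) (t - b) ω) (lineData_fa γ η s s')
    (measurable_Fc (γ := γ) univ MeasurableSet.univ t) v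

section

variable (μ : Measure ℝ) [IsProbabilityMeasure μ] {β γ : ℝ} [hpar : Params β γ] (c : Cst μ β γ)

theorem inv_Wst_le (hμ : ∀ᵐ y ∂μ, 0 < y ∧ y < 1) (t : ℝ) (hu : 1 ≤ uu μ γ t) :
    1 / Wst c t ≤ 1 / (β / (4 * (6 ^ c.p) ^ 2)) *
      ((Real.exp γ * 4 ^ c.p) ^ 2 * uu μ γ t ^ (2 * c.p)) := by
  have hγ := hpar.γ_pos
  have hβ := hpar.β_pos
  have h1 := inv_gR_le (β := β) μ c hμ (uu μ γ t) hu
  unfold Wst
  set u := uu μ γ t with hudef
  have hg := gR_pos μ hγ hμ u
  have hg1 := gR_le_one μ hγ hμ u (by linarith)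
  set g := gR μ γ u with hgdef
  set K := β / (4 * (6 ^ c.p) ^ 2) with hK
  have hK0 : 0 < K := by positivity
  have hget : g ≤ g ^ et c := by
    calc g = g ^ (1 : ℝ) := (Real.rpow_one g).symm
      _ ≤ g ^ et c := Real.rpow_le_rpow_of_exponent_ge hg hg1 (by linarith [et_le c])
  have h2 : g * g ≤ u * g * g ^ et c := by
    calc g * g = 1 * g * g := by ring
      _ ≤ u * g * g ^ et c := by gcongr
  calc 1 / (K * (u * g * g ^ et c)) ≤ 1 / (K * (g * g)) := by
        apply one_div_le_one_div_of_le (by positivity)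
        gcongr
    _ = 1 / K * ((1 / g) * (1 / g)) := by
        field_simp
    _ ≤ 1 / K * ((Real.exp γ * 4 ^ c.p * u ^ c.p) * (Real.exp γ * 4 ^ c.p * u ^ c.p)) := by
        gcongr
    _ = _ := by
        congr 1
        rw [two_mul, pow_add]
        ring

/-- The old families contribute little. -/
theorem tendsto_P4 (hμ : ∀ᵐ y ∂μ, 0 < y ∧ y < 1) (hb : bm μ β γ < 1) (ε2 : ℝ) (hε2 : 0 < ε2) :
    Tendsto (fun t => popLaw μ β γ {ω | ENNReal.ofReal (ε2 * (gR μ γ t * Wst c t)) ≤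
      oldLow γ (etaf c t) (ss μ γ t) t ω}) atTop (𝓝 0) := by
  have hγ := hpar.γ_pos
  have hβ := hpar.β_pos
  have hD := dbl_of_poly μ c.poly hγ hμ
  have hB := c.B_pos
  have hlim : Tendsto (fun t => (c.B * (6 ^ c.p) ^ 2 / ε2 * (1 / (β / (4 * (6 ^ c.p) ^ 2)) *
      (Real.exp γ * 4 ^ c.p) ^ 2)) * (uu μ γ t ^ (2 * c.p) *
        Real.exp (-(γ / 4 * uu μ γ t ^ ea c)))) atTop (𝓝 0) := by
    have h1 := (tendsto_pow_exp_rpow (2 * c.p) (ea c) (γ / 4) (ea_pos c) (by linarith)).comp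
      (uu_tendsto μ c hγ hμ)
    have h2 := h1.const_mul (c.B * (6 ^ c.p) ^ 2 / ε2 * (1 / (β / (4 * (6 ^ c.p) ^ 2)) *
      (Real.exp γ * 4 ^ c.p) ^ 2))
    rwa [mul_zero] at h2
  refine tendsto_of_le_ofReal hlim ?_
  filter_upwards [eventually_gt_atTop (0 : ℝ),
    (uu_tendsto μ c hγ hμ).eventually (eventually_ge_atTop 1), ev_ss_le μ c hγ hμ,
    ev_uu_small μ c hγ hμ (1 / 4) (by norm_num)] with t ht hu1 hsu hut
  have hW := Wst_pos (β := β) μ c hμ t (by linarith)
  have hgt := gR_pos μ hγ hμ t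
  have hinv := inv_Wst_le (β := β) μ c hμ t hu1
  have hδ0 : 0 < ε2 * (gR μ γ t * Wst c t) := by positivity
  have hE := mean_oldLow (β := β) (γ := γ) μ hD hμ hb (etaf c t) (ss μ γ t) t ht.le (by linarith)
  have hM := meas_ge_le_lintegral_div (μ := popLaw μ β γ)
    (measurable_oldLow γ (etaf c t) (ss μ γ t) t).aemeasurable
    (show ENNReal.ofReal (ε2 * (gR μ γ t * Wst c t)) ≠ 0 by simpa using hδ0)
    ENNReal.ofReal_ne_top
  refine hM.trans ?_
  have hη : γ * etaf c t * (t / 4) = γ / 4 * uu μ γ t ^ ea c := by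
    unfold etaf
    field_simp
  rw [hη] at hE
  calc (∫⁻ ω, oldLow γ (etaf c t) (ss μ γ t) t ω ∂(popLaw μ β γ)) /
        ENNReal.ofReal (ε2 * (gR μ γ t * Wst c t))
      ≤ (ENNReal.ofReal c.B * (ENNReal.ofReal (Real.exp (-(γ / 4 * uu μ γ t ^ ea c))) *
        (ENNReal.ofReal (6 ^ c.p) ^ 2 * lap μ γ t))) /
        ENNReal.ofReal (ε2 * (gR μ γ t * Wst c t)) := by
        gcongr
        refine hE.trans ?_
        gcongr
        exact c.hB
    _ = ENNReal.ofReal (c.B * (Real.exp (-(γ / 4 * uu μ γ t ^ ea c)) *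
        ((6 ^ c.p) ^ 2 * gR μ γ t)) / (ε2 * (gR μ γ t * Wst c t))) := by
        rw [lap_eq_gR μ hγ hμ, ← ENNReal.ofReal_pow (by positivity),
          ← ENNReal.ofReal_mul (by positivity), ← ENNReal.ofReal_mul (Real.exp_pos _).le,
          ← ENNReal.ofReal_mul hB.le, ← ENNReal.ofReal_div_of_pos hδ0]
    _ ≤ _ := by
        apply ENNReal.ofReal_le_ofReal
        calc c.B * (Real.exp (-(γ / 4 * uu μ γ t ^ ea c)) * ((6 ^ c.p) ^ 2 * gR μ γ t)) /
              (ε2 * (gR μ γ t * Wst c t))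
            = (c.B * (6 ^ c.p) ^ 2 / ε2 * Real.exp (-(γ / 4 * uu μ γ t ^ ea c))) *
              (1 / Wst c t) := by
              field_simp
          _ ≤ (c.B * (6 ^ c.p) ^ 2 / ε2 * Real.exp (-(γ / 4 * uu μ γ t ^ ea c))) *
              (1 / (β / (4 * (6 ^ c.p) ^ 2)) *
              ((Real.exp γ * 4 ^ c.p) ^ 2 * uu μ γ t ^ (2 * c.p))) := by gcongr
          _ = _ := by ring

/-- The families founded late contribute little. -/
theorem tendsto_P3 (hμ : ∀ᵐ y ∂μ, 0 < y ∧ y < 1) (hb : bm μ β γ < 1) (ε : ℝ) (hε : 0 < ε)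
    (ε2 : ℝ) (hε2 : 0 < ε2) :
    Tendsto (fun t => popLaw μ β γ {ω | ENNReal.ofReal (ε2 * (gR μ γ t * Wst c t)) ≤
      farLow γ (etaf c t) (ss μ γ t) (ε * t) t ω}) atTop (𝓝 0) := by
  have hγ := hpar.γ_pos
  have hβ := hpar.β_pos
  have hp0 := cp_pos c
  have hD := dbl_of_poly μ c.poly hγ hμ
  have hB := c.B_pos
  have hC := c.C_pos
  have hS := c.S_pos
  have hI := c.I_pos
  have hT0 := c.T0_pos
  obtain ⟨d, hd, hdec⟩ := lapT_poly μ c
  set K := β / (4 * (6 ^ c.p) ^ 2) with hK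
  have hK0 : 0 < K := by positivity
  set K1 := 1 / K * (Real.exp γ * 4 ^ c.p) ^ 2 with hK1
  set A1 := c.B * (c.C * (6 ^ c.p) ^ 2 * (c.I * (ε * Real.exp (-(γ / c.p)) / (8 * c.T0)) ^ (-d))) / ε2
    with hA1
  set A2 := c.B * ((6 ^ c.p) ^ 3 * c.S) / ε2 with hA2
  have hlim : Tendsto (fun t => K1 * A1 * (uu μ γ t ^ (2 * c.p) *
        Real.exp (-(γ / c.p * d * uu μ γ t ^ (1 : ℝ)))) +
      K1 * A2 * (uu μ γ t ^ (2 * c.p) * Real.exp (-(γ / 8 * uu μ γ t ^ ea c)))) atTop (𝓝 0) := by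
    have h1 := (tendsto_pow_exp_rpow (2 * c.p) (ea c) (γ / 8) (ea_pos c) (by linarith)).comp
      (uu_tendsto μ c hγ hμ)
    have h2 := (tendsto_pow_exp_rpow (2 * c.p) 1 (γ / c.p * d) one_pos (by positivity)).comp
      (uu_tendsto μ c hγ hμ)
    have h3 := (h2.const_mul (K1 * A1)).add (h1.const_mul (K1 * A2))
    rwa [mul_zero, mul_zero, add_zero] at h3
  refine tendsto_of_le_ofReal hlim ?_
  filter_upwards [eventually_gt_atTop (0 : ℝ),
    (uu_tendsto μ c hγ hμ).eventually (eventually_ge_atTop 1), ev_ss_le μ c hγ hμ,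
    ev_le_ss μ c hγ hμ, ev_uu_small μ c hγ hμ (ε / 4) (by linarith), ev_exp_le μ c hγ hμ,
    eventually_ge_atTop (c.T0 / ε)] with t ht hu1 hsu hus hut hexp htT
  have hW := Wst_pos (β := β) μ c hμ t (by linarith)
  have hgt := gR_pos μ hγ hμ t
  have hinv := inv_Wst_le (β := β) μ c hμ t hu1
  rw [← hK] at hinv
  have hδ0 : 0 < ε2 * (gR μ γ t * Wst c t) := by positivity
  have hE := mean_farLow (β := β) (γ := γ) μ hD hμ hb c.hC (etaf c t) (ss μ γ t) (ε * t) t
    (by linarith) (by linarith) ht.le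
  have hM := meas_ge_le_lintegral_div (μ := popLaw μ β γ)
    (measurable_farLow γ (etaf c t) (ss μ γ t) (ε * t) t).aemeasurable
    (show ENNReal.ofReal (ε2 * (gR μ γ t * Wst c t)) ≠ 0 by simpa using hδ0)
    ENNReal.ofReal_ne_top
  refine hM.trans ?_
  have hη : γ * etaf c t * (t / 8) = γ / 8 * uu μ γ t ^ ea c := by
    unfold etaf
    field_simp
  rw [hη] at hE
  have hTT : c.T0 ≤ ε * t := by
    rw [div_le_iff₀ hε] at htT
    linarith
  have hdT := hdec (ε * t) hTT
  set u := uu μ γ t with hu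
  -- lower bound for the time
  have hpow : (ε * t / (2 * c.T0)) ^ (-d) ≤
      (ε * Real.exp (-(γ / c.p)) / (8 * c.T0)) ^ (-d) * Real.exp (-(γ / c.p * d * u ^ (1 : ℝ))) := by
    have e1 : (ε * Real.exp (-(γ / c.p)) / (8 * c.T0)) * Real.exp (γ / c.p * u) ≤
        ε * t / (2 * c.T0) := by
      rw [div_mul_eq_mul_div, div_le_div_iff₀ (by positivity) (by positivity)]
      have e2 : ε * Real.exp (-(γ / c.p)) * Real.exp (γ / c.p * u) =
          ε * Real.exp (γ / c.p * (u - 1)) := by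
        rw [mul_assoc, ← Real.exp_add]
        congr 2
        ring
      rw [e2]
      have := mul_le_mul_of_nonneg_left hexp (show 0 ≤ ε * (2 * c.T0) by positivity)
      nlinarith
    calc (ε * t / (2 * c.T0)) ^ (-d)
        ≤ ((ε * Real.exp (-(γ / c.p)) / (8 * c.T0)) * Real.exp (γ / c.p * u)) ^ (-d) :=
          Real.rpow_le_rpow_of_nonpos (by positivity) e1 (by linarith)
      _ = _ := by
          rw [Real.mul_rpow (by positivity) (Real.exp_pos _).le]
          congr 1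
          rw [← Real.exp_mul, Real.rpow_one]
          congr 1
          ring
  set P := (ε * t / (2 * c.T0)) ^ (-d) with hP
  have hP0 : 0 ≤ P := by positivity
  calc (∫⁻ ω, farLow γ (etaf c t) (ss μ γ t) (ε * t) t ω ∂(popLaw μ β γ)) /
        ENNReal.ofReal (ε2 * (gR μ γ t * Wst c t))
      ≤ (ENNReal.ofReal c.B * (ENNReal.ofReal c.C * ENNReal.ofReal (6 ^ c.p) ^ 2 * lap μ γ t *
          ENNReal.ofReal (c.I * P) +
        ENNReal.ofReal (Real.exp (-(γ / 8 * u ^ ea c))) * ENNReal.ofReal (6 ^ c.p) ^ 3 *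
          lap μ γ t * ENNReal.ofReal c.S)) /
        ENNReal.ofReal (ε2 * (gR μ γ t * Wst c t)) := by
        gcongr
        refine hE.trans ?_
        gcongr
        · exact c.hB
        · exact c.hS
    _ = ENNReal.ofReal (c.B * (c.C * (6 ^ c.p) ^ 2 * gR μ γ t * (c.I * P) +
        Real.exp (-(γ / 8 * u ^ ea c)) * (6 ^ c.p) ^ 3 * gR μ γ t * c.S) /
        (ε2 * (gR μ γ t * Wst c t))) := by
        rw [lap_eq_gR μ hγ hμ, ← ENNReal.ofReal_pow (by positivity),
          ← ENNReal.ofReal_pow (by positivity), ← ENNReal.ofReal_mul hC.le,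
          ← ENNReal.ofReal_mul (by positivity), ← ENNReal.ofReal_mul (by positivity),
          ← ENNReal.ofReal_mul (by positivity), ← ENNReal.ofReal_mul (by positivity),
          ← ENNReal.ofReal_mul (by positivity), ← ENNReal.ofReal_add (by positivity)
            (by positivity), ← ENNReal.ofReal_mul hB.le, ← ENNReal.ofReal_div_of_pos hδ0]
    _ ≤ _ := by
        apply ENNReal.ofReal_le_ofReal
        calc c.B * (c.C * (6 ^ c.p) ^ 2 * gR μ γ t * (c.I * P) +
              Real.exp (-(γ / 8 * u ^ ea c)) * (6 ^ c.p) ^ 3 * gR μ γ t * c.S) /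
              (ε2 * (gR μ γ t * Wst c t))
            = (c.B * (c.C * (6 ^ c.p) ^ 2 * (c.I * P)) / ε2 +
              A2 * Real.exp (-(γ / 8 * u ^ ea c))) * (1 / Wst c t) := by
              rw [hA2]
              field_simp
          _ ≤ (c.B * (c.C * (6 ^ c.p) ^ 2 * (c.I *
                ((ε * Real.exp (-(γ / c.p)) / (8 * c.T0)) ^ (-d) *
                Real.exp (-(γ / c.p * d * u ^ (1 : ℝ)))))) / ε2 +
              A2 * Real.exp (-(γ / 8 * u ^ ea c))) *
              (1 / K * ((Real.exp γ * 4 ^ c.p) ^ 2 * u ^ (2 * c.p))) := by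
              gcongr
          _ = _ := by
              rw [hA1, hK1]
              ring

end

end Pool.Agent.H96.Cond
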