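import Mathlib
import Pool.Agent.H96.Cond.Probs2

/-!
# Lower bound for the weight of the line
-/

set_option autoImplicit false
set_option linter.unusedSectionVars false

open MeasureTheory ProbabilityTheory Set Filter Topology
open scoped ENNReal

namespace Pool.Agent.H96.Cond

variable (μ : Measure ℝ) [IsProbabilityMeasure μ] {β γ : ℝ} [hpar : Params β γ] (c : Cst μ β γ)

theorem tendsto_P5 {α : ℝ} (h : RVar μ α) (hμ : ∀ᵐ y ∂μ, 0 < y ∧ y < 1) (hb : bm μ β γ < 1)
    (ε : ℝ) (hε : 0 < ε) :
    Tendsto (fun t => popLaw μ β γ {ω | lW γ (ss μ γ t) (ε * t) ω < ENNReal.ofReal (Wst c t)})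
      atTop (𝓝 0) := by
  have hγ := hpar.γ_pos
  have hβ := hpar.β_pos
  have hD := dbl_of_poly μ c.poly hγ hμ
  have hB := c.B_pos
  have hθ := et_pos c
  have hθ8 := et_le c
  set θ := et c with hθd
  set κ := γ * θ / 2 with hκ
  have hκ0 : 0 < κ := by positivity
  have hutop := uu_tendsto μ c hγ hμ
  have huu : Tendsto (fun t => uu μ γ (uu μ γ t)) atTop atTop := hutop.comp hutop
  have hr : Tendsto (fun t => 2 * uu μ γ (uu μ γ t)) atTop atTop :=
    huu.const_mul_atTop two_pos
  have hcrude := (crude (β := β) (γ := γ) μ h hμ κ hκ0).comp hr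
  set K := 80 * (6 ^ c.p) ^ 3 * c.B / β ^ 2 with hK
  have hglim : Tendsto (fun t => K * gR μ γ (uu μ γ t) ^ (1 - 2 * θ)) atTop (𝓝 0) := by
    have h1 : Tendsto (fun t => gR μ γ (uu μ γ t)) atTop (𝓝 0) :=
      (gR_tendsto μ c hγ hμ).comp hutop
    have h2 := (h1.rpow_const (p := 1 - 2 * θ) (Or.inr (by linarith))).const_mul K
    rwa [Real.zero_rpow (by linarith), mul_zero] at h2
  have hglim' : Tendsto (fun t => ENNReal.ofReal (K * gR μ γ (uu μ γ t) ^ (1 - 2 * θ))) atTop
      (𝓝 0) := by
    have := ENNReal.tendsto_ofReal hglim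
    simpa using this
  have hsum := hcrude.add hglim'
  rw [add_zero] at hsum
  have hss : Tendsto (ss μ γ) atTop atTop :=
    tendsto_atTop_mono' _ (ev_le_ss μ c hγ hμ) hutop
  refine tendsto_of_tendsto_of_tendsto_of_le_of_le' tendsto_const_nhds hsum
    (Filter.Eventually.of_forall fun _ => zero_le) ?_
  filter_upwards [eventually_gt_atTop (0 : ℝ), hutop.eventually (eventually_ge_atTop 1),
    ev_ss_le μ c hγ hμ, ev_le_ss μ c hγ hμ, ev_uu_small μ c hγ hμ (ε / 6) (by linarith),
    hutop.eventually (ev_uu_small μ c hγ hμ (1 / 4) (by norm_num)),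
    huu.eventually (eventually_ge_atTop 0), hss.eventually (mY_lower (β := β) μ hD hμ)]
    with t ht hu1 hsu hus hut huu4 huu0 hmY
  set u := uu μ γ t with hu
  set s := ss μ γ t with hs
  set r := 2 * uu μ γ u with hrd
  have hgu := gR_pos μ hγ hμ u
  have hgs := gR_pos μ hγ hμ s
  set g := gR μ γ u with hg
  set gs := gR μ γ s with hgsd
  -- weights in terms of the scales
  have hw : Real.exp (-(κ * r)) = g ^ θ := by
    rw [hg, ← exp_uu μ hγ hμ u, ← Real.exp_mul]
    congr 1
    rw [hκ, hrd]
    ring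
  have hgr : Real.exp (-(γ * r)) = g ^ 2 := by
    rw [hg, ← exp_uu μ hγ hμ u, ← Real.exp_nat_mul]
    congr 1
    rw [hrd]
    push_cast
    ring
  have hgθ : 0 < g ^ θ := Real.rpow_pos_of_pos hgu _
  -- comparison of the values of the Laplace transform
  have hgsu : g ≤ 6 ^ c.p * gs := by
    have h1 := gR_dbl μ c hγ hμ (2 * u) (by linarith)
    rw [show 2 * u / 2 = u by ring] at h1
    refine h1.trans ?_
    gcongr
    exact gR_anti μ hγ hμ hsu
  -- the mean over the window
  have hs0 : 0 < s := by linarith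
  have hmYt : mY μ β γ s ≠ ⊤ := mY_ne_top μ hμ hb s hs0.le
  set m := (mY μ β γ s).toReal with hm
  have hmYe : mY μ β γ s = ENNReal.ofReal m := (ENNReal.ofReal_toReal hmYt).symm
  have hmlow : β * s * gs ≤ 2 * 6 ^ c.p * m := by
    rw [lap_eq_gR μ hγ hμ, hmYe] at hmY
    have e2 : (2 : ℝ≥0∞) = ENNReal.ofReal 2 := by norm_num
    rw [e2, ← ENNReal.ofReal_mul (by positivity), ← ENNReal.ofReal_mul (by norm_num),
      ← ENNReal.ofReal_mul (by positivity)] at hmY
    exact (ENNReal.ofReal_le_ofReal_iff (by positivity)).1 hmY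
  have hmlow' : β * s * gs / (2 * 6 ^ c.p) ≤ m := by
    rw [div_le_iff₀ (by positivity)]
    linarith
  have hm0 : 0 < m := lt_of_lt_of_le (by positivity) hmlow'
  have hm0' : mY μ β γ s ≠ 0 := by
    rw [hmYe, Ne, ENNReal.ofReal_eq_zero, not_le]
    exact hm0
  have hB5 := levelB (β := β) (γ := γ) μ ENNReal.ofReal_ne_top c.hV hμ hb r s (ε * t)
    (by linarith) (by linarith) (by linarith) (ENNReal.ofReal (Real.exp (-(κ * r))))
    (by simpa using Real.exp_pos _) ENNReal.ofReal_ne_top hm0' hmYt
  have hprod : mY μ β γ s * ENNReal.ofReal (Real.exp (-(κ * r))) / 2 =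
      ENNReal.ofReal (m * g ^ θ / 2) := by
    rw [hmYe, hw, ← ENNReal.ofReal_mul hm0.le]
    have e2 : (2 : ℝ≥0∞) = ENNReal.ofReal 2 := by norm_num
    rw [e2, ← ENNReal.ofReal_div_of_pos two_pos]
  have hWle : Wst c t ≤ m * g ^ θ / 2 := by
    unfold Wst
    rw [← hu, ← hg, ← hθd]
    calc β / (4 * (6 ^ c.p) ^ 2) * (u * g * g ^ θ)
        = (β * u * g / (2 * (6 ^ c.p) ^ 2)) * g ^ θ / 2 := by
          field_simp
          norm_num
      _ ≤ m * g ^ θ / 2 := by
          gcongr
          refine le_trans ?_ hmlow'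
          rw [div_le_div_iff₀ (by positivity) (by positivity)]
          calc β * u * g * (2 * 6 ^ c.p) ≤ β * s * (6 ^ c.p * gs) * (2 * 6 ^ c.p) := by gcongr
            _ = _ := by ring
  calc popLaw μ β γ {ω | lW γ s (ε * t) ω < ENNReal.ofReal (Wst c t)}
      ≤ popLaw μ β γ {ω | lW γ s (ε * t) ω <
        mY μ β γ s * ENNReal.ofReal (Real.exp (-(κ * r))) / 2} := by
        apply measure_mono
        intro ω hω
        refine lt_of_lt_of_le (show lW γ s (ε * t) ω < ENNReal.ofReal (Wst c t) from hω) ?_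
        rw [hprod]
        exact ENNReal.ofReal_le_ofReal hWle
    _ ≤ _ := hB5
    _ ≤ _ := by
        refine add_le_add ?_ ?_
        · apply measure_mono
          intro ω hω
          exact lt_of_le_of_lt (lW_mono γ r (2 * r) s (by linarith) ω) hω
        · rw [hprod]
          calc vY μ β γ s * ENNReal.ofReal (Real.exp (-(γ * r))) * (1 - bm μ β γ)⁻¹ /
                ENNReal.ofReal (m * g ^ θ / 2) ^ 2
              ≤ (ENNReal.ofReal (5 * s ^ 2) * lap μ γ s) * ENNReal.ofReal (Real.exp (-(γ * r))) *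
                ENNReal.ofReal c.B / ENNReal.ofReal (m * g ^ θ / 2) ^ 2 := by
                gcongr
                · exact vY_upper μ hμ s (by linarith)
                · exact c.hB
            _ = ENNReal.ofReal (5 * s ^ 2 * gs * g ^ 2 * c.B / (m * g ^ θ / 2) ^ 2) := by
                rw [lap_eq_gR μ hγ hμ, hgr, ← ENNReal.ofReal_mul (by positivity),
                  ← ENNReal.ofReal_mul (by positivity), ← ENNReal.ofReal_mul (by positivity),
                  ← ENNReal.ofReal_pow (by positivity), ← ENNReal.ofReal_div_of_pos (by positivity)]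
            _ ≤ _ := by
                apply ENNReal.ofReal_le_ofReal
                have hge : g ^ (1 - 2 * θ) = g / (g ^ θ * g ^ θ) := by
                  rw [Real.rpow_sub hgu, Real.rpow_one, two_mul, Real.rpow_add hgu]
                calc 5 * s ^ 2 * gs * g ^ 2 * c.B / (m * g ^ θ / 2) ^ 2
                    ≤ 5 * s ^ 2 * gs * g ^ 2 * c.B /
                      ((β * s * gs / (2 * 6 ^ c.p)) * g ^ θ / 2) ^ 2 := by gcongr
                  _ = (80 * (6 ^ c.p) ^ 2 * c.B / β ^ 2) * ((g / gs) * (g / (g ^ θ * g ^ θ))) := by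
                      field_simp
                      ring
                  _ ≤ (80 * (6 ^ c.p) ^ 2 * c.B / β ^ 2) * ((6 ^ c.p) *
                      (g / (g ^ θ * g ^ θ))) := by
                      gcongr
                      rw [div_le_iff₀ hgs]
                      exact hgsu
                  _ = K * g ^ (1 - 2 * θ) := by
                      rw [hge, hK]
                      ring

end Pool.Agent.H96.Cond
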