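import Mathlib
import Pool.Agent.H96.Cond.Probs3

/-!
# Mean masses of the whole population and of the window, uniformly over late times
-/

set_option autoImplicit false
set_option linter.unusedSectionVars false

open MeasureTheory ProbabilityTheory Set Filter Topology
open scoped ENNReal

namespace Pool.Agent.H96.Cond

variable (μ : Measure ℝ) [IsProbabilityMeasure μ] {β γ : ℝ} [hpar : Params β γ]

/-- The window. -/
def win (x t : ℝ) : Set ℝ := Ioo (1 - x / t) 1

theorem lap_win_sub (hγ : 0 < γ) (x t a : ℝ) (ht : 0 < t) (ha : 0 ≤ a) :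
    lap (μ.restrict (win x t)) γ (t - a) ≤
      ENNReal.ofReal (Real.exp (γ * x * (a / t))) * lap (μ.restrict (win x t)) γ t := by
  unfold lap
  rw [← lintegral_const_mul' _ _ ENNReal.ofReal_ne_top]
  unfold win
  refine setLIntegral_mono' measurableSet_Ioo fun y hy => ?_
  rw [← ENNReal.ofReal_mul (Real.exp_pos _).le, ← Real.exp_add]
  apply ENNReal.ofReal_le_ofReal
  apply Real.exp_le_exp.2
  have h1 : 1 - y ≤ x / t := by linarith [hy.1]
  have h2 : γ * (1 - y) * a ≤ γ * (x / t) * a :=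
    mul_le_mul_of_nonneg_right (mul_le_mul_of_nonneg_left h1 hγ.le) ha
  have h3 : γ * (x / t) * a = γ * x * (a / t) := by field_simp
  linarith

theorem ren_ae_nonneg (hμ : ∀ᵐ y ∂μ, 0 < y ∧ y < 1) (hb : bm μ β γ < 1) :
    ∀ᵐ r ∂(ren μ β γ), 0 ≤ r := by
  rw [ae_iff]
  convert ren_neg (β := β) (γ := γ) μ hμ hb using 2
  ext r
  simp

theorem mtA_lower (hμ : ∀ᵐ y ∂μ, 0 < y ∧ y < 1) (hb : bm μ β γ < 1) (x t ε z : ℝ)
    (ht : 0 < t) (hε : ε ≤ 1 / 2) (hz1 : (1 - ε) * t ≤ z) (hz2 : z ≤ t) :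
    ren μ β γ (Iic (ε * t)) * lap (μ.restrict (win x t)) γ t ≤ mt μ β γ (win x t) z := by
  have hγ := hpar.γ_pos
  unfold mt
  calc ren μ β γ (Iic (ε * t)) * lap (μ.restrict (win x t)) γ t
      = ∫⁻ r, (Iic (ε * t)).indicator (fun _ => lap (μ.restrict (win x t)) γ t) r
        ∂(ren μ β γ) := by
        rw [lintegral_indicator_const measurableSet_Iic, mul_comm]
    _ ≤ _ := by
        refine lintegral_mono_ae ((ren_ae_nonneg μ hμ hb).mono fun r hr => ?_)
        by_cases h1 : r ∈ Iic (ε * t)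
        · have h1' : r ≤ ε * t := h1
          rw [indicator_of_mem h1, indicator_of_mem (show r ∈ Iic z from by
            simp only [mem_Iic]; nlinarith)]
          exact lap_anti _ γ hγ.le (ae_restrict_of_ae hμ) (by linarith)
        · rw [indicator_of_notMem h1]; exact zero_le

theorem mtA_upper (hμ : ∀ᵐ y ∂μ, 0 < y ∧ y < 1) (hb : bm μ β γ < 1) (x t ε z : ℝ)
    (ht : 0 < t) (hε0 : 0 < ε) (hz1 : (1 - ε) * t ≤ z) :
    mt μ β γ (win x t) z ≤ (ENNReal.ofReal (Real.exp (γ * x * (2 * ε))) * ren μ β γ univ +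
      ENNReal.ofReal (Real.exp (γ * x)) * ren μ β γ (Ioi (ε * t))) *
        lap (μ.restrict (win x t)) γ t := by
  have hγ := hpar.γ_pos
  have hanti := lap_anti (μ.restrict (win x t)) γ hγ.le (ae_restrict_of_ae hμ)
  set l := lap (μ.restrict (win x t)) γ t with hl
  unfold mt
  calc ∫⁻ r, (Iic z).indicator (fun r => lap (μ.restrict (win x t)) γ (z - r)) r ∂(ren μ β γ)
      ≤ ∫⁻ r, (ENNReal.ofReal (Real.exp (γ * x * (2 * ε))) * l +
        (Ioi (ε * t)).indicator (fun _ => ENNReal.ofReal (Real.exp (γ * x)) * l) r)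
        ∂(ren μ β γ) := by
        refine lintegral_mono_ae ((ren_ae_nonneg μ hμ hb).mono fun r hr => ?_)
        by_cases h1 : r ∈ Iic z
        · rw [indicator_of_mem h1]
          have h1' : r ≤ z := h1
          by_cases h2 : r ≤ ε * t
          · refine le_trans ?_ le_self_add
            calc lap (μ.restrict (win x t)) γ (z - r)
                ≤ lap (μ.restrict (win x t)) γ (t - 2 * ε * t) := hanti (by nlinarith)
              _ ≤ ENNReal.ofReal (Real.exp (γ * x * (2 * ε * t / t))) * l :=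
                  lap_win_sub μ hγ x t (2 * ε * t) ht (by positivity)
              _ = _ := by
                  rw [mul_div_cancel_right₀ _ ht.ne']
          · refine le_trans ?_ le_add_self
            rw [indicator_of_mem (show r ∈ Ioi (ε * t) from not_le.1 h2)]
            calc lap (μ.restrict (win x t)) γ (z - r)
                ≤ lap (μ.restrict (win x t)) γ (t - t) := hanti (by linarith)
              _ ≤ ENNReal.ofReal (Real.exp (γ * x * (t / t))) * l :=
                  lap_win_sub μ hγ x t t ht ht.le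
              _ = _ := by rw [div_self ht.ne', mul_one]
        · rw [indicator_of_notMem h1]; exact zero_le
    _ = _ := by
        rw [lintegral_add_left measurable_const, lintegral_const,
          lintegral_indicator_const measurableSet_Ioi]
        ring

/-- Bounds for the sum of conditional means over the line. -/
theorem cF_bounds (s s' t : ℝ) (hs : 0 ≤ s) (m : ℝ → ℝ≥0∞) (lo hi : ℝ≥0∞)
    (hm : ∀ z, t - s' ≤ z → z ≤ t → lo ≤ m z ∧ m z ≤ hi) (ω : Pop) :
    lo * lW γ s s' ω ≤ cF (la γ s s') (fun v ω => birth ω v) (fun b => m (t - b)) ω ∧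
      cF (la γ s s') (fun v ω => birth ω v) (fun b => m (t - b)) ω ≤ hi * lW γ s s' ω := by
  have hterm : ∀ v, lo * la γ s s' v ω ≤ la γ s s' v ω * m (t - birth ω v) ∧
      la γ s s' v ω * m (t - birth ω v) ≤ hi * la γ s s' v ω := by
    intro v
    rcases la_cases γ s s' v ω with h | ⟨h1, h2, h3⟩
    · rw [h]; simp
    · have hb := onLine_birth h1
      obtain ⟨h4, h5⟩ := hm (t - birth ω v) (by linarith) (by linarith)
      constructor
      · rw [mul_comm]; gcongr
      · rw [mul_comm]; gcongr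
  unfold lW cF
  rw [← ENNReal.tsum_mul_left, ← ENNReal.tsum_mul_left]
  exact ⟨ENNReal.tsum_le_tsum fun v => (hterm v).1, ENNReal.tsum_le_tsum fun v => (hterm v).2⟩

theorem tendsto_ren_Iic (hμ : ∀ᵐ y ∂μ, 0 < y ∧ y < 1) (hb : bm μ β γ < 1) (ε : ℝ) (hε : 0 < ε) :
    Tendsto (fun t : ℝ => ren μ β γ (Iic (ε * t))) atTop (𝓝 (ren μ β γ univ)) := by
  have := ren_finite (β := β) (γ := γ) μ hμ hb
  have h1 := tendsto_measure_Iic_atTop (ren μ β γ)
  exact h1.comp (tendsto_id.const_mul_atTop hε)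

theorem tendsto_ren_Ioi (hμ : ∀ᵐ y ∂μ, 0 < y ∧ y < 1) (hb : bm μ β γ < 1) (ε : ℝ) (hε : 0 < ε) :
    Tendsto (fun t : ℝ => ren μ β γ (Ioi (ε * t))) atTop (𝓝 0) := by
  have hfin := ren_finite (β := β) (γ := γ) μ hμ hb
  have h1 := tendsto_ren_Iic (β := β) (γ := γ) μ hμ hb ε hε
  have h2 : Tendsto (fun t : ℝ => ren μ β γ univ - ren μ β γ (Iic (ε * t))) atTop
      (𝓝 (ren μ β γ univ - ren μ β γ univ)) :=
    ENNReal.Tendsto.sub tendsto_const_nhds h1 (Or.inl (measure_ne_top _ _))
  rw [tsub_self] at h2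
  refine h2.congr fun t => ?_
  rw [← measure_compl measurableSet_Iic (measure_ne_top _ _), compl_Iic]

end Pool.Agent.H96.Cond
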