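import Mathlib
import Pool.Agent.H96.Cond.WinMean

/-!
# Uniform asymptotics of the mean masses
-/

set_option autoImplicit false
set_option linter.unusedSectionVars false

open MeasureTheory ProbabilityTheory Set Filter Topology
open scoped ENNReal

namespace Pool.Agent.H96.Cond

variable (μ : Measure ℝ) [IsProbabilityMeasure μ] {β γ : ℝ} [hpar : Params β γ] (c : Cst μ β γ)

theorem eventually_near {f : ℝ → ℝ≥0∞} {a : ℝ} (ha : 0 ≤ a)
    (h : Tendsto f atTop (𝓝 (ENNReal.ofReal a))) (ζ : ℝ) (hζ : 0 < ζ) :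
    ∀ᶠ t in atTop, ENNReal.ofReal (a - ζ) ≤ f t ∧ f t ≤ ENNReal.ofReal (a + ζ) := by
  have h1 := (ENNReal.tendsto_nhds ENNReal.ofReal_ne_top).1 h (ENNReal.ofReal ζ)
    (by simpa using hζ)
  refine h1.mono fun t ht => ?_
  rw [← ENNReal.ofReal_sub _ hζ.le, ← ENNReal.ofReal_add ha hζ.le] at ht
  exact ht

include c in
theorem unif_univ (hμ : ∀ᵐ y ∂μ, 0 < y ∧ y < 1) (hb : bm μ β γ < 1) (ζ : ℝ) (hζ : 0 < ζ) :
    ∃ ε0 : ℝ, 0 < ε0 ∧ ∀ ε, 0 < ε → ε ≤ ε0 → ∀ᶠ t in atTop, ∀ z, (1 - ε) * t ≤ z → z ≤ t →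
      ENNReal.ofReal ((Llim μ β γ).toReal - ζ) * lap μ γ t ≤ mt μ β γ univ z ∧
      mt μ β γ univ z ≤ ENNReal.ofReal ((Llim μ β γ).toReal + ζ) * lap μ γ t := by
  have hγ := hpar.γ_pos
  have hD := dbl_of_poly μ c.poly hγ hμ
  have hLt := Llim_ne_top (β := β) (γ := γ) μ hμ hb
  set L := (Llim μ β γ).toReal with hL
  have hL0 : 0 ≤ L := ENNReal.toReal_nonneg
  have hlim := mt_tendsto (β := β) (γ := γ) μ hD hμ hb
  rw [← ENNReal.ofReal_toReal hLt, ← hL] at hlim
  have hnear := eventually_near hL0 hlim (ζ / 2) (by linarith)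
  obtain ⟨Z, hZ⟩ := hnear.exists_forall_of_atTop
  set Dr : ℝ := 6 ^ c.p with hDr
  have hDr0 : 0 < Dr := by positivity
  refine ⟨min (1 / 4) (ζ / (8 * Dr * (L + ζ / 2))), lt_min (by norm_num) (by positivity),
    fun ε hε hε0 => ?_⟩
  have hε1 : ε ≤ 1 / 4 := hε0.trans (min_le_left _ _)
  have hε2 : (L + ζ / 2) * (1 + 4 * ε * Dr) ≤ L + ζ := by
    have h1 : ε ≤ ζ / (8 * Dr * (L + ζ / 2)) := hε0.trans (min_le_right _ _)
    rw [le_div_iff₀ (by positivity)] at h1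
    nlinarith
  filter_upwards [eventually_gt_atTop (0 : ℝ), eventually_ge_atTop (2 * Z)] with t ht htZ
  intro z hz1 hz2
  have hzZ : Z ≤ z := by nlinarith
  obtain ⟨h1, h2⟩ := hZ z hzZ
  have hlz := lap_pos μ γ z
  have hlzt := lap_ne_top μ γ hγ.le hμ z
  rw [ENNReal.le_div_iff_mul_le (Or.inl hlz.ne') (Or.inl hlzt)] at h1
  rw [ENNReal.div_le_iff hlz.ne' hlzt] at h2
  constructor
  · calc ENNReal.ofReal (L - ζ) * lap μ γ t ≤ ENNReal.ofReal (L - ζ / 2) * lap μ γ z := by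
          gcongr
          · linarith
          · exact lap_anti μ γ hγ.le hμ hz2
      _ ≤ _ := h1
  · have h3 := lap_ratio_le hD hγ hμ t (ε * t) ht (by positivity) (by nlinarith)
    calc mt μ β γ univ z ≤ ENNReal.ofReal (L + ζ / 2) * lap μ γ z := h2
      _ ≤ ENNReal.ofReal (L + ζ / 2) * lap μ γ (t - ε * t) := by
          gcongr
          exact lap_anti μ γ hγ.le hμ (by linarith)
      _ ≤ ENNReal.ofReal (L + ζ / 2) * ((1 + ENNReal.ofReal (4 * (ε * t) / t) *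
          ENNReal.ofReal (6 ^ c.p)) * lap μ γ t) := by gcongr
      _ = ENNReal.ofReal ((L + ζ / 2) * (1 + 4 * ε * Dr)) * lap μ γ t := by
          rw [← mul_assoc, show 4 * (ε * t) / t = 4 * ε by field_simp, ← hDr,
            ← ENNReal.ofReal_mul (by positivity), ← ENNReal.ofReal_one,
            ← ENNReal.ofReal_add zero_le_one (by positivity), ← ENNReal.ofReal_mul (by positivity)]
      _ ≤ _ := by gcongr

include c in
theorem unif_win {α : ℝ} (h : RVar μ α) (hα : 0 < α) (hμ : ∀ᵐ y ∂μ, 0 < y ∧ y < 1)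
    (hb : bm μ β γ < 1) (x : ℝ) (hx : 0 < x)
    (ζ : ℝ) (hζ : 0 < ζ) :
    ∃ ε0 : ℝ, 0 < ε0 ∧ ∀ ε, 0 < ε → ε ≤ ε0 → ∀ᶠ t in atTop, ∀ z, (1 - ε) * t ≤ z → z ≤ t →
      ENNReal.ofReal (((1 - bm μ β γ)⁻¹).toReal * (Gn γ α x / Gd γ α).toReal - ζ) * lap μ γ t ≤
        mt μ β γ (win x t) z ∧
      mt μ β γ (win x t) z ≤
        ENNReal.ofReal (((1 - bm μ β γ)⁻¹).toReal * (Gn γ α x / Gd γ α).toReal + ζ) *
          lap μ γ t := by
  have hγ := hpar.γ_pos
  have hBt := inv_ne_top _ hb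
  set B0 := ((1 - bm μ β γ)⁻¹).toReal with hB0
  have hB0e : (1 - bm μ β γ)⁻¹ = ENNReal.ofReal B0 := (ENNReal.ofReal_toReal hBt).symm
  have hB00 : 0 ≤ B0 := ENNReal.toReal_nonneg
  have hGt : Gn γ α x / Gd γ α ≠ ⊤ := by
    apply ENNReal.div_ne_top _ (Gd_pos hγ α)
    refine ne_top_of_le_ne_top (Gd_ne_top hγ hα) ?_
    unfold Gn Gd
    refine setLIntegral_mono' measurableSet_Ioi fun w hw => ?_
    have hw0 : (0 : ℝ) < w := hw
    gcongr
    exact min_le_left _ _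
  set G := (Gn γ α x / Gd γ α).toReal with hG
  have hGe : Gn γ α x / Gd γ α = ENNReal.ofReal G := (ENNReal.ofReal_toReal hGt).symm
  have hG0 : 0 ≤ G := ENNReal.toReal_nonneg
  have hBG : 0 ≤ B0 * G := mul_nonneg hB00 hG0
  have hwin := tendsto_window μ h c.poly hγ hα hμ x hx
  rw [hGe] at hwin
  have hu := ren_univ (β := β) (γ := γ) μ hμ hb
  rw [hB0e] at hu
  -- choice of ε0
  have hcont : ContinuousAt (fun ε : ℝ => Real.exp (γ * x * (2 * ε)) * (B0 * G)) 0 := by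
    fun_prop
  have hlt : Real.exp (γ * x * (2 * 0)) * (B0 * G) < B0 * G + ζ / 2 := by
    rw [mul_zero, mul_zero, Real.exp_zero, one_mul]
    linarith
  have hev := hcont.eventually (gt_mem_nhds hlt)
  rw [Metric.eventually_nhds_iff] at hev
  obtain ⟨e, he, hev⟩ := hev
  refine ⟨min (1 / 2) (e / 2), lt_min (by norm_num) (by linarith), fun ε hε hε0 => ?_⟩
  have hε1 : ε ≤ 1 / 2 := hε0.trans (min_le_left _ _)
  have hε2 : Real.exp (γ * x * (2 * ε)) * (B0 * G) < B0 * G + ζ / 2 := by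
    apply hev
    rw [Real.dist_eq, sub_zero, abs_of_pos hε]
    have := hε0.trans (min_le_right _ _)
    linarith
  -- limits
  have hlow : Tendsto (fun t => ren μ β γ (Iic (ε * t)) *
      (lap (μ.restrict (win x t)) γ t / lap μ γ t)) atTop (𝓝 (ENNReal.ofReal (B0 * G))) := by
    have h1 := tendsto_ren_Iic (β := β) (γ := γ) μ hμ hb ε hε
    rw [hu] at h1
    have h2 := ENNReal.Tendsto.mul h1 (Or.inr ENNReal.ofReal_ne_top) hwin
      (Or.inr ENNReal.ofReal_ne_top)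
    rw [← ENNReal.ofReal_mul hB00] at h2
    exact h2
  set E := Real.exp (γ * x * (2 * ε)) with hE
  have hE0 : 0 < E := Real.exp_pos _
  have hup : Tendsto (fun t => (ENNReal.ofReal E * ren μ β γ univ +
      ENNReal.ofReal (Real.exp (γ * x)) * ren μ β γ (Ioi (ε * t))) *
      (lap (μ.restrict (win x t)) γ t / lap μ γ t)) atTop
      (𝓝 (ENNReal.ofReal (E * (B0 * G)))) := by
    have h1 := tendsto_ren_Ioi (β := β) (γ := γ) μ hμ hb ε hε
    have h2 := ENNReal.Tendsto.const_mul (a := ENNReal.ofReal (Real.exp (γ * x))) h1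
      (Or.inr ENNReal.ofReal_ne_top)
    have h3 := h2.const_add (ENNReal.ofReal E * ren μ β γ univ)
    rw [mul_zero, add_zero, hu, ← ENNReal.ofReal_mul hE0.le] at h3
    have h4 := ENNReal.Tendsto.mul h3 (Or.inr ENNReal.ofReal_ne_top) hwin
      (Or.inr ENNReal.ofReal_ne_top)
    rw [← ENNReal.ofReal_mul (by positivity), mul_assoc] at h4
    rw [hu, ← ENNReal.ofReal_mul hE0.le]
    exact h4
  filter_upwards [eventually_gt_atTop (0 : ℝ), eventually_near hBG hlow ζ hζ,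
    eventually_near (by positivity) hup (ζ / 2) (by linarith)] with t ht h1 h2
  intro z hz1 hz2
  have hlt' := lap_pos μ γ t
  have hltt := lap_ne_top μ γ hγ.le hμ t
  have hcancel : ∀ X : ℝ≥0∞, X * (lap (μ.restrict (win x t)) γ t / lap μ γ t) * lap μ γ t =
      X * lap (μ.restrict (win x t)) γ t := fun X => by
    rw [mul_assoc, ENNReal.div_mul_cancel hlt'.ne' hltt]
  constructor
  · calc ENNReal.ofReal (B0 * G - ζ) * lap μ γ t
        ≤ (ren μ β γ (Iic (ε * t)) * (lap (μ.restrict (win x t)) γ t / lap μ γ t)) *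
          lap μ γ t := by
          gcongr
          exact h1.1
      _ = ren μ β γ (Iic (ε * t)) * lap (μ.restrict (win x t)) γ t := hcancel _
      _ ≤ _ := mtA_lower μ hμ hb x t ε z ht hε1 hz1 hz2
  · calc mt μ β γ (win x t) z ≤ (ENNReal.ofReal E * ren μ β γ univ +
          ENNReal.ofReal (Real.exp (γ * x)) * ren μ β γ (Ioi (ε * t))) *
          lap (μ.restrict (win x t)) γ t := mtA_upper μ hμ hb x t ε z ht hε hz1
      _ = ((ENNReal.ofReal E * ren μ β γ univ +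
          ENNReal.ofReal (Real.exp (γ * x)) * ren μ β γ (Ioi (ε * t))) *
          (lap (μ.restrict (win x t)) γ t / lap μ γ t)) * lap μ γ t := (hcancel _).symm
      _ ≤ ENNReal.ofReal (E * (B0 * G) + ζ / 2) * lap μ γ t := by
          gcongr
          exact h2.2
      _ ≤ _ := mul_le_mul' (ENNReal.ofReal_le_ofReal (by linarith)) le_rfl

end Pool.Agent.H96.Cond
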