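import Mathlib
import Pool.Agent.H96.Cond.Unif

/-!
# Convergence of the window mass
-/

set_option autoImplicit false
set_option linter.unusedSectionVars false

open MeasureTheory ProbabilityTheory Set Filter Topology
open scoped ENNReal

namespace Pool.Agent.H96.Cond

/-- Deterministic sandwich. -/
theorem sandwich (a ζ : ℝ) (ha : 0 ≤ a) (hζ : 0 < ζ) (X old main far C δ Wg : ℝ≥0∞)
    (hW : Wg ≠ ⊤) (hX : X = old + main + far) (h1 : ENNReal.ofReal (a - ζ) * Wg ≤ C)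
    (h2 : C ≤ ENNReal.ofReal (a + ζ) * Wg) (h3 : C ≤ main + δ) (h4 : main ≤ C + δ)
    (ho : old ≤ δ) (hf : far ≤ δ) (hδ : 3 * δ ≤ ENNReal.ofReal ζ * Wg) :
    ENNReal.ofReal (a - 2 * ζ) * Wg ≤ X ∧ X ≤ ENNReal.ofReal (a + 2 * ζ) * Wg := by
  constructor
  · by_cases h0 : a - 2 * ζ ≤ 0
    · rw [ENNReal.ofReal_of_nonpos h0, zero_mul]; exact zero_le
    · push Not at h0
      have hz : ENNReal.ofReal ζ * Wg ≠ ⊤ := ENNReal.mul_ne_top ENNReal.ofReal_ne_top hW
      have e1 : ENNReal.ofReal (a - 2 * ζ) * Wg + ENNReal.ofReal ζ * Wg =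
          ENNReal.ofReal (a - ζ) * Wg := by
        rw [← add_mul, ← ENNReal.ofReal_add h0.le hζ.le]
        congr 2
        ring
      have e2 : ENNReal.ofReal (a - 2 * ζ) * Wg + ENNReal.ofReal ζ * Wg ≤
          main + ENNReal.ofReal ζ * Wg := by
        rw [e1]
        refine h1.trans (h3.trans ?_)
        gcongr
        refine le_trans ?_ hδ
        calc δ = 1 * δ := (one_mul δ).symm
          _ ≤ 3 * δ := by gcongr; norm_num
      have e3 := (ENNReal.add_le_add_iff_right hz).1 e2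
      rw [hX]
      refine e3.trans ?_
      calc main ≤ old + main := le_add_self
        _ ≤ old + main + far := le_self_add
  · rw [hX]
    calc old + main + far ≤ δ + (C + δ) + δ := by gcongr
      _ = C + 3 * δ := by ring
      _ ≤ ENNReal.ofReal (a + ζ) * Wg + ENNReal.ofReal ζ * Wg := by gcongr
      _ = _ := by
        rw [← add_mul, ← ENNReal.ofReal_add (by linarith) hζ.le]
        congr 2
        ring

/-- Deterministic ratio bound. -/
theorem ratio_close (L K ζ e : ℝ) (hK : 0 ≤ K) (hζ : 0 < ζ) (hζL : 2 * ζ < L)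
    (hup : (K + 2 * ζ) / (L - 2 * ζ) < K / L + e) (hlo : K / L - e < (K - 2 * ζ) / (L + 2 * ζ))
    (X XA Wg : ℝ≥0∞) (hW0 : Wg ≠ 0) (hW : Wg ≠ ⊤)
    (h1 : ENNReal.ofReal (L - 2 * ζ) * Wg ≤ X) (h2 : X ≤ ENNReal.ofReal (L + 2 * ζ) * Wg)
    (h3 : ENNReal.ofReal (K - 2 * ζ) * Wg ≤ XA) (h4 : XA ≤ ENNReal.ofReal (K + 2 * ζ) * Wg) :
    |(XA / X).toReal - K / L| < e := by
  have hXt : X ≠ ⊤ := ne_top_of_le_ne_top (ENNReal.mul_ne_top ENNReal.ofReal_ne_top hW) h2
  have hXAt : XA ≠ ⊤ := ne_top_of_le_ne_top (ENNReal.mul_ne_top ENNReal.ofReal_ne_top hW) h4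
  have hw : 0 < Wg.toReal := ENNReal.toReal_pos hW0 hW
  have r1 : (L - 2 * ζ) * Wg.toReal ≤ X.toReal := by
    have := ENNReal.toReal_mono hXt h1
    rwa [ENNReal.toReal_mul, ENNReal.toReal_ofReal (by linarith)] at this
  have r2 : X.toReal ≤ (L + 2 * ζ) * Wg.toReal := by
    have := ENNReal.toReal_mono (ENNReal.mul_ne_top ENNReal.ofReal_ne_top hW) h2
    rwa [ENNReal.toReal_mul, ENNReal.toReal_ofReal (by linarith)] at this
  have r3 : (K - 2 * ζ) * Wg.toReal ≤ XA.toReal := by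
    have := ENNReal.toReal_mono hXAt h3
    rw [ENNReal.toReal_mul] at this
    refine le_trans ?_ this
    gcongr
    rw [ENNReal.toReal_ofReal']
    exact le_max_left _ _
  have r4 : XA.toReal ≤ (K + 2 * ζ) * Wg.toReal := by
    have := ENNReal.toReal_mono (ENNReal.mul_ne_top ENNReal.ofReal_ne_top hW) h4
    rwa [ENNReal.toReal_mul, ENNReal.toReal_ofReal (by linarith)] at this
  have hX0 : 0 < X.toReal := lt_of_lt_of_le (mul_pos (by linarith) hw) r1
  have hXA0 : 0 ≤ XA.toReal := ENNReal.toReal_nonneg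
  rw [ENNReal.toReal_div, abs_lt]
  constructor
  · have : (K - 2 * ζ) / (L + 2 * ζ) ≤ XA.toReal / X.toReal := by
      rcases le_total 0 (K - 2 * ζ) with h | h
      · rw [div_le_div_iff₀ (by linarith) hX0]
        calc (K - 2 * ζ) * X.toReal ≤ (K - 2 * ζ) * ((L + 2 * ζ) * Wg.toReal) := by gcongr
          _ = ((K - 2 * ζ) * Wg.toReal) * (L + 2 * ζ) := by ring
          _ ≤ XA.toReal * (L + 2 * ζ) := by
            gcongr
            linarith
      · have : (K - 2 * ζ) / (L + 2 * ζ) ≤ 0 := div_nonpos_of_nonpos_of_nonneg h (by linarith)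
        exact this.trans (div_nonneg hXA0 hX0.le)
    linarith
  · have : XA.toReal / X.toReal ≤ (K + 2 * ζ) / (L - 2 * ζ) := by
      rw [div_le_div_iff₀ hX0 (by linarith)]
      calc XA.toReal * (L - 2 * ζ) ≤ ((K + 2 * ζ) * Wg.toReal) * (L - 2 * ζ) := by
            gcongr
        _ = (K + 2 * ζ) * ((L - 2 * ζ) * Wg.toReal) := by ring
        _ ≤ (K + 2 * ζ) * X.toReal := by gcongr
    linarith

/-- Choice of the accuracy. -/
theorem exists_acc (L K e : ℝ) (hL : 0 < L) (he : 0 < e) :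
    ∃ ζ : ℝ, 0 < ζ ∧ 2 * ζ < L ∧ (K + 2 * ζ) / (L - 2 * ζ) < K / L + e ∧
      K / L - e < (K - 2 * ζ) / (L + 2 * ζ) := by
  have c1 : ContinuousAt (fun ζ : ℝ => (K + 2 * ζ) / (L - 2 * ζ)) 0 := by
    refine ContinuousAt.div (by fun_prop) (by fun_prop) ?_
    simpa using hL.ne'
  have c2 : ContinuousAt (fun ζ : ℝ => (K - 2 * ζ) / (L + 2 * ζ)) 0 := by
    refine ContinuousAt.div (by fun_prop) (by fun_prop) ?_
    simpa using hL.ne'
  have c3 : ContinuousAt (fun ζ : ℝ => 2 * ζ) 0 := by fun_prop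
  have e1 := c1.eventually (gt_mem_nhds (show (K + 2 * 0) / (L - 2 * 0) < K / L + e by
    simpa using he))
  have e2 := c2.eventually (lt_mem_nhds (show K / L - e < (K - 2 * 0) / (L + 2 * 0) by
    simpa using he))
  have e3 := c3.eventually (gt_mem_nhds (show 2 * (0 : ℝ) < L by simpa using hL))
  obtain ⟨d, hd, h⟩ := Metric.eventually_nhds_iff.1 (e1.and (e2.and e3))
  have hdd : dist (d / 2) 0 < d := by
    rw [Real.dist_eq, sub_zero, abs_of_pos (by linarith)]
    linarith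
  obtain ⟨k1, k2, k3⟩ := h hdd
  exact ⟨d / 2, by linarith, k3, k1, k2⟩

variable (μ : Measure ℝ) [IsProbabilityMeasure μ] {β γ : ℝ} [hpar : Params β γ] (c : Cst μ β γ)

include c in
/-- Convergence in probability of the window mass. -/
theorem conv_aux {α : ℝ} (h : RVar μ α) (hα : 1 < α) (hμ : ∀ᵐ y ∂μ, 0 < y ∧ y < 1)
    (hb : bm μ β γ < 1) (x : ℝ) (hx : 0 < x) (e : ℝ) (he : 0 < e) :
    Tendsto (fun t => popLaw μ β γ {ω | e ≤ |Xi ω t (win x t) -
      ((1 - bm μ β γ)⁻¹).toReal * (Gn γ α x / Gd γ α).toReal / (Llim μ β γ).toReal|})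
      atTop (𝓝 0) := by
  have hγ := hpar.γ_pos
  have hLt := Llim_ne_top (β := β) (γ := γ) μ hμ hb
  have hL1 : 1 ≤ Llim μ β γ := by
    unfold Llim
    have h1 : (1 : ℝ≥0∞) ≤ (1 - bm μ β γ)⁻¹ := by
      rw [ENNReal.one_le_inv]
      exact tsub_le_self
    calc (1 : ℝ≥0∞) = 1 * 1 := (one_mul 1).symm
      _ ≤ _ := mul_le_mul' le_self_add h1
  set L := (Llim μ β γ).toReal with hL
  have hL0 : 0 < L := ENNReal.toReal_pos (by
    intro h0
    rw [h0] at hL1
    exact absurd hL1 (by simp)) hLt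
  set K := ((1 - bm μ β γ)⁻¹).toReal * (Gn γ α x / Gd γ α).toReal with hK
  have hK0 : 0 ≤ K := mul_nonneg ENNReal.toReal_nonneg ENNReal.toReal_nonneg
  obtain ⟨ζ, hζ, hζL, hup, hlo⟩ := exists_acc L K e hL0 he
  obtain ⟨ε1, hε1, hU⟩ := unif_univ μ c hμ hb ζ hζ
  obtain ⟨ε2, hε2, hWn⟩ := unif_win μ c h (by linarith) hμ hb x hx ζ hζ
  rw [← hL] at hU
  rw [← hK] at hWn
  set ε := min (min ε1 ε2) (1 / 2) with hε
  have hε0 : 0 < ε := lt_min (lt_min hε1 hε2) (by norm_num)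
  have hε' : ε ≤ 1 / 2 := min_le_right _ _
  have hUe := hU ε hε0 ((min_le_left _ _).trans (min_le_left _ _))
  have hWe := hWn ε hε0 ((min_le_left _ _).trans (min_le_right _ _))
  have hP1 := tendsto_P1 (β := β) (γ := γ) μ c hμ
  have hP2 := tendsto_P2 (β := β) (γ := γ) μ c hμ hb (fun _ => univ) (fun _ => MeasurableSet.univ)
    ε hε' (ζ / 3) (by linarith)
  have hP2' := tendsto_P2 (β := β) (γ := γ) μ c hμ hb (fun t => win x t)
    (fun _ => measurableSet_Ioo) ε hε' (ζ / 3) (by linarith)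
  have hP3 := tendsto_P3 (β := β) (γ := γ) μ c hμ hb ε hε0 (ζ / 3) (by linarith)
  have hP4 := tendsto_P4 (β := β) (γ := γ) μ c hμ hb (ζ / 3) (by linarith)
  have hP5 := tendsto_P5 (β := β) (γ := γ) μ c h hμ hb ε hε0
  have hsum := ((((hP1.add hP2).add hP2').add hP3).add hP4).add hP5
  simp only [add_zero] at hsum
  refine tendsto_of_tendsto_of_tendsto_of_le_of_le' tendsto_const_nhds hsum
    (Filter.Eventually.of_forall fun _ => zero_le) ?_
  filter_upwards [hUe, hWe, ev_le_ss μ c hγ hμ,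
    (uu_tendsto μ c hγ hμ).eventually (eventually_gt_atTop 0)] with t hUt hWt hss huu
  have hs0 : 0 ≤ ss μ γ t := huu.le.trans hss
  have hWst := Wst_pos μ c hμ t huu
  have hg := gR_pos μ hγ hμ t
  set δ : ℝ≥0∞ := ENNReal.ofReal (ζ / 3 * (gR μ γ t * Wst c t)) with hδdef
  refine le_trans (measure_mono (t := (((({ω | ¬ GoodFit (etaf c t) (ss μ γ t) ω} ∪
    {ω | mainPart γ univ (ss μ γ t) (ε * t) t ω + δ ≤
        cF (la γ (ss μ γ t) (ε * t)) (fun v ω => birth ω v)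
          (fun b => mt μ β γ univ (t - b)) ω ∨
      cF (la γ (ss μ γ t) (ε * t)) (fun v ω => birth ω v)
          (fun b => mt μ β γ univ (t - b)) ω + δ ≤
        mainPart γ univ (ss μ γ t) (ε * t) t ω}) ∪
    {ω | mainPart γ (win x t) (ss μ γ t) (ε * t) t ω + δ ≤
        cF (la γ (ss μ γ t) (ε * t)) (fun v ω => birth ω v)
          (fun b => mt μ β γ (win x t) (t - b)) ω ∨
      cF (la γ (ss μ γ t) (ε * t)) (fun v ω => birth ω v)
          (fun b => mt μ β γ (win x t) (t - b)) ω + δ ≤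
        mainPart γ (win x t) (ss μ γ t) (ε * t) t ω}) ∪
    {ω | δ ≤ farLow γ (etaf c t) (ss μ γ t) (ε * t) t ω}) ∪
    {ω | δ ≤ oldLow γ (etaf c t) (ss μ γ t) t ω}) ∪
    {ω | lW γ (ss μ γ t) (ε * t) ω < ENNReal.ofReal (Wst c t)}) ?_) ?_
  · intro ω hω
    by_contra hcon
    simp only [mem_union, not_or] at hcon
    obtain ⟨⟨⟨⟨⟨n1, n2⟩, n3⟩, n4⟩, n5⟩, n6⟩ := hcon
    simp only [mem_ofPred_eq, not_not] at n1
    simp only [mem_ofPred_eq, not_or, not_le] at n2 n3
    simp only [mem_ofPred_eq, not_le] at n4 n5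
    simp only [mem_ofPred_eq, not_lt] at n6
    have hω' : e ≤ |Xi ω t (win x t) - K / L| := hω
    -- bounds for the conditional means
    have b1 := cF_bounds (γ := γ) (ss μ γ t) (ε * t) t hs0 (mt μ β γ univ)
      (ENNReal.ofReal (L - ζ) * lap μ γ t) (ENNReal.ofReal (L + ζ) * lap μ γ t)
      (fun z hz1 hz2 => hUt z (by linarith) hz2) ω
    have b2 := cF_bounds (γ := γ) (ss μ γ t) (ε * t) t hs0 (mt μ β γ (win x t))
      (ENNReal.ofReal (K - ζ) * lap μ γ t) (ENNReal.ofReal (K + ζ) * lap μ γ t)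
      (fun z hz1 hz2 => hWt z (by linarith) hz2) ω
    set Wl := lW γ (ss μ γ t) (ε * t) ω with hWl
    have hlapt : lap μ γ t = ENNReal.ofReal (gR μ γ t) := by
      unfold gR
      rw [ENNReal.ofReal_toReal (lap_ne_top μ γ hγ.le hμ t)]
    have hlap0 : lap μ γ t ≠ 0 := (lap_pos μ γ t).ne'
    have hlapT : lap μ γ t ≠ ⊤ := lap_ne_top μ γ hγ.le hμ t
    have hWlt : Wl ≠ ⊤ := by
      intro htop
      have h5 := b1.1
      rw [htop, ENNReal.mul_top (mul_ne_zero (by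
        rw [Ne, ENNReal.ofReal_eq_zero, not_le]; linarith) hlap0)] at h5
      exact absurd (lt_of_le_of_lt h5 n2.1) not_top_lt
    have hWl0 : Wl ≠ 0 := by
      intro h0
      rw [h0] at n6
      have : 0 < ENNReal.ofReal (Wst c t) := ENNReal.ofReal_pos.2 hWst
      exact absurd n6 (not_le.2 this)
    set Wg := lap μ γ t * Wl with hWg
    have hWg0 : Wg ≠ 0 := mul_ne_zero hlap0 hWl0
    have hWgt : Wg ≠ ⊤ := ENNReal.mul_ne_top hlapT hWlt
    have hδ3 : 3 * δ ≤ ENNReal.ofReal ζ * Wg := by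
      have e3 : (3 : ℝ≥0∞) = ENNReal.ofReal 3 := by norm_num
      rw [hδdef, hWg, hlapt, e3, ← ENNReal.ofReal_mul (by norm_num),
        show 3 * (ζ / 3 * (gR μ γ t * Wst c t)) = ζ * (gR μ γ t * Wst c t) by ring,
        ENNReal.ofReal_mul hζ.le, ENNReal.ofReal_mul hg.le]
      gcongr
    have ho : ∀ B : Set ℝ, oldPart γ B (ss μ γ t) t ω ≤ δ := fun B =>
      (oldPart_le γ (etaf c t) B (ss μ γ t) t hs0 ω n1).trans n5.le
    have hf : ∀ B : Set ℝ, farPart γ B (ss μ γ t) (ε * t) t ω ≤ δ := fun B =>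
      (farPart_le γ (etaf c t) B (ss μ γ t) (ε * t) t ω n1).trans n4.le
    have s1 := sandwich L ζ hL0.le hζ _ _ _ _ _ δ Wg hWgt
      (cmj_parts γ univ (ss μ γ t) (ε * t) t ω)
      (by rw [hWg, ← mul_assoc]; exact b1.1) (by rw [hWg, ← mul_assoc]; exact b1.2)
      n2.1.le n2.2.le (ho _) (hf _) hδ3
    have s2 := sandwich K ζ hK0 hζ _ _ _ _ _ δ Wg hWgt
      (cmj_parts γ (win x t) (ss μ γ t) (ε * t) t ω)
      (by rw [hWg, ← mul_assoc]; exact b2.1) (by rw [hWg, ← mul_assoc]; exact b2.2)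
      n3.1.le n3.2.le (ho _) (hf _) hδ3
    have hr := ratio_close L K ζ e hK0 hζ hζL hup hlo _ _ Wg hWg0 hWgt s1.1 s1.2 s2.1 s2.2
    have hXi : Xi ω t (win x t) =
        (cmj γ (chi γ (win x t)) t ω / cmj γ (chi γ univ) t ω).toReal := by
      unfold Xi
      rw [← mass_eq_cmj, ← mass_eq_cmj, ENNReal.mul_div_mul_left]
      · rw [Ne, ENNReal.ofReal_eq_zero, not_le]
        exact Real.exp_pos _
      · exact ENNReal.ofReal_ne_top
    rw [← hXi] at hr
    exact absurd hω' (not_le.2 hr)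
  · refine (measure_union_le _ _).trans ?_
    gcongr
    refine (measure_union_le _ _).trans ?_
    gcongr
    refine (measure_union_le _ _).trans ?_
    gcongr
    refine (measure_union_le _ _).trans ?_
    gcongr
    exact measure_union_le _ _

end Pool.Agent.H96.Cond
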