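import Mathlib
import Pool.Agent.H96.Cond.Defs

/-!
# The assumptions of the problem and convergence in probability of the window mass
-/

set_option autoImplicit false

open MeasureTheory ProbabilityTheory Filter Topology
open scoped ENNReal

namespace Pool.Agent.H96.Cond

/-- `ℓ` is slowly varying at `0`. -/
def SlowlyVarying (ℓ : ℝ → ℝ) : Prop :=
  (∀ᶠ ε in 𝓝[>] (0 : ℝ), 0 < ℓ ε) ∧
    ∀ c : ℝ, 0 < c → Tendsto (fun ε => ℓ (c * ε) / ℓ ε) (𝓝[>] (0 : ℝ)) (𝓝 1)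

/-- The parameters `μ, β, γ` are admissible, `μ(1-ε,1) = ε ^ α ℓ(ε)` for small `ε` with `α > 1` and
`ℓ` slowly varying at `0`, and the process is in the condensation phase. -/
structure Admissible (μ : Measure ℝ) (β γ α : ℝ) : Prop where
  prob : IsProbabilityMeasure μ
  supp : ∀ᵐ x ∂μ, 0 < x ∧ x < 1
  β_pos : 0 < β
  β_le : β ≤ 1
  γ_pos : 0 < γ
  γ_le : γ ≤ 1
  one_le : 1 ≤ β + γ
  one_lt : 1 < α
  rv : ∃ ℓ : ℝ → ℝ, SlowlyVarying ℓ ∧
    ∀ᶠ ε in 𝓝[>] (0 : ℝ), μ.real (Set.Ioo (1 - ε) 1) = ε ^ α * ℓ ε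
  integrable : Integrable (fun x => 1 / (1 - x)) μ
  cond : β / (β + γ) * ∫ x, 1 / (1 - x) ∂μ < 1

/-- The mass of the condensate. -/
noncomputable def omega (μ : Measure ℝ) (β γ : ℝ) : ℝ := 1 - β / (β + γ) * ∫ x, 1 / (1 - x) ∂μ

/-- The mass of the window `(1 - x/t, 1)` at time `t` converges in probability to `l` as
`t → ∞`. -/
def WindowLimit (μ : Measure ℝ) (β γ x l : ℝ) : Prop :=
  ∀ e : ℝ, 0 < e → Tendsto (fun t : ℝ =>
    popLaw μ β γ {ω | e ≤ |Xi ω t (Set.Ioo (1 - x / t) 1) - l|}) atTop (𝓝 0)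

/-- Distribution function of the Gamma law with shape `α` and rate `γ` (scale `1 / γ`). -/
noncomputable def trueProfile (γ α x : ℝ) : ℝ :=
  ∫ s in (0 : ℝ)..x, γ ^ α * s ^ (α - 1) * Real.exp (-(γ * s)) / Real.Gamma α

/-- Distribution function of the Gamma law with shape `1 + α` and scale `1`. -/
noncomputable def posedProfile (α x : ℝ) : ℝ :=
  ∫ s in (0 : ℝ)..x, s ^ α * Real.exp (-s) / Real.Gamma (1 + α)

end Pool.Agent.H96.Cond
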