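import Mathlib
import Pool.Agent.H96.Cond.Final
import Pool.Agent.H96.Cond.Setting

/-!
# Identification of the limit
-/

set_option autoImplicit false
set_option linter.unusedSectionVars false

open MeasureTheory ProbabilityTheory Set Filter Topology
open scoped ENNReal

namespace Pool.Agent.H96.Cond

theorem Admissible.params {μ : Measure ℝ} {β γ α : ℝ} (h : Admissible μ β γ α) : Params β γ :=
  ⟨h.β_pos, h.γ_pos, h.β_le, h.γ_le, h.one_le⟩

theorem Admissible.rvar {μ : Measure ℝ} {β γ α : ℝ} (h : Admissible μ β γ α) : RVar μ α := by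
  have := h.prob
  obtain ⟨ℓ, ⟨hpos, hlim⟩, hrv⟩ := h.rv
  have hev : ∀ᶠ ε in 𝓝[>] (0 : ℝ), 0 < ε ∧ 0 < ℓ ε ∧ hh μ ε = ENNReal.ofReal (ε ^ α * ℓ ε) := by
    filter_upwards [hpos, hrv, self_mem_nhdsWithin] with ε h1 h2 h3
    refine ⟨h3, h1, ?_⟩
    rw [← h2, hh, Measure.real, ENNReal.ofReal_toReal (measure_ne_top _ _)]
  constructor
  · intro ε hε h0
    have h1 : ∀ᶠ e in 𝓝[>] (0 : ℝ), e < ε := by
      filter_upwards [Ioo_mem_nhdsGT hε] with e he using he.2
    obtain ⟨e, ⟨he0, hℓ, he⟩, heε⟩ := (hev.and h1).exists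
    have h2 : hh μ e ≤ hh μ ε := hh_mono μ heε.le
    rw [h0, he] at h2
    have h3 : 0 < ENNReal.ofReal (e ^ α * ℓ e) :=
      ENNReal.ofReal_pos.2 (mul_pos (Real.rpow_pos_of_pos he0 _) hℓ)
    exact absurd h2 (not_le.2 h3)
  · intro c hc
    have hc1 : Tendsto (fun ε : ℝ => c * ε) (𝓝[>] 0) (𝓝[>] 0) := by
      have h1 : Tendsto (fun ε : ℝ => c * ε) (𝓝[>] 0) (𝓝 0) := by
        have h2 : Tendsto (fun ε : ℝ => c * ε) (𝓝 0) (𝓝 (c * 0)) := by
          exact tendsto_id.const_mul c
        rw [mul_zero] at h2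
        exact h2.mono_left nhdsWithin_le_nhds
      refine tendsto_nhdsWithin_iff.2 ⟨h1, ?_⟩
      filter_upwards [self_mem_nhdsWithin] with ε hε
      exact mul_pos hc hε
    have hev2 := hc1.eventually hev
    have h3 : Tendsto (fun ε => ENNReal.ofReal (c ^ α * (ℓ (c * ε) / ℓ ε))) (𝓝[>] 0)
        (𝓝 (ENNReal.ofReal (c ^ α * 1))) := ENNReal.tendsto_ofReal ((hlim c hc).const_mul _)
    rw [mul_one] at h3
    refine h3.congr' ?_
    filter_upwards [hev, hev2] with ε h4 h5
    obtain ⟨h41, h42, h43⟩ := h4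
    obtain ⟨h51, h52, h53⟩ := h5
    rw [h43, h53, ← ENNReal.ofReal_div_of_pos (mul_pos (Real.rpow_pos_of_pos h41 _) h42)]
    congr 1
    rw [Real.mul_rpow hc.le h41.le]
    have := (Real.rpow_pos_of_pos h41 α).ne'
    field_simp

/-- Integral of the lifetime-discounted kernel. -/
theorem Admissible.lint {μ : Measure ℝ} {β γ α : ℝ} (h : Admissible μ β γ α) :
    ∫⁻ a in Ioi (0 : ℝ), lap μ γ a = ENNReal.ofReal ((∫ x, 1 / (1 - x) ∂μ) / γ) := by
  have := h.prob
  have hγ := h.γ_pos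
  rw [lintegral_lap_eq μ γ hγ h.supp]
  have h1 : ∀ᵐ y ∂μ, ENNReal.ofReal (1 / (γ * (1 - y))) =
      ENNReal.ofReal (1 / γ) * ENNReal.ofReal (1 / (1 - y)) := by
    refine Filter.Eventually.of_forall fun y => ?_
    rw [← ENNReal.ofReal_mul (by positivity)]
    congr 1
    rw [one_div_mul_one_div]
  rw [lintegral_congr_ae h1, lintegral_const_mul' _ _ ENNReal.ofReal_ne_top,
    ← ofReal_integral_eq_lintegral_ofReal h.integrable, ← ENNReal.ofReal_mul (by positivity)]
  · congr 1
    ring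
  · filter_upwards [h.supp] with y hy
    have : 0 < 1 - y := by linarith [hy.2]
    simp only [Pi.zero_apply]
    positivity

theorem Admissible.one_le_I {μ : Measure ℝ} {β γ α : ℝ} (h : Admissible μ β γ α) :
    1 ≤ ∫ x, 1 / (1 - x) ∂μ := by
  have := h.prob
  have h1 : ∫ _, (1 : ℝ) ∂μ ≤ ∫ x, 1 / (1 - x) ∂μ := by
    apply integral_mono_ae (integrable_const _) h.integrable
    filter_upwards [h.supp] with y hy
    have : 0 < 1 - y := by linarith [hy.2]
    rw [le_div_iff₀ this]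
    linarith [hy.1]
  simpa using h1

theorem Admissible.bm_eq {μ : Measure ℝ} {β γ α : ℝ} (h : Admissible μ β γ α) :
    bm μ β γ = ENNReal.ofReal (β * ((∫ x, 1 / (1 - x) ∂μ) - 1) / γ) := by
  have := h.prob
  have hγ := h.γ_pos
  have h1 := lintegral_lap_ker μ γ hγ h.supp
  rw [h.lint] at h1
  have hI := h.one_le_I
  set I := ∫ x, 1 / (1 - x) ∂μ with hIdef
  have h2 : (∫⁻ a in Ioi (0 : ℝ), ker μ γ a) = ENNReal.ofReal ((I - 1) / γ) := by
    have h3 : ENNReal.ofReal (I / γ) = ENNReal.ofReal ((I - 1) / γ) + ENNReal.ofReal (1 / γ) := by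
      rw [← ENNReal.ofReal_add (div_nonneg (by linarith) hγ.le) (by positivity)]
      congr 1
      ring
    rw [h3] at h1
    exact ((ENNReal.add_left_inj ENNReal.ofReal_ne_top).1 h1).symm
  unfold bm
  rw [h2, ← ENNReal.ofReal_mul h.β_pos.le]
  congr 1
  ring

theorem Admissible.omega_pos {μ : Measure ℝ} {β γ α : ℝ} (h : Admissible μ β γ α) :
    0 < omega μ β γ := by
  unfold omega
  linarith [h.cond]

theorem Admissible.sub_bm {μ : Measure ℝ} {β γ α : ℝ} (h : Admissible μ β γ α) :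
    1 - β * ((∫ x, 1 / (1 - x) ∂μ) - 1) / γ = (β + γ) / γ * omega μ β γ := by
  have hγ := h.γ_pos
  have hβ := h.β_pos
  unfold omega
  field_simp
  ring

theorem Admissible.bm_lt {μ : Measure ℝ} {β γ α : ℝ} (h : Admissible μ β γ α) :
    bm μ β γ < 1 := by
  have hγ := h.γ_pos
  have hβ := h.β_pos
  have hω := h.omega_pos
  rw [h.bm_eq, ← ENNReal.ofReal_one, ENNReal.ofReal_lt_ofReal_iff one_pos]
  have h1 := h.sub_bm
  have h2 : 0 < (β + γ) / γ * omega μ β γ := by positivity
  linarith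

theorem Admissible.one_sub_bm {μ : Measure ℝ} {β γ α : ℝ} (h : Admissible μ β γ α) :
    1 - bm μ β γ = ENNReal.ofReal ((β + γ) / γ * omega μ β γ) := by
  have hγ := h.γ_pos
  have hβ := h.β_pos
  have hI := h.one_le_I
  rw [h.bm_eq, ← ENNReal.ofReal_one, ← ENNReal.ofReal_sub, h.sub_bm]
  exact div_nonneg (mul_nonneg hβ.le (by linarith)) hγ.le

theorem Admissible.inv_bm {μ : Measure ℝ} {β γ α : ℝ} (h : Admissible μ β γ α) :
    (1 - bm μ β γ)⁻¹ = ENNReal.ofReal (((β + γ) / γ * omega μ β γ)⁻¹) := by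
  have hγ := h.γ_pos
  have hβ := h.β_pos
  have hω := h.omega_pos
  rw [h.one_sub_bm, ENNReal.ofReal_inv_of_pos (by positivity)]

theorem Admissible.Llim_eq {μ : Measure ℝ} {β γ α : ℝ} (h : Admissible μ β γ α) :
    (Llim μ β γ).toReal = ((β + γ) / γ * omega μ β γ)⁻¹ / omega μ β γ := by
  have hγ := h.γ_pos
  have hβ := h.β_pos
  have hω := h.omega_pos
  have hI := h.one_le_I
  unfold Llim
  rw [h.inv_bm, h.lint]
  have hI' : omega μ β γ = 1 - β / (β + γ) * ∫ x, 1 / (1 - x) ∂μ := rfl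
  set I := ∫ x, 1 / (1 - x) ∂μ with hIdef
  set D := (β + γ) / γ * omega μ β γ with hD
  have hD0 : 0 < D := by positivity
  rw [← ENNReal.ofReal_mul (by positivity), ← ENNReal.ofReal_mul hβ.le, ← ENNReal.ofReal_one,
    ← ENNReal.ofReal_add zero_le_one (by positivity), ← ENNReal.ofReal_mul (by positivity),
    ENNReal.toReal_ofReal (by positivity)]
  have h2 : 1 + β * (D⁻¹ * (I / γ)) = (omega μ β γ)⁻¹ := by
    have h3 : D * omega μ β γ + β * (I / γ) * omega μ β γ = D := by
      rw [hD, hI']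
      field_simp
      ring
    field_simp
    field_simp at h3
    linarith
  rw [h2]
  field_simp

/-- The normalization of the limiting profile. -/
theorem Gd_toReal {γ α : ℝ} (hγ : 0 < γ) (hα : 0 < α) :
    (Gd γ α).toReal = Real.Gamma (α + 1) / γ ^ α := by
  have h1 : (Gd γ α).toReal = ∫ w in Ioi (0 : ℝ), γ * Real.exp (-(γ * w)) * w ^ α := by
    unfold Gd
    rw [integral_eq_lintegral_of_nonneg_ae]
    · congr 1
      refine setLIntegral_congr_fun measurableSet_Ioi fun w hw => ?_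
      rw [← ENNReal.ofReal_mul (by positivity)]
    · filter_upwards [ae_restrict_mem measurableSet_Ioi] with w hw
      have : (0 : ℝ) < w := hw
      simp only [Pi.zero_apply]
      positivity
    · apply Measurable.aestronglyMeasurable
      fun_prop
  have h2 := Real.integral_rpow_mul_exp_neg_mul_Ioi (a := α + 1) (r := γ) (by linarith) hγ
  rw [h1]
  have h3 : ∀ w : ℝ, γ * Real.exp (-(γ * w)) * w ^ α =
      γ * (w ^ (α + 1 - 1) * Real.exp (-(γ * w))) := fun w => by
    rw [add_sub_cancel_right]; ring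
  simp only [h3]
  rw [integral_const_mul, h2, one_div, Real.inv_rpow hγ.le, Real.rpow_add hγ, Real.rpow_one]
  field_simp

theorem ofReal_min_rpow {α : ℝ} (hα : 0 < α) (w x : ℝ) (hw : 0 < w) (hx : 0 < x) :
    ENNReal.ofReal ((min w x) ^ α) =
      ∫⁻ s in Ioc (0 : ℝ) (min w x), ENNReal.ofReal (α * s ^ (α - 1)) := by
  have hm : 0 < min w x := lt_min hw hx
  have h1 : ∫ s in (0 : ℝ)..(min w x), α * s ^ (α - 1) = (min w x) ^ α := by
    rw [intervalIntegral.integral_const_mul, integral_rpow (Or.inl (by linarith)),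
      sub_add_cancel, Real.zero_rpow hα.ne', sub_zero]
    field_simp
  have h2 : IntervalIntegrable (fun s : ℝ => α * s ^ (α - 1)) volume 0 (min w x) :=
    (intervalIntegral.intervalIntegrable_rpow' (by linarith)).const_mul α
  rw [← h1, intervalIntegral.integral_of_le hm.le, ofReal_integral_eq_lintegral_ofReal]
  · exact (intervalIntegrable_iff_integrableOn_Ioc_of_le hm.le).1 h2
  · filter_upwards [ae_restrict_mem measurableSet_Ioc] with s hs
    have : 0 < s := hs.1
    simp only [Pi.zero_apply]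
    positivity

theorem Gn_eq {γ α : ℝ} (hγ : 0 < γ) (hα : 0 < α) (x : ℝ) (hx : 0 < x) :
    Gn γ α x = ∫⁻ s in Ioc (0 : ℝ) x, ENNReal.ofReal (α * s ^ (α - 1) * Real.exp (-(γ * s))) := by
  unfold Gn
  have h1 : ∀ w ∈ Ioi (0 : ℝ), ENNReal.ofReal (γ * Real.exp (-(γ * w))) *
      ENNReal.ofReal ((min w x) ^ α) = ∫⁻ s in Ioc (0 : ℝ) x,
        {p : ℝ × ℝ | p.2 ≤ p.1}.indicator (fun p => ENNReal.ofReal (γ * Real.exp (-(γ * p.1))) *
          ENNReal.ofReal (α * p.2 ^ (α - 1))) (w, s) := by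
    intro w hw
    rw [ofReal_min_rpow hα w x hw hx, ← lintegral_const_mul' _ _ ENNReal.ofReal_ne_top,
      ← lintegral_indicator measurableSet_Ioc, ← lintegral_indicator measurableSet_Ioc]
    refine lintegral_congr fun s => ?_
    by_cases h2 : s ∈ Ioc 0 (min w x)
    · rw [indicator_of_mem h2, indicator_of_mem (show s ∈ Ioc 0 x from
        ⟨h2.1, h2.2.trans (min_le_right _ _)⟩), indicator_of_mem]
      exact h2.2.trans (min_le_left _ _)
    · rw [indicator_of_notMem h2]
      symm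
      by_cases h3 : s ∈ Ioc 0 x
      · rw [indicator_of_mem h3, indicator_of_notMem]
        intro h4
        exact h2 ⟨h3.1, le_min h4 h3.2⟩
      · rw [indicator_of_notMem h3]
  rw [setLIntegral_congr_fun measurableSet_Ioi h1]
  have hmeas : Measurable fun p : ℝ × ℝ =>
      {p : ℝ × ℝ | p.2 ≤ p.1}.indicator (fun p => ENNReal.ofReal (γ * Real.exp (-(γ * p.1))) *
          ENNReal.ofReal (α * p.2 ^ (α - 1))) p :=
    Measurable.indicator (by fun_prop) (measurableSet_le measurable_snd measurable_fst)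
  rw [lintegral_lintegral_swap hmeas.aemeasurable]
  refine setLIntegral_congr_fun measurableSet_Ioc fun s hs => ?_
  have hs0 : 0 < s := hs.1
  have h2 : ∀ w, {p : ℝ × ℝ | p.2 ≤ p.1}.indicator (fun p =>
      ENNReal.ofReal (γ * Real.exp (-(γ * p.1))) * ENNReal.ofReal (α * p.2 ^ (α - 1))) (w, s) =
      (Ici s).indicator (fun w => ENNReal.ofReal (γ * Real.exp (-(γ * w)))) w *
        ENNReal.ofReal (α * s ^ (α - 1)) := by
    intro w
    by_cases h3 : s ≤ w
    · rw [indicator_of_mem (show w ∈ Ici s from h3), indicator_of_mem]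
      exact h3
    · rw [indicator_of_notMem (show w ∉ Ici s from h3), indicator_of_notMem, zero_mul]
      exact h3
  beta_reduce
  simp only [h2]
  rw [lintegral_mul_const' _ _ ENNReal.ofReal_ne_top, ← lintegral_indicator measurableSet_Ioi]
  have h3 : ∀ w : ℝ, (Ioi (0 : ℝ)).indicator (fun w => (Ici s).indicator
      (fun w => ENNReal.ofReal (γ * Real.exp (-(γ * w)))) w) w =
      (Ici s).indicator (fun w => ENNReal.ofReal (γ * Real.exp (-(γ * w)))) w := by
    intro w
    by_cases h4 : w ∈ Ici s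
    · rw [indicator_of_mem (show w ∈ Ioi (0 : ℝ) from lt_of_lt_of_le hs0 h4)]
    · rw [indicator_of_notMem h4]
      by_cases h5 : w ∈ Ioi (0 : ℝ)
      · rw [indicator_of_mem h5, indicator_of_notMem h4]
      · rw [indicator_of_notMem h5]
  rw [lintegral_congr h3, lintegral_indicator measurableSet_Ici,
    setLIntegral_congr Ioi_ae_eq_Ici.symm, lintegral_exp_Ioi γ s hγ,
    ← ENNReal.ofReal_mul (Real.exp_pos _).le]
  congr 1
  ring

theorem Gn_toReal {γ α : ℝ} (hγ : 0 < γ) (hα : 0 < α) (x : ℝ) (hx : 0 < x) :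
    (Gn γ α x).toReal = ∫ s in (0 : ℝ)..x, α * s ^ (α - 1) * Real.exp (-(γ * s)) := by
  rw [Gn_eq hγ hα x hx, intervalIntegral.integral_of_le hx.le, integral_eq_lintegral_of_nonneg_ae]
  · filter_upwards [ae_restrict_mem measurableSet_Ioc] with s hs
    have : 0 < s := hs.1
    simp only [Pi.zero_apply]
    positivity
  · apply Measurable.aestronglyMeasurable
    fun_prop

theorem G_eq {γ α : ℝ} (hγ : 0 < γ) (hα : 0 < α) (x : ℝ) (hx : 0 < x) :
    (Gn γ α x / Gd γ α).toReal = trueProfile γ α x := by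
  rw [ENNReal.toReal_div, Gn_toReal hγ hα x hx, Gd_toReal hγ hα]
  unfold trueProfile
  have h1 : ∀ s : ℝ, γ ^ α * s ^ (α - 1) * Real.exp (-(γ * s)) / Real.Gamma α =
      (γ ^ α / (α * Real.Gamma α)) * (α * s ^ (α - 1) * Real.exp (-(γ * s))) := by
    intro s
    have := (Real.Gamma_pos_of_pos hα).ne'
    field_simp
  simp only [h1]
  rw [intervalIntegral.integral_const_mul, Real.Gamma_add_one hα.ne']
  have := (Real.Gamma_pos_of_pos hα).ne'
  have h2 := (Real.rpow_pos_of_pos hγ α).ne'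
  field_simp

/-- **The law of large numbers for the condensation window.** -/
theorem windowLimit {μ : Measure ℝ} {β γ α : ℝ} (h : Admissible μ β γ α) (x : ℝ) (hx : 0 < x) :
    WindowLimit μ β γ x (omega μ β γ * trueProfile γ α x) := by
  intro e he
  have := h.prob
  have := h.params
  obtain ⟨c⟩ := exists_cst (β := β) (γ := γ) μ h.rvar h.one_lt h.supp h.bm_lt
  have h1 := conv_aux μ c h.rvar h.one_lt h.supp h.bm_lt x hx e he
  have hω := h.omega_pos
  have hγ := h.γ_pos
  have hβ := h.β_pos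
  have h2 : ((1 - bm μ β γ)⁻¹).toReal * (Gn γ α x / Gd γ α).toReal / (Llim μ β γ).toReal =
      omega μ β γ * trueProfile γ α x := by
    rw [h.Llim_eq, h.inv_bm, G_eq hγ (by linarith [h.one_lt]) x hx,
      ENNReal.toReal_ofReal (by positivity)]
    field_simp
  rw [h2] at h1
  exact h1

end Pool.Agent.H96.Cond
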