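import Mathlib
import Pool.Agent.H96.Cond.Ident

/-!
# The posed profile
-/

set_option autoImplicit false
set_option linter.unusedSectionVars false

open MeasureTheory ProbabilityTheory Set Filter Topology
open scoped ENNReal

namespace Pool.Agent.H96.Cond

/-- Limits in probability are unique. -/
theorem WindowLimit.unique {μ : Measure ℝ} [IsProbabilityMeasure μ] {β γ : ℝ} [Params β γ]
    {x a b : ℝ} (ha : WindowLimit μ β γ x a) (hb : WindowLimit μ β γ x b) : a = b := by
  by_contra hne
  have he : 0 < |a - b| / 3 := by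
    have : 0 < |a - b| := abs_pos.2 (sub_ne_zero.2 hne)
    linarith
  have h1 := (ha _ he).add (hb _ he)
  rw [add_zero] at h1
  have h2 : ∀ t : ℝ, (1 : ℝ≥0∞) ≤
      popLaw μ β γ {ω | |a - b| / 3 ≤ |Xi ω t (Ioo (1 - x / t) 1) - a|} +
      popLaw μ β γ {ω | |a - b| / 3 ≤ |Xi ω t (Ioo (1 - x / t) 1) - b|} := by
    intro t
    have h3 : (univ : Set Pop) ⊆ {ω | |a - b| / 3 ≤ |Xi ω t (Ioo (1 - x / t) 1) - a|} ∪
        {ω | |a - b| / 3 ≤ |Xi ω t (Ioo (1 - x / t) 1) - b|} := by
      intro ω _
      by_contra hcon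
      simp only [mem_union, mem_ofPred_eq, not_or, not_le] at hcon
      obtain ⟨h4, h5⟩ := hcon
      have h6 : |a - b| ≤ |Xi ω t (Ioo (1 - x / t) 1) - a| +
          |Xi ω t (Ioo (1 - x / t) 1) - b| := by
        rw [abs_sub_comm _ a]
        exact abs_sub_le _ _ _
      linarith
    calc (1 : ℝ≥0∞) = popLaw μ β γ univ := measure_univ.symm
      _ ≤ _ := measure_mono h3
      _ ≤ _ := measure_union_le _ _
  have h4 := ge_of_tendsto' h1 h2
  exact absurd h4 (by simp)

/-- The right density. -/
noncomputable def dp (γ α s : ℝ) : ℝ := γ ^ α * s ^ (α - 1) * Real.exp (-(γ * s)) / Real.Gamma α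

/-- The posed density. -/
noncomputable def dq (α s : ℝ) : ℝ := s ^ α * Real.exp (-s) / Real.Gamma (1 + α)

/-- The difference of the distribution functions. -/
noncomputable def dD (γ α x : ℝ) : ℝ := trueProfile γ α x - posedProfile α x

section

variable {γ α : ℝ}

theorem continuous_dp (hα : 1 < α) : Continuous (dp γ α) := by
  unfold dp
  have h1 : Continuous fun s : ℝ => s ^ (α - 1) :=
    Real.continuous_rpow_const (by linarith)
  fun_prop

theorem continuous_dq (hα : 1 < α) : Continuous (dq α) := by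
  unfold dq
  have h1 : Continuous fun s : ℝ => s ^ α :=
    Real.continuous_rpow_const (by linarith)
  fun_prop

theorem hasDerivAt_dD (hα : 1 < α) (x : ℝ) : HasDerivAt (dD γ α) (dp γ α x - dq α x) x := by
  unfold dD
  have h1 : HasDerivAt (trueProfile γ α) (dp γ α x) x :=
    intervalIntegral.integral_hasDerivAt_right
      ((continuous_dp hα).intervalIntegrable _ _)
      ((continuous_dp hα).stronglyMeasurableAtFilter _ _) (continuous_dp hα).continuousAt
  have h2 : HasDerivAt (posedProfile α) (dq α x) x :=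
    intervalIntegral.integral_hasDerivAt_right
      ((continuous_dq hα).intervalIntegrable _ _)
      ((continuous_dq hα).stronglyMeasurableAtFilter _ _) (continuous_dq hα).continuousAt
  exact h1.sub h2

theorem continuous_dD (hα : 1 < α) : Continuous (dD γ α) :=
  continuous_iff_continuousAt.2 fun x => (hasDerivAt_dD hα x).continuousAt

theorem dD_zero : dD γ α 0 = 0 := by
  unfold dD trueProfile posedProfile
  simp

theorem integral_dp (hγ : 0 < γ) (hα : 1 < α) : ∫ s in Ioi (0 : ℝ), dp γ α s = 1 := by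
  have h2 := Real.integral_rpow_mul_exp_neg_mul_Ioi (a := α) (r := γ) (by linarith) hγ
  have h3 : ∀ s, dp γ α s = (γ ^ α / Real.Gamma α) * (s ^ (α - 1) * Real.exp (-(γ * s))) :=
    fun s => by unfold dp; ring
  simp only [h3]
  rw [integral_const_mul, h2, one_div, Real.inv_rpow hγ.le]
  have h4 := (Real.rpow_pos_of_pos hγ α).ne'
  have h5 := (Real.Gamma_pos_of_pos (show 0 < α by linarith)).ne'
  field_simp

theorem integral_dq (hα : 1 < α) : ∫ s in Ioi (0 : ℝ), dq α s = 1 := by
  have h2 := Real.integral_rpow_mul_exp_neg_mul_Ioi (a := 1 + α) (r := 1) (by linarith) one_pos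
  have h3 : ∀ s, dq α s = (1 / Real.Gamma (1 + α)) * (s ^ (1 + α - 1) * Real.exp (-(1 * s))) :=
    fun s => by unfold dq; rw [add_sub_cancel_left, one_mul]; ring
  simp only [h3]
  rw [integral_const_mul, h2]
  have h5 := (Real.Gamma_pos_of_pos (show 0 < 1 + α by linarith)).ne'
  simp only [div_one, Real.one_rpow, one_mul]
  field_simp

theorem tendsto_dD (hγ : 0 < γ) (hα : 1 < α) : Tendsto (dD γ α) atTop (𝓝 0) := by
  have i1 : IntegrableOn (dp γ α) (Ioi 0) := integrable_of_integral_eq_one (integral_dp hγ hα)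
  have i2 : IntegrableOn (dq α) (Ioi 0) := integrable_of_integral_eq_one (integral_dq hα)
  have h1 := intervalIntegral_tendsto_integral_Ioi 0 i1 tendsto_id
  have h2 := intervalIntegral_tendsto_integral_Ioi 0 i2 tendsto_id
  rw [integral_dp hγ hα] at h1
  rw [integral_dq hα] at h2
  have h3 := h1.sub h2
  rw [sub_self] at h3
  exact h3

/-- The ratio of the densities. -/
theorem dq_eq (hγ : 0 < γ) (hα : 1 < α) (s : ℝ) (hs : 0 < s) :
    dq α s = dp γ α s * (s * Real.exp (-((1 - γ) * s)) / (α * γ ^ α)) := by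
  unfold dq dp
  have h5 := (Real.Gamma_pos_of_pos (show 0 < α by linarith)).ne'
  have h4 := (Real.rpow_pos_of_pos hγ α).ne'
  have h6 : s ^ α = s ^ (α - 1) * s := by
    rw [← Real.rpow_add_one hs.ne', sub_add_cancel]
  have h7 : Real.exp (-s) = Real.exp (-(γ * s)) * Real.exp (-((1 - γ) * s)) := by
    rw [← Real.exp_add]; congr 1; ring
  rw [add_comm 1 α, Real.Gamma_add_one (by linarith), h6, h7]
  field_simp

theorem dp_pos (hγ : 0 < γ) (hα : 1 < α) (s : ℝ) (hs : 0 < s) : 0 < dp γ α s := by
  unfold dp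
  have h5 := (Real.Gamma_pos_of_pos (show 0 < α by linarith))
  positivity

theorem dq_lt_iff (hγ : 0 < γ) (hα : 1 < α) (s : ℝ) (hs : 0 < s) :
    dq α s < dp γ α s ↔ s * Real.exp (-((1 - γ) * s)) < α * γ ^ α := by
  have h1 := dp_pos hγ hα s hs
  have h2 : 0 < α * γ ^ α := by have := Real.rpow_pos_of_pos hγ α; positivity
  rw [dq_eq hγ hα s hs]
  constructor
  · intro h
    have h3 : s * Real.exp (-((1 - γ) * s)) / (α * γ ^ α) < 1 := by
      by_contra hcon
      push Not at hcon
      have := le_mul_of_one_le_right h1.le hcon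
      linarith
    rwa [div_lt_one h2] at h3
  · intro h
    have h3 : s * Real.exp (-((1 - γ) * s)) / (α * γ ^ α) < 1 := (div_lt_one h2).2 h
    exact mul_lt_of_lt_one_right h1 h3

theorem dp_lt_iff (hγ : 0 < γ) (hα : 1 < α) (s : ℝ) (hs : 0 < s) :
    dp γ α s < dq α s ↔ α * γ ^ α < s * Real.exp (-((1 - γ) * s)) := by
  have h1 := dp_pos hγ hα s hs
  have h2 : 0 < α * γ ^ α := by have := Real.rpow_pos_of_pos hγ α; positivity
  rw [dq_eq hγ hα s hs]
  constructor
  · intro h
    have h3 : 1 < s * Real.exp (-((1 - γ) * s)) / (α * γ ^ α) := by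
      by_contra hcon
      push Not at hcon
      have := mul_le_of_le_one_right h1.le hcon
      linarith
    rwa [one_lt_div h2] at h3
  · intro h
    have h3 : 1 < s * Real.exp (-((1 - γ) * s)) / (α * γ ^ α) := (one_lt_div h2).2 h
    exact lt_mul_of_one_lt_right h1 h3

/-- For small `x` the right profile is larger. -/
theorem dD_pos_small (hγ : 0 < γ) (hγ1 : γ ≤ 1) (hα : 1 < α) (x : ℝ) (hx : 0 < x)
    (hx1 : x ≤ α * γ ^ α) : 0 < dD γ α x := by
  have hmono : StrictMonoOn (dD γ α) (Icc 0 x) := by
    apply strictMonoOn_of_deriv_pos (convex_Icc _ _) (continuous_dD hα).continuousOn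
    intro s hs
    rw [interior_Icc] at hs
    rw [(hasDerivAt_dD hα s).deriv, sub_pos, dq_lt_iff hγ hα s hs.1]
    have h1 : Real.exp (-((1 - γ) * s)) ≤ 1 := by
      rw [Real.exp_le_one_iff]
      have := mul_nonneg (show 0 ≤ 1 - γ by linarith) hs.1.le
      linarith
    calc s * Real.exp (-((1 - γ) * s)) ≤ s * 1 := mul_le_mul_of_nonneg_left h1 hs.1.le
      _ = s := mul_one s
      _ < α * γ ^ α := lt_of_lt_of_le hs.2 hx1
  have h2 := hmono (left_mem_Icc.2 hx.le) (right_mem_Icc.2 hx.le) hx
  rwa [dD_zero] at h2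

/-- With `γ = 1` the right profile is larger everywhere. -/
theorem dD_pos_one (hα : 1 < α) (x : ℝ) (hx : 0 < x) : 0 < dD 1 α x := by
  rcases le_total x α with h | h
  · exact dD_pos_small one_pos le_rfl hα x hx (by rw [Real.one_rpow, mul_one]; exact h)
  · have hanti : StrictAntiOn (dD 1 α) (Ici x) := by
      apply strictAntiOn_of_deriv_neg (convex_Ici _) (continuous_dD hα).continuousOn
      intro s hs
      rw [interior_Ici] at hs
      have hs' : x < s := hs
      rw [(hasDerivAt_dD hα s).deriv, sub_neg, dp_lt_iff one_pos hα s (hx.trans hs')]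
      rw [Real.one_rpow, mul_one, sub_self, zero_mul, neg_zero, Real.exp_zero, mul_one]
      linarith
    have h1 : dD 1 α (x + 1) < dD 1 α x :=
      hanti (self_mem_Ici) (by simp only [mem_Ici]; linarith) (by linarith)
    have h2 : 0 ≤ dD 1 α (x + 1) := by
      refine le_of_tendsto (tendsto_dD one_pos hα) ?_
      filter_upwards [eventually_gt_atTop (x + 1)] with y hy
      exact (hanti (by simp only [mem_Ici]; linarith) (by simp only [mem_Ici]; linarith) hy).le
    linarith

/-- The two profiles coincide for at most one positive argument. -/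
theorem dD_zero_unique (hγ : 0 < γ) (hα : 1 < α) (x1 x2 : ℝ) (h1 : 0 < x1)
    (h12 : x1 < x2) (e1 : dD γ α x1 = 0) (e2 : dD γ α x2 = 0) : False := by
  obtain ⟨c1, hc1, z1⟩ := exists_hasDerivAt_eq_zero h1 (continuous_dD (γ := γ) hα).continuousOn
    (by rw [dD_zero, e1]) fun x _ => hasDerivAt_dD hα x
  obtain ⟨c2, hc2, z2⟩ := exists_hasDerivAt_eq_zero h12 (continuous_dD (γ := γ) hα).continuousOn
    (by rw [e1, e2]) fun x _ => hasDerivAt_dD hα x
  have hc10 : 0 < c1 := hc1.1
  have hc12 : c1 < c2 := hc1.2.trans hc2.1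
  have hc20 : 0 < c2 := hc10.trans hc12
  have hk : 0 < α * γ ^ α := by have := Real.rpow_pos_of_pos hγ α; positivity
  -- logarithmic form
  have hlog : ∀ s, 0 < s → dp γ α s - dq α s = 0 →
      Real.log s - (1 - γ) * s = Real.log (α * γ ^ α) := by
    intro s hs h0
    have h3 : s * Real.exp (-((1 - γ) * s)) = α * γ ^ α := by
      have hp := dq_lt_iff hγ hα s hs
      have hq := dp_lt_iff hγ hα s hs
      apply le_antisymm
      · by_contra hcon
        have := hq.2 (not_le.1 hcon)
        linarith
      · by_contra hcon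
        have := hp.2 (not_le.1 hcon)
        linarith
    rw [← h3, Real.log_mul hs.ne' (Real.exp_pos _).ne', Real.log_exp]
    ring
  have l1 := hlog c1 hc10 z1
  have l2 := hlog c2 hc20 z2
  -- after `c2` the right density is larger
  have hbig : ∀ s, c2 < s → dq α s < dp γ α s := by
    intro s hs
    have hs0 : 0 < s := hc20.trans hs
    rw [dq_lt_iff hγ hα s hs0]
    have h3 : Real.log s - (1 - γ) * s < Real.log (α * γ ^ α) := by
      have hw1 : 0 < (s - c2) / (s - c1) := div_pos (by linarith) (by linarith)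
      have hw2 : 0 < (c2 - c1) / (s - c1) := div_pos (by linarith) (by linarith)
      have hne : s - c1 ≠ 0 := by
        have : 0 < s - c1 := by linarith
        exact this.ne'
      have hw : (s - c2) / (s - c1) + (c2 - c1) / (s - c1) = 1 := by
        rw [← add_div, div_eq_one_iff_eq hne]; ring
      have h4 := strictConcaveOn_log_Ioi.2 (show c1 ∈ Ioi (0 : ℝ) from hc10)
        (show s ∈ Ioi (0 : ℝ) from hs0) (by linarith : c1 ≠ s) hw1 hw2 hw
      have h5 : ((s - c2) / (s - c1)) • c1 + ((c2 - c1) / (s - c1)) • s = c2 := by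
        simp only [smul_eq_mul]
        field_simp
        ring
      rw [h5] at h4
      simp only [smul_eq_mul] at h4
      set a := (s - c2) / (s - c1) with ha
      set b := (c2 - c1) / (s - c1) with hb
      simp only [smul_eq_mul] at h5
      have ha1 : a = 1 - b := by linarith
      have h6 : b * (Real.log s - (1 - γ) * s) < b * Real.log (α * γ ^ α) := by
        have e3 : Real.log c1 = Real.log (α * γ ^ α) + (1 - γ) * c1 := by linarith
        have e4 : Real.log c2 = Real.log (α * γ ^ α) + (1 - γ) * c2 := by linarith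
        rw [e3, e4, ← h5, ha1] at h4
        nlinarith
      exact lt_of_mul_lt_mul_left h6 hw2.le
    have h4 : Real.log (s * Real.exp (-((1 - γ) * s))) < Real.log (α * γ ^ α) := by
      rw [Real.log_mul hs0.ne' (Real.exp_pos _).ne', Real.log_exp]
      linarith
    exact (Real.log_lt_log_iff (mul_pos hs0 (Real.exp_pos _)) hk).1 h4
  have hmono : StrictMonoOn (dD γ α) (Ici x2) := by
    apply strictMonoOn_of_deriv_pos (convex_Ici _) (continuous_dD hα).continuousOn
    intro s hs
    rw [interior_Ici] at hs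
    have hs' : x2 < s := hs
    rw [(hasDerivAt_dD hα s).deriv, sub_pos]
    exact hbig s (hc2.2.trans hs')
  have k1 : dD γ α x2 < dD γ α (x2 + 1) :=
    hmono (self_mem_Ici) (by simp only [mem_Ici]; linarith) (by linarith)
  have k2 : dD γ α (x2 + 1) ≤ 0 := by
    refine ge_of_tendsto (tendsto_dD hγ hα) ?_
    filter_upwards [eventually_gt_atTop (x2 + 1)] with y hy
    exact (hmono (by simp only [mem_Ici]; linarith) (by simp only [mem_Ici]; linarith) hy).le
  linarith

/-- With `γ < 1` the two profiles coincide for some positive argument. -/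
theorem exists_dD_zero (hγ : 0 < γ) (hγ1 : γ < 1) (hα : 1 < α) :
    ∃ x, 0 < x ∧ dD γ α x = 0 := by
  have hk : 0 < α * γ ^ α := by have := Real.rpow_pos_of_pos hγ α; positivity
  have hlim : Tendsto (fun s : ℝ => s * Real.exp (-((1 - γ) * s))) atTop (𝓝 0) := by
    have h1 := tendsto_rpow_mul_exp_neg_mul_atTop_nhds_zero 1 (1 - γ) (by linarith)
    refine h1.congr fun s => ?_
    rw [Real.rpow_one, neg_mul]
  obtain ⟨A, hA⟩ := (hlim.eventually (gt_mem_nhds hk)).exists_forall_of_atTop
  set A' := max A (α * γ ^ α) with hA'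
  have hA0 : 0 < A' := lt_of_lt_of_le hk (le_max_right _ _)
  have hmono : StrictMonoOn (dD γ α) (Ici A') := by
    apply strictMonoOn_of_deriv_pos (convex_Ici _) (continuous_dD hα).continuousOn
    intro s hs
    rw [interior_Ici] at hs
    have hs' : A' < s := hs
    rw [(hasDerivAt_dD hα s).deriv, sub_pos, dq_lt_iff hγ hα s (hA0.trans hs')]
    exact hA s ((le_max_left _ _).trans hs'.le)
  have k1 : dD γ α A' < dD γ α (A' + 1) :=
    hmono (self_mem_Ici) (by simp only [mem_Ici]; linarith) (by linarith)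
  have k2 : dD γ α (A' + 1) ≤ 0 := by
    refine ge_of_tendsto (tendsto_dD hγ hα) ?_
    filter_upwards [eventually_gt_atTop (A' + 1)] with y hy
    exact (hmono (by simp only [mem_Ici]; linarith) (by simp only [mem_Ici]; linarith) hy).le
  have k3 : 0 < dD γ α (α * γ ^ α) := dD_pos_small hγ hγ1.le hα _ hk le_rfl
  have k4 : α * γ ^ α ≤ A' := le_max_right _ _
  have k5 := intermediate_value_Icc' k4 (continuous_dD (γ := γ) hα).continuousOn
  obtain ⟨x, hx, hx0⟩ := k5 ⟨by linarith, k3.le⟩
  exact ⟨x, lt_of_lt_of_le hk hx.1, hx0⟩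

end

/-- The posed limit holds at `x` exactly when the two profiles coincide at `x`. -/
theorem posed_iff {μ : Measure ℝ} {β γ α : ℝ} (h : Admissible μ β γ α) (x : ℝ) (hx : 0 < x) :
    WindowLimit μ β γ x (omega μ β γ * posedProfile α x) ↔ dD γ α x = 0 := by
  have := h.prob
  have := h.params
  have h1 := windowLimit h x hx
  constructor
  · intro h2
    have h3 := h1.unique h2
    have h4 := mul_left_cancel₀ h.omega_pos.ne' h3
    unfold dD
    linarith
  · intro h2
    unfold dD at h2
    have h3 : posedProfile α x = trueProfile γ α x := by linarith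
    rw [h3]
    exact h1

end Pool.Agent.H96.Cond
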