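import Mathlib
import Pool.Agent.H96.Cond.Posed

/-!
# An admissible example, and finiteness of the population
-/

set_option autoImplicit false
set_option linter.unusedSectionVars false

open MeasureTheory ProbabilityTheory Set Filter Topology
open scoped ENNReal

namespace Pool.Agent.H96.Cond

open Classical in
/-- At every time the population is almost surely finite (and nonempty). -/
theorem pop_finite {μ : Measure ℝ} {β γ α : ℝ} (h : Admissible μ β γ α) (t : ℝ) (ht : 0 ≤ t) :
    ∀ᵐ ω ∂(popLaw μ β γ), 1 ≤ mass ω t univ ∧ mass ω t univ ≠ ⊤ := by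
  have := h.prob
  have := h.params
  obtain ⟨c⟩ := exists_cst (β := β) (γ := γ) μ h.rvar h.one_lt h.supp h.bm_lt
  have h1 : ∫⁻ ω, cmj γ (chi γ univ) t ω ∂(popLaw μ β γ) ≠ ⊤ := by
    rw [mean_cmj_chi μ h.supp univ MeasurableSet.univ]
    exact ne_top_of_le_ne_top (ENNReal.mul_ne_top ENNReal.ofReal_ne_top
      (lap_ne_top μ γ h.γ_pos.le h.supp t)) (c.hC t)
  have hχ := measurable_chi γ univ MeasurableSet.univ
  have hm : Measurable fun ω : Pop => cmj γ (chi γ univ) t ω :=
    (measurable_cmj γ (chi γ univ) hχ).comp (measurable_const.prodMk measurable_id)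
  filter_upwards [ae_lt_top hm h1] with ω hω
  constructor
  · unfold mass
    refine le_trans ?_ (ENNReal.le_tsum [])
    rw [if_pos ⟨trivial, ht, mem_univ _⟩]
    exact one_le_members _ _
  · intro htop
    rw [← mass_eq_cmj, htop, ENNReal.mul_top] at hω
    · exact absurd hω (lt_irrefl _)
    · rw [Ne, ENNReal.ofReal_eq_zero, not_le]
      exact Real.exp_pos _

/-- The law with density `3 (1 - y) ^ 2` on `(0, 1)`. -/
noncomputable def exLaw : Measure ℝ :=
  (volume.restrict (Ioo (0 : ℝ) 1)).withDensity fun y => ENNReal.ofReal (3 * (1 - y) ^ 2)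

theorem integral_cube (a : ℝ) : ∫ y in a..1, 3 * (1 - y) ^ 2 = (1 - a) ^ 3 := by
  have h : ∀ y ∈ uIcc a 1, HasDerivAt (fun y : ℝ => -(1 - y) ^ 3) (3 * (1 - y) ^ 2) y := by
    intro y _
    have h1 : HasDerivAt (fun y : ℝ => 1 - y) (-1) y := (hasDerivAt_id y).const_sub 1
    refine (h1.pow 3).neg.congr_deriv ?_
    norm_num
  rw [intervalIntegral.integral_eq_sub_of_hasDerivAt h
    (by apply Continuous.intervalIntegrable; fun_prop)]
  ring

theorem integral_lin : ∫ y in (0 : ℝ)..1, 3 * (1 - y) = 3 / 2 := by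
  have h : ∀ y ∈ uIcc (0 : ℝ) 1, HasDerivAt (fun y : ℝ => -(3 / 2 * (1 - y) ^ 2))
      (3 * (1 - y)) y := by
    intro y _
    have h1 : HasDerivAt (fun y : ℝ => 1 - y) (-1) y := (hasDerivAt_id y).const_sub 1
    refine ((h1.pow 2).const_mul (3 / 2)).neg.congr_deriv ?_
    norm_num
    ring
  rw [intervalIntegral.integral_eq_sub_of_hasDerivAt h
    (by apply Continuous.intervalIntegrable; fun_prop)]
  norm_num

theorem exLaw_apply (a : ℝ) (ha : 0 ≤ a) (ha1 : a ≤ 1) :
    exLaw (Ioo a 1) = ENNReal.ofReal ((1 - a) ^ 3) := by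
  unfold exLaw
  rw [withDensity_apply _ measurableSet_Ioo, Measure.restrict_restrict measurableSet_Ioo,
    inter_eq_left.2 (Ioo_subset_Ioo_left ha), ← integral_cube a,
    intervalIntegral.integral_of_le ha1, ofReal_integral_eq_lintegral_ofReal]
  · exact setLIntegral_congr Ioo_ae_eq_Ioc
  · have : IntervalIntegrable (fun y : ℝ => 3 * (1 - y) ^ 2) volume a 1 := by
      apply Continuous.intervalIntegrable; fun_prop
    exact (intervalIntegrable_iff_integrableOn_Ioc_of_le ha1).1 this
  · refine Filter.Eventually.of_forall fun y => ?_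
    simp only [Pi.zero_apply]
    positivity

theorem exLaw_supp : ∀ᵐ x ∂exLaw, 0 < x ∧ x < 1 := by
  unfold exLaw
  refine (withDensity_absolutelyContinuous _ _).ae_le ?_
  filter_upwards [ae_restrict_mem measurableSet_Ioo] with x hx
  exact ⟨hx.1, hx.2⟩

theorem exLaw_prob : IsProbabilityMeasure exLaw := by
  constructor
  have h1 : exLaw univ = exLaw (Ioo 0 1) := by
    apply measure_congr
    filter_upwards [exLaw_supp] with x hx
    apply propext
    exact ⟨fun _ => ⟨hx.1, hx.2⟩, fun _ => mem_univ x⟩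
  rw [h1, exLaw_apply 0 le_rfl zero_le_one]
  norm_num

theorem ex_pt (x : ℝ) (hx : x < 1) : (3 * (1 - x) ^ 2) * (1 / (1 - x)) = 3 * (1 - x) := by
  have h : 1 - x ≠ 0 := by
    have : 0 < 1 - x := by linarith
    exact this.ne'
  field_simp

theorem exLaw_integrable : Integrable (fun x : ℝ => 1 / (1 - x)) exLaw := by
  unfold exLaw
  rw [integrable_withDensity_iff_integrable_smul' (by fun_prop)
    (Filter.Eventually.of_forall fun _ => ENNReal.ofReal_lt_top)]
  have h1 : IntegrableOn (fun x : ℝ => 3 * (1 - x)) (Ioo 0 1) := by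
    have : IntervalIntegrable (fun y : ℝ => 3 * (1 - y)) volume 0 1 := by
      apply Continuous.intervalIntegrable; fun_prop
    exact ((intervalIntegrable_iff_integrableOn_Ioc_of_le zero_le_one).1 this).mono_set
      Ioo_subset_Ioc_self
  refine h1.congr ?_
  filter_upwards [ae_restrict_mem measurableSet_Ioo] with x hx
  rw [ENNReal.toReal_ofReal (by positivity), smul_eq_mul, ex_pt x hx.2]

theorem exLaw_integral : ∫ x, 1 / (1 - x) ∂exLaw = 3 / 2 := by
  unfold exLaw
  rw [integral_withDensity_eq_integral_toReal_smul (by fun_prop)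
    (Filter.Eventually.of_forall fun _ => ENNReal.ofReal_lt_top), ← integral_lin,
    intervalIntegral.integral_of_le zero_le_one, integral_Ioc_eq_integral_Ioo]
  refine setIntegral_congr_fun measurableSet_Ioo fun x hx => ?_
  rw [ENNReal.toReal_ofReal (by positivity), smul_eq_mul, ex_pt x hx.2]

/-- The assumptions are satisfied by the law with density `3 (1 - y) ^ 2` and `β = γ = 1/2`. -/
theorem exLaw_admissible : Admissible exLaw (1 / 2) (1 / 2) 3 where
  prob := exLaw_prob
  supp := exLaw_supp
  β_pos := by norm_num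
  β_le := by norm_num
  γ_pos := by norm_num
  γ_le := by norm_num
  one_le := by norm_num
  one_lt := by norm_num
  rv := by
    refine ⟨fun _ => 1, ⟨Filter.Eventually.of_forall fun _ => one_pos, fun c _ => ?_⟩, ?_⟩
    · simp
    · filter_upwards [Ioo_mem_nhdsGT (show (0 : ℝ) < 1 by norm_num)] with ε hε
      rw [Measure.real, exLaw_apply (1 - ε) (by linarith [hε.2]) (by linarith [hε.1]),
        ENNReal.toReal_ofReal (by rw [sub_sub_cancel]; exact pow_nonneg hε.1.le 3),
        sub_sub_cancel, mul_one]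
      norm_cast
  integrable := exLaw_integrable
  cond := by
    rw [exLaw_integral]
    norm_num

end Pool.Agent.H96.Cond
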