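import Mathlib
import Pool.Agent.H96.Cond.Example

/-!
# The final statement
-/

set_option autoImplicit false

open MeasureTheory ProbabilityTheory Filter Topology
open scoped ENNReal

namespace Pool.Agent.H96.Cond

theorem main :
    (∀ (μ : Measure ℝ) (β γ α : ℝ), Admissible μ β γ α →
      (∀ t : ℝ, 0 ≤ t → ∀ᵐ ω ∂(popLaw μ β γ), 1 ≤ mass ω t Set.univ ∧ mass ω t Set.univ ≠ ⊤) ∧
      (∀ x : ℝ, 0 < x → WindowLimit μ β γ x (omega μ β γ * trueProfile γ α x)) ∧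
      (∀ x : ℝ, 0 < x → (x ≤ α * γ ^ α ∨ γ = 1) →
        ¬ WindowLimit μ β γ x (omega μ β γ * posedProfile α x)) ∧
      (γ < 1 → ∃! x : ℝ, 0 < x ∧ WindowLimit μ β γ x (omega μ β γ * posedProfile α x))) ∧
    ∃ (μ : Measure ℝ) (β γ α : ℝ), Admissible μ β γ α := by
  refine ⟨fun μ β γ α h => ⟨fun t ht => pop_finite h t ht, fun x hx => windowLimit h x hx,
    fun x hx hc => ?_, fun hγ1 => ?_⟩, ⟨exLaw, 1 / 2, 1 / 2, 3, exLaw_admissible⟩⟩
  · rw [posed_iff h x hx]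
    rcases hc with hc | hc
    · exact (dD_pos_small h.γ_pos h.γ_le h.one_lt x hx hc).ne'
    · rw [hc]
      exact (dD_pos_one h.one_lt x hx).ne'
  · obtain ⟨x, hx, h0⟩ := exists_dD_zero h.γ_pos hγ1 h.one_lt
    refine ⟨x, ⟨hx, (posed_iff h x hx).2 h0⟩, ?_⟩
    rintro y ⟨hy, hy0⟩
    have hy1 := (posed_iff h y hy).1 hy0
    by_contra hne
    rcases lt_or_gt_of_ne hne with hlt | hlt
    · exact dD_zero_unique h.γ_pos h.one_lt y x hy hlt hy1 h0
    · exact dD_zero_unique h.γ_pos h.one_lt x y hx hlt h0 hy1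

end Pool.Agent.H96.Cond
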